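import Pool.Agent.Lib_MP_1209e6_ag.Defs

/-! Definition: divisors which are nowhere reduced on a variety (function field version). -/

set_option autoImplicit false

namespace Pool.Agent.TT
open MvPolynomial Pool.Agent.Campana

/-- `y_0, …, y_n` are homogeneous coordinates of a rational map from a variety with function field
`K` to `ℙⁿ`; the pull back of the hypersurface `P = 0` is nowhere reduced: at each place, the order
of `P(y)`, relative to the least order `c` of the coordinates, is not one. -/
def NowhereReduced {K : Type} [Field K] [Algebra ℂ K] {n : ℕ} (y : Fin (n + 1) → K)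
    (P : MvPolynomial (Fin (n + 1)) ℂ) : Prop :=
  ∀ O : ValuationSubring K, IsPlace O → ∀ v : K → ℤ, IsOrd O v → ∀ c : ℤ,
    (∀ i, c ≤ v (y i)) → (∃ i, v (y i) = c) → v (aeval y P) ≠ P.totalDegree * c + 1

end Pool.Agent.TT
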