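import Pool.Agent.Lib_MP_b9fedf_tt.PosF
import Pool.Agent.Lib_MP_b9fedf_tt.SpecialF
import Pool.Agent.Lib_MP_b9fedf_tt.DefsNR

/-! Varieties on which a union of many hypersurfaces with simple normal crossings is nowhere reduced
are not special. -/

set_option autoImplicit false

namespace Pool.Agent.TT
open MvPolynomial
open Pool.Agent.GGL Pool.Agent.GH Pool.Agent.Campana

/-- a member of a family with normal crossings is not zero -/
theorem snc_ne_zero {n : ℕ} {ι : Type} {b : ι → MvPolynomial (Fin (n + 1)) ℂ} (h : Snc b)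
    (i : ι) : b i ≠ 0 := by
  classical
  intro h0
  have h1 := h (Pi.single 0 1) (fun h2 => by
    have h3 := congrFun h2 0
    rw [Pi.single_eq_same] at h3
    exact one_ne_zero h3) {i} (by
      intro j hj
      rw [Finset.mem_singleton.1 hj, h0, map_zero])
  have h2 := h1.ne_zero ⟨i, Finset.mem_singleton_self i⟩
  apply h2
  funext j
  rw [h0, map_zero, map_zero]
  rfl

theorem three_le_choose {n d : ℕ} (hn : 2 ≤ n) (hd : 1 ≤ d) : 3 ≤ (n + d).choose d := by
  have e1 : (n + d).choose d = (n + d).choose n := Nat.choose_symm_add.symm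
  have e2 : (n + 1).choose n = n + 1 := by rw [Nat.choose_symm_add, Nat.choose_one_right]
  have e3 := Nat.choose_le_choose n (show n + 1 ≤ n + d by omega)
  omega

theorem special_of_snc {K : Type} [Field K] [Algebra ℂ K] {n d Q : ℕ} (hn : 1 ≤ n) (hd : 1 ≤ d)
    (b : Fin Q → MvPolynomial (Fin (n + 1)) ℂ) (hb : ∀ i, (b i).IsHomogeneous d)
    (hb0 : ∀ i, b i ≠ 0) (hs : Snc b) (hQ : 2 * d * (n + 1) * n < Q)
    (y : Fin (n + 1) → K) (hy0 : y 0 ≠ 0)
    (hy : AlgebraicIndependent ℂ (fun i : Fin n => y i.succ / y 0))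
    (hNR : NowhereReduced y (∏ i, b i)) : ¬ SpecialField K := by
  classical
  have hsq := squarefree_of_snc hn b hb hs
  have hdeg : ∀ i, (b i).totalDegree = d := fun i => (hb i).totalDegree (hb0 i)
  have hinj : Function.Injective b := by
    intro i j hij
    by_contra hne
    have h1 : b i * b i ∣ ∏ i, b i := by
      have h2 : ∏ l ∈ ({i, j} : Finset (Fin Q)), b l ∣ ∏ l, b l :=
        Finset.prod_dvd_prod_of_subset _ _ _ (Finset.subset_univ _)
      rw [Finset.prod_pair hne, ← hij] at h2
      exact h2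
    have h3 := hsq (b i) h1
    have h4 := hdeg i
    obtain ⟨c, hc⟩ := (MvPolynomial.isUnit_iff_eq_C_of_isReduced).1 h3
    rw [hc.2, totalDegree_C] at h4
    omega
  have hprod : ∏ P ∈ Finset.univ.image b, P = ∏ i, b i := by
    rw [Finset.prod_image (fun i _ j _ h => hinj h)]
  have hcard : (Finset.univ.image b).card = Q := by
    rw [Finset.card_image_of_injective _ hinj, Finset.card_univ, Fintype.card_fin]
  refine not_special_prod hn hd hn y hy0 hy (Finset.univ.image b) ?_ ?_ ?_ ?_ ?_
  · intro P hP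
    obtain ⟨i, -, rfl⟩ := Finset.mem_image.1 hP
    rw [hdeg i]
    exact ⟨hd, le_rfl, hb i⟩
  · rw [hprod]
    exact hsq
  · rw [hcard]
    exact hQ
  · intro x hx A hA hA0
    have h1 : A = (Finset.univ.filter fun i => b i ∈ A).image b := by
      ext P
      simp only [Finset.mem_image, Finset.mem_filter, Finset.mem_univ, true_and]
      constructor
      · intro hP
        obtain ⟨i, -, hi⟩ := Finset.mem_image.1 (hA hP)
        exact ⟨i, hi ▸ hP, hi⟩
      · rintro ⟨i, hi, rfl⟩
        exact hi
    rw [h1]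
    refine Finset.card_image_le.trans ?_
    refine card_le_of_snc hd b hb hs x hx _ ?_
    intro i hi
    exact hA0 _ (Finset.mem_filter.1 hi).2
  · rw [hprod]
    exact hNR

end Pool.Agent.TT
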