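import Pool.Agent.Lib_MP_b9fedf_tt.PosF
import Pool.Agent.Lib_MP_b9fedf_tt.SpecialG
import Pool.Agent.Lib_MP_b9fedf_tt.SpecialY
import Pool.Agent.Lib_MP_b9fedf_qy.RedBot

/-! Varieties over a subvariety of `ℙⁿ` on which a union of many hypersurfaces with normal crossings
is nowhere reduced are not special. -/

set_option autoImplicit false

namespace Pool.Agent.TT
open MvPolynomial
open Pool.Agent.GGL Pool.Agent.GH Pool.Agent.Campana Pool.Agent.QY

theorem snc_injective {n d Q : ℕ} (hn : 1 ≤ n) (hd : 1 ≤ d)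
    (b : Fin Q → MvPolynomial (Fin (n + 1)) ℂ) (hb : ∀ i, (b i).IsHomogeneous d)
    (hs : Snc b) : Function.Injective b := by
  classical
  have hsq := squarefree_of_snc hn b hb hs
  have hdeg : ∀ i, (b i).totalDegree = d := fun i => (hb i).totalDegree (snc_ne_zero hs i)
  intro i j hij
  by_contra hne
  have h1 : b i * b i ∣ ∏ i, b i := by
    have h2 : ∏ l ∈ ({i, j} : Finset (Fin Q)), b l ∣ ∏ l, b l :=
      Finset.prod_dvd_prod_of_subset _ _ _ (Finset.subset_univ _)
    rw [Finset.prod_pair hne, ← hij] at h2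
    exact h2
  have h3 := hsq (b i) h1
  have h4 := hdeg i
  obtain ⟨c, hc⟩ := (MvPolynomial.isUnit_iff_eq_C_of_isReduced).1 h3
  rw [hc.2, totalDegree_C] at h4
  omega

theorem special_of_snc_y {n d : ℕ} (hn : 1 ≤ n) (hd : 1 ≤ d)
    (q : Ideal (MvPolynomial (Fin (n + 1)) ℂ)) (hq : q.IsPrime) (hqh : HomI q) (htr : Tr q 2) :
    ∃ N : ℕ, ∀ Q, N ≤ Q → ∀ b : Fin Q → MvPolynomial (Fin (n + 1)) ℂ,
      (∀ i, (b i).IsHomogeneous d) → Snc b → RedOn q (∏ i, b i) →
      ∀ (K : Type) [Field K] [Algebra ℂ K] (y : Fin (n + 1) → K),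
        (∀ (d : ℕ) (Q : MvPolynomial (Fin (n + 1)) ℂ), Q.IsHomogeneous d →
          (aeval y Q = 0 ↔ Q ∈ q)) → NowhereReducedPl y (∏ i, b i) → ¬ SpecialField K := by
  classical
  obtain ⟨N, hN⟩ := not_special_y_tot n d n q hq hqh htr
  refine ⟨N + 1, fun Q hQ b hb hs hred K _ _ y hy hNR => ?_⟩
  have hinj := snc_injective hn hd b hb hs
  have hdeg : ∀ i, (b i).totalDegree = d := fun i => (hb i).totalDegree (snc_ne_zero hs i)
  have hprod : ∏ P ∈ Finset.univ.image b, P = ∏ i, b i := by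
    rw [Finset.prod_image (fun i _ j _ h => hinj h)]
  have hcard : (Finset.univ.image b).card = Q := by
    rw [Finset.card_image_of_injective _ hinj, Finset.card_univ, Fintype.card_fin]
  refine hN (Finset.univ.image b) ?_ ?_ ?_ ?_ K y hy ?_
  · intro P hP
    obtain ⟨i, -, rfl⟩ := Finset.mem_image.1 hP
    rw [hdeg i]
    refine ⟨hd, le_rfl, hb i, fun h => hred.1 ?_⟩
    exact Ideal.mem_of_dvd q (Finset.dvd_prod_of_mem b (Finset.mem_univ i)) h
  · rw [hprod]
    exact hred
  · intro x hx _ A hA hA0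
    have h1 : A = (Finset.univ.filter fun i => b i ∈ A).image b := by
      ext P
      simp only [Finset.mem_image, Finset.mem_filter, Finset.mem_univ, true_and]
      constructor
      · intro hP
        obtain ⟨i, -, hi⟩ := Finset.mem_image.1 (hA hP)
        exact ⟨i, hi ▸ hP, hi⟩
      · rintro ⟨i, hi, rfl⟩
        exact hi
    rw [h1]
    refine Finset.card_image_le.trans ?_
    refine card_le_of_snc hd b hb hs x hx _ ?_
    intro i hi
    exact hA0 _ (Finset.mem_filter.1 hi).2
  · rw [hcard]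
    omega
  · rw [hprod]
    exact hNR

end Pool.Agent.TT
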