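import Pool.Agent.Lib_MP_b9fedf_tt.LevelG
import Pool.Agent.Lib_MP_b9fedf_tt.DefsNRP
import Pool.Agent.Lib_MP_1209e6_yb.YBrody

/-! Varieties over a subvariety of `ℙⁿ` on which a union of many general hypersurfaces is nowhere
reduced are not Brody-special. -/

set_option autoImplicit false

namespace Pool.Agent.TT
open MvPolynomial
open Pool.Agent.GGL Pool.Agent.Stat Pool.Agent.LO Pool.Agent.LG Pool.Agent.SQ Pool.Agent.QY
open Pool.Agent.GH Pool.Agent.Campana Pool.Agent.YB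

theorem brody_of_tot_y {n d Q : ℕ} (hd : 1 ≤ d) (b : Fin Q → MvPolynomial (Fin (n + 1)) ℂ)
    (hb : ∀ i, (b i).IsHomogeneous d) (hb0 : ∀ i, b i ≠ 0) {C : ℝ} (hC : 0 ≤ C)
    (hQ : 4 * C < Q) (hT : Tot d (1 / 4) C b)
    {q : Ideal (MvPolynomial (Fin (n + 1)) ℂ)} (hq : q.IsPrime) (hqh : HomI q) (htr : Tr q 2)
    (hbq : ∏ i, b i ∉ q)
    {m : ℕ} (P : Ideal (MvPolynomial (Fin (m + 1)) ℂ)) [P.IsPrime] (hP : IsVariety P)
    (y : Fin (n + 1) → FunField P)
    (hyq : ∀ (d : ℕ) (Q : MvPolynomial (Fin (n + 1)) ℂ), Q.IsHomogeneous d →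
      (aeval y Q = 0 ↔ Q ∈ q)) (hNR : NowhereReducedPl y (∏ i, b i)) : ¬ BrodySpecial P := by
  obtain ⟨η, ⟨hQ1, hη⟩, hL⟩ := param_of_tot b hb hb0 hC hQ hT
  obtain ⟨hdeg, hhom, -⟩ := prod_degree_forms b hb hb0
  have hLq : LevelOne η q {∏ i, b i} (∏ i, b i) := by
    intro f hf hf0 _ hZ hnc
    exact hL f hf hf0 (fun g hg z => by
      rw [Ideal.mem_bot] at hg
      rw [hg, map_zero]) hZ hnc
  refine not_brody_y (M := 1) (by push_cast; linarith) hq hqh htr {∏ i, b i}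
    (Finset.singleton_nonempty _) ?_ ?_ (∏ i, b i) hbq hhom ?_ hLq P hP y hyq ?_
  · intro P hP
    rw [Finset.mem_singleton] at hP
    rw [hP, hdeg]
    exact ⟨Nat.mul_pos hQ1 hd, hhom, hbq⟩
  · intro x _ _ A hA _
    have h1 := Finset.card_le_card hA
    rwa [Finset.card_singleton] at h1
  · intro P hP
    rw [Finset.mem_singleton] at hP
    rw [hP]
  · intro O hO v hv c hc hc' hle P hP
    rw [Finset.mem_singleton] at hP
    have h1 := hle _ (Finset.mem_singleton_self _)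
    have h2 := hNR O hO v hv c hc hc'
    rw [hP]
    omega

/-- If `P(y)` is an `e`-th power, `e ≥ 2`, `e ∣ deg P`, then the pull back of `P = 0` is nowhere
reduced. -/
theorem nowhere_of_power_pl {K : Type} [Field K] [Algebra ℂ K] {n e : ℕ} (he : 2 ≤ e)
    (y : Fin (n + 1) → K) (P : MvPolynomial (Fin (n + 1)) ℂ) (heD : e ∣ P.totalDegree)
    (hne : aeval y P ≠ 0) (w : K) (hw : w ^ e = aeval y P) : NowhereReducedPl y P := by
  intro O _ v hv c _ _ hord
  have hw0 : w ≠ 0 := by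
    rintro rfl
    rw [zero_pow (by omega)] at hw
    exact hne hw.symm
  have h1 : v 1 = 0 := by
    have := hv.1 1 1 one_ne_zero one_ne_zero
    rw [one_mul] at this
    omega
  have hpow : ∀ k : ℕ, v (w ^ k) = k * v w := by
    intro k
    induction k with
    | zero => rw [pow_zero, h1]; simp
    | succ k ih =>
      rw [pow_succ, hv.1 _ _ (pow_ne_zero _ hw0) hw0, ih]
      push_cast
      ring
  rw [← hw, hpow] at hord
  obtain ⟨q, hq⟩ := heD
  rw [hq] at hord
  have h2 : (e : ℤ) * (v w - q * c) = 1 := by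
    push_cast at hord
    linear_combination hord
  have h3 : (e : ℤ) ∣ 1 := ⟨_, h2.symm⟩
  have h4 : (e : ℤ) ≤ 1 := Int.le_of_dvd one_pos h3
  omega

end Pool.Agent.TT
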