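import Pool.Agent.Lib_MP_b9fedf_tt.LevelF
import Pool.Agent.Lib_MP_b9fedf_st.Final2

/-! [TT-F5]: cyclic covers. -/

set_option autoImplicit false

namespace Pool.Agent.TT
open MvPolynomial
open Pool.Agent.GGL Pool.Agent.Stat Pool.Agent.LO Pool.Agent.LG Pool.Agent.SQ Pool.Agent.QY
open Pool.Agent.GH Pool.Agent.Campana

/-- [TT-F5a] The cyclic cover `w ^ e * x_0 ^ (D - e) = P(x)`, `D = deg P`, `e ∣ D`, `e ≥ 2`: along an arc, the order of the right side is
`e * ord w + (D - e) * ord x_0`, divisible by `e`, and so is `D * c`. -/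
theorem multiple_cyclic_form {n D e : ℕ} (he : 2 ≤ e) (heD : e ∣ D) (hD : 1 ≤ D)
    (P : MvPolynomial (Fin (n + 1)) ℂ) (hP : P.totalDegree = D) :
    MultipleForm {X (Fin.last (n + 1)) ^ e * X 0 ^ (D - e) - rename Fin.castSucc P}
      (fun l : Fin (n + 1) => (X l.castSucc : MvPolynomial (Fin (n + 1 + 1)) ℂ)) P := by
  intro u hu hu0 hS c _ _ hord
  rw [hP] at hord
  have huc : ∀ j, AnalyticAt ℂ (fun ζ => u ζ j) 0 := fun j => analyticAt_pi_iff.1 hu j
  have h1 : (fun ζ => eval (u ζ) (aeval (fun l : Fin (n + 1) =>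
      (X l.castSucc : MvPolynomial (Fin (n + 1 + 1)) ℂ)) P)) =ᶠ[nhds 0]
      (fun ζ => u ζ (Fin.last (n + 1))) ^ e * (fun ζ => u ζ 0) ^ (D - e) := by
    filter_upwards [hS] with ζ hζ
    have h2 := hζ _ (Set.mem_singleton _)
    rw [map_sub, map_mul, map_pow, map_pow, eval_X, eval_X, sub_eq_zero] at h2
    have h3 : aeval (fun l : Fin (n + 1) => (X l.castSucc : MvPolynomial (Fin (n + 1 + 1)) ℂ))
        P = rename Fin.castSucc P := by
      rw [rename_eq_aeval]
      rfl
    rw [h3, ← h2]
    rfl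
  rw [analyticOrderAt_congr h1, analyticOrderAt_mul ((huc _).pow _) ((huc _).pow _),
    analyticOrderAt_pow (huc _), analyticOrderAt_pow (huc _)] at hord
  have hDe : e ∣ D - e := Nat.dvd_sub heD dvd_rfl
  obtain ⟨q, hq⟩ := heD
  obtain ⟨q', hq'⟩ := hDe
  generalize analyticOrderAt (fun ζ => u ζ (Fin.last (n + 1))) 0 = o1 at hord
  generalize analyticOrderAt (fun ζ => u ζ 0) 0 = o2 at hord
  have hkey : ∀ m1 m2 : ℕ, e * m1 + (D - e) * m2 ≠ D * c + 1 := by
    intro m1 m2 h
    have h4 : e ∣ 1 := by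
      rw [← Nat.dvd_add_right (a := e) (b := D * c) (c := 1) (Dvd.dvd.mul_right ⟨q, hq⟩ c), ← h]
      exact dvd_add (dvd_mul_right _ _) (Dvd.dvd.mul_right ⟨q', hq'⟩ _)
    have := Nat.le_of_dvd one_pos h4
    omega
  cases o1 with
  | top =>
    have h5 : e • (⊤ : ℕ∞) = ⊤ := by
      rw [nsmul_eq_mul]
      exact ENat.mul_top (by exact_mod_cast (show e ≠ 0 by omega))
    rw [h5, top_add] at hord
    exact ENat.top_ne_natCast _ hord
  | coe m1 =>
    cases o2 with
    | top =>
      rcases Nat.eq_zero_or_pos (D - e) with h6 | h6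
      · rw [h6, zero_smul, add_zero, nsmul_eq_mul] at hord
        have h7 : e * m1 = D * c + 1 := by exact_mod_cast hord
        exact hkey m1 0 (by rw [mul_zero, add_zero]; exact h7)
      · have h5 : (D - e) • (⊤ : ℕ∞) = ⊤ := by
          rw [nsmul_eq_mul]
          exact ENat.mul_top (by exact_mod_cast (show D - e ≠ 0 by omega))
        rw [h5, add_top] at hord
        exact ENat.top_ne_natCast _ hord
    | coe m2 =>
      rw [nsmul_eq_mul, nsmul_eq_mul] at hord
      exact hkey m1 m2 (by exact_mod_cast hord)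

/-- [TT-F5b] As `cyclic_curves` in Cyclic.lean: `curves_tot_forms` with `multiple_cyclic_form`, `D = Q * d`. -/
theorem cyclic_curves_forms {n d : ℕ} (hd : 1 ≤ d) (h3 : 3 ≤ (n + d).choose d) :
    ∃ N : ℕ, ∀ Q, N ≤ Q → ∀ a : Fin Q → Mon n d → ℂ,
    AlgebraicIndependent ℚ (fun p : Fin Q × Mon n d => a p.1 p.2) →
    ∀ e : ℕ, 2 ≤ e → e ∣ Q * d → ∀ f : ℂ → Fin (n + 2) → ℂ, Differentiable ℂ f →
      (∀ z, f z ≠ 0) →
      (∀ z, f z (Fin.last (n + 1)) ^ e * f z 0 ^ (Q * d - e) =
        ∏ i, eval (fun l : Fin (n + 1) => f z l.castSucc) (frm (a i))) →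
      (¬ ∀ z w, ∃ c : ℂ, f w = c • f z) →
      ∀ z, ∏ i, eval (fun l : Fin (n + 1) => f z l.castSucc) (frm (a i)) = 0 := by
  obtain ⟨N, hN⟩ := curves_tot_forms hd h3
  refine ⟨max N 1, ?_⟩
  intro Q hQ a ha e he heQ f hf hf0 heq hnc
  have hQN : N ≤ Q := (le_max_left _ _).trans hQ
  have hQ1 : 1 ≤ Q := (le_max_right _ _).trans hQ
  have hD1 : 1 ≤ Q * d := Nat.mul_pos hQ1 hd
  obtain ⟨hdeg, -, -⟩ := prod_degree_forms (fun i => frm (a i)) (fun i => frm_hom (a i))
    (fun i => frm_ne_zero a ha i)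
  have hfc : ∀ j, Differentiable ℂ (fun z => f z j) := fun j => differentiable_pi.1 hf j
  have heval : ∀ x : Fin (n + 2) → ℂ, eval x (aeval (fun l : Fin (n + 1) =>
      (X l.castSucc : MvPolynomial (Fin (n + 2)) ℂ)) (∏ i, frm (a i))) =
      ∏ i, eval (fun l : Fin (n + 1) => x l.castSucc) (frm (a i)) := by
    intro x
    have h3 : aeval (fun l : Fin (n + 1) => (X l.castSucc : MvPolynomial (Fin (n + 2)) ℂ))
        (∏ i, frm (a i)) = rename Fin.castSucc (∏ i, frm (a i)) := by
      rw [rename_eq_aeval]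
      rfl
    rw [h3, eval_rename, map_prod]
    rfl
  have hmult := multiple_cyclic_form he heQ hD1 _ hdeg
  have hcur := hN Q hQN a ha _ _ hmult f hf hf0 (by
    intro z p hp
    rw [Set.mem_singleton_iff] at hp
    rw [hp, map_sub, map_mul, map_pow, map_pow, eval_X, eval_X, sub_eq_zero, eval_rename,
      map_prod]
    exact heq z)
  rcases hcur with h | ⟨t, ht0, ht⟩
  · intro z
    rw [← heval]
    exact h z
  · by_contra hcon
    push Not at hcon
    obtain ⟨z1, hz1⟩ := hcon
    apply hnc
    obtain ⟨l, hl⟩ : ∃ l, t l ≠ 0 := by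
      by_contra h
      push Not at h
      exact ht0 (funext h)
    set lam : ℂ → ℂ := fun z => f z l.castSucc / t l with hlam
    have hlamd : Differentiable ℂ lam := (hfc _).div_const _
    have hfj : ∀ z (j : Fin (n + 1)), f z j.castSucc = lam z * t j := by
      intro z j
      have h1 := ht z (C (t l) * X j.castSucc - C (t j) * X l.castSucc) (Or.inr ⟨l, j, rfl⟩)
      rw [map_sub, map_mul, map_mul, eval_C, eval_C, eval_X, eval_X, sub_eq_zero] at h1
      rw [hlam]
      field_simp
      linear_combination h1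
    set P : ℂ := ∏ i, eval t (frm (a i)) with hP
    have hprod : ∀ z, ∏ i, eval (fun l : Fin (n + 1) => f z l.castSucc) (frm (a i)) = lam z ^ (Q * d) * P := by
      intro z
      have h9 : ∏ _i : Fin Q, lam z ^ d = lam z ^ (Q * d) := by
        rw [Finset.prod_const, Finset.card_univ, Fintype.card_fin, ← pow_mul, mul_comm d Q]
      rw [hP, ← h9, ← Finset.prod_mul_distrib]
      refine Finset.prod_congr rfl fun i _ => ?_
      have h10 : (fun l : Fin (n + 1) => f z l.castSucc) = (fun i => lam z * t i) := funext fun j => hfj z j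
      rw [h10, eval_smul_form (frm_hom (a i))]
    have heQ' : e ≤ Q * d := Nat.le_of_dvd hD1 heQ
    rw [hprod] at hz1
    have hP0 : P ≠ 0 := right_ne_zero_of_mul hz1
    have hlz1 : lam z1 ≠ 0 := by
      intro h
      apply left_ne_zero_of_mul hz1
      rw [h, zero_pow (by omega)]
    set w : ℂ → ℂ := fun z => f z (Fin.last (n + 1)) with hw
    have hwd : Differentiable ℂ w := hfc _
    have hmain : ∀ z, lam z ^ (Q * d - e) * (w z ^ e * t 0 ^ (Q * d - e) - lam z ^ e * P) = 0 := by
      intro z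
      have h1 := heq z
      rw [hprod] at h1
      have h2 : f z 0 = lam z * t 0 := hfj z 0
      rw [h2] at h1
      have h3 : lam z ^ (Q * d) = lam z ^ (Q * d - e) * lam z ^ e := by
        rw [← pow_add]
        congr 1
        omega
      rw [h3, mul_pow] at h1
      show lam z ^ (Q * d - e) * (f z (Fin.last (n + 1)) ^ e * t 0 ^ (Q * d - e) - lam z ^ e * P) = 0
      linear_combination h1
    have hall : ∀ z, w z ^ e * t 0 ^ (Q * d - e) - lam z ^ e * P = 0 := by
      set g : ℂ → ℂ := fun z => w z ^ e * t 0 ^ (Q * d - e) - lam z ^ e * P with hg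
      have hgd : Differentiable ℂ g := ((hwd.pow e).mul_const _).sub ((hlamd.pow e).mul_const _)
      have h5 : AnalyticOnNhd ℂ g Set.univ := fun z _ => hgd.analyticAt z
      have h6 : AnalyticOnNhd ℂ (fun _ : ℂ => (0 : ℂ)) Set.univ := fun z _ => analyticAt_const
      have h7 : g =ᶠ[nhds z1] fun _ => 0 := by
        filter_upwards [(hlamd.continuous.continuousAt).eventually_ne hlz1] with z hz
        exact (mul_eq_zero.1 (hmain z)).resolve_left (pow_ne_zero _ hz)
      have h8 := h5.eq_of_eventuallyEq h6 h7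
      exact fun z => congrFun h8 z
    have ht00 : t 0 ^ (Q * d - e) ≠ 0 := by
      intro h
      have h1 := hall z1
      rw [h, mul_zero, zero_sub, neg_eq_zero] at h1
      exact mul_ne_zero (pow_ne_zero _ hlz1) hP0 h1
    have hlam0 : ∀ z, lam z ≠ 0 := by
      intro z h
      have h1 := hall z
      rw [h, zero_pow (by omega), zero_mul, sub_zero] at h1
      have h2 : w z = 0 := by
        have h3 := (mul_eq_zero.1 h1).resolve_right ht00
        exact pow_eq_zero_iff (by omega) |>.1 h3
      apply hf0 z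
      funext j
      refine Fin.lastCases ?_ (fun j => ?_) j
      · exact h2
      · rw [hfj z j, h, zero_mul]
        rfl
    set q : ℂ → ℂ := fun z => w z / lam z with hq
    have hqd : Differentiable ℂ q := hwd.div hlamd hlam0
    have hqe : ∀ z, q z ^ e = P / t 0 ^ (Q * d - e) := by
      intro z
      have h1 := hall z
      have h2 := hlam0 z
      rw [hq]
      simp only
      rw [div_pow, div_eq_div_iff (pow_ne_zero _ h2) ht00]
      linear_combination h1
    have hq0 : ∀ z, q z ≠ 0 := by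
      intro z h
      have h1 := hqe z
      rw [h, zero_pow (by omega)] at h1
      exact div_ne_zero hP0 ht00 h1.symm
    have hder : ∀ z, deriv q z = 0 := by
      intro z
      have h1 : HasDerivAt (fun z => q z ^ e) ((e : ℂ) * q z ^ (e - 1) * deriv q z) z :=
        (hqd z).hasDerivAt.fun_pow e
      have h2 : (fun z => q z ^ e) = fun _ => P / t 0 ^ (Q * d - e) := funext hqe
      rw [h2] at h1
      have h3 := h1.unique (hasDerivAt_const z _)
      have he0 : (e : ℂ) ≠ 0 := by
        exact_mod_cast (show e ≠ 0 by omega)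
      exact (mul_eq_zero.1 h3).resolve_left (mul_ne_zero he0 (pow_ne_zero _ (hq0 z)))
    have hconst : ∀ z z', q z = q z' := is_const_of_deriv_eq_zero hqd hder
    intro z z'
    refine ⟨lam z' / lam z, ?_⟩
    funext j
    rw [Pi.smul_apply, smul_eq_mul]
    refine Fin.lastCases ?_ (fun j => ?_) j
    · have h1 := hconst z' z
      simp only [hq] at h1
      have h2 := hlam0 z
      have h3 := hlam0 z'
      show w z' = lam z' / lam z * w z
      rw [div_eq_div_iff h3 h2] at h1
      field_simp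
      linear_combination h1
    · rw [hfj z j, hfj z' j]
      have h2 := hlam0 z
      field_simp

/-- [TT-F5c] If `P(y)` is an `e`-th power, `e ≥ 2`, `e ∣ deg P`, then the pull back of `P = 0` is nowhere reduced (as
`nowhere_of_power` in SpecialB.lean). -/
theorem nowhere_of_power_form {K : Type} [Field K] [Algebra ℂ K] {n e : ℕ} (he : 2 ≤ e)
    (y : Fin (n + 1) → K) (P : MvPolynomial (Fin (n + 1)) ℂ) (heD : e ∣ P.totalDegree)
    (hne : aeval y P ≠ 0) (w : K) (hw : w ^ e = aeval y P) : NowhereReduced y P := by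
  intro O _ v hv c _ _ hord
  have hw0 : w ≠ 0 := by
    rintro rfl
    rw [zero_pow (by omega)] at hw
    exact hne hw.symm
  have h1 : v 1 = 0 := by
    have := hv.1 1 1 one_ne_zero one_ne_zero
    rw [one_mul] at this
    omega
  have hpow : ∀ k : ℕ, v (w ^ k) = k * v w := by
    intro k
    induction k with
    | zero => rw [pow_zero, h1]; simp
    | succ k ih =>
      rw [pow_succ, hv.1 _ _ (pow_ne_zero _ hw0) hw0, ih]
      push_cast
      ring
  rw [← hw, hpow] at hord
  obtain ⟨q, hq⟩ := heD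
  rw [hq] at hord
  have h2 : (e : ℤ) * (v w - q * c) = 1 := by
    push_cast at hord
    linear_combination hord
  have h3 : (e : ℤ) ∣ 1 := ⟨_, h2.symm⟩
  have h4 : (e : ℤ) ≤ 1 := Int.le_of_dvd one_pos h3
  omega

end Pool.Agent.TT
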