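import Pool.Agent.Lib_MP_b9fedf_gh.SmtH
import Pool.Agent.Lib_MP_b9fedf_gh.SncGen
import Pool.Agent.Lib_MP_b9fedf_gh.Apps
import Pool.Agent.Lib_MP_b9fedf_gh.Main
import Pool.Agent.Lib_MP_b9fedf_sq.HomFac

/-! [TT-F3]: very general hypersurfaces: position, and the product is squarefree. -/

set_option autoImplicit false

namespace Pool.Agent.TT
open MvPolynomial
open Pool.Agent.GGL Pool.Agent.GH

/-- [TT-F3a] `snc_crit_algInd`, `snc_of_crit` -/
theorem snc_algInd {n d Q : ℕ} (hd : 1 ≤ d) (a : Fin Q → Mon n d → ℂ)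
    (ha : AlgebraicIndependent ℚ (fun p : Fin Q × Mon n d => a p.1 p.2)) :
    Snc (fun i => frm (a i)) :=
  snc_of_crit _ fun x lam h1 h2 => snc_crit_algInd hd a ha x lam h1 h2

/-- [TT-F3b] At most `n` members meet at a point.  Proof.  The gradients of the members of `T` are independent vectors of `ℂ ^ (n+1)`, and by Euler's relation
they are orthogonal to `x ≠ 0` (see `card_le` in Lib_MP_b9fedf_gh if present). -/
theorem card_le_of_snc {n d Q : ℕ} (hd : 1 ≤ d) (b : Fin Q → MvPolynomial (Fin (n + 1)) ℂ)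
    (hb : ∀ i, (b i).IsHomogeneous d) (h : Snc b) (x : Fin (n + 1) → ℂ) (hx : x ≠ 0)
    (T : Finset (Fin Q)) (hT : ∀ i ∈ T, eval x (b i) = 0) : T.card ≤ n :=
  snc_card hb h x hx T hT

/-- a non-constant homogeneous polynomial in at least two variables has a zero `x ≠ 0` -/
private theorem exists_zero {n e : ℕ} (hn : 1 ≤ n) (he : 1 ≤ e) (P : MvPolynomial (Fin (n + 1)) ℂ)
    (hP : P.IsHomogeneous e) : ∃ x : Fin (n + 1) → ℂ, x ≠ 0 ∧ eval x P = 0 := by
  have h01 : (0 : Fin (n + 1)) ≠ Fin.last n := by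
    intro h
    have h1 := congrArg Fin.val h
    rw [Fin.val_zero, Fin.val_last] at h1
    omega
  have hli : LinearIndependent ℂ ![(Pi.single 0 1 : Fin (n + 1) → ℂ),
      Pi.single (Fin.last n) 1] := by
    rw [LinearIndependent.pair_iff]
    intro s t hst
    have h1 := congrFun hst 0
    have h2 := congrFun hst (Fin.last n)
    simp [h01, Ne.symm h01] at h1 h2
    exact ⟨h1, h2⟩
  obtain ⟨α, β, hx, hx0⟩ := Pool.Agent.SQ.bin_zero he P hP _ _ hli
  exact ⟨_, hx, hx0⟩

/-- the gradient of a product at a zero of the first factor -/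
private theorem grad_mul {n : ℕ} (P u : MvPolynomial (Fin (n + 1)) ℂ) (x : Fin (n + 1) → ℂ)
    (hx : eval x P = 0) (l : Fin (n + 1)) :
    eval x (pderiv l (P * u)) = eval x u * eval x (pderiv l P) := by
  rw [Derivation.leibniz, map_add, smul_eq_mul, smul_eq_mul, map_mul, map_mul, hx, zero_mul,
    zero_add]

/-- [TT-F3c] Proof.  Let `P` be irreducible with `P ^ 2 ∣ ∏ b i` (`n ≥ 1`).  `P` is homogeneous (a factor of a homogeneous polynomial) and
has a zero `x ≠ 0` as `n + 1 ≥ 2`.  If `P` divides two members `b i = P u`, `b j = P v` then their gradients at `x` are `u(x) ∇P(x)` and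
`v(x) ∇P(x)`, dependent; if `P ^ 2 ∣ b i` then the gradient of `b i` vanishes at `x`. -/
theorem squarefree_of_snc {n d Q : ℕ} (hn : 1 ≤ n) (b : Fin Q → MvPolynomial (Fin (n + 1)) ℂ)
    (hb : ∀ i, (b i).IsHomogeneous d) (h : Snc b) : Squarefree (∏ i, b i) := by
  classical
  have hb0 : ∀ i, b i ≠ 0 := fun i => Snc.ne_zero h i
  have hprod : (∏ i, b i) ≠ 0 := Finset.prod_ne_zero_iff.2 fun i _ => hb0 i
  rw [squarefree_iff_irreducible_sq_not_dvd_of_ne_zero hprod]
  intro P hP hdvd
  have hPp : Prime P := hP.prime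
  -- a member divisible by `P`
  obtain ⟨i, -, hi⟩ := hPp.exists_mem_finset_dvd ((dvd_mul_right P P).trans hdvd)
  obtain ⟨u, hu⟩ := hi
  -- `P` is homogeneous, and it has a zero
  have hPu : (P * u).IsHomogeneous d := by
    rw [← hu]
    exact hb i
  have hPu0 : P * u ≠ 0 := by
    rw [← hu]
    exact hb0 i
  obtain ⟨e, e', -, hPe, -⟩ := Pool.Agent.SQ.homogeneous_of_mul hPu hPu0
  have he : 1 ≤ e := by
    rcases Nat.eq_zero_or_pos e with h0 | h0
    · exfalso
      apply hP.not_isUnit
      rw [h0] at hPe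
      have h1 := (totalDegree_eq_zero_iff_eq_C (p := P)).1
        (Nat.le_zero.1 hPe.totalDegree_le)
      rw [h1]
      refine (isUnit_iff_ne_zero.2 ?_).map C
      intro h2
      apply hP.ne_zero
      rw [h1, h2, map_zero]
    · exact h0
  obtain ⟨x, hx, hxP⟩ := exists_zero hn he P hPe
  have hbi : eval x (b i) = 0 := by rw [hu, map_mul, hxP, zero_mul]
  -- the two cases
  have hdvd2 : P ∣ u * ∏ j ∈ Finset.univ.erase i, b j := by
    have h1 : P * P ∣ P * (u * ∏ j ∈ Finset.univ.erase i, b j) := by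
      rw [← mul_assoc, ← hu, Finset.mul_prod_erase _ _ (Finset.mem_univ i)]
      exact hdvd
    exact (mul_dvd_mul_iff_left hP.ne_zero).1 h1
  rcases hPp.dvd_or_dvd hdvd2 with h1 | h1
  · obtain ⟨w, hw⟩ := h1
    have hux : eval x u = 0 := by rw [hw, map_mul, hxP, zero_mul]
    have h2 := h x hx {i} (by
      intro j hj
      rw [Finset.mem_singleton.1 hj]
      exact hbi)
    apply h2.ne_zero ⟨i, Finset.mem_singleton_self i⟩
    funext l
    show eval x (pderiv l (b i)) = 0
    rw [hu, grad_mul P u x hxP l, hux, zero_mul]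
  · obtain ⟨j, hj, hjP⟩ := hPp.exists_mem_finset_dvd h1
    obtain ⟨v, hv⟩ := hjP
    have hij : j ≠ i := Finset.ne_of_mem_erase hj
    have hbj : eval x (b j) = 0 := by rw [hv, map_mul, hxP, zero_mul]
    have h2 := h x hx {i, j} (by
      intro l hl
      rw [Finset.mem_insert, Finset.mem_singleton] at hl
      rcases hl with rfl | rfl
      · exact hbi
      · exact hbj)
    let s : ({i, j} : Finset (Fin Q)) := ⟨i, Finset.mem_insert_self i _⟩
    let t : ({i, j} : Finset (Fin Q)) := ⟨j, Finset.mem_insert_of_mem (Finset.mem_singleton_self j)⟩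
    have hst : s ≠ t := fun h3 => hij (congrArg Subtype.val h3).symm
    have hinj : Function.Injective ![s, t] := by
      intro k k' hk
      fin_cases k <;> fin_cases k'
      · rfl
      · exact absurd hk hst
      · exact absurd hk.symm hst
      · rfl
    have h3 := h2.comp ![s, t] hinj
    have h4 : (fun r : ({i, j} : Finset (Fin Q)) => fun l => eval x (pderiv l (b r))) ∘ ![s, t] =
        ![fun l => eval x (pderiv l (b i)), fun l => eval x (pderiv l (b j))] := by
      funext k
      fin_cases k <;> rfl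
    rw [h4, LinearIndependent.pair_iff] at h3
    have h5 := h3 (eval x v) (-(eval x u)) (by
      funext l
      show eval x v * eval x (pderiv l (b i)) + -(eval x u) * eval x (pderiv l (b j)) = 0
      rw [hu, hv, grad_mul P u x hxP l, grad_mul P v x hxP l]
      ring)
    apply h2.ne_zero t
    funext l
    show eval x (pderiv l (b j)) = 0
    rw [hv, grad_mul P v x hxP l, h5.1, zero_mul]

/-- [TT-F3d] -/
theorem prod_degree_forms {n d Q : ℕ} (b : Fin Q → MvPolynomial (Fin (n + 1)) ℂ)
    (hb : ∀ i, (b i).IsHomogeneous d) (hb0 : ∀ i, b i ≠ 0) :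
    (∏ i, b i).totalDegree = Q * d ∧ (∏ i, b i).IsHomogeneous (Q * d) ∧ (∏ i, b i) ≠ 0 := by
  have h1 : (∏ i, b i) ≠ 0 := Finset.prod_ne_zero_iff.2 fun i _ => hb0 i
  have h2 : (∏ i, b i).IsHomogeneous (Q * d) := by
    have h3 := IsHomogeneous.prod Finset.univ b (fun _ => d) fun i _ => hb i
    rw [Finset.sum_const, Finset.card_univ, Fintype.card_fin, smul_eq_mul] at h3
    exact h3
  exact ⟨h2.totalDegree h1, h2, h1⟩

/-- [TT-F3e] -/
theorem frm_ne_zero {n d Q : ℕ} (a : Fin Q → Mon n d → ℂ)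
    (ha : AlgebraicIndependent ℚ (fun p : Fin Q × Mon n d => a p.1 p.2)) (i : Fin Q) :
    frm (a i) ≠ 0 := by
  intro h
  have h1 : a i (mon0 n d) = 0 := by
    rw [← coeff_frm (a i) (mon0 n d), h, coeff_zero]
  exact ha.ne_zero (i, mon0 n d) h1

theorem frm_injective {n d Q : ℕ} (a : Fin Q → Mon n d → ℂ)
    (ha : AlgebraicIndependent ℚ (fun p : Fin Q × Mon n d => a p.1 p.2)) :
    Function.Injective (fun i => frm (a i)) := by
  intro i j hij
  have h1 : a i = a j := frm_inj hij
  have h2 : ((i, mon0 n d) : Fin Q × Mon n d) = (j, mon0 n d) :=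
    ha.injective (congrFun h1 (mon0 n d))
  exact congrArg Prod.fst h2

end Pool.Agent.TT
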