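import Pool.Agent.Lib_MP_b9fedf_tt.TotalB
import Pool.Agent.Lib_MP_b9fedf_gh.Apps

/-! [TT-D1]: the second main theorem with truncation level one for the reducible hypersurface
`∏ lin (a i) = 0`; curves of varieties on which it is nowhere reduced. -/

set_option autoImplicit false

namespace Pool.Agent.TT
open MvPolynomial
open Pool.Agent.GGL Pool.Agent.Stat Pool.Agent.LO Pool.Agent.LG Pool.Agent.SQ Pool.Agent.QY
open Pool.Agent.GH

/-- [TT-D1a] -/
theorem prod_degree {n Q : ℕ} (a : Fin Q → Fin (n + 1) → ℂ) (ha : ∀ i, a i ≠ 0) :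
    (∏ i, lin (a i)).totalDegree = Q ∧ (∏ i, lin (a i)).IsHomogeneous Q ∧
      (∏ i, lin (a i)) ≠ 0 := by
  have hne : (∏ i, lin (a i)) ≠ 0 := by
    rw [Finset.prod_ne_zero_iff]
    intro i _ h0
    have h1 := lin_totalDegree (ha i)
    rw [h0, totalDegree_zero] at h1
    exact absurd h1 (by norm_num)
  have hh : (∏ i, lin (a i)).IsHomogeneous Q := by
    have h1 := IsHomogeneous.prod Finset.univ (fun i => lin (a i)) (fun _ => 1)
      fun i _ => lin_homogeneous (a i)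
    simpa using h1
  exact ⟨hh.totalDegree hne, hh, hne⟩

private theorem ne_zero_of_algInd {k Q : ℕ} {a : Fin Q → Fin (k + 3) → ℂ}
    (ha : AlgebraicIndependent ℚ (fun p : Fin Q × Fin (k + 3) => a p.1 p.2)) (i : Fin Q) :
    a i ≠ 0 := by
  intro h
  exact ha.ne_zero (i, 0) (congrFun h 0)

private theorem eval_prod_lin {n Q : ℕ} (a : Fin Q → Fin (n + 1) → ℂ) (x : Fin (n + 1) → ℂ) :
    eval x (∏ i, lin (a i)) = ∏ i, ∑ l, a i l * x l := by
  rw [map_prod]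
  exact Finset.prod_congr rfl fun i _ => eval_lin_dot (a i) x

/-- [TT-D1b] Proof.  `total_smt`; `eval (f z) (∏ i, lin (a i)) = ∏ i, ∑ l, a i l * f z l` (`eval_lin_dot`); a curve which is not
contained in `∏ i, lin (a i) = 0` is contained in no member. -/
theorem level_prod (k : ℕ) {ε : ℝ} (hε : 0 < ε) : ∃ C : ℝ, 0 ≤ C ∧ ∀ (Q : ℕ)
    (a : Fin Q → Fin (k + 3) → ℂ),
    AlgebraicIndependent ℚ (fun p : Fin Q × Fin (k + 3) => a p.1 p.2) →
    ∀ η : ℝ, (1 - η) * Q = (1 - ε) * Q - C →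
      LevelOne η ⊥ {∏ i, lin (a i)} (∏ i, lin (a i)) := by
  obtain ⟨C, hC0, hC⟩ := total_smt k hε
  refine ⟨C, hC0, fun Q a ha η hη => ?_⟩
  intro f hf hf0 _ hfZ hfc
  have hi : ∀ i, ∃ z, ∑ l, a i l * f z l ≠ 0 := by
    intro i
    obtain ⟨z, hz⟩ := hfZ
    refine ⟨z, fun h => hz ?_⟩
    rw [eval_prod_lin]
    exact Finset.prod_eq_zero (Finset.mem_univ i) h
  obtain ⟨K, E, hE, hK⟩ := hC Q a ha f hf hf0 hfc hi
  refine ⟨K, E, hE, fun r hr hrE => ?_⟩
  have h1 := hK r hr hrE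
  have h2 : ∀ z, eval (f z) (∏ i, lin (a i)) = ∏ i, ∑ l, a i l * f z l :=
    fun z => eval_prod_lin a (f z)
  rw [Finset.sum_singleton, Finset.sum_singleton,
    (prod_degree a (ne_zero_of_algInd ha)).1, hη]
  simp only [h2]
  exact h1

/-- [TT-D1c] -/
theorem avg_of_multiple {m n : ℕ} {S : Set (MvPolynomial (Fin (m + 1)) ℂ)}
    {φ : Fin (n + 1) → MvPolynomial (Fin (m + 1)) ℂ} {P : MvPolynomial (Fin (n + 1)) ℂ}
    (h : MultipleForm S φ P) : RamifiedOnAverage (1 / 2) S φ {P} := by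
  intro u hu hu0 huS c hc hc' o ho
  have h1 : o P ≠ 1 := by
    intro h1
    have h2 := ho P (Finset.mem_singleton_self P)
    rw [h1] at h2
    exact h u hu hu0 huS c hc hc' h2
  rw [Finset.sum_singleton]
  by_cases h0 : o P = 0
  · rw [Finset.filter_singleton, if_neg (fun h => h h0), h0]
    simp
  · rw [Finset.filter_singleton, if_pos h0, Finset.card_singleton]
    have h3 : (2 : ℝ) ≤ o P := by exact_mod_cast (by omega : 2 ≤ o P)
    push_cast
    linarith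

/-- [TT-D1d] Proof.  `avg_curves` with `q = ⊥`, `D = {P}`, `Z = P = ∏ i, lin (a i)`, `ρ = 1 / 2` and `level_prod` with `ε = 1 / 4`,
`Q ≥ 1` and `Q > 4 C`, so `1 - η = 3 / 4 - C / Q > 1 / 2` (see `curves_T` in Lib_MP_b9fedf_lg/Apps.lean). -/
theorem curves_tot (k : ℕ) : ∃ N : ℕ, ∀ Q, N ≤ Q → ∀ a : Fin Q → Fin (k + 3) → ℂ,
    AlgebraicIndependent ℚ (fun p : Fin Q × Fin (k + 3) => a p.1 p.2) →
    ∀ {m : ℕ} (S : Set (MvPolynomial (Fin (m + 1)) ℂ))
      (φ : Fin (k + 3) → MvPolynomial (Fin (m + 1)) ℂ), MultipleForm S φ (∏ i, lin (a i)) →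
      CurvesIn S (aeval φ (∏ i, lin (a i))) φ := by
  obtain ⟨C, hC0, hC⟩ := level_prod k (ε := 1 / 4) (by norm_num)
  refine ⟨⌊4 * C⌋₊ + 1, fun Q hQ a ha m S φ hM => ?_⟩
  have hQ1 : (4 * C : ℝ) < Q :=
    lt_of_lt_of_le (Nat.lt_floor_add_one _) (by exact_mod_cast hQ)
  have hQ0 : (0 : ℝ) < Q := by linarith
  have hQn : 1 ≤ Q := by omega
  obtain ⟨hdeg, hhom, hne⟩ := prod_degree a (ne_zero_of_algInd ha)
  obtain ⟨η, hη⟩ : ∃ η : ℝ, η = 1 - ((1 - 1 / 4) * Q - C) / Q := ⟨_, rfl⟩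
  have h1 : (1 - η) * Q = (1 - 1 / 4) * Q - C := by
    rw [hη, sub_sub_cancel, div_mul_cancel₀ _ hQ0.ne']
  have hρ : (1 / 2 : ℝ) < 1 - η := by
    have h2 : (1 / 2 : ℝ) * Q < (1 - η) * Q := by rw [h1]; linarith
    exact lt_of_mul_lt_mul_right h2 hQ0.le
  have hbot : HomI (⊥ : Ideal (MvPolynomial (Fin (k + 3)) ℂ)) := by
    intro g hg k
    rw [Ideal.mem_bot] at hg
    subst hg
    simp
  refine avg_curves hρ (by norm_num) ⊥ hbot {∏ i, lin (a i)} (Finset.singleton_nonempty _)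
    (∏ i, lin (a i)) (d := Q) hQn hhom ?_ ?_ (hC Q a ha η h1) S φ ?_ (avg_of_multiple hM)
  · intro P hP
    rw [Finset.mem_singleton] at hP
    subst hP
    rw [hdeg]
    exact ⟨hQn, hhom⟩
  · intro P hP
    rw [Finset.mem_singleton] at hP
    rw [hP]
  · intro g hg x _
    rw [Ideal.mem_bot] at hg
    subst hg
    simp

end Pool.Agent.TT
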