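import Pool.Agent.Lib_MP_b9fedf_tt.DefsNR
import Pool.Agent.Lib_MP_b9fedf_tt.Level
import Pool.Agent.Lib_MP_b9fedf_lo.NotSpecialAvg
import Pool.Agent.Lib_MP_b9fedf_lo.NotBrodyAvg

/-! [TT-D3]: varieties on which the union of many general hyperplanes is nowhere reduced are neither
special nor Brody-special. -/

set_option autoImplicit false

namespace Pool.Agent.TT
open MvPolynomial Pool.Agent.Campana
open Pool.Agent.GGL Pool.Agent.Stat Pool.Agent.LO Pool.Agent.LG Pool.Agent.SQ Pool.Agent.QY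
open Pool.Agent.GH

/-- [TT-D3b] Proof.  `v (P(y)) ≥ deg P * c` for the form `P` (each monomial has order at least `deg P * c`; `v (P(y))` for
`P(y) = 0` does not occur, see `hne`); if it is not equal, then it is at least `deg P * c + 2`. -/
theorem ramifiedAt_of_nowhere {K : Type} [Field K] [Algebra ℂ K] {n d : ℕ}
    (y : Fin (n + 1) → K) (P : MvPolynomial (Fin (n + 1)) ℂ) (hP : P.IsHomogeneous d)
    (hne : aeval y P ≠ 0) (hy : ∀ i, y i ≠ 0) (h : NowhereReduced y P) :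
    RamifiedAt (1 / 2) y {P} := by
  classical
  have hP0 : P ≠ 0 := by
    rintro rfl
    exact hne (map_zero _)
  have hd : P.totalDegree = d := hP.totalDegree hP0
  intro O hO v hv c hc hc'
  obtain ⟨i₀, hi₀⟩ := hc'
  have hT1 := h O hO v hv c hc ⟨i₀, hi₀⟩
  set u := y i₀ with hu
  have hu0 : u ≠ 0 := hy i₀
  set x : Fin (n + 1) → K := fun j => y j / u with hx
  have hxO : ∀ j, x j ∈ O := by
    intro i
    rw [hx, hv.2.1 _ (div_ne_zero (hy i) hu0), ord_div hv _ _ (hy i) hu0]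
    have h1 := hc i
    omega
  have hyx : y = fun j => u * x j := by
    ext j
    rw [hx]
    field_simp
  have hPx : aeval y P = u ^ d * aeval x P := by
    conv_lhs => rw [hyx]
    exact aeval_mul_hom _ _ _ _ hP
  have hPxne : aeval x P ≠ 0 := by
    intro h0
    apply hne
    rw [hPx, h0, mul_zero]
  have hvP : v (aeval y P) = d * c + v (aeval x P) := by
    rw [hPx, hv.1 _ _ (pow_ne_zero _ hu0) hPxne, F_ord_pow hv _ hu0, hi₀]
  have hν0 : 0 ≤ v (aeval x P) := (hv.2.1 _ hPxne).1 (aeval_mem hO x hxO P)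
  rw [hd] at hT1
  have hν1 : v (aeval x P) ≠ 1 := by
    intro h1
    apply hT1
    rw [hvP, h1]
  rw [Finset.filter_singleton, Finset.sum_singleton, hd, hvP, add_sub_cancel_left]
  split_ifs with h1
  · have h2 : (2 : ℤ) ≤ v (aeval x P) := by omega
    have h3 : (2 : ℝ) ≤ ((v (aeval x P) : ℤ) : ℝ) := by exact_mod_cast h2
    rw [Finset.card_singleton, Nat.cast_one]
    linarith
  · have h3 : (0 : ℝ) ≤ ((v (aeval x P) : ℤ) : ℝ) := by exact_mod_cast hν0
    rw [Finset.card_empty, Nat.cast_zero]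
    linarith

/-- [TT-D3c] Proof.  `not_brody_avg` with `D = {P}`, `Z = P = ∏ lin (a i)`, `ρ = 1 / 2` and `level_prod` with `ε = 1 / 4` as in `curves_tot`. -/
theorem not_brody_tot (k : ℕ) : ∃ N : ℕ, ∀ Q, N ≤ Q → ∀ a : Fin Q → Fin (k + 3) → ℂ,
    AlgebraicIndependent ℚ (fun p : Fin Q × Fin (k + 3) => a p.1 p.2) →
    ∀ {m : ℕ} (P : Ideal (MvPolynomial (Fin (m + 1)) ℂ)) [P.IsPrime], IsVariety P →
    ∀ y : Fin (k + 3) → FunField P, y 0 ≠ 0 →
      AlgebraicIndependent ℂ (fun i : Fin (k + 2) => y i.succ / y 0) →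
      NowhereReduced y (∏ i, lin (a i)) → ¬ BrodySpecial P := by
  obtain ⟨C, hC0, hC⟩ := level_prod k (ε := 1 / 4) (by norm_num)
  obtain ⟨N, hN⟩ := exists_nat_gt (4 * C)
  refine ⟨N + 1, fun Q hQ a ha m P _ hP y hy0 hy hT => ?_⟩
  have hQN : 4 * C < Q := by
    have h1 : (N : ℝ) + 1 ≤ Q := by exact_mod_cast hQ
    linarith
  have hQ0 : (0 : ℝ) < Q := by linarith
  have hQ1 : 1 ≤ Q := by omega
  have ha0 : ∀ i, a i ≠ 0 := by
    intro i h0
    have h1 := ha.ne_zero (i, 0)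
    apply h1
    change a i 0 = 0
    rw [h0]
    rfl
  obtain ⟨hdeg, hhom, hne⟩ := prod_degree a ha0
  set η : ℝ := 1 - ((1 - 1 / 4) * Q - C) / Q with hη
  have h1η : (1 - η) * Q = (1 - 1 / 4) * Q - C := by
    rw [hη]
    field_simp
    ring
  have hρη : (1 / 2 : ℝ) < 1 - η := by
    have h1 : (1 / 2 : ℝ) * Q < (1 - η) * Q := by
      rw [h1η]
      linarith
    exact lt_of_mul_lt_mul_right h1 hQ0.le
  have hnd := hom_eq_zero y hy0 hy
  have hyne : ∀ l, y l ≠ 0 := by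
    intro l h0
    have h1 := hnd 1 (X l) (isHomogeneous_X ℂ l) (by rw [aeval_X]; exact h0)
    exact X_ne_zero l h1
  have hPne : aeval y (∏ i, lin (a i)) ≠ 0 := fun h0 => hne (hnd Q _ hhom h0)
  refine not_brody_avg (n := k + 2) (by omega) hρη (by norm_num) {∏ i, lin (a i)}
    (Finset.singleton_nonempty _) ?_ (d := Q) (∏ i, lin (a i)) hne hhom ?_ (hC Q a ha η h1η) P hP
    y hy0 hy (ramifiedAt_of_nowhere y _ hhom hPne hyne hT)
  · intro P' hP'
    rw [Finset.mem_singleton] at hP'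
    rw [hP', hdeg]
    exact ⟨hQ1, hhom⟩
  · intro P' hP'
    rw [Finset.mem_singleton] at hP'
    rw [hP']

/-- [TT-D3d] If `∏ a_i(y)` is an `e`-th power, `e ≥ 2`, `e ∣ Q`, then the pull back is nowhere reduced. -/
theorem nowhere_of_power {K : Type} [Field K] [Algebra ℂ K] {n Q e : ℕ} (he : 2 ≤ e)
    (heQ : e ∣ Q) (y : Fin (n + 1) → K) (a : Fin Q → Fin (n + 1) → ℂ) (ha : ∀ i, a i ≠ 0)
    (hne : aeval y (∏ i, lin (a i)) ≠ 0) (w : K) (hw : w ^ e = aeval y (∏ i, lin (a i))) :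
    NowhereReduced y (∏ i, lin (a i)) := by
  obtain ⟨hdeg, -, -⟩ := prod_degree a ha
  obtain ⟨q, hq⟩ := heQ
  intro O hO v hv c hc hc' h
  have hw0 : w ≠ 0 := by
    rintro rfl
    rw [zero_pow (by omega)] at hw
    exact hne hw.symm
  rw [← hw, F_ord_pow hv w hw0, hdeg, hq] at h
  have h1 : (e : ℤ) * (v w - q * c) = 1 := by
    push_cast at h
    linear_combination h
  have h2 := Int.isUnit_iff.1 (IsUnit.of_mul_eq_one _ h1)
  omega

end Pool.Agent.TT
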