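import Pool.Agent.Lib_MP_b9fedf_tt.DefsT
import Pool.Agent.Lib_MP_b9fedf_tt.PosF
import Pool.Agent.Lib_MP_b9fedf_tt.SpecialB
import Pool.Agent.Lib_MP_b9fedf_tt.DefsNR
import Pool.Agent.Lib_MP_b9fedf_tt.CyclicF
import Pool.Agent.Lib_MP_b9fedf_lo.NotBrodyAvg

/-! Consequences of the second main theorem with total truncation. -/

set_option autoImplicit false

namespace Pool.Agent.TT
open MvPolynomial
open Pool.Agent.GGL Pool.Agent.Stat Pool.Agent.LO Pool.Agent.LG Pool.Agent.SQ Pool.Agent.QY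
open Pool.Agent.GH Pool.Agent.Campana

variable {n d Q : ℕ} (hd : 1 ≤ d) (b : Fin Q → MvPolynomial (Fin (n + 1)) ℂ)
  (hb : ∀ i, (b i).IsHomogeneous d) (hb0 : ∀ i, b i ≠ 0)

include hb hb0 in
/-- the second main theorem with truncation level one for the product -/
theorem level_of_tot {ε C : ℝ} (hT : Tot d ε C b) {η : ℝ} (hη : (1 - η) * Q = (1 - ε) * Q - C) :
    LevelOne η ⊥ {∏ i, b i} (∏ i, b i) := by
  intro f hf hf0 _ hZ hnc
  obtain ⟨hdeg, -, -⟩ := prod_degree_forms b hb hb0
  obtain ⟨z₀, hz₀⟩ := hZ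
  rw [map_prod] at hz₀
  have hz₁ := Finset.prod_ne_zero_iff.1 hz₀
  obtain ⟨K, E, hE, hbd⟩ := hT f hf hf0 hnc Finset.univ
    (fun i => ⟨fun _ => ⟨z₀, hz₁ i (Finset.mem_univ i)⟩, fun _ => Finset.mem_univ i⟩)
  refine ⟨K, E, hE, fun r hr hrE => ?_⟩
  have h1 := hbd r hr hrE
  rw [Finset.sum_singleton, Finset.sum_singleton, hdeg]
  have h2 : (fun z => eval (f z) (∏ i, b i)) = fun z => ∏ i, eval (f z) (b i) := by
    funext z
    rw [map_prod]
  rw [h2]
  have h4 : (1 - η) * ((Q * d : ℕ) : ℝ) * charT f r = ((1 - ε) * Q - C) * (d * charT f r) := by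
    rw [← hη]
    push_cast
    ring
  rw [h4]
  exact h1

private theorem hbot_G {n : ℕ} : HomI (⊥ : Ideal (MvPolynomial (Fin (n + 1)) ℂ)) := by
  intro g hg k
  rw [Ideal.mem_bot] at hg
  subst hg
  simp

include hb hb0 in
/-- the parameters for the corollaries -/
theorem param_of_tot {C : ℝ} (hC : 0 ≤ C) (hQ : 4 * C < Q) (hT : Tot d (1 / 4) C b) :
    ∃ η : ℝ, (0 < Q ∧ (1 / 2 : ℝ) < 1 - η) ∧ LevelOne η ⊥ {∏ i, b i} (∏ i, b i) := by
  have hQR : (0 : ℝ) < Q := by linarith
  have hQ1 : 0 < Q := by exact_mod_cast hQR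
  have h7 : (1 - (1 - ((1 - 1 / 4) * (Q : ℝ) - C) / Q)) * Q = (1 - 1 / 4) * Q - C := by
    rw [sub_sub_cancel, div_mul_cancel₀ _ hQR.ne']
  refine ⟨1 - ((1 - 1 / 4) * Q - C) / Q, ⟨hQ1, ?_⟩, level_of_tot b hb hb0 hT h7⟩
  rw [sub_sub_cancel, lt_div_iff₀ hQR]
  linarith

include hd hb hb0 in
/-- curves of varieties on which the divisor is nowhere reduced -/
theorem curves_of_tot {C : ℝ} (hC : 0 ≤ C) (hQ : 4 * C < Q) (hT : Tot d (1 / 4) C b)
    {m : ℕ} (S : Set (MvPolynomial (Fin (m + 1)) ℂ))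
    (φ : Fin (n + 1) → MvPolynomial (Fin (m + 1)) ℂ) (hM : MultipleForm S φ (∏ i, b i)) :
    CurvesIn S (aeval φ (∏ i, b i)) φ := by
  obtain ⟨η, hη, hL⟩ := param_of_tot b hb hb0 hC hQ hT
  obtain ⟨hQ1, hN⟩ := hη
  obtain ⟨hdeg, hhom, hne⟩ := prod_degree_forms b hb hb0
  refine avg_curves hN (by norm_num) ⊥ hbot_G {∏ i, b i} (Finset.singleton_nonempty _)
    (∏ i, b i) (Nat.mul_pos hQ1 hd) hhom ?_ ?_ hL S φ ?_ (avg_of_multiple hM)
  · intro P hP
    rw [Finset.mem_singleton] at hP
    rw [hP, hdeg]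
    exact ⟨Nat.mul_pos hQ1 hd, hhom⟩
  · intro P hP
    rw [Finset.mem_singleton] at hP
    rw [hP]
  · intro g hg x _
    rw [Ideal.mem_bot] at hg
    rw [hg, map_zero, map_zero]

include hd hb hb0 in
/-- varieties on which the divisor is nowhere reduced are not Brody-special -/
theorem brody_of_tot (hn : 1 ≤ n) {C : ℝ} (hC : 0 ≤ C) (hQ : 4 * C < Q) (hT : Tot d (1 / 4) C b)
    {m : ℕ} (P : Ideal (MvPolynomial (Fin (m + 1)) ℂ)) [P.IsPrime] (hP : IsVariety P)
    (y : Fin (n + 1) → FunField P) (hy0 : y 0 ≠ 0)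
    (hy : AlgebraicIndependent ℂ (fun i : Fin n => y i.succ / y 0))
    (hNR : NowhereReduced y (∏ i, b i)) : ¬ BrodySpecial P := by
  obtain ⟨η, hη, hL⟩ := param_of_tot b hb hb0 hC hQ hT
  obtain ⟨hQ1, hN⟩ := hη
  obtain ⟨hdeg, hhom, hne⟩ := prod_degree_forms b hb hb0
  have hnd := hom_eq_zero y hy0 hy
  have hyne : ∀ l, y l ≠ 0 := by
    intro l h0
    have h1 := hnd 1 (X l) (isHomogeneous_X ℂ l) (by rw [aeval_X]; exact h0)
    exact X_ne_zero l h1
  have hPy : aeval y (∏ i, b i) ≠ 0 := fun h0 => hne (hnd _ _ hhom h0)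
  refine not_brody_avg hn hN (by norm_num) {∏ i, b i} (Finset.singleton_nonempty _) ?_
    (∏ i, b i) hne hhom ?_ hL P hP y hy0 hy
    (ramifiedAt_of_nowhere y _ hhom hPy hyne hNR)
  · intro P hP
    rw [Finset.mem_singleton] at hP
    rw [hP, hdeg]
    exact ⟨Nat.mul_pos hQ1 hd, hhom⟩
  · intro P hP
    rw [Finset.mem_singleton] at hP
    rw [hP]

include hd hb hb0 in
/-- curves of cyclic covers -/
theorem cyclic_of_tot {c : ℝ} (hC : 0 ≤ c) (hQ : 4 * c < Q) (hT : Tot d (1 / 4) c b)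
    {e : ℕ} (he : 2 ≤ e) (heQ : e ∣ Q * d) (f : ℂ → Fin (n + 2) → ℂ) (hf : Differentiable ℂ f)
    (hf0 : ∀ z, f z ≠ 0)
    (heq : ∀ z, f z (Fin.last (n + 1)) ^ e * f z 0 ^ (Q * d - e) =
      ∏ i, eval (fun l : Fin (n + 1) => f z l.castSucc) (b i))
    (hnc : ¬ ∀ z w, ∃ c : ℂ, f w = c • f z) :
    ∀ z, ∏ i, eval (fun l : Fin (n + 1) => f z l.castSucc) (b i) = 0 := by
  have hQ1 : 1 ≤ Q := by
    by_contra h0
    have h1 : Q = 0 := by omega
    rw [h1, Nat.cast_zero] at hQ
    linarith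
  have hD1 : 1 ≤ Q * d := Nat.mul_pos hQ1 hd
  obtain ⟨hdeg, -, -⟩ := prod_degree_forms b hb hb0
  have hfc : ∀ j, Differentiable ℂ (fun z => f z j) := fun j => differentiable_pi.1 hf j
  have heval : ∀ x : Fin (n + 2) → ℂ, eval x (aeval (fun l : Fin (n + 1) =>
      (X l.castSucc : MvPolynomial (Fin (n + 2)) ℂ)) (∏ i, b i)) =
      ∏ i, eval (fun l : Fin (n + 1) => x l.castSucc) (b i) := by
    intro x
    have h3 : aeval (fun l : Fin (n + 1) => (X l.castSucc : MvPolynomial (Fin (n + 2)) ℂ))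
        (∏ i, b i) = rename Fin.castSucc (∏ i, b i) := by
      rw [rename_eq_aeval]
      rfl
    rw [h3, eval_rename, map_prod]
    rfl
  have hmult := multiple_cyclic_form he heQ hD1 _ hdeg
  have hcur := curves_of_tot hd b hb hb0 hC hQ hT _ _ hmult f hf hf0 (by
    intro z p hp
    rw [Set.mem_singleton_iff] at hp
    rw [hp, map_sub, map_mul, map_pow, map_pow, eval_X, eval_X, sub_eq_zero, eval_rename,
      map_prod]
    exact heq z)
  rcases hcur with h | ⟨t, ht0, ht⟩
  · intro z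
    rw [← heval]
    exact h z
  · by_contra hcon
    push Not at hcon
    obtain ⟨z1, hz1⟩ := hcon
    apply hnc
    obtain ⟨l, hl⟩ : ∃ l, t l ≠ 0 := by
      by_contra h
      push Not at h
      exact ht0 (funext h)
    set lam : ℂ → ℂ := fun z => f z l.castSucc / t l with hlam
    have hlamd : Differentiable ℂ lam := (hfc _).div_const _
    have hfj : ∀ z (j : Fin (n + 1)), f z j.castSucc = lam z * t j := by
      intro z j
      have h1 := ht z (C (t l) * X j.castSucc - C (t j) * X l.castSucc) (Or.inr ⟨l, j, rfl⟩)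
      rw [map_sub, map_mul, map_mul, eval_C, eval_C, eval_X, eval_X, sub_eq_zero] at h1
      rw [hlam]
      field_simp
      linear_combination h1
    set P : ℂ := ∏ i, eval t (b i) with hP
    have hprod : ∀ z, ∏ i, eval (fun l : Fin (n + 1) => f z l.castSucc) (b i) = lam z ^ (Q * d) * P := by
      intro z
      have h9 : ∏ _i : Fin Q, lam z ^ d = lam z ^ (Q * d) := by
        rw [Finset.prod_const, Finset.card_univ, Fintype.card_fin, ← pow_mul, mul_comm d Q]
      rw [hP, ← h9, ← Finset.prod_mul_distrib]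
      refine Finset.prod_congr rfl fun i _ => ?_
      have h10 : (fun l : Fin (n + 1) => f z l.castSucc) = (fun i => lam z * t i) := funext fun j => hfj z j
      rw [h10, eval_smul_form (hb i)]
    have heQ' : e ≤ Q * d := Nat.le_of_dvd hD1 heQ
    rw [hprod] at hz1
    have hP0 : P ≠ 0 := right_ne_zero_of_mul hz1
    have hlz1 : lam z1 ≠ 0 := by
      intro h
      apply left_ne_zero_of_mul hz1
      rw [h, zero_pow (by omega)]
    set w : ℂ → ℂ := fun z => f z (Fin.last (n + 1)) with hw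
    have hwd : Differentiable ℂ w := hfc _
    have hmain : ∀ z, lam z ^ (Q * d - e) * (w z ^ e * t 0 ^ (Q * d - e) - lam z ^ e * P) = 0 := by
      intro z
      have h1 := heq z
      rw [hprod] at h1
      have h2 : f z 0 = lam z * t 0 := hfj z 0
      rw [h2] at h1
      have h3 : lam z ^ (Q * d) = lam z ^ (Q * d - e) * lam z ^ e := by
        rw [← pow_add]
        congr 1
        omega
      rw [h3, mul_pow] at h1
      show lam z ^ (Q * d - e) * (f z (Fin.last (n + 1)) ^ e * t 0 ^ (Q * d - e) - lam z ^ e * P) = 0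
      linear_combination h1
    have hall : ∀ z, w z ^ e * t 0 ^ (Q * d - e) - lam z ^ e * P = 0 := by
      set g : ℂ → ℂ := fun z => w z ^ e * t 0 ^ (Q * d - e) - lam z ^ e * P with hg
      have hgd : Differentiable ℂ g := ((hwd.pow e).mul_const _).sub ((hlamd.pow e).mul_const _)
      have h5 : AnalyticOnNhd ℂ g Set.univ := fun z _ => hgd.analyticAt z
      have h6 : AnalyticOnNhd ℂ (fun _ : ℂ => (0 : ℂ)) Set.univ := fun z _ => analyticAt_const
      have h7 : g =ᶠ[nhds z1] fun _ => 0 := by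
        filter_upwards [(hlamd.continuous.continuousAt).eventually_ne hlz1] with z hz
        exact (mul_eq_zero.1 (hmain z)).resolve_left (pow_ne_zero _ hz)
      have h8 := h5.eq_of_eventuallyEq h6 h7
      exact fun z => congrFun h8 z
    have ht00 : t 0 ^ (Q * d - e) ≠ 0 := by
      intro h
      have h1 := hall z1
      rw [h, mul_zero, zero_sub, neg_eq_zero] at h1
      exact mul_ne_zero (pow_ne_zero _ hlz1) hP0 h1
    have hlam0 : ∀ z, lam z ≠ 0 := by
      intro z h
      have h1 := hall z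
      rw [h, zero_pow (by omega), zero_mul, sub_zero] at h1
      have h2 : w z = 0 := by
        have h3 := (mul_eq_zero.1 h1).resolve_right ht00
        exact pow_eq_zero_iff (by omega) |>.1 h3
      apply hf0 z
      funext j
      refine Fin.lastCases ?_ (fun j => ?_) j
      · exact h2
      · rw [hfj z j, h, zero_mul]
        rfl
    set q : ℂ → ℂ := fun z => w z / lam z with hq
    have hqd : Differentiable ℂ q := hwd.div hlamd hlam0
    have hqe : ∀ z, q z ^ e = P / t 0 ^ (Q * d - e) := by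
      intro z
      have h1 := hall z
      have h2 := hlam0 z
      rw [hq]
      simp only
      rw [div_pow, div_eq_div_iff (pow_ne_zero _ h2) ht00]
      linear_combination h1
    have hq0 : ∀ z, q z ≠ 0 := by
      intro z h
      have h1 := hqe z
      rw [h, zero_pow (by omega)] at h1
      exact div_ne_zero hP0 ht00 h1.symm
    have hder : ∀ z, deriv q z = 0 := by
      intro z
      have h1 : HasDerivAt (fun z => q z ^ e) ((e : ℂ) * q z ^ (e - 1) * deriv q z) z :=
        (hqd z).hasDerivAt.fun_pow e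
      have h2 : (fun z => q z ^ e) = fun _ => P / t 0 ^ (Q * d - e) := funext hqe
      rw [h2] at h1
      have h3 := h1.unique (hasDerivAt_const z _)
      have he0 : (e : ℂ) ≠ 0 := by
        exact_mod_cast (show e ≠ 0 by omega)
      exact (mul_eq_zero.1 h3).resolve_left (mul_ne_zero he0 (pow_ne_zero _ (hq0 z)))
    have hconst : ∀ z z', q z = q z' := is_const_of_deriv_eq_zero hqd hder
    intro z z'
    refine ⟨lam z' / lam z, ?_⟩
    funext j
    rw [Pi.smul_apply, smul_eq_mul]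
    refine Fin.lastCases ?_ (fun j => ?_) j
    · have h1 := hconst z' z
      simp only [hq] at h1
      have h2 := hlam0 z
      have h3 := hlam0 z'
      show w z' = lam z' / lam z * w z
      rw [div_eq_div_iff h3 h2] at h1
      field_simp
      linear_combination h1
    · rw [hfj z j, hfj z' j]
      have h2 := hlam0 z
      field_simp

end Pool.Agent.TT
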