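import Pool.Agent.Lib_MP_b9fedf_tt.AutB

/-! [TT-A9]: automorphisms of `ℂ` which act on generic vectors as a rational matrix. -/

set_option autoImplicit false

namespace Pool.Agent.TT
open MvPolynomial

/-- [TT-A9a] Proof.  The map `X (i,l) ↦ ∑ l', C (M l' l) X (i,l')` of `MvPolynomial (ι × Fin m) R` to itself is injective (inverse from
`M⁻¹`), and `aeval` at the new family is `aeval` at `a` after this map. -/
theorem algInd_mul {ι : Type} {m : ℕ} (R : Subalgebra ℚ ℂ) (a : ι → Fin m → ℂ)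
    (ha : AlgebraicIndependent R (fun p : ι × Fin m => a p.1 p.2))
    (M : Matrix (Fin m) (Fin m) ℚ) (hM : M.det ≠ 0) :
    AlgebraicIndependent R (fun p : ι × Fin m => ∑ l', a p.1 l' * (M l' p.2 : ℂ)) := by
  classical
  let φ : Matrix (Fin m) (Fin m) ℚ → MvPolynomial (ι × Fin m) R →ₐ[R] MvPolynomial (ι × Fin m) R :=
    fun N => aeval (fun p : ι × Fin m => ∑ l', C (algebraMap ℚ R (N l' p.2)) * X (p.1, l'))
  have hcomp : ∀ N N' : Matrix (Fin m) (Fin m) ℚ, N' * N = 1 → ∀ P, φ N' (φ N P) = P := by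
    intro N N' hN P
    have h1 : (φ N').comp (φ N) = AlgHom.id R _ := by
      refine MvPolynomial.algHom_ext fun p => ?_
      show φ N' (φ N (X p)) = X p
      have h2 : φ N (X p) = ∑ l', C (algebraMap ℚ R (N l' p.2)) * X (p.1, l') := aeval_X _ _
      rw [h2, map_sum]
      have h3 : ∀ l', φ N' (C (algebraMap ℚ R (N l' p.2)) * X (p.1, l')) =
          ∑ k, C (algebraMap ℚ R (N' k l' * N l' p.2)) * X (p.1, k) := by
        intro l'
        rw [map_mul]
        have h4 : φ N' (X (p.1, l')) = ∑ k, C (algebraMap ℚ R (N' k l')) * X (p.1, k) :=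
          aeval_X _ _
        have h5 : φ N' (C (algebraMap ℚ R (N l' p.2))) = C (algebraMap ℚ R (N l' p.2)) :=
          aeval_C _ _
        rw [h4, h5, Finset.mul_sum]
        refine Finset.sum_congr rfl fun k _ => ?_
        rw [map_mul, map_mul]
        ring
      rw [Finset.sum_congr rfl fun l' _ => h3 l', Finset.sum_comm]
      have h6 : ∀ k, ∑ l', C (algebraMap ℚ R (N' k l' * N l' p.2)) * X (p.1, k) =
          (C (algebraMap ℚ R ((N' * N) k p.2)) * X (p.1, k) : MvPolynomial (ι × Fin m) R) := by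
        intro k
        rw [← Finset.sum_mul, Matrix.mul_apply, map_sum, map_sum]
      rw [Finset.sum_congr rfl fun k _ => h6 k, hN]
      rw [Finset.sum_eq_single p.2]
      · rw [Matrix.one_apply_eq, map_one, map_one, one_mul]
      · intro k _ hk
        rw [Matrix.one_apply_ne hk, map_zero, map_zero, zero_mul]
      · intro h
        exact absurd (Finset.mem_univ _) h
    exact AlgHom.congr_fun h1 P
  have hinv : M⁻¹ * M = 1 := Matrix.nonsing_inv_mul M (Ne.isUnit hM)
  have hinj : Function.Injective (φ M) :=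
    Function.LeftInverse.injective (g := φ M⁻¹) (hcomp M M⁻¹ hinv)
  rw [algebraicIndependent_iff_injective_aeval] at ha ⊢
  have h7 : (aeval (fun p : ι × Fin m => ∑ l', a p.1 l' * (M l' p.2 : ℂ)) :
      MvPolynomial (ι × Fin m) R →ₐ[R] ℂ) = (aeval (fun p : ι × Fin m => a p.1 p.2)).comp (φ M) := by
    refine MvPolynomial.algHom_ext fun p => ?_
    rw [aeval_X]
    show _ = aeval (fun p : ι × Fin m => a p.1 p.2) (φ M (X p))
    have h2 : φ M (X p) = ∑ l', C (algebraMap ℚ R (M l' p.2)) * X (p.1, l') := aeval_X _ _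
    rw [h2, map_sum]
    refine Finset.sum_congr rfl fun l' _ => ?_
    rw [map_mul, aeval_C, aeval_X, mul_comm]
    congr 1
  rw [h7]
  exact ha.comp hinj

theorem exists_aut {ι : Type} [Finite ι] {m N : ℕ} (x : Fin N → ℂ) (a : ι → Fin m → ℂ)
    (ha : AlgebraicIndependent (Algebra.adjoin ℚ (Set.range x))
      (fun p : ι × Fin m => a p.1 p.2))
    (M : Matrix (Fin m) (Fin m) ℚ) (hM : M.det ≠ 0) :
    ∃ σ : ℂ ≃+* ℂ, (∀ s, σ (x s) = x s) ∧ ∀ i l, σ (a i l) = ∑ l', a i l' * (M l' l : ℂ) := by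
  obtain ⟨σ, h1, h2⟩ := exists_ringEquiv_over x ha (algInd_mul _ a ha M hM)
  exact ⟨σ, h1, fun i l => h2 (i, l)⟩

end Pool.Agent.TT
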