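import Pool.Agent.Lib_MP_b9fedf_tt.Box

/-! [TT-A8]: linear changes of the coordinates. -/

set_option autoImplicit false

namespace Pool.Agent.TT
open MvPolynomial

/-- [TT-A8a] -/
theorem eval_sbh {n : ℕ} (h : Matrix (Fin (n + 1)) (Fin (n + 1)) ℂ) (y : YV n → ℂ)
    (x : Fin (n + 1) → ℂ) (g : GV n → ℂ) (G : MvPolynomial (Vr n) ℂ) :
    eval (ev y x g) (sbh h G) =
      eval (ev y (h.mulVec x) (fun p => h.mulVec (fun l => g (p.1, l)) p.2)) G := by
  induction G using MvPolynomial.induction_on with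
  | C a =>
    unfold sbh
    rw [aeval_C]
    simp
  | add p q hp hq => rw [map_add, map_add, map_add, hp, hq]
  | mul_X p v hp =>
    rw [map_mul, map_mul, map_mul, hp, eval_X]
    congr 1
    unfold sbh
    rw [aeval_X]
    rcases v with v | l | p
    · simp [ev]
    · simp [ev, Matrix.mulVec, dotProduct]
    · simp [ev, Matrix.mulVec, dotProduct]

/-- [TT-A8b] the substitution commutes with the derivation (check on the variables) -/
theorem dd_sbh {n : ℕ} (h : Matrix (Fin (n + 1)) (Fin (n + 1)) ℂ) (G : MvPolynomial (Vr n) ℂ) :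
    dd n (sbh h G) = sbh h (dd n G) := by
  have hX : ∀ v : Vr n, dd n (X v) = dvar n v := fun v => mkDerivation_X _ _ _
  have hC : ∀ c : ℂ, dd n (C c) = 0 := fun c => derivation_C _ _
  induction G using MvPolynomial.induction_on with
  | C a =>
    have : sbh h (C a) = C a := by
      unfold sbh
      rw [aeval_C]
      rfl
    rw [this, hC, map_zero]
  | add p q hp hq => rw [map_add, map_add, map_add, map_add, hp, hq]
  | mul_X p v hp =>
    rw [map_mul, Derivation.leibniz, Derivation.leibniz, map_add, hp, hX]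
    simp only [smul_eq_mul, map_mul]
    congr 2
    rcases v with v | l | p
    · simp only [sbh, aeval_X, Sum.elim_inl, dvar, hX]
    · simp only [sbh, aeval_X, Sum.elim_inl, Sum.elim_inr, dvar, map_sum, Derivation.leibniz, hX,
        hC, smul_eq_mul, map_mul, Finset.mul_sum, mul_zero, add_zero]
      rw [Finset.sum_comm]
      refine Finset.sum_congr rfl fun j _ => Finset.sum_congr rfl fun l' _ => ?_
      ring
    · simp only [sbh, aeval_X, Sum.elim_inr, dvar, map_sum, Derivation.leibniz, hX,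
        hC, add_zero, smul_eq_mul, mul_zero, Finset.sum_const_zero, map_zero]

theorem dd_iter_sbh {n : ℕ} (h : Matrix (Fin (n + 1)) (Fin (n + 1)) ℂ)
    (G : MvPolynomial (Vr n) ℂ) (a : ℕ) :
    (⇑(dd n))^[a] (sbh h G) = sbh h ((⇑(dd n))^[a] G) := by
  induction a generalizing G with
  | zero => rfl
  | succ a ih => rw [Function.iterate_succ_apply, Function.iterate_succ_apply, dd_sbh, ih]

/-- bounds of the weight and of the degree in `x` are additive -/
private theorem bd_mul {n ω A ω' A' : ℕ} {P Q : MvPolynomial (Vr n) ℂ} (hP : Bd ω A P)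
    (hQ : Bd ω' A' Q) : Bd (ω + ω') (A + A') (P * Q) := by
  classical
  intro m hm
  obtain ⟨a, ha, b, hb, rfl⟩ := Finset.mem_add.1 (support_mul P Q hm)
  obtain ⟨h1, h2⟩ := hP a ha
  obtain ⟨h3, h4⟩ := hQ b hb
  refine ⟨?_, ?_⟩
  · rw [map_add]
    exact add_le_add h1 h3
  · simp only [Finsupp.coe_add, Pi.add_apply, Finset.sum_add_distrib]
    exact add_le_add h2 h4

private theorem bd_const {n : ℕ} (c : ℂ) : Bd 0 0 (C c : MvPolynomial (Vr n) ℂ) := by
  intro m hm
  have h3 : m = 0 := by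
    by_contra hne
    rw [mem_support_iff, coeff_C, if_neg (Ne.symm hne)] at hm
    exact hm rfl
  rw [h3]
  simp

private theorem bd_sum {n ω A : ℕ} {ρ : Type} (s : Finset ρ) (P : ρ → MvPolynomial (Vr n) ℂ)
    (hP : ∀ i ∈ s, Bd ω A (P i)) : Bd ω A (∑ i ∈ s, P i) := by
  classical
  intro m hm
  obtain ⟨i, hi, hm2⟩ := Finset.mem_biUnion.1 (support_sum hm)
  exact hP i hi m hm2

private theorem bd_pow {n ω A : ℕ} {P : MvPolynomial (Vr n) ℂ} (hP : Bd ω A P) (k : ℕ) :
    Bd (k * ω) (k * A) (P ^ k) := by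
  induction k with
  | zero =>
    rw [pow_zero, zero_mul, zero_mul]
    exact bd_const 1
  | succ k ih =>
    rw [pow_succ, Nat.succ_mul, Nat.succ_mul]
    exact bd_mul ih hP

private theorem bd_prod {n : ℕ} {ρ : Type} (s : Finset ρ) (ω A : ρ → ℕ) (P : ρ → MvPolynomial (Vr n) ℂ)
    (hP : ∀ i ∈ s, Bd (ω i) (A i) (P i)) : Bd (∑ i ∈ s, ω i) (∑ i ∈ s, A i) (∏ i ∈ s, P i) := by
  classical
  induction s using Finset.induction_on with
  | empty =>
    rw [Finset.prod_empty, Finset.sum_empty, Finset.sum_empty]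
    exact bd_const 1
  | insert i s hi ih =>
    rw [Finset.prod_insert hi, Finset.sum_insert hi, Finset.sum_insert hi]
    exact bd_mul (hP i (Finset.mem_insert_self i s))
      (ih fun j hj => hP j (Finset.mem_insert_of_mem hj))

private theorem bd_mono {n ω A ω' A' : ℕ} {P : MvPolynomial (Vr n) ℂ} (hP : Bd ω A P) (h1 : ω ≤ ω')
    (h2 : A ≤ A') : Bd ω' A' P := fun m hm => ⟨(hP m hm).1.trans h1, (hP m hm).2.trans h2⟩

/-- the variables -/
private theorem bd_var {n : ℕ} (v : Vr n) : Bd (Sum.elim (fun v : YV n => v.2 + 1) (fun _ => 0) v)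
    (Sum.elim (fun _ : YV n => 0) (Sum.elim (fun _ => 1) (fun _ => 0)) v)
    (X v : MvPolynomial (Vr n) ℂ) := by
  classical
  intro m hm
  rw [support_X, Finset.mem_singleton] at hm
  rw [hm]
  refine ⟨?_, ?_⟩
  · show Finsupp.weight _ _ ≤ _
    rw [Finsupp.weight_single]
    simp
  · rcases v with v | l | p
    · simp
    · simp only [Finsupp.single_apply, Sum.inr.injEq, Sum.inl.injEq, Sum.elim_inr, Sum.elim_inl]
      rw [Finset.sum_ite_eq]
      simp
    · simp

/-- [TT-A8c] -/
theorem bd_sbh {n ω A : ℕ} (h : Matrix (Fin (n + 1)) (Fin (n + 1)) ℂ)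
    {G : MvPolynomial (Vr n) ℂ} (hG : Bd ω A G) : Bd ω A (sbh h G) := by
  classical
  set w : Vr n → ℕ := Sum.elim (fun v : YV n => v.2 + 1) fun _ => 0 with hw
  set w' : Vr n → ℕ := Sum.elim (fun _ : YV n => 0) (Sum.elim (fun _ => 1) (fun _ => 0)) with hw'
  set f : Vr n → MvPolynomial (Vr n) ℂ := Sum.elim (fun v => X (Sum.inl v))
    (Sum.elim (fun l => ∑ l', C (h l l') * X (Sum.inr (Sum.inl l')))
      (fun p => ∑ l', C (h p.2 l') * X (Sum.inr (Sum.inr (p.1, l'))))) with hf
  have hvar : ∀ v, Bd (w v) (w' v) (f v) := by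
    intro v
    rcases v with v | l | p
    · exact bd_var (Sum.inl v)
    · show Bd 0 1 (∑ l', C (h l l') * X (Sum.inr (Sum.inl l')))
      refine bd_sum _ _ fun l' _ => ?_
      have := bd_mul (bd_const (h l l')) (bd_var (n := n) (Sum.inr (Sum.inl l')))
      rw [zero_add, zero_add] at this
      exact this
    · show Bd 0 0 (∑ l', C (h p.2 l') * X (Sum.inr (Sum.inr (p.1, l'))))
      refine bd_sum _ _ fun l' _ => ?_
      have := bd_mul (bd_const (h p.2 l')) (bd_var (n := n) (Sum.inr (Sum.inr (p.1, l'))))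
      rw [zero_add, zero_add] at this
      exact this
  have h1 : sbh h G = ∑ d ∈ G.support, algebraMap ℂ (MvPolynomial (Vr n) ℂ) (G.coeff d) *
      ∏ i ∈ d.support, f i ^ d i := by
    unfold sbh
    rw [aeval_def, eval₂_eq]
  rw [h1]
  refine bd_sum _ _ fun d hd => ?_
  have h2 := bd_mul (bd_const (n := n) (G.coeff d))
    (bd_prod d.support (fun i => d i * w i) (fun i => d i * w' i) (fun i => f i ^ d i)
      fun i _ => bd_pow (hvar i) (d i))
  obtain ⟨h3, h4⟩ := hG d hd
  refine bd_mono h2 ?_ ?_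
  · rw [zero_add]
    refine le_trans (le_of_eq ?_) h3
    show _ = Finsupp.weight w d
    rw [Finsupp.weight_apply, Finsupp.sum]
    rfl
  · rw [zero_add]
    refine le_trans (le_of_eq ?_) h4
    have h5 : ∑ i ∈ d.support, d i * w' i =
        ∑ i ∈ d.support.filter (fun i => w' i ≠ 0), d i * w' i := by
      rw [Finset.sum_filter]
      refine Finset.sum_congr rfl fun i _ => ?_
      by_cases hi : w' i = 0
      · rw [if_neg (by simp [hi]), hi, mul_zero]
      · rw [if_pos hi]
    have h6 : ∑ l : Fin (n + 1), d (Sum.inr (Sum.inl l)) =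
        ∑ l ∈ Finset.univ.filter (fun l : Fin (n + 1) => d (Sum.inr (Sum.inl l)) ≠ 0),
          d (Sum.inr (Sum.inl l)) := by
      rw [Finset.sum_filter]
      refine Finset.sum_congr rfl fun l _ => ?_
      by_cases hl : d (Sum.inr (Sum.inl l)) = 0
      · rw [if_neg (by simp [hl]), hl]
      · rw [if_pos hl]
    rw [h5, h6]
    symm
    refine Finset.sum_bij (fun l _ => Sum.inr (Sum.inl l)) ?_ ?_ ?_ ?_
    · intro l hl
      rw [Finset.mem_filter] at hl
      rw [Finset.mem_filter]
      exact ⟨Finsupp.mem_support_iff.2 hl.2, by simp [hw']⟩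
    · intro a _ b _ hab
      exact Sum.inl.inj (Sum.inr.inj hab)
    · intro v hv
      rw [Finset.mem_filter] at hv
      rcases v with v | l | p
      · exact absurd (by simp [hw']) hv.2
      · exact ⟨l, by
          rw [Finset.mem_filter]
          exact ⟨Finset.mem_univ _, Finsupp.mem_support_iff.1 hv.1⟩, rfl⟩
      · exact absurd (by simp [hw']) hv.2
    · intro l _
      simp [hw']

/-- [TT-A8d] Proof.  `(b_i h') · (h x) = b_i · x`; use `dd_iter_sbh` and `eval_sbh`. -/
theorem van_sbh {n c : ℕ} {Ω ι : Type} (y : Ω → YV n → ℂ) (b : ι → Fin (n + 1) → ℂ)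
    (h h' : Matrix (Fin (n + 1)) (Fin (n + 1)) ℂ) (hh : h' * h = 1) (G : MvPolynomial (Vr n) ℂ)
    (hV : Van c y (fun i => Matrix.vecMul (b i) h') G) : Van c y b (sbh h G) := by
  intro a ha i j hij z x g hi hj
  rw [dd_iter_sbh, eval_sbh]
  have h0 : ∀ i, ∑ l, b i l * x l = 0 →
      ∑ l, (Matrix.vecMul (b i) h') l * (h.mulVec x) l = 0 := by
    intro i hi
    have h1 : (Matrix.vecMul (b i) h') ⬝ᵥ (h.mulVec x) = b i ⬝ᵥ x := by
      rw [Matrix.dotProduct_mulVec, Matrix.vecMul_vecMul, hh, Matrix.vecMul_one]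
    have h2 : b i ⬝ᵥ x = 0 := hi
    rw [h2] at h1
    exact h1
  exact hV a ha i j hij z _ _ (h0 i hi) (h0 j hj)

end Pool.Agent.TT
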