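import Pool.Agent.Lib_MP_b9fedf_tt.Growth

/-! [TT-A5]: a space of polynomials which do not vanish identically. -/

set_option autoImplicit false

namespace Pool.Agent.TT
open MvPolynomial Module

private theorem exists_mons' {n : ℕ} {Ω : Type} (s : Set (YV n →₀ ℕ)) (F : (YV n →₀ ℕ) → Ω → ℂ)
    (h0 : FiniteDimensional ℂ (Submodule.span ℂ (F '' s))) :
    ∃ m : Fin (finrank ℂ (Submodule.span ℂ (F '' s))) → (YV n →₀ ℕ), (∀ b, m b ∈ s) ∧
      LinearIndependent ℂ (fun b => F (m b)) := by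
  obtain ⟨f, hf, -, hli⟩ := Submodule.exists_fun_fin_finrank_span_eq ℂ (F '' s)
  choose m hm hmf using hf
  refine ⟨m, hm, ?_⟩
  have h1 : (fun b => F (m b)) = f := funext fun b => hmf b
  rw [h1]
  exact hli

private theorem exists_mons {n : ℕ} {Ω : Type} (y : Ω → YV n → ℂ) (ω : ℕ) :
    ∃ m : Fin (finrank ℂ (U y ω)) → (YV n →₀ ℕ), (∀ b, wY (m b) ≤ ω) ∧
      LinearIndependent ℂ (fun b (z : Ω) => (m b).prod fun v e => y z v ^ e) :=
  exists_mons' (YM n ω) (fun (m : YV n →₀ ℕ) (z : Ω) => m.prod fun v e => y z v ^ e) (u_finite y ω)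

/-- the monomial `x ^ α g ^ γ` -/
private noncomputable def mx {n A B : ℕ} (α : Fin (n + 1) → Fin A) (γ : GV n → Fin B) : Fin (n + 1) ⊕ GV n →₀ ℕ :=
  Finsupp.sumElim (Finsupp.equivFunOnFinite.symm fun l => (α l : ℕ)) (Finsupp.equivFunOnFinite.symm fun p => (γ p : ℕ))

private theorem mx_inj {n A B : ℕ} {α α' : Fin (n + 1) → Fin A} {γ γ' : GV n → Fin B} (h : mx α γ = mx α' γ') :
    (α, γ) = (α', γ') := by
  have h1 : α = α' := by
    funext l
    have h2 := DFunLike.congr_fun h (Sum.inl l)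
    exact Fin.ext h2
  have h3 : γ = γ' := by
    funext l
    have h2 := DFunLike.congr_fun h (Sum.inr l)
    exact Fin.ext h2
  rw [h1, h3]

private theorem wt_mm {n : ℕ} (m : YV n →₀ ℕ) (m' : Fin (n + 1) ⊕ GV n →₀ ℕ) : wt (n := n) (Finsupp.sumElim m m') = wY m := by
  unfold wt wY
  rw [Finsupp.weight_apply, Finsupp.weight_apply, Finsupp.sum, Finsupp.sum]
  have h1 : (Finsupp.sumElim m m').support = m.support.disjSum m'.support := rfl
  rw [h1, Finset.sum_disjSum]
  simp only [Finsupp.sumElim_inl, Sum.elim_inl, Sum.elim_inr, smul_zero, Finset.sum_const_zero, add_zero]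

private theorem eval_mm {n : ℕ} (m : YV n →₀ ℕ) (m' : Fin (n + 1) ⊕ GV n →₀ ℕ) (y : YV n → ℂ) (x : Fin (n + 1) → ℂ)
    (g : GV n → ℂ) : eval (ev y x g) (monomial (Finsupp.sumElim m m') 1) =
      (m.prod fun v e => y v ^ e) * eval (Sum.elim x g) (monomial m' 1) := by
  rw [eval_monomial, eval_monomial, one_mul, one_mul, Finsupp.prod_sumElim]
  rfl

/-- [TT-A5] Proof.  Choose monomials `m_b`, `b : Fin (finrank ℂ (U y ω))`, of weight at most `ω` such that the functions `z ↦ (y z) ^ m_b` are a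
basis of `U y ω` (a spanning set contains a basis), and `Φ c = ∑ c (b, α, γ) • (y ^ m_b x ^ α g ^ γ)`.  If the value is `0` for all
`z, x, g`, then by the independence of the functions, for all `b`, `x`, `g`: `∑ α γ, c (b, α, γ) x ^ α g ^ γ = 0`, and
`c = 0` (`MvPolynomial.funext`). -/
theorem box_indep {n : ℕ} {Ω : Type} (y : Ω → YV n → ℂ) (ω A B : ℕ) :
    ∃ Φ : ((Fin (finrank ℂ (U y ω)) × (Fin (n + 1) → Fin A) × (GV n → Fin B)) → ℂ) →ₗ[ℂ]
      MvPolynomial (Vr n) ℂ, (∀ c, Bx ω A B (Φ c)) ∧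
      ∀ c, c ≠ 0 → ∃ (z : Ω) (x : Fin (n + 1) → ℂ) (g : GV n → ℂ), eval (ev (y z) x g) (Φ c) ≠ 0 := by
  classical
  obtain ⟨m, hm, hli⟩ := exists_mons y ω
  refine ⟨Fintype.linearCombination ℂ (fun i : Fin (finrank ℂ (U y ω)) × (Fin (n + 1) → Fin A) × (GV n → Fin B) =>
    (monomial (Finsupp.sumElim (m i.1) (mx i.2.1 i.2.2)) (1 : ℂ) : MvPolynomial (Vr n) ℂ)), ?_, ?_⟩
  · intro c s hs
    rw [Fintype.linearCombination_apply] at hs
    have h1 := support_sum hs
    rw [Finset.mem_biUnion] at h1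
    obtain ⟨i, -, hi⟩ := h1
    have h2 := support_smul hi
    have h3 : s = Finsupp.sumElim (m i.1) (mx i.2.1 i.2.2) := by
      have h4 := support_monomial_subset h2
      rwa [Finset.mem_singleton] at h4
    rw [h3]
    refine ⟨?_, fun l => ?_, fun p => ?_⟩
    · rw [wt_mm]
      exact hm i.1
    · exact (i.2.1 l).2
    · exact (i.2.2 p).2
  · intro c hc
    by_contra hcon
    push Not at hcon
    apply hc
    have hev : ∀ (z : Ω) (x : Fin (n + 1) → ℂ) (g : GV n → ℂ),
        ∑ b, (∑ d : (Fin (n + 1) → Fin A) × (GV n → Fin B), c (b, d) * eval (Sum.elim x g) (monomial (mx d.1 d.2) 1)) *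
          ((m b).prod fun v e => y z v ^ e) = 0 := by
      intro z x g
      have h1 := hcon z x g
      rw [Fintype.linearCombination_apply, map_sum, Fintype.sum_prod_type] at h1
      rw [← h1]
      apply Finset.sum_congr rfl
      intro b _
      rw [Finset.sum_mul]
      apply Finset.sum_congr rfl
      intro d _
      rw [smul_eval, eval_mm]
      ring
    have hb : ∀ (b : Fin (finrank ℂ (U y ω))) (x : Fin (n + 1) → ℂ) (g : GV n → ℂ),
        ∑ d : (Fin (n + 1) → Fin A) × (GV n → Fin B), c (b, d) * eval (Sum.elim x g) (monomial (mx d.1 d.2) 1) = 0 := by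
      intro b x g
      refine Fintype.linearIndependent_iff.1 hli (fun b => ∑ d : (Fin (n + 1) → Fin A) × (GV n → Fin B),
        c (b, d) * eval (Sum.elim x g) (monomial (mx d.1 d.2) 1)) ?_ b
      funext z
      have h1 := hev z x g
      rw [Finset.sum_apply]
      exact h1
    funext i
    obtain ⟨b, d0⟩ := i
    have hp : (∑ d : (Fin (n + 1) → Fin A) × (GV n → Fin B), c (b, d) • (monomial (mx d.1 d.2) (1 : ℂ) :
        MvPolynomial (Fin (n + 1) ⊕ GV n) ℂ)) = 0 := by
      apply MvPolynomial.funext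
      intro w
      have h1 := hb b (fun l => w (Sum.inl l)) (fun p => w (Sum.inr p))
      have h2 : (Sum.elim (fun l => w (Sum.inl l)) (fun p => w (Sum.inr p)) : Fin (n + 1) ⊕ GV n → ℂ) = w := by
        funext s
        rcases s with s | s <;> rfl
      rw [h2] at h1
      rw [map_sum, map_zero, ← h1]
      apply Finset.sum_congr rfl
      intro d _
      rw [smul_eval]
    have hco := congrArg (coeff (mx d0.1 d0.2)) hp
    rw [coeff_sum, coeff_zero] at hco
    rw [Finset.sum_eq_single d0] at hco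
    · rw [coeff_smul, coeff_monomial, if_pos rfl, smul_eq_mul, mul_one] at hco
      exact hco
    · intro d _ hd
      rw [coeff_smul, coeff_monomial, if_neg (fun h => hd (mx_inj h)), smul_zero]
    · intro h
      exact absurd (Finset.mem_univ _) h

end Pool.Agent.TT
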