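import Pool.Agent.Lib_MP_b9fedf_tt.Growth

/-! [TT-A4]: the restrictions to a linear subspace form a space of small dimension. -/

set_option autoImplicit false

namespace Pool.Agent.TT
open MvPolynomial Module

/-- the product of a basis vector, a monomial in `t` and a monomial in `g` -/
private noncomputable def rv {n r : ℕ} {Ω : Type} (N A B : ℕ) (u : Fin N → Ω → ℂ)
    (i : Fin N × (Fin r → Fin A) × (GV n → Fin B)) : Ω × (Fin r → ℂ) × (GV n → ℂ) → ℂ :=
  fun p => u i.1 p.1 * (∏ s, p.2.1 s ^ (i.2.1 s : ℕ)) * ∏ q, p.2.2 q ^ (i.2.2 q : ℕ)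

private theorem rv_mem {n r : ℕ} {Ω : Type} (N A B : ℕ) (u : Fin N → Ω → ℂ) (c : Fin N → ℂ)
    (P : MvPolynomial (Fin r) ℂ) (hP : P.totalDegree < A) (γ : GV n → ℕ) (hγ : ∀ q, γ q < B) :
    (fun p : Ω × (Fin r → ℂ) × (GV n → ℂ) =>
      (∑ b, c b * u b p.1) * eval p.2.1 P * ∏ q, p.2.2 q ^ γ q) ∈
      Submodule.span ℂ (Set.range (rv (n := n) (r := r) N A B u)) := by
  have hdeg : ∀ α ∈ P.support, ∀ s, α s < A := by
    intro α hα s
    have h1 : (α.sum fun _ e => e) ≤ P.totalDegree := le_totalDegree hα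
    have h2 : α s ≤ α.sum fun _ e => e := by
      rw [Finsupp.sum_fintype _ _ (fun _ => rfl)]
      exact Finset.single_le_sum (f := fun i => α i) (fun i _ => Nat.zero_le _)
        (Finset.mem_univ s)
    omega
  have heq : (fun p : Ω × (Fin r → ℂ) × (GV n → ℂ) =>
      (∑ b, c b * u b p.1) * eval p.2.1 P * ∏ q, p.2.2 q ^ γ q) =
      ∑ b, ∑ α ∈ P.support.attach, (c b * coeff α.1 P) •
        rv (n := n) (r := r) N A B u
          (b, (fun s => ⟨α.1 s, hdeg α.1 α.2 s⟩), (fun q => ⟨γ q, hγ q⟩)) := by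
    funext p
    rw [Finset.sum_apply]
    simp only [Finset.sum_apply, Pi.smul_apply, smul_eq_mul, rv]
    rw [Finset.sum_mul, Finset.sum_mul]
    refine Finset.sum_congr rfl fun b _ => ?_
    rw [eval_eq', Finset.mul_sum, Finset.sum_mul,
      ← Finset.sum_attach P.support (fun α : Fin r →₀ ℕ =>
        c b * u b p.1 * (coeff α P * ∏ i, p.2.1 i ^ α i) * ∏ q, p.2.2 q ^ γ q)]
    refine Finset.sum_congr rfl fun α _ => ?_
    ring
  rw [heq]
  refine Submodule.sum_mem _ fun b _ => Submodule.sum_mem _ fun α _ => Submodule.smul_mem _ _ ?_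
  exact Submodule.subset_span ⟨_, rfl⟩

/-- the values of a monomial -/
private theorem mon_split {n : ℕ} (m : Vr n →₀ ℕ) (y : YV n → ℂ) (x : Fin (n + 1) → ℂ)
    (g : GV n → ℂ) :
    ∏ i ∈ m.support, ev y x g i ^ m i =
      ((m.comapDomain Sum.inl Sum.inl_injective.injOn).prod fun v e => y v ^ e) *
        (∏ l, x l ^ m (Sum.inr (Sum.inl l))) * ∏ q, g q ^ m (Sum.inr (Sum.inr q)) := by
  classical
  have h1 : ∏ i ∈ m.support, ev y x g i ^ m i =
      (∏ v ∈ m.support.toLeft, y v ^ m (Sum.inl v)) *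
        ∏ w ∈ m.support.toRight, Sum.elim x g w ^ m (Sum.inr w) := by
    conv_lhs => rw [← Finset.toLeft_disjSum_toRight (u := m.support)]
    rw [Finset.prod_disjSum]
    rfl
  have h2 : ∏ w ∈ m.support.toRight, Sum.elim x g w ^ m (Sum.inr w) =
      ∏ w, Sum.elim x g w ^ m (Sum.inr w) := by
    refine Finset.prod_subset (Finset.subset_univ _) fun w _ hw => ?_
    have : m (Sum.inr w) = 0 := by
      by_contra h
      exact hw (Finset.mem_toRight.2 (Finsupp.mem_support_iff.2 h))
    rw [this, pow_zero]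
  have h3 : ((m.comapDomain Sum.inl Sum.inl_injective.injOn).prod fun v e => y v ^ e) =
      ∏ v ∈ m.support.toLeft, y v ^ m (Sum.inl v) := by
    rw [Finsupp.prod]
    refine Finset.prod_congr ?_ fun v _ => rfl
    ext v
    rw [Finset.mem_toLeft, Finsupp.mem_support_iff, Finsupp.mem_support_iff,
      Finsupp.comapDomain_apply]
  rw [h1, h2, h3, Fintype.prod_sum_type, mul_assoc]
  rfl

private theorem wY_le {n : ℕ} (m : Vr n →₀ ℕ) :
    wY (m.comapDomain Sum.inl Sum.inl_injective.injOn) ≤ wt m := by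
  classical
  unfold wY wt
  rw [Finsupp.weight_apply, Finsupp.weight_apply]
  have h3 : (m.comapDomain Sum.inl Sum.inl_injective.injOn).support =
      m.support.toLeft := by
    ext v
    rw [Finset.mem_toLeft, Finsupp.mem_support_iff, Finsupp.mem_support_iff,
      Finsupp.comapDomain_apply]
  rw [Finsupp.sum, Finsupp.sum, h3]
  conv_rhs => rw [← Finset.toLeft_disjSum_toRight (u := m.support)]
  rw [Finset.sum_disjSum]
  exact Nat.le_add_right _ _

/-- [TT-A4] Substitute `x_l = ∑ s, L l s * t_s`, `t ∈ ℂ ^ r`.  The functions of `(z, t, g)` which come from polynomials with `Bx ω A B` lie in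
the span of the products `u_b(z) * ∏ t_s ^ α_s * ∏ g_p ^ γ_p`, `u_b` a basis of `U y ω` (`b : Fin (finrank ℂ (U y ω))`),
`α : Fin r → Fin ((n + 1) * A)`, `γ : GV n → Fin B` (a monomial in `x` with exponents below `A` has degree at most
`(n + 1) (A - 1)` and becomes a polynomial of this degree in `t`); `finrank_range_le_card`. -/
theorem restr_dim {n r : ℕ} {Ω : Type} (y : Ω → YV n → ℂ) (ω A B : ℕ)
    (L : Fin (n + 1) → Fin r → ℂ) :
    ∃ W : Submodule ℂ (Ω × (Fin r → ℂ) × (GV n → ℂ) → ℂ), FiniteDimensional ℂ W ∧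
      finrank ℂ W ≤ finrank ℂ (U y ω) * (((n + 1) * A) ^ r * B ^ (n * (n + 1))) ∧
      ∀ G : MvPolynomial (Vr n) ℂ, Bx ω A B G →
        (fun p : Ω × (Fin r → ℂ) × (GV n → ℂ) =>
          eval (ev (y p.1) (fun l => ∑ s, L l s * p.2.1 s) p.2.2) G) ∈ W := by
  classical
  have := u_finite y ω
  set N := finrank ℂ (U y ω) with hN
  let u : Fin N → Ω → ℂ := fun b => (finBasis ℂ (U y ω) b : Ω → ℂ)
  refine ⟨Submodule.span ℂ (Set.range (rv (n := n) (r := r) N ((n + 1) * A) B u)),
    FiniteDimensional.span_of_finite ℂ (Set.finite_range _), ?_, ?_⟩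
  · have h := finrank_range_le_card (R := ℂ) (rv (n := n) (r := r) N ((n + 1) * A) B u)
    rw [Fintype.card_prod, Fintype.card_prod, Fintype.card_fun, Fintype.card_fun, Fintype.card_fin,
      Fintype.card_fin, Fintype.card_fin, Fintype.card_fin, Fintype.card_prod, Fintype.card_fin,
      Fintype.card_fin] at h
    exact h
  · intro G hG
    have heq : (fun p : Ω × (Fin r → ℂ) × (GV n → ℂ) =>
        eval (ev (y p.1) (fun l => ∑ s, L l s * p.2.1 s) p.2.2) G) =
        ∑ m ∈ G.support, coeff m G • (fun p : Ω × (Fin r → ℂ) × (GV n → ℂ) =>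
          ∏ i ∈ m.support, ev (y p.1) (fun l => ∑ s, L l s * p.2.1 s) p.2.2 i ^ m i) := by
      funext p
      rw [Finset.sum_apply, eval_eq]
      rfl
    rw [heq]
    refine Submodule.sum_mem _ fun m hm => Submodule.smul_mem _ _ ?_
    obtain ⟨hw, hA, hB⟩ := hG m hm
    -- the function of `z`
    have hU : (fun z : Ω => (m.comapDomain Sum.inl Sum.inl_injective.injOn).prod
        fun v e => y z v ^ e) ∈ U y ω :=
      Submodule.subset_span ⟨_, (wY_le m).trans hw, rfl⟩
    -- the polynomial in `t`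
    let P : MvPolynomial (Fin r) ℂ := ∏ l, (∑ s, C (L l s) * X s) ^ m (Sum.inr (Sum.inl l))
    have hPd : P.totalDegree < (n + 1) * A := by
      have h1 : P.totalDegree ≤ ∑ l : Fin (n + 1), m (Sum.inr (Sum.inl l)) := by
        refine (totalDegree_finsetProd _ _).trans (Finset.sum_le_sum fun l _ => ?_)
        refine (totalDegree_pow _ _).trans ?_
        have h2 : (∑ s, C (L l s) * X s : MvPolynomial (Fin r) ℂ).totalDegree ≤ 1 := by
          refine totalDegree_finsetSum_le fun s _ => ?_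
          refine (totalDegree_mul _ _).trans ?_
          rw [totalDegree_C, totalDegree_X]
        calc m (Sum.inr (Sum.inl l)) * _ ≤ m (Sum.inr (Sum.inl l)) * 1 := Nat.mul_le_mul_left _ h2
          _ = _ := Nat.mul_one _
      have h3 : ∑ l : Fin (n + 1), m (Sum.inr (Sum.inl l)) < ∑ _l : Fin (n + 1), A :=
        Finset.sum_lt_sum_of_nonempty Finset.univ_nonempty fun l _ => hA l
      rw [Finset.sum_const, Finset.card_univ, Fintype.card_fin, smul_eq_mul] at h3
      exact lt_of_le_of_lt h1 h3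
    have hmem := rv_mem (n := n) (r := r) N ((n + 1) * A) B u
      (fun b => (finBasis ℂ (U y ω)).repr ⟨_, hU⟩ b) P hPd (fun q => m (Sum.inr (Sum.inr q))) hB
    have hfin : (fun p : Ω × (Fin r → ℂ) × (GV n → ℂ) =>
        ∏ i ∈ m.support, ev (y p.1) (fun l => ∑ s, L l s * p.2.1 s) p.2.2 i ^ m i) =
        (fun p : Ω × (Fin r → ℂ) × (GV n → ℂ) =>
          (∑ b, (finBasis ℂ (U y ω)).repr ⟨_, hU⟩ b * u b p.1) * eval p.2.1 P *
            ∏ q, p.2.2 q ^ m (Sum.inr (Sum.inr q))) := by
      funext p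
      rw [mon_split]
      have e1 : eval p.2.1 P = ∏ l, (∑ s, L l s * p.2.1 s) ^ m (Sum.inr (Sum.inl l)) := by
        simp only [P, map_prod, map_pow, map_sum, map_mul, eval_C, eval_X]
      have e2 : (∑ b, (finBasis ℂ (U y ω)).repr ⟨_, hU⟩ b * u b p.1) =
          (m.comapDomain Sum.inl Sum.inl_injective.injOn).prod fun v e => y p.1 v ^ e := by
        have h := (finBasis ℂ (U y ω)).sum_repr ⟨_, hU⟩
        have h' := congrFun (congrArg (fun w : U y ω => (w : Ω → ℂ)) h) p.1
        simp only [AddSubmonoidClass.coe_finsetSum, Submodule.coe_smul, Finset.sum_apply,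
          Pi.smul_apply, smul_eq_mul] at h'
        exact h'
      rw [e1, e2]
    rw [hfin]
    exact hmem

end Pool.Agent.TT
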