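import Pool.Agent.Lib_MP_b9fedf_tt.Box
import Pool.Agent.Lib_MP_b9fedf_tt.Restr
import Pool.Agent.Lib_MP_b9fedf_tt.Indep

/-! [TT-A6]: existence of the auxiliary polynomial, by comparison of dimensions. -/

set_option autoImplicit false

namespace Pool.Agent.TT
open MvPolynomial Module

/-- [TT-A6a] Two independent linear forms: the common zeros are parametrised by `ℂ ^ (k+1)`. -/
theorem exists_param {k : ℕ} (b b' : Fin (k + 3) → ℂ) (h : LinearIndependent ℂ ![b, b']) :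
    ∃ L : Fin (k + 3) → Fin (k + 1) → ℂ, ∀ x : Fin (k + 3) → ℂ, ∑ l, b l * x l = 0 →
      ∑ l, b' l * x l = 0 → ∃ t : Fin (k + 1) → ℂ, ∀ l, x l = ∑ s, L l s * t s := by
  classical
  let M : Matrix (Fin 2) (Fin (k + 3)) ℂ := Matrix.of ![b, b']
  have hrk : M.rank = 2 := by
    have h1 : LinearIndependent ℂ M.row := h
    rw [h1.rank_matrix, Fintype.card_fin]
  have hker : finrank ℂ (LinearMap.ker M.mulVecLin) = k + 1 := by
    have h2 := LinearMap.finrank_range_add_finrank_ker M.mulVecLin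
    have h3 : finrank ℂ (LinearMap.range M.mulVecLin) = 2 := hrk
    rw [h3, Module.finrank_fin_fun] at h2
    omega
  let e := finBasisOfFinrankEq ℂ (LinearMap.ker M.mulVecLin) hker
  refine ⟨fun l s => (e s : Fin (k + 3) → ℂ) l, fun x h1 h2 => ?_⟩
  have hx : x ∈ LinearMap.ker M.mulVecLin := by
    rw [LinearMap.mem_ker, Matrix.mulVecLin_apply]
    funext i
    fin_cases i
    · exact h1
    · exact h2
  refine ⟨fun s => e.repr ⟨x, hx⟩ s, fun l => ?_⟩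
  have h3 := e.sum_repr ⟨x, hx⟩
  have h4 := congrFun (congrArg (fun w : LinearMap.ker M.mulVecLin => (w : Fin (k + 3) → ℂ)) h3) l
  simp only [AddSubmonoidClass.coe_finsetSum, Submodule.coe_smul, Finset.sum_apply,
    Pi.smul_apply, smul_eq_mul] at h4
  rw [← h4]
  exact Finset.sum_congr rfl fun s _ => mul_comm _ _

/-- [TT-A6b] the inequality of the dimensions -/
theorem num_ineq {k K Q u : ℕ} (hK : 1 ≤ K) (hu : 1 ≤ u) :
    K ^ 2 * Q ^ 2 * (2 * u * (((k + 3) * bA k K Q) ^ (k + 1) *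
      (K ^ 2 + K ^ 2) ^ ((k + 2) * (k + 3)))) <
    u * (bA k K Q ^ (k + 3) * (K ^ 2) ^ ((k + 2) * (k + 3))) := by
  set A := bA k K Q with hA
  set m := (k + 2) * (k + 3) with hm
  have hkap : kap k = 2 ^ (m + 1) * (k + 3) ^ (k + 2) := rfl
  have hk1 : 1 ≤ kap k := by
    rw [hkap]
    exact Nat.mul_pos (pow_pos (by norm_num) _) (pow_pos (by omega) _)
  have hk2 : 2 ^ (m + 1) * (k + 3) ^ (k + 1) ≤ kap k := by
    rw [hkap]
    exact Nat.mul_le_mul_left _ (Nat.pow_le_pow_right (by omega) (by omega))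
  have hA1 : A = kap k * K * (Q + 1) := rfl
  have hA0 : 0 < A := by
    rw [hA1]
    exact Nat.mul_pos (Nat.mul_pos hk1 hK) (Nat.succ_pos Q)
  have key : K ^ 2 * Q ^ 2 * (2 ^ (m + 1) * (k + 3) ^ (k + 1)) < A ^ 2 := by
    have h1 : K ^ 2 * Q ^ 2 * (2 ^ (m + 1) * (k + 3) ^ (k + 1)) ≤ K ^ 2 * Q ^ 2 * (kap k * kap k) :=
      Nat.mul_le_mul_left _ (hk2.trans (Nat.le_mul_of_pos_left _ hk1))
    have h2 : K ^ 2 * Q ^ 2 * (kap k * kap k) < K ^ 2 * (Q + 1) ^ 2 * (kap k * kap k) := by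
      refine Nat.mul_lt_mul_of_pos_right ?_ (Nat.mul_pos hk1 hk1)
      refine Nat.mul_lt_mul_of_pos_left ?_ (pow_pos hK 2)
      exact Nat.pow_lt_pow_left (Nat.lt_succ_self Q) (by norm_num)
    have h3 : A ^ 2 = K ^ 2 * (Q + 1) ^ 2 * (kap k * kap k) := by rw [hA1]; ring
    rw [h3]
    exact h1.trans_lt h2
  have hpos : 0 < u * (A ^ (k + 1) * (K ^ 2) ^ m) :=
    Nat.mul_pos hu (Nat.mul_pos (pow_pos hA0 _) (pow_pos (pow_pos hK 2) _))
  calc K ^ 2 * Q ^ 2 * (2 * u * (((k + 3) * A) ^ (k + 1) * (K ^ 2 + K ^ 2) ^ m))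
      = (K ^ 2 * Q ^ 2 * (2 ^ (m + 1) * (k + 3) ^ (k + 1))) * (u * (A ^ (k + 1) * (K ^ 2) ^ m)) := by
        rw [← two_mul, mul_pow, mul_pow, pow_succ 2 m]
        ring
    _ < A ^ 2 * (u * (A ^ (k + 1) * (K ^ 2) ^ m)) := Nat.mul_lt_mul_of_pos_right key hpos
    _ = u * (A ^ (k + 3) * (K ^ 2) ^ m) := by
        rw [show k + 3 = 2 + (k + 1) by omega, pow_add]
        ring

/-- [TT-A6c] Proof.  `A = bA k K Q`, `B = c = K ^ 2`, `u = finrank (U y ω)`.  Take `Φ` of `box_indep`; source of dimension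
`u * A ^ (k+3) * B ^ ((k+2) (k+3))`.  For `a < c` and `i ≠ j` take `L` of `exists_param` and the space `W` of `restr_dim` for the
weight `ω + a` and the bound `B + a`: the map `c ↦ (z, t, g) ↦ eval (ev (y z) (L t) g) (dd^[a] (Φ c))` is linear with values in `W`, of
dimension at most `2 u ((k+3) A) ^ (k+1) (2 c) ^ ((k+2)(k+3))` (`bx_iter`, `hω`, `u_mono`).  There are at most `c * Q ^ 2` such triples, so
the product of these maps has a nonzero kernel (`LinearMap.ker_ne_bot_of_finrank_lt`, `num_ineq`). -/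
theorem exists_form_bx {k K : ℕ} (hK : 1 ≤ K) {ι : Type} [Fintype ι] {Q : ℕ}
    (hQ : Fintype.card ι ≤ Q) {Ω : Type} [Nonempty Ω] (y : Ω → YV (k + 2) → ℂ) {ω : ℕ}
    (hω : finrank ℂ (U y (ω + K ^ 2)) ≤ 2 * finrank ℂ (U y ω)) (b : ι → Fin (k + 3) → ℂ)
    (hb : ∀ i j, i ≠ j → LinearIndependent ℂ ![b i, b j]) :
    ∃ G : MvPolynomial (Vr (k + 2)) ℂ, Bx ω (bA k K Q) (K ^ 2) G ∧ Van (K ^ 2) y b G ∧
      ∃ (z : Ω) (x : Fin (k + 3) → ℂ) (g : GV (k + 2) → ℂ), eval (ev (y z) x g) G ≠ 0 := by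
  classical
  obtain ⟨Φ, hΦ1, hΦ2⟩ := box_indep y ω (bA k K Q) (K ^ 2)
  -- the parametrisations
  have hL : ∀ i j : ι, ∃ L : Fin (k + 3) → Fin (k + 1) → ℂ, i ≠ j → ∀ x : Fin (k + 3) → ℂ,
      ∑ l, b i l * x l = 0 → ∑ l, b j l * x l = 0 →
        ∃ t : Fin (k + 1) → ℂ, ∀ l, x l = ∑ s, L l s * t s := by
    intro i j
    by_cases hij : i = j
    · exact ⟨fun _ _ => 0, fun h => absurd hij h⟩
    · obtain ⟨L, hL⟩ := exists_param (b i) (b j) (hb i j hij)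
      exact ⟨L, fun _ => hL⟩
  choose L hL using hL
  have hW := fun (p : Fin (K ^ 2) × ι × ι) => restr_dim (n := k + 2) (r := k + 1) y
    (ω + (p.1 : ℕ)) (bA k K Q) (K ^ 2 + (p.1 : ℕ)) (L p.2.1 p.2.2)
  choose W hWf hWd hWm using hW
  -- the linear maps
  let T0 : (p : Fin (K ^ 2) × ι × ι) → ((Fin (finrank ℂ (U y ω)) × (Fin (k + 2 + 1) → Fin (bA k K Q)) ×
      (GV (k + 2) → Fin (K ^ 2))) → ℂ) →ₗ[ℂ] (Ω × (Fin (k + 1) → ℂ) × (GV (k + 2) → ℂ) → ℂ) :=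
    fun p => LinearMap.pi fun q =>
      (aeval (R := ℂ) (ev (y q.1) (fun l => ∑ s, L p.2.1 p.2.2 l s * q.2.1 s) q.2.2)).toLinearMap ∘ₗ
        ((dd (k + 2) : MvPolynomial (Vr (k + 2)) ℂ →ₗ[ℂ] MvPolynomial (Vr (k + 2)) ℂ) ^ (p.1 : ℕ)) ∘ₗ Φ
  have hT0 : ∀ p c q, T0 p c q = eval (ev (y q.1) (fun l => ∑ s, L p.2.1 p.2.2 l s * q.2.1 s) q.2.2)
      ((⇑(dd (k + 2)))^[(p.1 : ℕ)] (Φ c)) := by
    intro p c q
    show aeval (R := ℂ) (ev (y q.1) (fun l => ∑ s, L p.2.1 p.2.2 l s * q.2.1 s) q.2.2)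
      (((dd (k + 2) : MvPolynomial (Vr (k + 2)) ℂ →ₗ[ℂ] MvPolynomial (Vr (k + 2)) ℂ) ^ (p.1 : ℕ))
        (Φ c)) = _
    rw [Module.End.pow_apply]
    exact RingHom.congr_fun (MvPolynomial.coe_aeval_eq_eval
      (ev (y q.1) (fun l => ∑ s, L p.2.1 p.2.2 l s * q.2.1 s) q.2.2)) _
  have hmem : ∀ p c, T0 p c ∈ W p := by
    intro p c
    have h1 := hWm p _ (bx_iter (hΦ1 c) (p.1 : ℕ))
    have h2 : T0 p c = (fun q : Ω × (Fin (k + 1) → ℂ) × (GV (k + 2) → ℂ) =>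
        eval (ev (y q.1) (fun l => ∑ s, L p.2.1 p.2.2 l s * q.2.1 s) q.2.2)
          ((⇑(dd (k + 2)))^[(p.1 : ℕ)] (Φ c))) := funext fun q => hT0 p c q
    rw [h2]
    exact h1
  let T : ((Fin (finrank ℂ (U y ω)) × (Fin (k + 2 + 1) → Fin (bA k K Q)) ×
      (GV (k + 2) → Fin (K ^ 2))) → ℂ) →ₗ[ℂ] ((p : Fin (K ^ 2) × ι × ι) → W p) :=
    LinearMap.pi fun p => (T0 p).codRestrict (W p) (hmem p)
  -- the dimensions
  have hu := u_pos y ω
  have hbound : ∀ p : Fin (K ^ 2) × ι × ι, finrank ℂ (W p) ≤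
      2 * finrank ℂ (U y ω) * (((k + 3) * bA k K Q) ^ (k + 1) *
        (K ^ 2 + K ^ 2) ^ ((k + 2) * (k + 3))) := by
    intro p
    refine (hWd p).trans ?_
    have := u_finite y (ω + K ^ 2)
    have h1 : finrank ℂ (U y (ω + (p.1 : ℕ))) ≤ 2 * finrank ℂ (U y ω) :=
      (Submodule.finrank_mono (u_mono y (Nat.add_le_add_left p.1.2.le ω))).trans hω
    refine Nat.mul_le_mul h1 (Nat.mul_le_mul_left _ ?_)
    exact Nat.pow_le_pow_left (Nat.add_le_add_left p.1.2.le _) _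
  have hlt : finrank ℂ ((p : Fin (K ^ 2) × ι × ι) → W p) <
      finrank ℂ ((Fin (finrank ℂ (U y ω)) × (Fin (k + 2 + 1) → Fin (bA k K Q)) ×
        (GV (k + 2) → Fin (K ^ 2))) → ℂ) := by
    rw [Module.finrank_pi_fintype, Module.finrank_fintype_fun_eq_card, Fintype.card_prod, Fintype.card_prod,
      Fintype.card_fun, Fintype.card_fun, Fintype.card_fin, Fintype.card_fin, Fintype.card_fin,
      Fintype.card_fin, Fintype.card_prod, Fintype.card_fin, Fintype.card_fin]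
    refine lt_of_le_of_lt ?_ (num_ineq (k := k) (Q := Q) hK hu)
    refine (Finset.sum_le_sum fun p _ => hbound p).trans ?_
    rw [Finset.sum_const, Finset.card_univ, Fintype.card_prod, Fintype.card_prod, Fintype.card_fin,
      smul_eq_mul]
    refine Nat.mul_le_mul_right _ (Nat.mul_le_mul_left _ ?_)
    rw [sq]
    exact Nat.mul_le_mul hQ hQ
  have hker := LinearMap.ker_ne_bot_of_finrank_lt (f := T) hlt
  obtain ⟨c, hc, hc0⟩ := (Submodule.ne_bot_iff _).1 hker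
  refine ⟨Φ c, hΦ1 c, ?_, hΦ2 c hc0⟩
  · intro a ha i j hij z x g h1 h2
    obtain ⟨t, ht⟩ := hL i j hij x h1 h2
    have h3 : T c = 0 := hc
    have h4 := congrFun h3 (⟨a, ha⟩, i, j)
    have h5 : T0 (⟨a, ha⟩, i, j) c = 0 := congrArg Subtype.val h4
    have h6 := congrFun h5 (z, t, g)
    rw [hT0] at h6
    have h7 : (fun l => ∑ s, L i j l s * t s) = x := funext fun l => (ht l).symm
    simp only [h7] at h6
    exact h6

theorem exists_form {k K : ℕ} (hK : 1 ≤ K) {ι : Type} [Fintype ι] {Q : ℕ}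
    (hQ : Fintype.card ι ≤ Q) {Ω : Type} [Nonempty Ω] (y : Ω → YV (k + 2) → ℂ) {ω : ℕ}
    (hω : finrank ℂ (U y (ω + K ^ 2)) ≤ 2 * finrank ℂ (U y ω)) (b : ι → Fin (k + 3) → ℂ)
    (hb : ∀ i j, i ≠ j → LinearIndependent ℂ ![b i, b j]) :
    ∃ G : MvPolynomial (Vr (k + 2)) ℂ, Bd ω (dA k K Q) G ∧ Van (K ^ 2) y b G ∧
      ∃ (z : Ω) (x : Fin (k + 3) → ℂ) (g : GV (k + 2) → ℂ), eval (ev (y z) x g) G ≠ 0 := by
  obtain ⟨G, h1, h2, h3⟩ := exists_form_bx hK hQ y hω b hb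
  exact ⟨G, bx_bd h1, h2, h3⟩

end Pool.Agent.TT
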