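import Pool.Agent.Lib_MP_b9fedf_tt.Box

/-! [TT-A7]: automorphisms of `ℂ`. -/

set_option autoImplicit false

namespace Pool.Agent.TT
open MvPolynomial

/-- the images of the variables have rational coefficients -/
private theorem map_dvar {n : ℕ} (σ : ℂ →+* ℂ) (v : Vr n) : map σ (dvar n v) = dvar n v := by
  rcases v with v | l | p
  · simp only [dvar, map_X]
  · simp only [dvar, map_sum, map_mul, map_X]
  · simp only [dvar, map_zero]

private theorem dd_X {n : ℕ} (v : Vr n) : dd n (X v) = dvar n v := mkDerivation_X _ _ _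

private theorem dd_C {n : ℕ} (c : ℂ) : dd n (C c) = 0 := derivation_C _ _

/-- [TT-A7a] the derivation has integral coefficients -/
theorem dd_map {n : ℕ} (σ : ℂ →+* ℂ) (G : MvPolynomial (Vr n) ℂ) :
    dd n (map σ G) = map σ (dd n G) := by
  induction G using MvPolynomial.induction_on with
  | C a => rw [map_C, dd_C, dd_C, map_zero]
  | add p q hp hq => rw [map_add, map_add, map_add, map_add, hp, hq]
  | mul_X p v hp =>
    rw [map_mul, map_X, Derivation.leibniz, Derivation.leibniz, hp, dd_X, map_add]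
    simp only [smul_eq_mul, map_mul, map_X, map_dvar]

theorem dd_iter_map {n : ℕ} (σ : ℂ →+* ℂ) (G : MvPolynomial (Vr n) ℂ) (a : ℕ) :
    (⇑(dd n))^[a] (map σ G) = map σ ((⇑(dd n))^[a] G) := by
  induction a generalizing G with
  | zero => rfl
  | succ a ih => rw [Function.iterate_succ_apply, Function.iterate_succ_apply, dd_map, ih]

theorem bd_map {n ω A : ℕ} (σ : ℂ →+* ℂ) {G : MvPolynomial (Vr n) ℂ} (h : Bd ω A G) :
    Bd ω A (map σ G) := fun m hm => h m (support_map_subset _ _ hm)

/-- bounds of the weight are additive -/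
private theorem wd_mul {τ : Type} (w : τ → ℕ) {N M : ℕ} {P Q : MvPolynomial τ ℂ}
    (hP : ∀ m ∈ P.support, Finsupp.weight w m ≤ N)
    (hQ : ∀ m ∈ Q.support, Finsupp.weight w m ≤ M) :
    ∀ m ∈ (P * Q).support, Finsupp.weight w m ≤ N + M := by
  classical
  intro m hm
  have h1 := support_mul P Q hm
  obtain ⟨a, ha, b, hb, rfl⟩ := Finset.mem_add.1 h1
  rw [map_add]
  exact add_le_add (hP a ha) (hQ b hb)

private theorem wd_pow {τ : Type} (w : τ → ℕ) {N : ℕ} {P : MvPolynomial τ ℂ}
    (hP : ∀ m ∈ P.support, Finsupp.weight w m ≤ N) (k : ℕ) :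
    ∀ m ∈ (P ^ k).support, Finsupp.weight w m ≤ k * N := by
  classical
  induction k with
  | zero =>
    intro m hm
    rw [pow_zero, support_one, Finset.mem_singleton] at hm
    rw [hm, map_zero]
    exact Nat.zero_le _
  | succ k ih =>
    intro m hm
    rw [pow_succ] at hm
    have := wd_mul w ih hP m hm
    rw [Nat.succ_mul]
    exact this

private theorem wd_prod {τ ρ : Type} (w : τ → ℕ) (s : Finset ρ) (N : ρ → ℕ) (P : ρ → MvPolynomial τ ℂ)
    (hP : ∀ i ∈ s, ∀ m ∈ (P i).support, Finsupp.weight w m ≤ N i) :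
    ∀ m ∈ (∏ i ∈ s, P i).support, Finsupp.weight w m ≤ ∑ i ∈ s, N i := by
  classical
  induction s using Finset.induction_on with
  | empty =>
    intro m hm
    rw [Finset.prod_empty, support_one, Finset.mem_singleton] at hm
    rw [hm, map_zero]
    exact Nat.zero_le _
  | insert i s hi ih =>
    intro m hm
    rw [Finset.prod_insert hi] at hm
    rw [Finset.sum_insert hi]
    exact wd_mul w (hP i (Finset.mem_insert_self i s))
      (ih fun j hj => hP j (Finset.mem_insert_of_mem hj)) m hm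

/-- specialisation of `x` and the `g_j` to constants -/
private noncomputable def spj {n : ℕ} (x : Fin (n + 1) → ℂ) (g : GV n → ℂ) :
    MvPolynomial (Vr n) ℂ →ₐ[ℂ] MvPolynomial (YV n) ℂ :=
  aeval (Sum.elim X (Sum.elim (fun l => C (x l)) (fun p => C (g p))))

private theorem wt_spj {n N : ℕ} (x : Fin (n + 1) → ℂ) (g : GV n → ℂ) (P : MvPolynomial (Vr n) ℂ)
    (hP : ∀ m ∈ P.support, wt m ≤ N) : ∀ m ∈ (spj x g P).support, wY m ≤ N := by
  classical
  set w : Vr n → ℕ := Sum.elim (fun v : YV n => v.2 + 1) fun _ => 0 with hw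
  have hvar : ∀ v : Vr n, ∀ m ∈ ((Sum.elim X (Sum.elim (fun l => C (x l)) (fun p => C (g p))) :
      Vr n → MvPolynomial (YV n) ℂ) v).support,
      Finsupp.weight (fun v : YV n => v.2 + 1) m ≤ w v := by
    intro v m hm
    rcases v with v | l | p
    · have h1 : m = Finsupp.single v 1 := by
        have h2 : ((X v : MvPolynomial (YV n) ℂ)).support = {Finsupp.single v 1} := support_X
        have h3 : m ∈ ((X v : MvPolynomial (YV n) ℂ)).support := hm
        rw [h2, Finset.mem_singleton] at h3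
        exact h3
      rw [h1, Finsupp.weight_single]
      simp [hw]
    · have h2 : m ∈ ((C (x l) : MvPolynomial (YV n) ℂ)).support := hm
      have h3 : m = 0 := by
        by_contra hne
        rw [mem_support_iff, coeff_C, if_neg (Ne.symm hne)] at h2
        exact h2 rfl
      rw [h3, map_zero]
      exact Nat.zero_le _
    · have h2 : m ∈ ((C (g p) : MvPolynomial (YV n) ℂ)).support := hm
      have h3 : m = 0 := by
        by_contra hne
        rw [mem_support_iff, coeff_C, if_neg (Ne.symm hne)] at h2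
        exact h2 rfl
      rw [h3, map_zero]
      exact Nat.zero_le _
  intro m hm
  have h1 : spj x g P = ∑ d ∈ P.support, algebraMap ℂ (MvPolynomial (YV n) ℂ) (P.coeff d) *
      ∏ i ∈ d.support, (Sum.elim X (Sum.elim (fun l => C (x l)) (fun p => C (g p))) :
      Vr n → MvPolynomial (YV n) ℂ) i ^ d i := by
    unfold spj
    rw [aeval_def, eval₂_eq]
  rw [h1] at hm
  obtain ⟨d, hd, hm2⟩ := Finset.mem_biUnion.1 (support_sum hm)
  have h2 : ∀ m ∈ (algebraMap ℂ (MvPolynomial (YV n) ℂ) (P.coeff d)).support,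
      Finsupp.weight (fun v : YV n => v.2 + 1) m ≤ 0 := by
    intro m hm
    have h3 : m = 0 := by
      by_contra hne
      rw [algebraMap_eq, mem_support_iff, coeff_C, if_neg (Ne.symm hne)] at hm
      exact hm rfl
    rw [h3, map_zero]
  have h3 := wd_mul (fun v : YV n => v.2 + 1) h2
    (wd_prod (fun v : YV n => v.2 + 1) d.support (fun i => d i * w i) _
      (fun i _ => wd_pow (fun v : YV n => v.2 + 1) (hvar i) (d i))) m hm2
  refine h3.trans ?_
  rw [zero_add]
  refine le_trans (le_of_eq ?_) (hP d hd)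
  show _ = Finsupp.weight w d
  rw [Finsupp.weight_apply, Finsupp.sum]
  rfl

private theorem eval_spj {n : ℕ} (σ : ℂ →+* ℂ) (y : YV n → ℂ) (x : Fin (n + 1) → ℂ) (g : GV n → ℂ)
    (P : MvPolynomial (Vr n) ℂ) :
    eval y (map σ (spj x g P)) = eval (ev y (fun l => σ (x l)) (fun p => σ (g p))) (map σ P) := by
  induction P using MvPolynomial.induction_on with
  | C a =>
    have : spj x g (C a) = C a := by
      unfold spj
      rw [aeval_C]
      rfl
    rw [this, map_C, map_C, eval_C, eval_C]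
  | add p q hp hq => rw [map_add, map_add, map_add, map_add, map_add, hp, hq]
  | mul_X p v hp =>
    rw [map_mul, map_mul, map_mul, map_mul, map_mul, hp, map_X, eval_X]
    congr 1
    unfold spj
    rw [aeval_X]
    rcases v with v | l | p
    · simp [ev]
    · simp [ev]
    · simp [ev]

/-- [TT-A7b] Proof.  Let `a < c`, `i ≠ j`, `z`, `x`, `g` with `σ b_i · x = σ b_j · x = 0`, `x' = σ⁻¹ x`, `g' = σ⁻¹ g`.  The polynomial
`P = aeval (Sum.elim X (Sum.elim (C ∘ x') (C ∘ g'))) (dd^[a] G)` in the jets has weight at most `ω + a` and vanishes at all `y z`;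
so does `map σ P` (`hσ`), and `eval (y z) (map σ P) = eval (ev (y z) x g) (dd^[a] (map σ G))`. -/
theorem van_sigma {n c ω A : ℕ} {Ω ι : Type} (y : Ω → YV n → ℂ) (σ : ℂ ≃+* ℂ)
    (hσ : Stab y (ω + c) σ) (b : ι → Fin (n + 1) → ℂ) (G : MvPolynomial (Vr n) ℂ)
    (hG : Bd ω A G) (hV : Van c y b G) :
    Van c y (fun i l => σ (b i l)) (map (σ : ℂ →+* ℂ) G) := by
  intro a ha i j hij z x g hi hj
  set x' : Fin (n + 1) → ℂ := fun l => σ.symm (x l) with hx'
  set g' : GV n → ℂ := fun p => σ.symm (g p) with hg'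
  have h0 : ∀ i, ∑ l, σ (b i l) * x l = 0 → ∑ l, b i l * x' l = 0 := by
    intro i h
    have h1 := congrArg σ.symm h
    rw [map_sum, map_zero] at h1
    rw [← h1]
    refine Finset.sum_congr rfl fun l _ => ?_
    rw [map_mul, RingEquiv.symm_apply_apply]
  have hxx : (fun l => (σ : ℂ →+* ℂ) (x' l)) = x := by
    funext l
    exact σ.apply_symm_apply (x l)
  have hgg : (fun p => (σ : ℂ →+* ℂ) (g' p)) = g := by
    funext p
    exact σ.apply_symm_apply (g p)
  have hvan : ∀ z, eval (y z) (spj x' g' ((⇑(dd n))^[a] G)) = 0 := by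
    intro z
    have h1 := eval_spj (RingHom.id ℂ) (y z) x' g' ((⇑(dd n))^[a] G)
    rw [map_id, map_id] at h1
    rw [h1]
    exact hV a ha i j hij z x' g' (h0 i hi) (h0 j hj)
  have hwt : ∀ m ∈ (spj x' g' ((⇑(dd n))^[a] G)).support, wY m ≤ ω + c := by
    refine wt_spj x' g' _ fun m hm => ?_
    exact ((bd_iter hG a) m hm).1.trans (by omega)
  have h2 := hσ _ hwt hvan z
  rw [eval_spj, hxx, hgg] at h2
  rw [dd_iter_map]
  exact h2

/-- [TT-A7c] If `σ` fixes the jets `y0` of order at most `ω` (weight), then the evaluation commutes with `σ`. -/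
theorem eval_sigma {n ω A : ℕ} (σ : ℂ ≃+* ℂ) (y0 : YV n → ℂ)
    (h0 : ∀ v : YV n, v.2 + 1 ≤ ω → σ (y0 v) = y0 v) (x : Fin (n + 1) → ℂ) (g : GV n → ℂ)
    (G : MvPolynomial (Vr n) ℂ) (hG : Bd ω A G) :
    eval (ev y0 (fun l => σ (x l)) (fun p => σ (g p))) (map (σ : ℂ →+* ℂ) G) =
      σ (eval (ev y0 x g) G) := by
  rw [eval_map, eval₂_eq, eval_eq, map_sum]
  refine Finset.sum_congr rfl fun d hd => ?_
  rw [map_mul, map_prod]
  congr 1
  refine Finset.prod_congr rfl fun v hv => ?_
  rw [map_pow]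
  congr 1
  rcases v with v | l | p
  · show y0 v = σ (y0 v)
    refine (h0 v ?_).symm
    refine le_trans ?_ (hG d hd).1
    show v.2 + 1 ≤ Finsupp.weight _ d
    rw [Finsupp.weight_apply, Finsupp.sum]
    have h1 : 1 ≤ d (Sum.inl v) := Nat.one_le_iff_ne_zero.2 (Finsupp.mem_support_iff.1 hv)
    have h2 : (d (Sum.inl v)) • (Sum.elim (fun v : YV n => v.2 + 1) (fun _ => 0) (Sum.inl v) : ℕ) ≤
        ∑ a ∈ d.support, d a • (Sum.elim (fun v : YV n => v.2 + 1) (fun _ => 0) a : ℕ) :=
      Finset.single_le_sum (f := fun a => d a • (Sum.elim (fun v : YV n => v.2 + 1)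
        (fun _ => 0) a : ℕ)) (fun _ _ => Nat.zero_le _) hv
    refine le_trans ?_ h2
    rw [smul_eq_mul, Sum.elim_inl]
    nlinarith
  · rfl
  · rfl

end Pool.Agent.TT
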