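import Pool.Agent.Lib_MP_b9fedf_tt.DefsG
import Pool.Agent.Lib_MP_b9fedf_tt.Lin
import Pool.Agent.Lib_MP_b9fedf_tt.Sigma
import Pool.Agent.Lib_MP_b9fedf_tt.Exist

/-! [TT-G1]: the bounds of the exponents. -/

set_option autoImplicit false

namespace Pool.Agent.TT
open MvPolynomial

private theorem wx_bd3 {n : ℕ} (m : Vr n →₀ ℕ) :
    Finsupp.weight (Sum.elim (fun _ : YV n => 0) (Sum.elim (fun _ => 1) (fun _ => 0))) m =
      ∑ l, m (Sum.inr (Sum.inl l)) := by
  classical
  induction m using Finsupp.induction_linear with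
  | zero => simp
  | add a b ha hb =>
    rw [map_add, ha, hb, ← Finset.sum_add_distrib]
    rfl
  | single i c =>
    rw [Finsupp.weight_single]
    rcases i with v | l | p
    · simp
    · simp only [Finsupp.single_apply, Sum.inr.injEq, Sum.inl.injEq, Sum.elim_inr, Sum.elim_inl]
      rw [Finset.sum_ite_eq]
      simp
    · simp

private theorem wg_bd3 {n : ℕ} (m : Vr n →₀ ℕ) :
    Finsupp.weight (Sum.elim (fun _ : YV n => 0) (Sum.elim (fun _ => 0) (fun _ => 1))) m =
      ∑ p, m (Sum.inr (Sum.inr p)) := by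
  classical
  induction m using Finsupp.induction_linear with
  | zero => simp
  | add a b ha hb =>
    rw [map_add, ha, hb, ← Finset.sum_add_distrib]
    rfl
  | single i c =>
    rw [Finsupp.weight_single]
    rcases i with v | l | p
    · simp
    · simp
    · simp only [Finsupp.single_apply, Sum.inr.injEq, Sum.elim_inr]
      rw [Finset.sum_ite_eq]
      simp

/-- all monomials of `P` have weight at most `N` -/
private def Wd_bd3 {n : ℕ} (w : Vr n → ℕ) (N : ℕ) (P : MvPolynomial (Vr n) ℂ) : Prop :=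
  ∀ m ∈ P.support, Finsupp.weight w m ≤ N

private theorem mul_bd3 {n : ℕ} {w : Vr n → ℕ} {N M : ℕ} {P Q : MvPolynomial (Vr n) ℂ}
    (hP : Wd_bd3 w N P) (hQ : Wd_bd3 w M Q) : Wd_bd3 w (N + M) (P * Q) := by
  classical
  intro m hm
  obtain ⟨a, ha, b, hb, rfl⟩ := Finset.mem_add.1 (support_mul P Q hm)
  rw [map_add]
  exact add_le_add (hP a ha) (hQ b hb)

private theorem const_bd3 {n : ℕ} (w : Vr n → ℕ) (c : ℂ) : Wd_bd3 w 0 (C c) := by
  intro m hm
  have h3 : m = 0 := by
    by_contra hne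
    rw [mem_support_iff, coeff_C, if_neg (Ne.symm hne)] at hm
    exact hm rfl
  rw [h3, map_zero]

private theorem sum_bd3 {n : ℕ} {w : Vr n → ℕ} {N : ℕ} {ρ : Type} (s : Finset ρ)
    (P : ρ → MvPolynomial (Vr n) ℂ) (hP : ∀ i ∈ s, Wd_bd3 w N (P i)) :
    Wd_bd3 w N (∑ i ∈ s, P i) := by
  classical
  intro m hm
  obtain ⟨i, hi, hm2⟩ := Finset.mem_biUnion.1 (support_sum hm)
  exact hP i hi m hm2

private theorem pow_bd3 {n : ℕ} {w : Vr n → ℕ} {N : ℕ} {P : MvPolynomial (Vr n) ℂ}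
    (hP : Wd_bd3 w N P) (k : ℕ) : Wd_bd3 w (k * N) (P ^ k) := by
  induction k with
  | zero =>
    rw [pow_zero, zero_mul]
    exact const_bd3 w 1
  | succ k ih =>
    rw [pow_succ, Nat.succ_mul]
    exact mul_bd3 ih hP

private theorem prod_bd3 {n : ℕ} {w : Vr n → ℕ} {ρ : Type} (s : Finset ρ) (N : ρ → ℕ)
    (P : ρ → MvPolynomial (Vr n) ℂ) (hP : ∀ i ∈ s, Wd_bd3 w (N i) (P i)) :
    Wd_bd3 w (∑ i ∈ s, N i) (∏ i ∈ s, P i) := by
  classical
  induction s using Finset.induction_on with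
  | empty =>
    rw [Finset.prod_empty, Finset.sum_empty]
    exact const_bd3 w 1
  | insert i s hi ih =>
    rw [Finset.prod_insert hi, Finset.sum_insert hi]
    exact mul_bd3 (hP i (Finset.mem_insert_self i s))
      (ih fun j hj => hP j (Finset.mem_insert_of_mem hj))

private theorem var_bd3 {n : ℕ} (w : Vr n → ℕ) (v : Vr n) : Wd_bd3 w (w v) (X v) := by
  intro m hm
  rw [support_X, Finset.mem_singleton] at hm
  rw [hm, Finsupp.weight_single, one_smul]

/-- the substitution does not raise weights which do not depend on the index `l` -/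
private theorem sbh_bd3 {n : ℕ} (a : YV n → ℕ) (b c N : ℕ)
    (h : Matrix (Fin (n + 1)) (Fin (n + 1)) ℂ) {G : MvPolynomial (Vr n) ℂ}
    (hG : Wd_bd3 (Sum.elim a (Sum.elim (fun _ => b) (fun _ => c))) N G) :
    Wd_bd3 (Sum.elim a (Sum.elim (fun _ => b) (fun _ => c))) N (sbh h G) := by
  classical
  set w : Vr n → ℕ := Sum.elim a (Sum.elim (fun _ => b) (fun _ => c)) with hw
  set f : Vr n → MvPolynomial (Vr n) ℂ := Sum.elim (fun v => X (Sum.inl v))
    (Sum.elim (fun l => ∑ l', C (h l l') * X (Sum.inr (Sum.inl l')))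
      (fun p => ∑ l', C (h p.2 l') * X (Sum.inr (Sum.inr (p.1, l'))))) with hf
  have hvar : ∀ v, Wd_bd3 w (w v) (f v) := by
    intro v
    rcases v with v | l | p
    · exact var_bd3 w (Sum.inl v)
    · show Wd_bd3 w b (∑ l', C (h l l') * X (Sum.inr (Sum.inl l')))
      refine sum_bd3 _ _ fun l' _ => ?_
      have h1 := mul_bd3 (const_bd3 w (h l l')) (var_bd3 w (Sum.inr (Sum.inl l')))
      rw [zero_add] at h1
      exact h1
    · show Wd_bd3 w c (∑ l', C (h p.2 l') * X (Sum.inr (Sum.inr (p.1, l'))))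
      refine sum_bd3 _ _ fun l' _ => ?_
      have h1 := mul_bd3 (const_bd3 w (h p.2 l')) (var_bd3 w (Sum.inr (Sum.inr (p.1, l'))))
      rw [zero_add] at h1
      exact h1
  have h1 : sbh h G = ∑ d ∈ G.support, algebraMap ℂ (MvPolynomial (Vr n) ℂ) (G.coeff d) *
      ∏ i ∈ d.support, f i ^ d i := by
    unfold sbh
    rw [aeval_def, eval₂_eq]
  rw [h1]
  refine sum_bd3 _ _ fun d hd => ?_
  have h2 := mul_bd3 (const_bd3 w (G.coeff d))
    (prod_bd3 d.support (fun i => d i * w i) (fun i => f i ^ d i) fun i _ => pow_bd3 (hvar i) (d i))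
  intro m hm
  refine (h2 m hm).trans ?_
  rw [zero_add]
  refine le_trans (le_of_eq ?_) (hG d hd)
  rw [Finsupp.weight_apply, Finsupp.sum]
  rfl

/-- [TT-G1a] -/
theorem mb_finite (n ω A B : ℕ) : (MB n ω A B).Finite := by
  classical
  set S : Finset (Vr n) :=
    ((Finset.univ ×ˢ Finset.range ω : Finset (Fin n × ℕ)).image Sum.inl) ∪
      ((Finset.univ : Finset (Fin (n + 1) ⊕ GV n)).image Sum.inr) with hS
  refine (Finset.finite_toSet (S.finsupp fun _ => Finset.range (ω + A + B + 1))).subset ?_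
  rintro m ⟨h1, h2, h3⟩
  rw [Finset.mem_coe, Finset.mem_finsupp_iff]
  have hval : ∀ i, m i ≤ ω + A + B := by
    intro i
    rcases i with v | l | p
    · have h4 : m (Sum.inl v) ≤ wt m :=
        Finsupp.le_weight (Sum.elim (fun v : YV n => v.2 + 1) fun _ => 0)
          (s := Sum.inl v) (Nat.succ_ne_zero _) m
      omega
    · have h4 : m (Sum.inr (Sum.inl l)) ≤ ∑ l, m (Sum.inr (Sum.inl l)) :=
        Finset.single_le_sum (f := fun l => m (Sum.inr (Sum.inl l))) (fun _ _ => Nat.zero_le _)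
          (Finset.mem_univ l)
      omega
    · have h4 : m (Sum.inr (Sum.inr p)) ≤ ∑ p, m (Sum.inr (Sum.inr p)) :=
        Finset.single_le_sum (f := fun p => m (Sum.inr (Sum.inr p))) (fun _ _ => Nat.zero_le _)
          (Finset.mem_univ p)
      omega
  refine ⟨fun i hi => ?_, fun i _ => Finset.mem_range.2 (Nat.lt_succ_of_le (hval i))⟩
  rw [hS, Finset.mem_union]
  rcases i with v | q
  · left
    refine Finset.mem_image_of_mem _ (Finset.mem_product.2 ⟨Finset.mem_univ _, Finset.mem_range.2 ?_⟩)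
    have h4 : v.2 + 1 ≤ wt m :=
      Finsupp.le_weight_of_ne_zero (w := Sum.elim (fun v : YV n => v.2 + 1) fun _ => 0)
        (fun _ => Nat.zero_le _) (Finsupp.mem_support_iff.1 hi)
    omega
  · right
    exact Finset.mem_image_of_mem _ (Finset.mem_univ q)

theorem bd3_bd {n ω A B : ℕ} {G : MvPolynomial (Vr n) ℂ} (h : Bd3 ω A B G) : Bd ω A G :=
  fun m hm => ⟨(h m hm).1, (h m hm).2.1⟩

/-- [TT-G1b] -/
theorem bx_bd3 {n ω A B : ℕ} {G : MvPolynomial (Vr n) ℂ} (h : Bx ω A B G) :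
    Bd3 ω ((n + 1) * A) (n * (n + 1) * B) G := by
  intro m hm
  obtain ⟨h1, h2, h3⟩ := h m hm
  refine ⟨h1, ?_, ?_⟩
  · have h4 := Finset.sum_le_card_nsmul (Finset.univ : Finset (Fin (n + 1)))
      (fun l => m (Sum.inr (Sum.inl l))) A fun l _ => (h2 l).le
    rw [Finset.card_univ, Fintype.card_fin, smul_eq_mul] at h4
    exact h4
  · have h4 := Finset.sum_le_card_nsmul (Finset.univ : Finset (GV n))
      (fun p => m (Sum.inr (Sum.inr p))) B fun p _ => (h3 p).le
    rw [Finset.card_univ, Fintype.card_prod, Fintype.card_fin, Fintype.card_fin,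
      smul_eq_mul] at h4
    exact h4

theorem bd3_map {n ω A B : ℕ} (σ : ℂ →+* ℂ) {G : MvPolynomial (Vr n) ℂ} (h : Bd3 ω A B G) :
    Bd3 ω A B (map σ G) := fun m hm => h m (support_map_subset _ _ hm)

/-- [TT-G1c] as `bd_sbh` -/
theorem bd3_sbh {n ω A B : ℕ} (h : Matrix (Fin (n + 1)) (Fin (n + 1)) ℂ)
    {G : MvPolynomial (Vr n) ℂ} (hG : Bd3 ω A B G) : Bd3 ω A B (sbh h G) := by
  have e1 : (Sum.elim (fun v : YV n => v.2 + 1) fun _ => 0 : Vr n → ℕ) =
      Sum.elim (fun v : YV n => v.2 + 1) (Sum.elim (fun _ => 0) (fun _ => 0)) := by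
    funext i
    rcases i with v | l | p <;> rfl
  have e2 : ∀ m : Vr n →₀ ℕ, wt m = Finsupp.weight
      (Sum.elim (fun v : YV n => v.2 + 1) (Sum.elim (fun _ => 0) (fun _ => 0))) m := by
    intro m
    unfold wt
    rw [e1]
  intro m hm
  refine ⟨?_, ?_, ?_⟩
  · rw [e2]
    exact sbh_bd3 _ _ _ ω h (fun d hd => by
      rw [← e2]
      exact (hG d hd).1) m hm
  · rw [← wx_bd3]
    exact sbh_bd3 _ _ _ A h (fun d hd => by
      rw [wx_bd3]
      exact (hG d hd).2.1) m hm
  · rw [← wg_bd3]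
    exact sbh_bd3 _ _ _ B h (fun d hd => by
      rw [wg_bd3]
      exact (hG d hd).2.2) m hm

end Pool.Agent.TT
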