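import Pool.Agent.Lib_MP_b9fedf_tt.Defs
import Pool.Agent.Lib_MP_b9fedf_lg.MatA

/-! [TT-A11]: rational matrices are dense. -/

set_option autoImplicit false

namespace Pool.Agent.TT
open MvPolynomial

/-- the polynomial in the entries of the matrix -/
private noncomputable def ptR {n : ℕ} (y0 : YV n → ℂ) (f0 : Fin (n + 1) → ℂ) :
    Vr n → MvPolynomial (Fin (n + 1) × Fin (n + 1)) ℂ :=
  Sum.elim (fun v => C (y0 v)) (Sum.elim
    ((Matrix.mvPolynomialX (Fin (n + 1)) (Fin (n + 1)) ℂ).mulVec fun i => C (f0 i))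
    (fun p => Matrix.mvPolynomialX (Fin (n + 1)) (Fin (n + 1)) ℂ p.2 p.1.succ))

private theorem eval_ptR {n : ℕ} (y0 : YV n → ℂ) (f0 : Fin (n + 1) → ℂ)
    (M : Matrix (Fin (n + 1)) (Fin (n + 1)) ℂ) (v : Vr n) :
    eval (fun p => M p.1 p.2) (ptR y0 f0 v) =
      ev y0 (M.mulVec f0) (fun p => M p.2 p.1.succ) v := by
  rcases v with v | l | p
  · simp only [ptR, ev, Sum.elim_inl, eval_C]
  · simp only [ptR, ev, Sum.elim_inr, Sum.elim_inl, Matrix.mulVec, dotProduct, map_sum, map_mul,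
      eval_C, Matrix.mvPolynomialX_apply, eval_X]
  · simp only [ptR, ev, Sum.elim_inr, Matrix.mvPolynomialX_apply, eval_X]

private theorem eval_aeval_ptR {n : ℕ} (G : MvPolynomial (Vr n) ℂ) (y0 : YV n → ℂ)
    (f0 : Fin (n + 1) → ℂ) (M : Matrix (Fin (n + 1)) (Fin (n + 1)) ℂ) :
    eval (fun p => M p.1 p.2) (aeval (ptR y0 f0) G) =
      eval (ev y0 (M.mulVec f0) (fun p => M p.2 p.1.succ)) G := by
  obtain ⟨f, hf⟩ : ∃ f : MvPolynomial (Fin (n + 1) × Fin (n + 1)) ℂ →+* ℂ,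
      f = eval (fun p => M p.1 p.2) := ⟨_, rfl⟩
  have h5 : f (aeval (ptR y0 f0) G) = eval₂ (f.comp C) (fun x => f (ptR y0 f0 x)) G := by
    rw [aeval_def, hom_eval₂]
    rfl
  have h6 : f.comp C = RingHom.id ℂ := by
    ext x
    rw [hf]
    simp
  have h7 : (fun x => f (ptR y0 f0 x)) = ev y0 (M.mulVec f0) (fun p => M p.2 p.1.succ) := by
    funext x
    rw [hf]
    exact eval_ptR y0 f0 M x
  rw [← hf, h5, h6, h7]
  rfl

/-- [TT-A11] Proof.  `P(h) = eval (ev y0 (h f0) (columns 1, …, n of h)) G` is a polynomial in the entries of the matrix `h`, and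
`(h f0, columns 1..n)` determines `h` as `f0 0 = 1`: `P` is not the zero polynomial.  `P * det` is nonzero at a rational matrix
(`MvPolynomial.funext_set`, see `LG.exists_eval_ne` and Lib_MP_b9fedf_lg/MatA.lean). -/
theorem exists_rat {n : ℕ} (G : MvPolynomial (Vr n) ℂ) (y0 : YV n → ℂ) (f0 : Fin (n + 1) → ℂ)
    (hf0 : f0 0 = 1) (hG : ∃ (x : Fin (n + 1) → ℂ) (g : GV n → ℂ), eval (ev y0 x g) G ≠ 0) :
    ∃ M : Matrix (Fin (n + 1)) (Fin (n + 1)) ℚ, M.det ≠ 0 ∧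
      eval (ev y0 ((M.map (Rat.cast : ℚ → ℂ)).mulVec f0)
        (fun p => ((M p.2 p.1.succ : ℚ) : ℂ))) G ≠ 0 := by
  obtain ⟨x, g, hxg⟩ := hG
  -- the matrix with `M f0 = x` and the given columns
  obtain ⟨A, hA⟩ : ∃ A : Matrix (Fin (n + 1)) (Fin (n + 1)) ℂ,
      A = Matrix.of fun i => Fin.cons (x i - ∑ j : Fin n, g (j, i) * f0 j.succ)
        fun j => g (j, i) := ⟨_, rfl⟩
  have hA0 : ∀ i, A i 0 = x i - ∑ j : Fin n, g (j, i) * f0 j.succ := by
    intro i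
    rw [hA, Matrix.of_apply, Fin.cons_zero]
  have hA1 : ∀ i (j : Fin n), A i j.succ = g (j, i) := by
    intro i j
    rw [hA, Matrix.of_apply, Fin.cons_succ]
  have hAx : A.mulVec f0 = x := by
    funext i
    simp only [Matrix.mulVec, dotProduct]
    rw [Fin.sum_univ_succ, hA0, hf0, mul_one]
    simp only [hA1]
    ring
  have hAg : (fun p : GV n => A p.2 p.1.succ) = g := by
    funext p
    exact hA1 p.2 p.1
  have hP : aeval (ptR y0 f0) G ≠ 0 := by
    intro h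
    have h1 := eval_aeval_ptR G y0 f0 A
    rw [h, map_zero, hAx, hAg] at h1
    exact hxg h1.symm
  have hD : (Matrix.mvPolynomialX (Fin (n + 1)) (Fin (n + 1)) ℂ).det ≠ 0 :=
    Matrix.det_mvPolynomialX_ne_zero _ _
  obtain ⟨k, hk⟩ := LG.exists_int_eval_ne (mul_ne_zero hD hP)
  obtain ⟨M, hM⟩ : ∃ M : Matrix (Fin (n + 1)) (Fin (n + 1)) ℚ,
      M = Matrix.of fun i j => ((k (i, j) : ℤ) : ℚ) := ⟨_, rfl⟩
  have hMk : (fun p : Fin (n + 1) × Fin (n + 1) => ((k p : ℤ) : ℂ)) =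
      fun p => (M.map (Rat.cast : ℚ → ℂ)) p.1 p.2 := by
    funext p
    rw [Matrix.map_apply, hM, Matrix.of_apply, Rat.cast_intCast]
  rw [hMk, map_mul, eval_aeval_ptR] at hk
  refine ⟨M, ?_, ?_⟩
  · intro h
    apply left_ne_zero_of_mul hk
    have h2 : (eval fun p => (M.map (Rat.cast : ℚ → ℂ)) p.1 p.2).mapMatrix
        (Matrix.mvPolynomialX (Fin (n + 1)) (Fin (n + 1)) ℂ) = M.map (Rat.cast : ℚ → ℂ) :=
      Matrix.mvPolynomialX_mapMatrix_eval _
    rw [RingHom.map_det, h2]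
    have h3 := Rat.cast_det (F := ℂ) M
    rw [h, Rat.cast_zero] at h3
    exact h3.symm
  · exact right_ne_zero_of_mul hk

end Pool.Agent.TT
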