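import Pool.Agent.Lib_MP_b9fedf_tt.Count

/-! [TT-A10]: the space of the relations is stable under the automorphisms which fix finitely many
numbers. -/

set_option autoImplicit false

namespace Pool.Agent.TT
open MvPolynomial

private theorem exists_list (S : Finset ℂ) (k : ℕ) (h : S.card ≤ k) :
    ∃ x : Fin k → ℂ, ∀ s ∈ S, ∃ i, x i = s := by
  classical
  refine ⟨fun i => if hi : (i : ℕ) < S.card then (S.equivFin.symm ⟨i, hi⟩ : ℂ) else 0,
    fun s hs => ?_⟩
  refine ⟨⟨S.equivFin ⟨s, hs⟩, lt_of_lt_of_le (Fin.is_lt _) h⟩, ?_⟩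
  simp

private theorem eval_sum {n W : ℕ} (y : YV n → ℂ) (P : MvPolynomial (YV n) ℂ)
    (hP : ∀ m ∈ P.support, wY m ≤ W) :
    eval y P = ∑ m : (ym_finite n W).toFinset,
      coeff m.1 P * (m.1.prod fun v e => y v ^ e) := by
  rw [eval_eq, Finset.sum_coe_sort (ym_finite n W).toFinset
    (fun m => coeff m P * (m.prod fun v e => y v ^ e))]
  refine Finset.sum_subset ?_ ?_
  · intro m hm
    rw [Set.Finite.mem_toFinset]
    exact hP m hm
  · intro m _ hm
    rw [notMem_support_iff.mp hm, zero_mul]

/-- [TT-A10] Proof.  `I = YM n W` is finite, with `N` elements.  The space of the `(c_m)`, `m ∈ I`, with `∑ c_m (y z) ^ m = 0` for all `z` has a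
basis of at most `N` vectors; let `x` be the list of their coordinates (completed by zeros).  If `σ` fixes these numbers and
`c = ∑ t_b b`, then `σ c = ∑ σ(t_b) b` is a relation. -/
theorem exists_stable {n : ℕ} {Ω : Type} (y : Ω → YV n → ℂ) (W : ℕ) :
    ∃ x : Fin ((YM n W).ncard ^ 2) → ℂ, ∀ σ : ℂ ≃+* ℂ, (∀ i, σ (x i) = x i) → Stab y W σ := by
  classical
  have hN : (YM n W).ncard = ((ym_finite n W).toFinset).card := Set.ncard_eq_toFinset_card _ _
  let R : Submodule ℂ ((ym_finite n W).toFinset → ℂ) :=
    { carrier := {c | ∀ z, ∑ m : (ym_finite n W).toFinset,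
        c m * (m.1.prod fun v e => y z v ^ e) = 0}
      add_mem' := by
        intro c c' hc hc' z
        have h1 := hc z
        have h2 := hc' z
        simp only [Pi.add_apply, add_mul, Finset.sum_add_distrib]
        rw [h1, h2, add_zero]
      zero_mem' := by
        intro z
        simp
      smul_mem' := by
        intro t c hc z
        have h1 := hc z
        simp only [Pi.smul_apply, smul_eq_mul, mul_assoc]
        rw [← Finset.mul_sum, h1, mul_zero] }
  let b := Module.finBasis ℂ R
  have hr : Module.finrank ℂ R ≤ ((ym_finite n W).toFinset).card := by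
    have h1 := Submodule.finrank_le R
    rwa [Module.finrank_fintype_fun_eq_card, Fintype.card_coe] at h1
  let S : Finset ℂ := (Finset.univ : Finset (Fin (Module.finrank ℂ R) ×
    (ym_finite n W).toFinset)).image fun p => (b p.1 : (ym_finite n W).toFinset → ℂ) p.2
  have hS : S.card ≤ (YM n W).ncard ^ 2 := by
    rw [hN, pow_two]
    refine Finset.card_image_le.trans ?_
    rw [Finset.card_univ, Fintype.card_prod, Fintype.card_fin, Fintype.card_coe]
    exact Nat.mul_le_mul_right _ hr
  obtain ⟨x, hx⟩ := exists_list S _ hS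
  refine ⟨x, fun σ hσ P hP h0 z => ?_⟩
  have hfix : ∀ a (m : (ym_finite n W).toFinset),
      σ ((b a : (ym_finite n W).toFinset → ℂ) m) = (b a : (ym_finite n W).toFinset → ℂ) m := by
    intro a m
    obtain ⟨i, hi⟩ := hx _ (Finset.mem_image_of_mem
      (fun p : Fin (Module.finrank ℂ R) × (ym_finite n W).toFinset =>
        (b p.1 : (ym_finite n W).toFinset → ℂ) p.2) (Finset.mem_univ (a, m)))
    have hi' : x i = (b a : (ym_finite n W).toFinset → ℂ) m := hi
    rw [← hi']
    exact hσ i
  have hc : (fun m : (ym_finite n W).toFinset => coeff m.1 P) ∈ R := by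
    intro z'
    have h1 := h0 z'
    rw [eval_sum (W := W) (y z') P hP] at h1
    exact h1
  have hrep := congrArg (Submodule.subtype R) (b.sum_repr ⟨_, hc⟩)
  rw [map_sum] at hrep
  have hc2 : (fun m : (ym_finite n W).toFinset => σ (coeff m.1 P)) =
      ∑ a, σ (b.repr ⟨_, hc⟩ a) • (b a : (ym_finite n W).toFinset → ℂ) := by
    funext m
    have h1 := congrFun hrep m
    rw [Finset.sum_apply] at h1
    have h2 : coeff m.1 P = ∑ a, b.repr ⟨_, hc⟩ a * (b a : (ym_finite n W).toFinset → ℂ) m :=
      h1.symm
    rw [h2, map_sum, Finset.sum_apply]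
    refine Finset.sum_congr rfl fun a _ => ?_
    rw [map_mul, hfix]
    rfl
  have hmem : (fun m : (ym_finite n W).toFinset => σ (coeff m.1 P)) ∈ R := by
    rw [hc2]
    exact Submodule.sum_mem _ fun a _ => R.smul_mem _ (b a).2
  have hP2 : ∀ m ∈ (map (σ : ℂ →+* ℂ) P).support, wY m ≤ W := by
    intro m hm
    refine hP m ?_
    rw [mem_support_iff] at hm ⊢
    intro h1
    apply hm
    rw [coeff_map, h1, map_zero]
  rw [eval_sum (W := W) (y z) _ hP2]
  have h3 := hmem z
  simp only [coeff_map]
  exact h3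

end Pool.Agent.TT
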