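import Pool.Agent.Lib_MP_b9fedf_tt.DefsG
import Pool.Agent.Lib_MP_b9fedf_tt.Bd3
import Pool.Agent.Lib_MP_b9fedf_tt.Sigma
import Pool.Agent.Lib_MP_b9fedf_tt.Lin
import Pool.Agent.Lib_MP_b9fedf_tt.AutC
import Pool.Agent.Lib_MP_b9fedf_tt.Stable
import Pool.Agent.Lib_MP_b9fedf_tt.Dens
import Pool.Agent.Lib_MP_b9fedf_lg.Matroid
import Pool.Agent.Lib_MP_b9fedf_lg.Position

/-! The algebraic part at one point, for algebraically independent coordinates. -/

set_option autoImplicit false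

namespace Pool.Agent.TT
open MvPolynomial Module

/-- the algebraic part at one point -/
theorem alg_core (k : ℕ) {K : ℕ} (ω0 : ℕ) : ∃ N1 : ℕ, ∀ (Q : ℕ)
    (a : Fin Q → Fin (k + 3) → ℂ),
    AlgebraicIndependent ℚ (fun p : Fin Q × Fin (k + 3) => a p.1 p.2) →
    ∀ {Ω : Type} (y : Ω → YV (k + 2) → ℂ) (y0 : YV (k + 2) → ℂ) (f0 : Fin (k + 3) → ℂ),
    f0 0 = 1 → ∀ ω ≤ ω0, ∀ A B : ℕ,
    (∀ R : Finset (Fin Q), ∃ G : MvPolynomial (Vr (k + 2)) ℂ, Bd3 ω A B G ∧
      Van (K ^ 2) y (fun i : {i // i ∉ R} => a i) G ∧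
      ∃ (x : Fin (k + 3) → ℂ) (g : GV (k + 2) → ℂ), eval (ev y0 x g) G ≠ 0) →
    ∃ R : Finset (Fin Q), R.card ≤ N1 ∧ ∃ G : MvPolynomial (Vr (k + 2)) ℂ, Bd3 ω A B G ∧
      Van (K ^ 2) y (fun i : {i // i ∉ R} => a i) G ∧
      eval (ev y0 f0 (one (k + 2))) G ≠ 0 := by
  classical
  let I : Type := Fin ((YM (k + 2) (ω0 + K ^ 2)).ncard ^ 2) ⊕
    (Fin (k + 3) ⊕ (Fin (k + 2) × Fin ω0))
  refine ⟨Fintype.card I, fun Q a ha Ω y y0 f0 hf ω hω A B hex => ?_⟩
  choose G hGB hGV x g hG using hex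
  -- the parameters
  obtain ⟨xs, hxs⟩ := exists_stable y (ω0 + K ^ 2)
  let par : I → ℂ := Sum.elim xs (Sum.elim f0 (fun p => y0 (p.1, (p.2 : ℕ))))
  let e := Fintype.equivFin I
  obtain ⟨S, hS, hSi⟩ := LG.indep_off (fun p : Fin Q × Fin (k + 3) => a p.1 p.2) ha
    (fun s => par (e.symm s))
  set R : Finset (Fin Q) := S.image Prod.fst with hR
  have hRc : R.card ≤ Fintype.card I := Finset.card_image_le.trans hS
  have hai : AlgebraicIndependent (Algebra.adjoin ℚ (Set.range fun s => par (e.symm s)))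
      (fun p : {i // i ∉ R} × Fin (k + 3) => a p.1 p.2) := by
    let e' : {i // i ∉ R} × Fin (k + 3) → {e : Fin Q × Fin (k + 3) // e ∉ S} := fun p =>
      ⟨(p.1, p.2), fun h => p.1.2 (Finset.mem_image.mpr ⟨_, h, rfl⟩)⟩
    have he : Function.Injective e' := by
      intro p q hpq
      have h1 := congrArg Subtype.val hpq
      simp only [e', Prod.mk.injEq] at h1
      exact Prod.ext (Subtype.ext h1.1) h1.2
    exact hSi.comp e' he
  -- the rational matrix and the automorphism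
  obtain ⟨M, hM, hMne⟩ := exists_rat (G R) y0 f0 hf ⟨x R, g R, hG R⟩
  have hMu : IsUnit M.det := isUnit_iff_ne_zero.mpr hM
  have hMi : (M⁻¹).det ≠ 0 := by
    rw [Matrix.det_nonsing_inv, Ring.inverse_eq_inv']
    exact inv_ne_zero hM
  obtain ⟨σ, hσ, hσa⟩ := exists_aut (fun s => par (e.symm s)) (fun (i : {i // i ∉ R}) => a i) hai
    (M⁻¹) hMi
  have hσp : ∀ i : I, σ (par i) = par i := by
    intro i
    have h1 := hσ (e i)
    rwa [Equiv.symm_apply_apply] at h1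
  have hst : Stab y (ω + K ^ 2) σ := by
    intro P hP h0
    exact hxs σ (fun i => hσp (Sum.inl i)) P (fun m hm => (hP m hm).trans (by omega)) h0
  have hσf : ∀ l, σ (f0 l) = f0 l := fun l => hσp (Sum.inr (Sum.inl l))
  have hσy : ∀ v : YV (k + 2), v.2 + 1 ≤ ω → σ (y0 v) = y0 v := by
    rintro ⟨j, i⟩ hi
    have h1 : i < ω0 := by
      have h2 : i + 1 ≤ ω := hi
      omega
    exact hσp (Sum.inr (Sum.inr (j, ⟨i, h1⟩)))
  set Mc : Matrix (Fin (k + 3)) (Fin (k + 3)) ℂ := M.map (Rat.cast : ℚ → ℂ) with hMc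
  set Mi : Matrix (Fin (k + 3)) (Fin (k + 3)) ℂ := (M⁻¹).map (Rat.cast : ℚ → ℂ) with hMi'
  have hMM : Mi * Mc = 1 := by
    have h1 : (M⁻¹ * M).map (Rat.castHom ℂ) = 1 := by
      rw [Matrix.nonsing_inv_mul _ hMu]
      exact Matrix.map_one _ (map_zero _) (map_one _)
    rw [Matrix.map_mul] at h1
    exact h1
  refine ⟨R, hRc, sbh Mc (map (σ : ℂ →+* ℂ) (G R)), bd3_sbh Mc (bd3_map _ (hGB R)), ?_, ?_⟩
  · refine van_sbh y (fun i : {i // i ∉ R} => a i) Mc Mi hMM _ ?_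
    have h1 := van_sigma y σ hst (fun i : {i // i ∉ R} => a i) (G R) (bd3_bd (hGB R)) (hGV R)
    have h2 : (fun (i : {i // i ∉ R}) l => σ (a i l)) =
        fun i : {i // i ∉ R} => Matrix.vecMul (a i) Mi := by
      funext i l
      rw [hσa i l]
      rfl
    rw [h2] at h1
    exact h1
  · rw [eval_sbh]
    have h1 : (fun p : GV (k + 2) => Mc.mulVec (fun l => one (k + 2) (p.1, l)) p.2) =
        fun p => σ ((M p.2 p.1.succ : ℚ) : ℂ) := by
      funext p
      rw [map_ratCast]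
      show ∑ l, Mc p.2 l * one (k + 2) (p.1, l) = _
      rw [Finset.sum_eq_single p.1.succ]
      · simp [one, hMc]
      · intro b _ hb
        simp [one, hb]
      · intro h
        exact absurd (Finset.mem_univ _) h
    have h2 : Mc.mulVec f0 = fun l => σ (Mc.mulVec f0 l) := by
      funext l
      show ∑ l', Mc l l' * f0 l' = σ (∑ l', Mc l l' * f0 l')
      rw [map_sum]
      refine Finset.sum_congr rfl fun l' _ => ?_
      rw [map_mul, hσf]
      congr 1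
      show ((M l l' : ℚ) : ℂ) = σ ((M l l' : ℚ) : ℂ)
      rw [map_ratCast]
    rw [h1, h2, eval_sigma σ y0 hσy _ _ (G R) (bd3_bd (hGB R))]
    intro h3
    have h4 := (map_eq_zero σ).1 h3
    exact hMne h4

end Pool.Agent.TT
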