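import Pool.Agent.Lib_MP_b9fedf_tt.DefsG
import Pool.Agent.Lib_MP_b9fedf_og.Elim
import Pool.Agent.Lib_MP_b9fedf_og.AlgInd

/-! [TT-G4]: polynomial functions with rational coefficients and elimination. -/

set_option autoImplicit false

namespace Pool.Agent.TT
open MvPolynomial

section
variable {E W : Type}

/-- [TT-G4a] -/
theorem PF.const (q : ℚ) : PF (fun (_ : E → ℂ) (_ : W → ℂ) => (q : ℂ)) := by
  refine ⟨C (C q), fun a w => ?_⟩
  rw [OG.ev, eval₂_C]
  change MvPolynomial.aeval a (C q) = (q : ℂ)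
  rw [aeval_C]
  rfl

theorem PF.ofE (e : E) : PF (fun (a : E → ℂ) (_ : W → ℂ) => a e) := by
  refine ⟨C (X e), fun a w => ?_⟩
  rw [OG.ev, eval₂_C]
  change MvPolynomial.aeval a (X e) = a e
  rw [aeval_X]

theorem PF.ofW (i : W) : PF (fun (_ : E → ℂ) (w : W → ℂ) => w i) := by
  refine ⟨X i, fun a w => ?_⟩
  rw [OG.ev, eval₂_X]

theorem PF.add {F G : (E → ℂ) → (W → ℂ) → ℂ} (hF : PF F) (hG : PF G) :
    PF (fun a w => F a w + G a w) := by
  obtain ⟨Φ, hΦ⟩ := hF
  obtain ⟨Ψ, hΨ⟩ := hG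
  refine ⟨Φ + Ψ, fun a w => ?_⟩
  change _ = F a w + G a w
  rw [← hΦ, ← hΨ, OG.ev, OG.ev, OG.ev, eval₂_add]

theorem PF.sub {F G : (E → ℂ) → (W → ℂ) → ℂ} (hF : PF F) (hG : PF G) :
    PF (fun a w => F a w - G a w) := by
  obtain ⟨Φ, hΦ⟩ := hF
  obtain ⟨Ψ, hΨ⟩ := hG
  refine ⟨Φ - Ψ, fun a w => ?_⟩
  change _ = F a w - G a w
  rw [← hΦ, ← hΨ, OG.ev, OG.ev, OG.ev, eval₂_sub]

theorem PF.mul {F G : (E → ℂ) → (W → ℂ) → ℂ} (hF : PF F) (hG : PF G) :
    PF (fun a w => F a w * G a w) := by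
  obtain ⟨Φ, hΦ⟩ := hF
  obtain ⟨Ψ, hΨ⟩ := hG
  refine ⟨Φ * Ψ, fun a w => ?_⟩
  change _ = F a w * G a w
  rw [← hΦ, ← hΨ, OG.ev, OG.ev, OG.ev, eval₂_mul]

theorem PF.sum {I : Type} (s : Finset I) {F : I → (E → ℂ) → (W → ℂ) → ℂ}
    (hF : ∀ i ∈ s, PF (F i)) : PF (fun a w => ∑ i ∈ s, F i a w) := by
  classical
  induction s using Finset.induction_on with
  | empty =>
    have h := PF.const (E := E) (W := W) 0
    simp only [Rat.cast_zero] at h
    simpa only [Finset.sum_empty] using h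
  | insert i s hi ih =>
    have h := PF.add (hF i (Finset.mem_insert_self i s))
      (ih fun j hj => hF j (Finset.mem_insert_of_mem hj))
    simpa only [Finset.sum_insert hi] using h

/-- values of a rational polynomial at polynomial functions -/
theorem PF.aeval {V : Type} (P : MvPolynomial V ℚ) {F : V → (E → ℂ) → (W → ℂ) → ℂ}
    (hF : ∀ v, PF (F v)) : PF (fun a w => MvPolynomial.aeval (fun v => F v a w) P) := by
  induction P using MvPolynomial.induction_on with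
  | C q =>
    have h := PF.const (E := E) (W := W) q
    simpa only [aeval_C, eq_ratCast] using h
  | add p q hp hq =>
    have h := PF.add hp hq
    simpa only [map_add] using h
  | mul_X p v hp =>
    have h := PF.mul hp (hF v)
    simpa only [map_mul, aeval_X] using h

/-- [TT-G4b] `OG.elim` with `J = Unit`, `m = 1` -/
theorem elim_none [Fintype E] [Fintype W] {T : Type} (F : T → (E → ℂ) → (W → ℂ) → ℂ)
    (hF : ∀ t, PF (F t))
    (h : ∀ a₀ : E → ℂ, AlgebraicIndependent ℚ a₀ → ∀ w : W → ℂ, ∃ t, F t a₀ w ≠ 0) :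
    ∃ S : MvPolynomial E ℚ, S ≠ 0 ∧ ∀ a : E → ℂ, MvPolynomial.aeval a S ≠ 0 →
      ∀ w : W → ℂ, ∃ t, F t a w ≠ 0 := by
  choose Ψ hΨ using hF
  obtain ⟨a₀, ha₀⟩ := OG.exists_algInd E
  obtain ⟨s, d, hd, hs⟩ := OG.elim (J := Unit) Ψ (fun _ => 1) a₀ ha₀ (by
    intro w hw
    obtain ⟨t, ht⟩ := h a₀ ha₀ w
    exact absurd ((hΨ t a₀ w).symm.trans (hw t)) ht)
  refine ⟨d, hd, fun a ha w => ?_⟩
  by_contra hcon
  push Not at hcon
  have h1 := hs a ha w (fun t _ => (hΨ t a w).trans (hcon t)) ()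
  rw [map_one] at h1
  exact one_ne_zero h1

end

/-- images of the variables under the derivation, over `ℚ` -/
private noncomputable def dvarQ (n : ℕ) : Vr n → MvPolynomial (Vr n) ℚ
  | Sum.inl v => X (Sum.inl (v.1, v.2 + 1))
  | Sum.inr (Sum.inl l) => ∑ j, X (Sum.inl (j, 0)) * X (Sum.inr (Sum.inr (j, l)))
  | Sum.inr (Sum.inr _) => 0

private theorem map_dvarQ {n : ℕ} (i : Vr n) : map (algebraMap ℚ ℂ) (dvarQ n i) = dvar n i := by
  rcases i with v | l | p
  · simp only [dvarQ, dvar, map_X]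
  · simp only [dvarQ, dvar, map_X, map_sum, map_mul]
  · simp only [dvarQ, dvar, map_zero]

private theorem map_ddQ {n : ℕ} (P : MvPolynomial (Vr n) ℚ) :
    map (algebraMap ℚ ℂ) (mkDerivation ℚ (dvarQ n) P) = dd n (map (algebraMap ℚ ℂ) P) := by
  induction P using MvPolynomial.induction_on with
  | C q =>
    have h1 : mkDerivation ℚ (dvarQ n) (C q) = 0 := derivation_C _ q
    have h2 : dd n (C (algebraMap ℚ ℂ q)) = 0 := derivation_C _ _
    rw [map_C, h1, map_zero, h2]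
  | add p q hp hq => rw [map_add, map_add, map_add, map_add, hp, hq]
  | mul_X p v hp =>
    rw [Derivation.leibniz, map_add, map_mul, map_X, Derivation.leibniz, ← hp, mkDerivation_X, dd,
      mkDerivation_X, smul_eq_mul, smul_eq_mul, smul_eq_mul, smul_eq_mul, map_mul, map_mul, map_X,
      map_dvarQ]

private theorem map_ddQ_iter {n : ℕ} (P : MvPolynomial (Vr n) ℚ) (a : ℕ) :
    map (algebraMap ℚ ℂ) ((⇑(mkDerivation ℚ (dvarQ n)))^[a] P) =
      (⇑(dd n))^[a] (map (algebraMap ℚ ℂ) P) := by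
  induction a generalizing P with
  | zero => rfl
  | succ a ih => rw [Function.iterate_succ_apply, Function.iterate_succ_apply, ih, map_ddQ]

/-- [TT-G4c] the derivatives of a monomial have rational coefficients (the same derivation over `ℚ`) -/
theorem exists_rat_dd {n : ℕ} (m : Vr n →₀ ℕ) (a : ℕ) : ∃ P : MvPolynomial (Vr n) ℚ,
    ∀ v : Vr n → ℂ, aeval v P = eval v ((⇑(dd n))^[a] (monomial m 1)) := by
  refine ⟨(⇑(mkDerivation ℚ (dvarQ n)))^[a] (monomial m 1), fun v => ?_⟩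
  have h := map_ddQ_iter (monomial m (1 : ℚ) : MvPolynomial (Vr n) ℚ) a
  have h1 : map (algebraMap ℚ ℂ) (monomial m (1 : ℚ)) = monomial m (1 : ℂ) := by
    rw [map_monomial, (algebraMap ℚ ℂ).map_one]
  rw [h1] at h
  rw [← h, eval_map, aeval_def]

end Pool.Agent.TT
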