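import Mathlib

/-! [TT-G5]: a functional which vanishes on the common kernel of a family of rows is a combination of
few of them. -/

set_option autoImplicit false

namespace Pool.Agent.TT

private theorem mem_sp {I : Type} [Fintype I] (S : Set (I → ℂ)) (ℓ : I → ℂ)
    (h : ∀ v : I → ℂ, (∀ r ∈ S, ∑ m, v m * r m = 0) → ∑ m, v m * ℓ m = 0) : ℓ ∈ Submodule.span ℂ S := by
  classical
  by_contra hn
  obtain ⟨f, hf, hle⟩ := Submodule.exists_le_ker_of_notMem hn
  apply hf
  have h0 : ∀ w : I → ℂ, f w = ∑ m, f (Pi.single m 1) * w m := by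
    intro w
    rw [LinearMap.pi_apply_eq_sum_univ f w]
    refine Finset.sum_congr rfl fun m _ => ?_
    rw [smul_eq_mul, mul_comm]
    congr 2
    funext i
    rw [Pi.single_apply]
    simp only [eq_comm]
  rw [h0]
  apply h
  intro r hr
  rw [← h0]
  exact hle (Submodule.subset_span hr)

private theorem pad {r N : ℕ} (h : r ≤ N) {D : Type} (p : Fin r → D) (c : Fin r → ℂ) (d₀ : D) :
    ∃ (P : Fin N → D) (L : Fin N → ℂ), ∀ g : D → ℂ, ∑ i, c i * g (p i) = ∑ s, L s * g (P s) := by
  obtain ⟨t, rfl⟩ : ∃ t, N = r + t := ⟨N - r, by omega⟩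
  refine ⟨Fin.append p fun _ => d₀, Fin.append c fun _ => 0, fun g => ?_⟩
  rw [Fin.sum_univ_add]
  simp only [Fin.append_left, Fin.append_right, zero_mul, Finset.sum_const_zero, add_zero]

/-- [TT-G5] Proof.  `ℓ` lies in the span of the rows (`mem_span_of_iInf_ker_le_ker` or the double annihilator in `I → ℂ`); the span has a
basis consisting of rows (`exists_linearIndependent`), at most `card I` of them. -/
theorem exists_comb {I Δ X : Type} [Fintype I] (row : Δ → X → I → ℂ) (ℓ : I → ℂ)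
    (h : ∀ v : I → ℂ, (∀ δ x, ∑ m, v m * row δ x m = 0) → ∑ m, v m * ℓ m = 0)
    (x₀ : X) (δ₀ : Δ) :
    ∃ (δs : Fin (Fintype.card I) → Δ) (xs : Fin (Fintype.card I) → X)
      (lam : Fin (Fintype.card I) → ℂ), ∀ m, ℓ m = ∑ s, lam s * row (δs s) (xs s) m := by
  classical
  have h1 : ℓ ∈ Submodule.span ℂ (Set.range fun p : Δ × X => row p.1 p.2) := by
    apply mem_sp
    intro v hv
    apply h
    intro δ x
    exact hv _ ⟨(δ, x), rfl⟩
  obtain ⟨f, hf, hspan, -⟩ := Submodule.exists_fun_fin_finrank_span_eq ℂ (Set.range fun p : Δ × X => row p.1 p.2)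
  rw [← hspan, Submodule.mem_span_range_iff_exists_fun] at h1
  obtain ⟨c, hc⟩ := h1
  choose p hp using hf
  have hle : Module.finrank ℂ (Submodule.span ℂ (Set.range fun p : Δ × X => row p.1 p.2)) ≤ Fintype.card I := by
    have h2 := Submodule.finrank_le (Submodule.span ℂ (Set.range fun p : Δ × X => row p.1 p.2))
    rwa [Module.finrank_fintype_fun_eq_card] at h2
  obtain ⟨P, L, h3⟩ := pad hle p c (δ₀, x₀)
  refine ⟨fun s => (P s).1, fun s => (P s).2, L, fun m => ?_⟩
  rw [← hc, Finset.sum_apply, ← h3 (fun q => row q.1 q.2 m)]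
  refine Finset.sum_congr rfl fun i _ => ?_
  rw [Pi.smul_apply, smul_eq_mul, ← hp i]

end Pool.Agent.TT
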