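import Pool.Agent.Lib_MP_b9fedf_tt.DefsG

/-! [TT-G3]: a polynomial parametrisation of the vectors orthogonal to two vectors. -/

set_option autoImplicit false

namespace Pool.Agent.TT
open MvPolynomial

/-- the antisymmetrised numbers -/
private def asy {m : ℕ} (μ : Fin m × Fin m × Fin m → ℂ) (l p q : Fin m) : ℂ :=
  μ (l, p, q) - μ (p, l, q) - μ (l, q, p) - μ (q, p, l) + μ (p, q, l) + μ (q, l, p)

private theorem asy_lp {m : ℕ} (μ : Fin m × Fin m × Fin m → ℂ) (l p q : Fin m) :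
    asy μ p l q = -asy μ l p q := by
  unfold asy
  ring

private theorem asy_lq {m : ℕ} (μ : Fin m × Fin m × Fin m → ℂ) (l p q : Fin m) :
    asy μ q p l = -asy μ l p q := by
  unfold asy
  ring

private theorem xx_asy {m : ℕ} (u v : Fin m → ℂ) (μ : Fin m × Fin m × Fin m → ℂ) (l : Fin m) :
    xx u v μ l = ∑ p, ∑ q, asy μ l p q * (u p * v q) := rfl

/-- [TT-G3a] (antisymmetry) -/
theorem xx_left {m : ℕ} (u v : Fin m → ℂ) (μ : Fin m × Fin m × Fin m → ℂ) :
    ∑ l, u l * xx u v μ l = 0 := by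
  have h1 : ∑ l, u l * xx u v μ l = ∑ l, ∑ p, ∑ q, asy μ l p q * (u l * u p * v q) := by
    refine Finset.sum_congr rfl fun l _ => ?_
    rw [xx_asy, Finset.mul_sum]
    refine Finset.sum_congr rfl fun p _ => ?_
    rw [Finset.mul_sum]
    refine Finset.sum_congr rfl fun q _ => ?_
    ring
  have h2 : ∑ l, ∑ p, ∑ q, asy μ l p q * (u l * u p * v q) =
      -∑ l, ∑ p, ∑ q, asy μ l p q * (u l * u p * v q) := by
    conv_lhs => rw [Finset.sum_comm]
    rw [← Finset.sum_neg_distrib]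
    refine Finset.sum_congr rfl fun p _ => ?_
    rw [← Finset.sum_neg_distrib]
    refine Finset.sum_congr rfl fun l _ => ?_
    rw [← Finset.sum_neg_distrib]
    refine Finset.sum_congr rfl fun q _ => ?_
    rw [asy_lp μ p l q]
    ring
  rw [h1]
  exact self_eq_neg.1 h2

theorem xx_right {m : ℕ} (u v : Fin m → ℂ) (μ : Fin m × Fin m × Fin m → ℂ) :
    ∑ l, v l * xx u v μ l = 0 := by
  have h1 : ∑ l, v l * xx u v μ l = ∑ p, ∑ l, ∑ q, asy μ l p q * (v l * u p * v q) := by
    rw [Finset.sum_comm]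
    refine Finset.sum_congr rfl fun l _ => ?_
    rw [xx_asy, Finset.mul_sum]
    refine Finset.sum_congr rfl fun p _ => ?_
    rw [Finset.mul_sum]
    refine Finset.sum_congr rfl fun q _ => ?_
    ring
  have h2 : ∑ p, ∑ l, ∑ q, asy μ l p q * (v l * u p * v q) =
      -∑ p, ∑ l, ∑ q, asy μ l p q * (v l * u p * v q) := by
    rw [← Finset.sum_neg_distrib]
    refine Finset.sum_congr rfl fun p _ => ?_
    conv_lhs => rw [Finset.sum_comm]
    rw [← Finset.sum_neg_distrib]
    refine Finset.sum_congr rfl fun q _ => ?_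
    rw [← Finset.sum_neg_distrib]
    refine Finset.sum_congr rfl fun l _ => ?_
    rw [asy_lq μ q p l]
    ring
  rw [h1]
  exact self_eq_neg.1 h2

/-- dual vectors -/
private theorem dual_pair {m : ℕ} (u v : Fin m → ℂ) (huv : LinearIndependent ℂ ![u, v]) :
    ∃ u' v' : Fin m → ℂ, ∑ l, u l * u' l = 1 ∧ ∑ l, v l * u' l = 0 ∧ ∑ l, u l * v' l = 0 ∧
      ∑ l, v l * v' l = 1 := by
  have hr : (Matrix.of ![u, v]).rank = Fintype.card (Fin 2) :=
    LinearIndependent.rank_matrix (M := Matrix.of ![u, v]) huv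
  have ht : LinearMap.range (Matrix.of ![u, v]).mulVecLin = ⊤ := by
    apply Submodule.eq_top_of_finrank_eq
    change (Matrix.of ![u, v]).rank = _
    rw [hr, Module.finrank_fin_fun, Fintype.card_fin]
  have hs : Function.Surjective (Matrix.of ![u, v]).mulVecLin := LinearMap.range_eq_top.1 ht
  obtain ⟨u', hu'⟩ := hs ![1, 0]
  obtain ⟨v', hv'⟩ := hs ![0, 1]
  refine ⟨u', v', ?_, ?_, ?_, ?_⟩
  · exact congrFun hu' 0
  · exact congrFun hu' 1
  · exact congrFun hv' 0
  · exact congrFun hv' 1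

private theorem sum_two {m : ℕ} (a b : Fin m → ℂ) :
    ∑ p, ∑ q, a p * b q = (∑ p, a p) * ∑ q, b q := by
  rw [Finset.sum_mul_sum]

/-- [TT-G3b] Proof.  Choose `u'`, `v'` with `u·u' = 1`, `u·v' = 0`, `v·u' = 0`, `v·v' = 1` (the linear map `z ↦ (u·z, v·z)` is surjective) and
`μ (l,p,q) = x l * u' p * v' q`: the antisymmetrisation contracted with `u` and `v` is `x`, because `u·x = v·x = 0`. -/
theorem exists_xx {m : ℕ} (u v : Fin m → ℂ) (huv : LinearIndependent ℂ ![u, v])
    (x : Fin m → ℂ) (hu : ∑ l, u l * x l = 0) (hv : ∑ l, v l * x l = 0) :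
    ∃ μ : Fin m × Fin m × Fin m → ℂ, xx u v μ = x := by
  obtain ⟨u', v', h1, h2, h3, h4⟩ := dual_pair u v huv
  refine ⟨fun t => x t.1 * u' t.2.1 * v' t.2.2, ?_⟩
  funext l
  have e : xx u v (fun t => x t.1 * u' t.2.1 * v' t.2.2) l =
      x l * (∑ p, ∑ q, (u p * u' p) * (v q * v' q)) -
      u' l * (∑ p, ∑ q, (u p * x p) * (v q * v' q)) -
      x l * (∑ p, ∑ q, (u p * v' p) * (v q * u' q)) -
      v' l * (∑ p, ∑ q, (u p * u' p) * (v q * x q)) +
      v' l * (∑ p, ∑ q, (u p * x p) * (v q * u' q)) +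
      u' l * (∑ p, ∑ q, (u p * v' p) * (v q * x q)) := by
    unfold xx
    simp only [Finset.mul_sum, ← Finset.sum_add_distrib, ← Finset.sum_sub_distrib]
    refine Finset.sum_congr rfl fun p _ => Finset.sum_congr rfl fun q _ => ?_
    ring
  rw [e]
  simp only [sum_two, h1, h2, h3, h4, hu, hv]
  ring

/-- the value of `G` at `(y, xx u v μ, g)` as a polynomial in `(μ, g)` -/
private noncomputable def pol {n : ℕ} (G : MvPolynomial (Vr n) ℂ) (y : YV n → ℂ)
    (u v : Fin (n + 1) → ℂ) :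
    MvPolynomial ((Fin (n + 1) × Fin (n + 1) × Fin (n + 1)) ⊕ GV n) ℂ :=
  aeval (Sum.elim (fun w => C (y w)) (Sum.elim (fun l => ∑ p, ∑ q,
    (X (Sum.inl (l, p, q)) - X (Sum.inl (p, l, q)) - X (Sum.inl (l, q, p)) -
      X (Sum.inl (q, p, l)) + X (Sum.inl (p, q, l)) + X (Sum.inl (q, l, p))) * C (u p * v q))
    (fun t => X (Sum.inr t)))) G

private theorem eval_pol {n : ℕ} (G : MvPolynomial (Vr n) ℂ) (y : YV n → ℂ)
    (u v : Fin (n + 1) → ℂ) (μ : Fin (n + 1) × Fin (n + 1) × Fin (n + 1) → ℂ) (g : GV n → ℂ) :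
    eval (Sum.elim μ g) (pol G y u v) = eval (ev y (xx u v μ) g) G := by
  unfold pol
  induction G using MvPolynomial.induction_on with
  | C a => simp [algebraMap_eq]
  | add P Q hP hQ => rw [map_add, map_add, map_add, hP, hQ]
  | mul_X P w hP =>
    rw [map_mul, map_mul, map_mul, hP, aeval_X, eval_X]
    congr 1
    rcases w with w | l | t
    · simp [ev]
    · simp [ev, xx]
    · simp [ev]

/-- [TT-G3c] If a polynomial vanishes at all points `(xx u v μ, g)` with rational `μ`, `g`, then it vanishes at all `(x, g)` with `u·x = v·x = 0`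
(as a function of `(μ, g)` it is a polynomial; `MvPolynomial.funext_set` with the infinite set of rational numbers). -/
theorem vanish_of_rat {n : ℕ} (G : MvPolynomial (Vr n) ℂ) (y : YV n → ℂ)
    (u v : Fin (n + 1) → ℂ) (huv : LinearIndependent ℂ ![u, v])
    (h : ∀ (μ : Fin (n + 1) × Fin (n + 1) × Fin (n + 1) → ℚ) (g : GV n → ℚ),
      eval (ev y (xx u v (fun t => (μ t : ℂ))) (fun p => (g p : ℂ))) G = 0)
    (x : Fin (n + 1) → ℂ) (g : GV n → ℂ) (hu : ∑ l, u l * x l = 0) (hv : ∑ l, v l * x l = 0) :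
    eval (ev y x g) G = 0 := by
  obtain ⟨μ, hμ⟩ := exists_xx u v huv x hu hv
  have hinf : (Set.range ((↑) : ℚ → ℂ)).Infinite :=
    Set.infinite_range_of_injective Rat.cast_injective
  have h0 : pol G y u v = 0 := by
    refine funext_set (fun _ => Set.range ((↑) : ℚ → ℂ)) (fun _ => hinf) ?_
    intro w hw
    rw [map_zero]
    have hw' : ∀ t, ∃ a : ℚ, (a : ℂ) = w t := fun t => hw t (Set.mem_univ t)
    choose a ha using hw'
    have e : w = Sum.elim (fun t => ((a (Sum.inl t) : ℚ) : ℂ)) (fun p => ((a (Sum.inr p) : ℚ) : ℂ)) := by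
      funext t
      rcases t with t | t
      · exact (ha (Sum.inl t)).symm
      · exact (ha (Sum.inr t)).symm
    rw [e, eval_pol]
    exact h (fun t => a (Sum.inl t)) (fun p => a (Sum.inr p))
  rw [← hμ, ← eval_pol, h0, map_zero]

end Pool.Agent.TT
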