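import Pool.Agent.Lib_MP_b9fedf_tt.Defs

/-! [TT-A3]: the derivation and the bounds of the exponents. -/

set_option autoImplicit false

namespace Pool.Agent.TT
open MvPolynomial

private theorem supp_dd_bx {n : ℕ} {S T : Set (Vr n →₀ ℕ)}
    (h1 : ∀ m ∈ S, ∀ v : YV n, m (Sum.inl v) ≠ 0 →
      m - Finsupp.single (Sum.inl v) 1 + Finsupp.single (Sum.inl (v.1, v.2 + 1)) 1 ∈ T)
    (h2 : ∀ m ∈ S, ∀ (l : Fin (n + 1)) (j : Fin n), m (Sum.inr (Sum.inl l)) ≠ 0 →
      m - Finsupp.single (Sum.inr (Sum.inl l)) 1 +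
        (Finsupp.single (Sum.inl (j, 0)) 1 + Finsupp.single (Sum.inr (Sum.inr (j, l))) 1) ∈ T)
    {G : MvPolynomial (Vr n) ℂ} (hG : ∀ m ∈ G.support, m ∈ S) :
    ∀ m ∈ (dd n G).support, m ∈ T := by
  have key : dd n G ∈ restrictSupport ℂ T := by
    rw [← support_sum_monomial_coeff G, map_sum]
    refine Submodule.sum_mem _ fun m hm => ?_
    have hmS := hG m hm
    unfold dd
    rw [mkDerivation_monomial, Finsupp.sum]
    refine Submodule.smul_mem _ _ (Submodule.sum_mem _ fun i hi => ?_)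
    have hi' : m i ≠ 0 := Finsupp.mem_support_iff.1 hi
    rw [smul_eq_mul]
    rcases i with v | l | p
    · have e : dvar n (Sum.inl v) = monomial (Finsupp.single (Sum.inl (v.1, v.2 + 1)) 1) 1 := rfl
      rw [e, monomial_mul, monomial_mem_restrictSupport]
      exact Or.inl (h1 m hmS v hi')
    · have e : dvar n (Sum.inr (Sum.inl l)) =
          ∑ j, X (Sum.inl (j, 0)) * X (Sum.inr (Sum.inr (j, l))) := rfl
      rw [e, Finset.mul_sum]
      refine Submodule.sum_mem _ fun j _ => ?_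
      have e2 : (X (Sum.inl (j, 0)) * X (Sum.inr (Sum.inr (j, l))) : MvPolynomial (Vr n) ℂ) =
          monomial (Finsupp.single (Sum.inl (j, 0)) 1 +
            Finsupp.single (Sum.inr (Sum.inr (j, l))) 1) (1 * 1) := by
        rw [← monomial_mul]
        rfl
      rw [e2, monomial_mul, monomial_mem_restrictSupport]
      exact Or.inl (h2 m hmS l j hi')
    · have e : dvar n (Sum.inr (Sum.inr p)) = 0 := rfl
      rw [e, mul_zero]
      exact Submodule.zero_mem _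
  intro m hm
  exact (mem_restrictSupport_iff ℂ).1 key (Finset.mem_coe.2 hm)

private theorem wt_single_bx {n : ℕ} (i : Vr n) :
    wt (Finsupp.single i 1) = (Sum.elim (fun v : YV n => v.2 + 1) fun _ => 0) i := by
  unfold wt
  rw [Finsupp.weight_single, one_smul]

private theorem wt_sub_bx {n : ℕ} (m : Vr n →₀ ℕ) (i : Vr n) (hi : m i ≠ 0) :
    wt (m - Finsupp.single i 1) + (Sum.elim (fun v : YV n => v.2 + 1) fun _ => 0) i = wt m := by
  have h : m - Finsupp.single i 1 + Finsupp.single i 1 = m :=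
    tsub_add_cancel_of_le (Finsupp.single_le_iff.2 (Nat.one_le_iff_ne_zero.2 hi))
  rw [← wt_single_bx, ← map_add, h]

private theorem wt_a_bx {n : ℕ} (m : Vr n →₀ ℕ) (v : YV n) (hv : m (Sum.inl v) ≠ 0) :
    wt (m - Finsupp.single (Sum.inl v) 1 + Finsupp.single (Sum.inl (v.1, v.2 + 1)) 1) = wt m + 1 := by
  have h := wt_sub_bx m (Sum.inl v) hv
  rw [map_add, wt_single_bx]
  simp only [Sum.elim_inl] at h ⊢
  omega

private theorem wt_b_bx {n : ℕ} (m : Vr n →₀ ℕ) (l : Fin (n + 1)) (j : Fin n)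
    (hl : m (Sum.inr (Sum.inl l)) ≠ 0) :
    wt (m - Finsupp.single (Sum.inr (Sum.inl l)) 1 +
      (Finsupp.single (Sum.inl (j, 0)) 1 + Finsupp.single (Sum.inr (Sum.inr (j, l))) 1)) = wt m + 1 := by
  have h := wt_sub_bx m (Sum.inr (Sum.inl l)) hl
  rw [map_add, map_add, wt_single_bx, wt_single_bx]
  simp only [Sum.elim_inl, Sum.elim_inr] at h ⊢
  omega

private theorem x_a_bx {n : ℕ} (m : Vr n →₀ ℕ) (v : YV n) (q : Fin (n + 1) ⊕ GV n) :
    (m - Finsupp.single (Sum.inl v) 1 + Finsupp.single (Sum.inl (v.1, v.2 + 1)) 1 : Vr n →₀ ℕ)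
      (Sum.inr q) = m (Sum.inr q) := by
  rw [Finsupp.add_apply, Finsupp.tsub_apply, Finsupp.single_eq_of_ne (by simp),
    Finsupp.single_eq_of_ne (by simp)]
  simp

private theorem x_b_bx {n : ℕ} (m : Vr n →₀ ℕ) (l : Fin (n + 1)) (j : Fin n) (l' : Fin (n + 1)) :
    (m - Finsupp.single (Sum.inr (Sum.inl l)) 1 +
      (Finsupp.single (Sum.inl (j, 0)) 1 + Finsupp.single (Sum.inr (Sum.inr (j, l))) 1) : Vr n →₀ ℕ)
        (Sum.inr (Sum.inl l')) ≤ m (Sum.inr (Sum.inl l')) := by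
  rw [Finsupp.add_apply, Finsupp.add_apply, Finsupp.tsub_apply,
    Finsupp.single_eq_of_ne (a := Sum.inl (j, 0)) (by simp),
    Finsupp.single_eq_of_ne (a := Sum.inr (Sum.inr (j, l))) (by simp)]
  simp

private theorem g_b_bx {n : ℕ} (m : Vr n →₀ ℕ) (l : Fin (n + 1)) (j : Fin n) (p : GV n) :
    (m - Finsupp.single (Sum.inr (Sum.inl l)) 1 +
      (Finsupp.single (Sum.inl (j, 0)) 1 + Finsupp.single (Sum.inr (Sum.inr (j, l))) 1) : Vr n →₀ ℕ)
        (Sum.inr (Sum.inr p)) ≤ m (Sum.inr (Sum.inr p)) + 1 := by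
  classical
  rw [Finsupp.add_apply, Finsupp.add_apply, Finsupp.tsub_apply,
    Finsupp.single_eq_of_ne (a := Sum.inl (j, 0)) (by simp),
    Finsupp.single_eq_of_ne (a := Sum.inr (Sum.inl l)) (by simp), Finsupp.single_apply]
  split_ifs <;> omega

/-- [TT-A3a] Proof.  The conditions define submodules (`restrictSupport`); for a monomial `m`, `dd (monomial m 1)` is (`mkDerivation_monomial`) a sum
of the `monomial (m - single v 1) (m v) * dvar v`; `dvar (inl (j,i)) = X (inl (j,i+1))` raises the weight by one,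
`dvar (inr (inl l))` is a sum of products of a jet of weight one and one `g`, `dvar (inr (inr p)) = 0`. -/
theorem bx_dd {n ω A B : ℕ} {G : MvPolynomial (Vr n) ℂ} (h : Bx ω A B G) :
    Bx (ω + 1) A (B + 1) (dd n G) := by
  refine supp_dd_bx (S := {m | wt m ≤ ω ∧ (∀ l, m (Sum.inr (Sum.inl l)) < A) ∧
      ∀ p, m (Sum.inr (Sum.inr p)) < B})
    (T := {m | wt m ≤ ω + 1 ∧ (∀ l, m (Sum.inr (Sum.inl l)) < A) ∧
      ∀ p, m (Sum.inr (Sum.inr p)) < B + 1}) ?_ ?_ h
  · rintro m ⟨h1, h2, h3⟩ v hv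
    refine ⟨?_, fun l => ?_, fun p => ?_⟩
    · rw [wt_a_bx m v hv]; omega
    · rw [x_a_bx]; exact h2 l
    · rw [x_a_bx]; exact (h3 p).trans (Nat.lt_succ_self B)
  · rintro m ⟨h1, h2, h3⟩ l j hl
    refine ⟨?_, fun l' => ?_, fun p => ?_⟩
    · rw [wt_b_bx m l j hl]; omega
    · exact (x_b_bx m l j l').trans_lt (h2 l')
    · exact (g_b_bx m l j p).trans_lt (Nat.succ_lt_succ (h3 p))

theorem bx_iter {n ω A B : ℕ} {G : MvPolynomial (Vr n) ℂ} (h : Bx ω A B G) (a : ℕ) :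
    Bx (ω + a) A (B + a) ((⇑(dd n))^[a] G) := by
  induction a with
  | zero => exact h
  | succ a ih =>
    rw [Function.iterate_succ_apply', ← add_assoc, ← add_assoc]
    exact bx_dd ih

/-- [TT-A3b] The same with `Bd`. -/
theorem bd_dd {n ω A : ℕ} {G : MvPolynomial (Vr n) ℂ} (h : Bd ω A G) :
    Bd (ω + 1) A (dd n G) := by
  refine supp_dd_bx (S := {m | wt m ≤ ω ∧ ∑ l, m (Sum.inr (Sum.inl l)) ≤ A})
    (T := {m | wt m ≤ ω + 1 ∧ ∑ l, m (Sum.inr (Sum.inl l)) ≤ A}) ?_ ?_ h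
  · rintro m ⟨h1, h2⟩ v hv
    refine ⟨?_, ?_⟩
    · rw [wt_a_bx m v hv]; omega
    · rw [Finset.sum_congr rfl fun l _ => x_a_bx m v (Sum.inl l)]; exact h2
  · rintro m ⟨h1, h2⟩ l j hl
    refine ⟨?_, ?_⟩
    · rw [wt_b_bx m l j hl]; omega
    · exact (Finset.sum_le_sum fun l' _ => x_b_bx m l j l').trans h2

theorem bd_iter {n ω A : ℕ} {G : MvPolynomial (Vr n) ℂ} (h : Bd ω A G) (a : ℕ) :
    Bd (ω + a) A ((⇑(dd n))^[a] G) := by
  induction a with
  | zero => exact h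
  | succ a ih =>
    rw [Function.iterate_succ_apply', ← add_assoc]
    exact bd_dd ih

theorem bx_bd {n ω A B : ℕ} {G : MvPolynomial (Vr n) ℂ} (h : Bx ω A B G) :
    Bd ω ((n + 1) * A) G := by
  intro m hm
  obtain ⟨h1, h2, _⟩ := h m hm
  refine ⟨h1, ?_⟩
  refine (Finset.sum_le_sum fun l _ => (h2 l).le).trans ?_
  simp

end Pool.Agent.TT
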