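import Pool.Agent.Lib_MP_b9fedf_tt.Defs

/-! [TT-A1]: the number of monomials in the jets. -/

set_option autoImplicit false

namespace Pool.Agent.TT
open MvPolynomial

/-- The weight of a monomial in the jets as a sum. -/
private def wq {n : ℕ} (m : Fin n × ℕ →₀ ℕ) : ℕ := m.sum fun p a => (p.2 + 1) * a

private theorem wY_eq {n : ℕ} (m : YV n →₀ ℕ) : wY m = wq m := by
  unfold wY wq
  rw [Finsupp.weight_apply]
  refine Finsupp.sum_congr fun p _ => ?_
  rw [smul_eq_mul, mul_comm]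

private theorem YM_eq (n w : ℕ) : YM n w = {m : Fin n × ℕ →₀ ℕ | wq m ≤ w} := by
  ext m
  have h := wY_eq m
  constructor
  · intro hm
    have hm' : wY m ≤ w := hm
    exact h.symm.le.trans hm'
  · intro hm
    have hm' : wq m ≤ w := hm
    exact h.le.trans hm'

private theorem le_wq {n : ℕ} (m : Fin n × ℕ →₀ ℕ) (p : Fin n × ℕ) : (p.2 + 1) * m p ≤ wq m := by
  classical
  by_cases h : p ∈ m.support
  · exact Finset.single_le_sum (f := fun p => (p.2 + 1) * m p) (fun _ _ => Nat.zero_le _) h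
  · rw [Finsupp.notMem_support_iff.1 h]
    exact Nat.zero_le _

/-- The restriction of a monomial to the variables of order at most `w`. -/
private def rs {n : ℕ} (w : ℕ) (m : Fin n × ℕ →₀ ℕ) : Fin n × Fin w → ℕ := fun x => m (x.1, x.2)

private theorem eq_zero_of_le {n w : ℕ} {m : Fin n × ℕ →₀ ℕ} (hm : wq m ≤ w) {p : Fin n × ℕ}
    (hp : w ≤ p.2) : m p = 0 := by
  have h := (le_wq m p).trans hm
  by_contra h0
  have h1 : 1 ≤ m p := Nat.one_le_iff_ne_zero.2 h0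
  nlinarith [Nat.mul_le_mul (le_refl (p.2 + 1)) h1]

private theorem rs_wq {n w : ℕ} {m : Fin n × ℕ →₀ ℕ} (hm : wq m ≤ w) :
    ∑ x : Fin n × Fin w, ((x.2 : ℕ) + 1) * rs w m x = wq m := by
  classical
  unfold wq
  rw [Finsupp.sum]
  let e : Fin n × Fin w ↪ Fin n × ℕ := ⟨fun x => (x.1, (x.2 : ℕ)), by
    intro x y h
    have h1 := congrArg Prod.fst h
    have h2 := congrArg Prod.snd h
    exact Prod.ext h1 (Fin.ext h2)⟩
  have h1 : ∑ x : Fin n × Fin w, ((x.2 : ℕ) + 1) * rs w m x =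
      ∑ p ∈ (Finset.univ : Finset (Fin n × Fin w)).map e, (p.2 + 1) * m p := by
    rw [Finset.sum_map]
    rfl
  rw [h1]
  refine (Finset.sum_subset ?_ ?_).symm
  · intro p hp
    rw [Finset.mem_map]
    have hlt : p.2 < w := by
      by_contra h
      exact (Finsupp.mem_support_iff.1 hp) (eq_zero_of_le hm (not_lt.1 h))
    exact ⟨(p.1, ⟨p.2, hlt⟩), Finset.mem_univ _, rfl⟩
  · intro p _ hp
    rw [Finsupp.notMem_support_iff.1 hp, mul_zero]

private theorem rs_le {n w : ℕ} {m : Fin n × ℕ →₀ ℕ} (hm : wq m ≤ w) (x : Fin n × Fin w) :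
    rs w m x ≤ w := by
  have h := (le_wq m (x.1, (x.2 : ℕ))).trans hm
  have h1 : rs w m x = m (x.1, (x.2 : ℕ)) := rfl
  rw [h1]
  nlinarith [Nat.zero_le ((x.2 : ℕ) * m (x.1, (x.2 : ℕ)))]

private theorem rs_inj {n w : ℕ} : Set.InjOn (rs (n := n) w) {m | wq m ≤ w} := by
  intro m hm m' hm' h
  ext p
  by_cases hp : p.2 < w
  · exact congrFun h (p.1, ⟨p.2, hp⟩)
  · rw [eq_zero_of_le hm (not_lt.1 hp), eq_zero_of_le hm' (not_lt.1 hp)]

/-- The finite set of exponents which contains all restrictions of monomials of weight at most `w`. -/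
private noncomputable def bx (n w : ℕ) : Finset (Fin n × Fin w → ℕ) :=
  (Fintype.piFinset fun _ : Fin n × Fin w => Finset.range (w + 1)).filter
    fun p => ∑ x, ((x.2 : ℕ) + 1) * p x ≤ w

private theorem rs_mem {n w : ℕ} {m : Fin n × ℕ →₀ ℕ} (hm : wq m ≤ w) : rs w m ∈ bx n w := by
  classical
  unfold bx
  rw [Finset.mem_filter, Fintype.mem_piFinset]
  refine ⟨fun x => ?_, ?_⟩
  · rw [Finset.mem_range]
    exact Nat.lt_succ_of_le (rs_le hm x)
  · rw [rs_wq hm]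
    exact hm

private theorem finite_wq (n w : ℕ) : {m : Fin n × ℕ →₀ ℕ | wq m ≤ w}.Finite :=
  Set.Finite.of_injOn (f := rs w) (t := (bx n w : Set (Fin n × Fin w → ℕ)))
    (fun _ hm => Finset.mem_coe.2 (rs_mem hm)) rs_inj (Finset.finite_toSet _)

private theorem ncard_le_bx (n w : ℕ) : {m : Fin n × ℕ →₀ ℕ | wq m ≤ w}.ncard ≤ (bx n w).card := by
  rw [← Set.ncard_coe_finset]
  exact Set.ncard_le_ncard_of_injOn (rs w) (fun _ hm => Finset.mem_coe.2 (rs_mem hm)) rs_inj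
    (Finset.finite_toSet _)

private theorem geo_inv {q : ℝ} (h0 : 0 ≤ q) (h1 : q < 1) (k : ℕ) :
    ∑ a ∈ Finset.range k, q ^ a ≤ (1 - q)⁻¹ := by
  have h2 : 0 < 1 - q := by linarith
  have h3 := geom_sum_mul q k
  have h4 : 0 ≤ q ^ k := pow_nonneg h0 k
  have h5 : (∑ a ∈ Finset.range k, q ^ a) * (1 - q) ≤ 1 := by nlinarith
  rw [← one_div, le_div_iff₀ h2]
  exact h5

private theorem geom_le {ρ : ℝ} (h0 : 0 < ρ) (h1 : ρ < 1) (i w : ℕ) :
    ∑ a ∈ Finset.range (w + 1), ρ ^ ((i + 1) * a) ≤ Real.exp (ρ ^ (i + 1) / (1 - ρ)) := by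
  have hx0 : 0 < ρ ^ (i + 1) := pow_pos h0 _
  have hx1 : ρ ^ (i + 1) ≤ ρ := by
    calc ρ ^ (i + 1) = ρ ^ i * ρ := pow_succ _ _
      _ ≤ 1 * ρ := by
          refine mul_le_mul_of_nonneg_right (pow_le_one₀ h0.le h1.le) h0.le
      _ = ρ := one_mul _
  have hlt : ρ ^ (i + 1) < 1 := lt_of_le_of_lt hx1 h1
  set q := ρ ^ (i + 1) with hq
  have e1 : ∑ a ∈ Finset.range (w + 1), ρ ^ ((i + 1) * a) = ∑ a ∈ Finset.range (w + 1), q ^ a := by
    refine Finset.sum_congr rfl fun a _ => ?_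
    rw [hq, pow_mul]
  rw [e1]
  have e2 : ∑ a ∈ Finset.range (w + 1), q ^ a ≤ (1 - q)⁻¹ := by
    exact geo_inv hx0.le hlt (w + 1)
  refine e2.trans ?_
  have e3 : (1 - q)⁻¹ = q / (1 - q) + 1 := by
    have h9 : (1 - q) ≠ 0 := by linarith
    field_simp
    linarith
  rw [e3]
  refine (Real.add_one_le_exp _).trans ?_
  refine Real.exp_le_exp.2 ?_
  refine div_le_div_of_nonneg_left hx0.le (by linarith) (by linarith)

/-- `N(w) ρ^w ≤ exp(n ρ / (1-ρ)^2)`. -/
private theorem card_bx_le {ρ : ℝ} (h0 : 0 < ρ) (h1 : ρ < 1) (n w : ℕ) :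
    ((bx n w).card : ℝ) * ρ ^ w ≤ Real.exp (n * (ρ / (1 - ρ) / (1 - ρ))) := by
  classical
  have hs : ((bx n w).card : ℝ) * ρ ^ w ≤
      ∑ p ∈ Fintype.piFinset fun _ : Fin n × Fin w => Finset.range (w + 1),
        ∏ x, ρ ^ (((x.2 : ℕ) + 1) * p x) := by
    calc ((bx n w).card : ℝ) * ρ ^ w = ∑ p ∈ bx n w, ρ ^ w := by
          rw [Finset.sum_const, nsmul_eq_mul]
      _ ≤ ∑ p ∈ bx n w, ∏ x, ρ ^ (((x.2 : ℕ) + 1) * p x) := by
          refine Finset.sum_le_sum fun p hp => ?_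
          rw [Finset.prod_pow_eq_pow_sum]
          refine pow_le_pow_of_le_one h0.le h1.le ?_
          exact (Finset.mem_filter.1 hp).2
      _ ≤ _ := by
          refine Finset.sum_le_sum_of_subset_of_nonneg (Finset.filter_subset _ _) ?_
          intro p _ _
          exact Finset.prod_nonneg fun x _ => (pow_pos h0 _).le
  refine hs.trans ?_
  rw [← Finset.prod_univ_sum (fun _ : Fin n × Fin w => Finset.range (w + 1))
    (fun x a => ρ ^ (((x.2 : ℕ) + 1) * a))]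
  calc ∏ x : Fin n × Fin w, ∑ a ∈ Finset.range (w + 1), ρ ^ (((x.2 : ℕ) + 1) * a)
      ≤ ∏ x : Fin n × Fin w, Real.exp (ρ ^ ((x.2 : ℕ) + 1) / (1 - ρ)) := by
        refine Finset.prod_le_prod (fun x _ => ?_) fun x _ => geom_le h0 h1 _ _
        exact Finset.sum_nonneg fun a _ => (pow_pos h0 _).le
    _ = Real.exp (∑ x : Fin n × Fin w, ρ ^ ((x.2 : ℕ) + 1) / (1 - ρ)) := by
        rw [Real.exp_sum]
    _ ≤ _ := by
        refine Real.exp_le_exp.2 ?_
        rw [Fintype.sum_prod_type]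
        simp only
        rw [Finset.sum_const, Finset.card_univ, Fintype.card_fin, nsmul_eq_mul]
        refine mul_le_mul_of_nonneg_left ?_ (Nat.cast_nonneg _)
        rw [← Finset.sum_div]
        refine div_le_div_of_nonneg_right ?_ (by linarith)
        have h2 : ∑ i : Fin w, ρ ^ ((i : ℕ) + 1) = ρ * ∑ i ∈ Finset.range w, ρ ^ i := by
          rw [Finset.mul_sum, Finset.sum_range]
          refine Finset.sum_congr rfl fun i _ => ?_
          rw [pow_succ, mul_comm]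
        rw [h2, div_eq_mul_inv]
        refine mul_le_mul_of_nonneg_left ?_ h0.le
        exact geo_inv h0.le h1 w

/-- For large `J` there are fewer than `2^J` monomials of weight at most `J c`. -/
private theorem exists_card_lt (n : ℕ) {c : ℕ} (hc : 0 < c) :
    ∃ J : ℕ, {m : Fin n × ℕ →₀ ℕ | wq m ≤ J * c}.ncard < 2 ^ J := by
  have hcr : (1 : ℝ) ≤ c := by exact_mod_cast hc
  set ρ : ℝ := 1 - 1 / (4 * c) with hρ
  have hd : (1 : ℝ) / (4 * c) ≤ 1 / 4 := by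
    refine div_le_div_of_nonneg_left zero_le_one (by norm_num) (by linarith)
  have hd0 : 0 < (1 : ℝ) / (4 * c) := by positivity
  have h0 : 0 < ρ := by rw [hρ]; linarith
  have h1 : ρ < 1 := by rw [hρ]; linarith
  have hb : (3 / 4 : ℝ) ≤ ρ ^ c := by
    have hbern := one_add_mul_le_pow (a := -(1 / (4 * (c : ℝ)))) (by linarith) c
    have e : (1 : ℝ) + c * (-(1 / (4 * (c : ℝ)))) = 3 / 4 := by
      field_simp
      ring
    rw [e] at hbern
    have e2 : (1 : ℝ) + (-(1 / (4 * (c : ℝ)))) = ρ := by rw [hρ]; ring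
    rw [e2] at hbern
    exact hbern
  set B := Real.exp (n * (ρ / (1 - ρ) / (1 - ρ))) with hB
  obtain ⟨J, hJ⟩ := pow_unbounded_of_one_lt B (show (1 : ℝ) < 3 / 2 by norm_num)
  refine ⟨J, ?_⟩
  have h2 : ((bx n (J * c)).card : ℝ) * ρ ^ (J * c) ≤ B := card_bx_le h0 h1 n (J * c)
  have h3 : (3 / 4 : ℝ) ^ J ≤ ρ ^ (J * c) := by
    rw [mul_comm, pow_mul]
    exact pow_le_pow_left₀ (by norm_num) hb J
  have h4 : ((bx n (J * c)).card : ℝ) * (3 / 4 : ℝ) ^ J < (3 / 2 : ℝ) ^ J :=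
    lt_of_le_of_lt ((mul_le_mul_of_nonneg_left h3 (Nat.cast_nonneg _)).trans h2) hJ
  have h5 : (3 / 2 : ℝ) ^ J = 2 ^ J * (3 / 4 : ℝ) ^ J := by
    rw [← mul_pow]
    norm_num
  rw [h5] at h4
  have h6 : ((bx n (J * c)).card : ℝ) < 2 ^ J :=
    lt_of_mul_lt_mul_right h4 (by positivity)
  have h7 : (bx n (J * c)).card < 2 ^ J := by exact_mod_cast h6
  exact lt_of_le_of_lt (ncard_le_bx n (J * c)) h7

/-- [TT-A1a] There are finitely many monomials of weight at most `ω` in the variables `y_{j,i}` (all `i < ω` and all exponents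
are at most `ω`). -/
theorem ym_finite (n ω : ℕ) : (YM n ω).Finite := by
  rw [YM_eq]
  exact finite_wq n ω

/-- [TT-A1b] The number of monomials of weight at most `ω` grows subexponentially.  Proof.  Let `N` be the number of monomials of weight at
most `t c`, `ρ = 2 ^ (-1 / (2 c))` (real, `0 < ρ < 1`).  With `m : Fin n × Fin (t c) → Fin (t c + 1)` the exponents,
`N * ρ ^ (t c) ≤ ∑ m, ρ ^ (∑ (i + 1) m (j,i)) = ∏ (j,i), ∑ e ≤ t c, ρ ^ ((i+1) e) ≤ ∏ (j,i), 1 / (1 - ρ ^ (i+1))`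
(`Finset.prod_univ_sum` or `Fintype.prod_sum`), and `1 / (1 - x) ≤ exp (x / (1 - x)) ≤ exp (x / (1 - ρ))` for `x = ρ ^ (i+1)`, so
`N * ρ ^ (t c) ≤ P := exp (n / (1 - ρ) ^ 2)`, i.e. `N ≤ P * 2 ^ (t / 2) < 2 ^ t` as soon as `2 ^ (t / 2) > P`. -/
theorem ym_card (n c : ℕ) (hc : 1 ≤ c) : ∃ t : ℕ, (YM n (t * c)).ncard < 2 ^ t := by
  obtain ⟨J, hJ⟩ := exists_card_lt n hc
  refine ⟨J, ?_⟩
  rw [YM_eq]
  exact hJ

end Pool.Agent.TT
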