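import Pool.Agent.Lib_MP_b9fedf_tt.DefsG
import Pool.Agent.Lib_MP_b9fedf_tt.Count
import Pool.Agent.Lib_MP_b9fedf_tt.Box

/-! [TT-G2]: finitely many points and jets of bounded order are enough. -/

set_option autoImplicit false

namespace Pool.Agent.TT
open MvPolynomial

/-- the values of the monomials of weight at most `W` at the jets `y` -/
private def mv {n : ℕ} (W : ℕ) (y : YV n → ℂ) : YM n W → ℂ :=
  fun m => m.1.prod fun v e => y v ^ e

/-- finitely many vectors span -/
private theorem exists_span {V Ω : Type} [AddCommGroup V] [Module ℂ V] [Module.Finite ℂ V]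
    [Nonempty Ω] (v : Ω → V) {N : ℕ} (hN : Module.finrank ℂ V ≤ N) :
    ∃ p : Fin N → Ω, ∀ z, v z ∈ Submodule.span ℂ (Set.range fun t => v (p t)) := by
  classical
  obtain ⟨b, hb, hspan, hli⟩ := exists_linearIndependent ℂ (Set.range v)
  have hfin : b.Finite := hli.setFinite
  haveI : Fintype b := hfin.fintype
  have hcard : Fintype.card b ≤ Fintype.card (Fin N) := by
    rw [Fintype.card_fin]
    exact hli.fintype_card_le_finrank.trans hN
  obtain ⟨e⟩ := Function.Embedding.nonempty_of_card_le hcard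
  have hpre : ∀ s : b, ∃ z, v z = s.1 := fun s => hb s.2
  choose q hq using hpre
  refine ⟨fun t => if h : ∃ s : b, e s = t then q h.choose else Classical.arbitrary Ω,
    fun z => ?_⟩
  have h1 : v z ∈ Submodule.span ℂ b := by
    rw [hspan]
    exact Submodule.subset_span ⟨z, rfl⟩
  refine Submodule.span_mono ?_ h1
  intro s hs
  refine ⟨e ⟨s, hs⟩, ?_⟩
  have h2 : ∃ s' : b, e s' = e ⟨s, hs⟩ := ⟨⟨s, hs⟩, rfl⟩
  show v (if h : ∃ s' : b, e s' = e ⟨s, hs⟩ then q h.choose else Classical.arbitrary Ω) = s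
  rw [dif_pos h2, hq]
  have h3 : h2.choose = ⟨s, hs⟩ := e.injective h2.choose_spec
  rw [h3]

/-- [TT-G2a] Proof.  `N = (YM n W).ncard`; the vectors `(y z) ^ m`, `m ∈ YM n W`, `z ∈ Ω`, span a subspace of `ℂ ^ N`; choose `N` points
such that their vectors span it (with repetitions). -/
theorem exists_points {n : ℕ} {Ω : Type} [Nonempty Ω] (y : Ω → YV n → ℂ) (W : ℕ) :
    ∃ p : Fin (YM n W).ncard → Ω, ∀ P : MvPolynomial (YV n) ℂ, (∀ m ∈ P.support, wY m ≤ W) →
      (∀ t, eval (y (p t)) P = 0) → ∀ z, eval (y z) P = 0 := by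
  classical
  haveI hfin : Fintype (YM n W) := (ym_finite n W).fintype
  have hN : Module.finrank ℂ (YM n W → ℂ) ≤ (YM n W).ncard := by
    rw [Module.finrank_fintype_fun_eq_card, Set.ncard_eq_toFinset_card', Set.toFinset_card]
  obtain ⟨p, hp⟩ := exists_span (fun z => mv W (y z)) hN
  refine ⟨p, fun P hP h0 z => ?_⟩
  let L : (YM n W → ℂ) →ₗ[ℂ] ℂ := ∑ m : YM n W, P.coeff m.1 • LinearMap.proj m
  have hL : ∀ w, L w = ∑ m : YM n W, P.coeff m.1 * w m := by
    intro w
    simp [L, LinearMap.sum_apply]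
  have key : ∀ u : YV n → ℂ, eval u P = L (mv W u) := by
    intro u
    rw [hL, eval_eq]
    have h1 : ∑ m : YM n W, P.coeff m.1 * mv W u m =
        ∑ m ∈ (YM n W).toFinset, P.coeff m * m.prod fun v e => u v ^ e :=
      Finset.sum_set_coe (YM n W) (f := fun m => P.coeff m * m.prod fun v e => u v ^ e)
    rw [h1]
    refine Finset.sum_subset (fun m hm => ?_) fun m _ hm => ?_
    · rw [Set.mem_toFinset]
      exact hP m hm
    · rw [notMem_support_iff.1 hm, zero_mul]
  have h1 : ∀ w ∈ Submodule.span ℂ (Set.range fun t => mv W (y (p t))), L w = 0 := by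
    intro w hw
    induction hw using Submodule.span_induction with
    | mem x hx =>
      obtain ⟨t, rfl⟩ := hx
      show L (mv W (y (p t))) = 0
      rw [← key, h0 t]
    | zero => exact map_zero L
    | add x y _ _ hx hy => rw [map_add, hx, hy, add_zero]
    | smul a x _ hx => rw [map_smul, hx, smul_zero]
  rw [key]
  exact h1 _ (hp z)

/-- bounds of the weight are additive -/
private theorem wd_mul {τ : Type} (w : τ → ℕ) {N M : ℕ} {P Q : MvPolynomial τ ℂ}
    (hP : ∀ m ∈ P.support, Finsupp.weight w m ≤ N)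
    (hQ : ∀ m ∈ Q.support, Finsupp.weight w m ≤ M) :
    ∀ m ∈ (P * Q).support, Finsupp.weight w m ≤ N + M := by
  classical
  intro m hm
  have h1 := support_mul P Q hm
  obtain ⟨a, ha, b, hb, rfl⟩ := Finset.mem_add.1 h1
  rw [map_add]
  exact add_le_add (hP a ha) (hQ b hb)

/-- specialisation of `x` and the `g_j` to constants -/
private noncomputable def spj {n : ℕ} (x : Fin (n + 1) → ℂ) (g : GV n → ℂ) :
    MvPolynomial (Vr n) ℂ →ₐ[ℂ] MvPolynomial (YV n) ℂ :=
  aeval (Sum.elim X (Sum.elim (fun l => C (x l)) (fun p => C (g p))))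

private theorem eval_spj {n : ℕ} (y : YV n → ℂ) (x : Fin (n + 1) → ℂ) (g : GV n → ℂ)
    (P : MvPolynomial (Vr n) ℂ) :
    eval y (spj x g P) = eval (ev y x g) P := by
  induction P using MvPolynomial.induction_on with
  | C a =>
    have : spj x g (C a) = C a := by
      unfold spj
      rw [aeval_C]
      rfl
    rw [this, eval_C, eval_C]
  | add p q hp hq => rw [map_add, map_add, map_add, hp, hq]
  | mul_X p v hp =>
    rw [map_mul, map_mul, map_mul, hp, eval_X]
    congr 1
    unfold spj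
    rw [aeval_X]
    rcases v with v | l | p
    · simp [ev]
    · simp [ev]
    · simp [ev]

private theorem wd_pow {τ : Type} (w : τ → ℕ) {N : ℕ} {P : MvPolynomial τ ℂ}
    (hP : ∀ m ∈ P.support, Finsupp.weight w m ≤ N) (k : ℕ) :
    ∀ m ∈ (P ^ k).support, Finsupp.weight w m ≤ k * N := by
  classical
  induction k with
  | zero =>
    intro m hm
    rw [pow_zero, support_one, Finset.mem_singleton] at hm
    rw [hm, map_zero]
    exact Nat.zero_le _
  | succ k ih =>
    intro m hm
    rw [pow_succ] at hm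
    have := wd_mul w ih hP m hm
    rw [Nat.succ_mul]
    exact this

private theorem wd_prod {τ ρ : Type} (w : τ → ℕ) (s : Finset ρ) (N : ρ → ℕ) (P : ρ → MvPolynomial τ ℂ)
    (hP : ∀ i ∈ s, ∀ m ∈ (P i).support, Finsupp.weight w m ≤ N i) :
    ∀ m ∈ (∏ i ∈ s, P i).support, Finsupp.weight w m ≤ ∑ i ∈ s, N i := by
  classical
  induction s using Finset.induction_on with
  | empty =>
    intro m hm
    rw [Finset.prod_empty, support_one, Finset.mem_singleton] at hm
    rw [hm, map_zero]
    exact Nat.zero_le _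
  | insert i s hi ih =>
    intro m hm
    rw [Finset.prod_insert hi] at hm
    rw [Finset.sum_insert hi]
    exact wd_mul w (hP i (Finset.mem_insert_self i s))
      (ih fun j hj => hP j (Finset.mem_insert_of_mem hj)) m hm

private theorem wt_spj {n N : ℕ} (x : Fin (n + 1) → ℂ) (g : GV n → ℂ) (P : MvPolynomial (Vr n) ℂ)
    (hP : ∀ m ∈ P.support, wt m ≤ N) : ∀ m ∈ (spj x g P).support, wY m ≤ N := by
  classical
  set w : Vr n → ℕ := Sum.elim (fun v : YV n => v.2 + 1) fun _ => 0 with hw
  have hvar : ∀ v : Vr n, ∀ m ∈ ((Sum.elim X (Sum.elim (fun l => C (x l)) (fun p => C (g p))) :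
      Vr n → MvPolynomial (YV n) ℂ) v).support,
      Finsupp.weight (fun v : YV n => v.2 + 1) m ≤ w v := by
    intro v m hm
    rcases v with v | l | p
    · have h1 : m = Finsupp.single v 1 := by
        have h2 : ((X v : MvPolynomial (YV n) ℂ)).support = {Finsupp.single v 1} := support_X
        have h3 : m ∈ ((X v : MvPolynomial (YV n) ℂ)).support := hm
        rw [h2, Finset.mem_singleton] at h3
        exact h3
      rw [h1, Finsupp.weight_single]
      simp [hw]
    · have h2 : m ∈ ((C (x l) : MvPolynomial (YV n) ℂ)).support := hm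
      have h3 : m = 0 := by
        by_contra hne
        rw [mem_support_iff, coeff_C, if_neg (Ne.symm hne)] at h2
        exact h2 rfl
      rw [h3, map_zero]
      exact Nat.zero_le _
    · have h2 : m ∈ ((C (g p) : MvPolynomial (YV n) ℂ)).support := hm
      have h3 : m = 0 := by
        by_contra hne
        rw [mem_support_iff, coeff_C, if_neg (Ne.symm hne)] at h2
        exact h2 rfl
      rw [h3, map_zero]
      exact Nat.zero_le _
  intro m hm
  have h1 : spj x g P = ∑ d ∈ P.support, algebraMap ℂ (MvPolynomial (YV n) ℂ) (P.coeff d) *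
      ∏ i ∈ d.support, (Sum.elim X (Sum.elim (fun l => C (x l)) (fun p => C (g p))) :
      Vr n → MvPolynomial (YV n) ℂ) i ^ d i := by
    unfold spj
    rw [aeval_def, eval₂_eq]
  rw [h1] at hm
  obtain ⟨d, hd, hm2⟩ := Finset.mem_biUnion.1 (support_sum hm)
  have h2 : ∀ m ∈ (algebraMap ℂ (MvPolynomial (YV n) ℂ) (P.coeff d)).support,
      Finsupp.weight (fun v : YV n => v.2 + 1) m ≤ 0 := by
    intro m hm
    have h3 : m = 0 := by
      by_contra hne
      rw [algebraMap_eq, mem_support_iff, coeff_C, if_neg (Ne.symm hne)] at hm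
      exact hm rfl
    rw [h3, map_zero]
  have h3 := wd_mul (fun v : YV n => v.2 + 1) h2
    (wd_prod (fun v : YV n => v.2 + 1) d.support (fun i => d i * w i) _
      (fun i _ => wd_pow (fun v : YV n => v.2 + 1) (hvar i) (d i))) m hm2
  refine h3.trans ?_
  rw [zero_add]
  refine le_trans (le_of_eq ?_) (hP d hd)
  show _ = Finsupp.weight w d
  rw [Finsupp.weight_apply, Finsupp.sum]
  rfl

/-- [TT-G2b] Proof.  As `van_sigma` in Sigma.lean: for given `x`, `g` the polynomial `dd^[a] G` becomes a polynomial in the jets of weight at most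
`ω + a`. -/
theorem van_points {n c ω A : ℕ} {Ω ι : Type} (y : Ω → YV n → ℂ) {N : ℕ} (p : Fin N → Ω)
    (hp : ∀ P : MvPolynomial (YV n) ℂ, (∀ m ∈ P.support, wY m ≤ ω + c) →
      (∀ t, eval (y (p t)) P = 0) → ∀ z, eval (y z) P = 0)
    (b : ι → Fin (n + 1) → ℂ) (G : MvPolynomial (Vr n) ℂ) (hG : Bd ω A G)
    (hV : Van c (fun t => y (p t)) b G) : Van c y b G := by
  intro a ha i j hij z x g hi hj
  have h1 := hp (spj x g ((⇑(dd n))^[a] G)) (wt_spj x g _ fun m hm =>
    ((bd_iter hG a) m hm).1.trans (by omega)) (fun t => by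
      rw [eval_spj]
      exact hV a ha i j hij t x g hi hj) z
  rwa [eval_spj] at h1

/-- [TT-G2c] -/
theorem eval_trunc {n ω A W : ℕ} (hW : ω ≤ W) (G : MvPolynomial (Vr n) ℂ) (hG : Bd ω A G)
    (y : YV n → ℂ) (x : Fin (n + 1) → ℂ) (g : GV n → ℂ) :
    eval (ev (trunc W y) x g) G = eval (ev y x g) G := by
  rw [eval_eq, eval_eq]
  refine Finset.sum_congr rfl fun d hd => ?_
  congr 1
  refine Finset.prod_congr rfl fun v hv => ?_
  congr 1
  rcases v with v | l | p
  · show trunc W y v = y v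
    have h0 : v.2 + 1 ≤ ω := by
      refine le_trans ?_ (hG d hd).1
      show v.2 + 1 ≤ Finsupp.weight _ d
      rw [Finsupp.weight_apply, Finsupp.sum]
      have h1 : 1 ≤ d (Sum.inl v) := Nat.one_le_iff_ne_zero.2 (Finsupp.mem_support_iff.1 hv)
      have h2 : (d (Sum.inl v)) • (Sum.elim (fun v : YV n => v.2 + 1) (fun _ => 0) (Sum.inl v) : ℕ) ≤
          ∑ a ∈ d.support, d a • (Sum.elim (fun v : YV n => v.2 + 1) (fun _ => 0) a : ℕ) :=
        Finset.single_le_sum (f := fun a => d a • (Sum.elim (fun v : YV n => v.2 + 1)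
          (fun _ => 0) a : ℕ)) (fun _ _ => Nat.zero_le _) hv
      refine le_trans ?_ h2
      rw [smul_eq_mul, Sum.elim_inl]
      nlinarith
    unfold trunc
    rw [if_pos (by omega)]
  · rfl
  · rfl

/-- [TT-G2d] (`bd_iter`, `eval_trunc`) -/
theorem van_trunc {n c ω A W : ℕ} (hW : ω + c ≤ W) {Ω ι : Type} (y : Ω → YV n → ℂ)
    (b : ι → Fin (n + 1) → ℂ) (G : MvPolynomial (Vr n) ℂ) (hG : Bd ω A G) :
    Van c (fun t => trunc W (y t)) b G ↔ Van c y b G := by
  have key : ∀ a < c, ∀ (z : Ω) (x : Fin (n + 1) → ℂ) (g : GV n → ℂ),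
      eval (ev (trunc W (y z)) x g) ((⇑(dd n))^[a] G) = eval (ev (y z) x g) ((⇑(dd n))^[a] G) :=
    fun a ha z x g => eval_trunc (by omega) _ (bd_iter hG a) _ _ _
  constructor
  · intro h a ha i j hij z x g hi hj
    rw [← key a ha]
    exact h a ha i j hij z x g hi hj
  · intro h a ha i j hij z x g hi hj
    show eval (ev (trunc W (y z)) x g) ((⇑(dd n))^[a] G) = 0
    rw [key a ha]
    exact h a ha i j hij z x g hi hj

end Pool.Agent.TT
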