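import Pool.Agent.Lib_MP_b9fedf_tt.AlgCore
import Pool.Agent.Lib_MP_b9fedf_tt.Exist
import Pool.Agent.Lib_MP_b9fedf_tt.Points
import Pool.Agent.Lib_MP_b9fedf_tt.Par3
import Pool.Agent.Lib_MP_b9fedf_tt.Poly
import Pool.Agent.Lib_MP_b9fedf_tt.Dual

/-! The algebraic part for general families. -/

set_option autoImplicit false

namespace Pool.Agent.TT
open MvPolynomial Module

/-- indices of the unknowns -/
inductive Un (n Q N W D c : ℕ) (M : Type) : Type
  | yp (t : Fin N) (j : Fin n) (i : Fin W)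
  | yz (j : Fin n) (i : Fin W)
  | fz (l : Fin (n + 1))
  | co (R : Finset (Fin Q)) (m : M)
  | xr (R : Finset (Fin Q)) (l : Fin (n + 1))
  | gr (R : Finset (Fin Q)) (p : GV n)
  | la (R : Finset (Fin Q)) (s : Fin D) (δ : Fin c × Fin Q × Fin Q × Fin N)
  | mu (R : Finset (Fin Q)) (s : Fin D) (p : Fin (n + 1) × Fin (n + 1) × Fin (n + 1))
  | ga (R : Finset (Fin Q)) (s : Fin D) (p : GV n)

/-- indices of the equations -/
inductive Eqn (n Q N c : ℕ) (M : Type) : Type
  | one : Eqn n Q N c M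
  | van (R : Finset (Fin Q)) (δ : Fin c × Fin Q × Fin Q × Fin N)
      (μ : Fin (n + 1) × Fin (n + 1) × Fin (n + 1) → ℚ) (γ : GV n → ℚ) : Eqn n Q N c M
  | nv (R : Finset (Fin Q)) : Eqn n Q N c M
  | cmb (R : Finset (Fin Q)) (m : M) : Eqn n Q N c M

section
variable {n Q N W D c : ℕ} {M : Type}

instance [Finite M] : Finite (Un n Q N W D c M) := by
  classical
  let F : Un n Q N W D c M → ((Fin N × Fin n × Fin W) ⊕ (Fin n × Fin W)) ⊕ (Fin (n + 1) ⊕
      ((Finset (Fin Q) × M) ⊕ (Finset (Fin Q) × Fin (n + 1)))) ⊕ ((Finset (Fin Q) × GV n) ⊕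
      ((Finset (Fin Q) × Fin D × (Fin c × Fin Q × Fin Q × Fin N)) ⊕
      ((Finset (Fin Q) × Fin D × (Fin (n + 1) × Fin (n + 1) × Fin (n + 1))) ⊕
        (Finset (Fin Q) × Fin D × GV n)))) := fun u => match u with
    | .yp t j i => Sum.inl (Sum.inl (t, j, i))
    | .yz j i => Sum.inl (Sum.inr (j, i))
    | .fz l => Sum.inr (Sum.inl (Sum.inl l))
    | .co R m => Sum.inr (Sum.inl (Sum.inr (Sum.inl (R, m))))
    | .xr R l => Sum.inr (Sum.inl (Sum.inr (Sum.inr (R, l))))
    | .gr R p => Sum.inr (Sum.inr (Sum.inl (R, p)))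
    | .la R s δ => Sum.inr (Sum.inr (Sum.inr (Sum.inl (R, s, δ))))
    | .mu R s p => Sum.inr (Sum.inr (Sum.inr (Sum.inr (Sum.inl (R, s, p)))))
    | .ga R s p => Sum.inr (Sum.inr (Sum.inr (Sum.inr (Sum.inr (R, s, p)))))
  refine Finite.of_injective F ?_
  intro u v huv
  cases u <;> cases v <;> simp_all [F]

/-- the jets of order less than `W` at the points and at the base point -/
def ypt (w : Un n Q N W D c M → ℂ) (t : Fin N) : YV n → ℂ := fun v =>
  if h : v.2 < W then w (.yp t v.1 ⟨v.2, h⟩) else 0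

/-- the jets of order less than `W` at the base point -/
def yzt (w : Un n Q N W D c M → ℂ) : YV n → ℂ := fun v =>
  if h : v.2 < W then w (.yz v.1 ⟨v.2, h⟩) else 0

/-- the index is relevant for the complement of `R` -/
def Vd (R : Finset (Fin Q)) (δ : Fin c × Fin Q × Fin Q × Fin N) : Prop :=
  δ.2.1 ≠ δ.2.2.1 ∧ δ.2.1 ∉ R ∧ δ.2.2.1 ∉ R

open scoped Classical in
/-- the rows of the vanishing conditions -/
noncomputable def rw' (R : Finset (Fin Q)) (a : Fin Q × Fin (n + 1) → ℂ)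
    (y : Fin N → YV n → ℂ) (δ : Fin c × Fin Q × Fin Q × Fin N)
    (μ : Fin (n + 1) × Fin (n + 1) × Fin (n + 1) → ℂ) (γ : GV n → ℂ) (m : Vr n →₀ ℕ) : ℂ :=
  if Vd R δ then eval (ev (y δ.2.2.2) (xx (fun l => a (δ.2.1, l)) (fun l => a (δ.2.2.1, l)) μ) γ)
    ((⇑(dd n))^[δ.1] (monomial m 1)) else 0

/-- the functions of the equations -/
noncomputable def fn [Fintype M] (N1 : ℕ) (em : M → (Vr n →₀ ℕ)) : Eqn n Q N c M →
    (Fin Q × Fin (n + 1) → ℂ) → (Un n Q N W D c M → ℂ) → ℂ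
  | .one => fun _ w => w (.fz 0) - 1
  | .van R δ μ γ => fun a w => ∑ m, w (.co R m) *
      rw' R a (ypt w) δ (fun p => ((μ p : ℚ) : ℂ)) (fun p => ((γ p : ℚ) : ℂ)) (em m)
  | .nv R => fun _ w => ∑ m, w (.co R m) * eval (ev (yzt w) (fun l => w (.xr R l))
      (fun p => w (.gr R p))) (monomial (em m) 1) - 1
  | .cmb R m => fun a w => if R.card ≤ N1 then eval (ev (yzt w) (fun l => w (.fz l)) (one n))
      (monomial (em m) 1) - ∑ s, ∑ δ, w (.la R s δ) * rw' R a (ypt w) δ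
        (fun p => w (.mu R s p)) (fun p => w (.ga R s p)) (em m) else 0

/-! The functions are polynomial. -/

theorem pf_ypt (t : Fin N) (v : YV n) :
    PF (fun (_ : Fin Q × Fin (n + 1) → ℂ) (w : Un n Q N W D c M → ℂ) => ypt w t v) := by
  by_cases h : v.2 < W
  · simp only [ypt, h, dif_pos]
    exact PF.ofW _
  · simp only [ypt, h, dif_neg, not_false_eq_true]
    have h1 := PF.const (E := Fin Q × Fin (n + 1)) (W := Un n Q N W D c M) 0
    simpa using h1

theorem pf_yzt (v : YV n) :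
    PF (fun (_ : Fin Q × Fin (n + 1) → ℂ) (w : Un n Q N W D c M → ℂ) => yzt w v) := by
  by_cases h : v.2 < W
  · simp only [yzt, h, dif_pos]
    exact PF.ofW _
  · simp only [yzt, h, dif_neg, not_false_eq_true]
    have h1 := PF.const (E := Fin Q × Fin (n + 1)) (W := Un n Q N W D c M) 0
    simpa using h1

section
variable {E V : Type}

theorem pf_xx {m : ℕ} {u v : (E → ℂ) → (V → ℂ) → Fin m → ℂ}
    {μ : (E → ℂ) → (V → ℂ) → Fin m × Fin m × Fin m → ℂ} (hu : ∀ l, PF (fun a w => u a w l))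
    (hv : ∀ l, PF (fun a w => v a w l)) (hμ : ∀ p, PF (fun a w => μ a w p)) (l : Fin m) :
    PF (fun a w => xx (u a w) (v a w) (μ a w) l) := by
  unfold xx
  exact PF.sum _ fun p _ => PF.sum _ fun q _ => PF.mul (PF.add (PF.add (PF.sub (PF.sub (PF.sub
    (hμ _) (hμ _)) (hμ _)) (hμ _)) (hμ _)) (hμ _)) (PF.mul (hu _) (hv _))

theorem pf_ev {y : (E → ℂ) → (V → ℂ) → YV n → ℂ} {x : (E → ℂ) → (V → ℂ) → Fin (n + 1) → ℂ}
    {g : (E → ℂ) → (V → ℂ) → GV n → ℂ} (hy : ∀ v, PF (fun a w => y a w v))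
    (hx : ∀ v, PF (fun a w => x a w v)) (hg : ∀ v, PF (fun a w => g a w v)) (v : Vr n) :
    PF (fun a w => ev (y a w) (x a w) (g a w) v) := by
  rcases v with v | v | v
  · exact hy v
  · exact hx v
  · exact hg v

theorem pf_row {y : (E → ℂ) → (V → ℂ) → YV n → ℂ} {x : (E → ℂ) → (V → ℂ) → Fin (n + 1) → ℂ}
    {g : (E → ℂ) → (V → ℂ) → GV n → ℂ} (hy : ∀ v, PF (fun a w => y a w v))
    (hx : ∀ v, PF (fun a w => x a w v)) (hg : ∀ v, PF (fun a w => g a w v)) (b : ℕ)
    (m : Vr n →₀ ℕ) :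
    PF (fun a w => eval (ev (y a w) (x a w) (g a w)) ((⇑(dd n))^[b] (monomial m 1))) := by
  obtain ⟨P, hP⟩ := exists_rat_dd m b
  simp only [← hP]
  exact PF.aeval P fun v => pf_ev hy hx hg v

end

theorem pf_rw (R : Finset (Fin Q)) (δ : Fin c × Fin Q × Fin Q × Fin N)
    {μ : (Fin Q × Fin (n + 1) → ℂ) → (Un n Q N W D c M → ℂ) →
      Fin (n + 1) × Fin (n + 1) × Fin (n + 1) → ℂ}
    {γ : (Fin Q × Fin (n + 1) → ℂ) → (Un n Q N W D c M → ℂ) → GV n → ℂ}
    (hμ : ∀ p, PF (fun a w => μ a w p)) (hγ : ∀ p, PF (fun a w => γ a w p)) (m : Vr n →₀ ℕ) :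
    PF (fun a w => rw' R a (ypt w) δ (μ a w) (γ a w) m) := by
  by_cases h : Vd R δ
  · simp only [rw', h, if_pos]
    exact pf_row (fun v => pf_ypt _ v) (fun l => pf_xx (fun _ => PF.ofE _) (fun _ => PF.ofE _) hμ l)
      hγ _ _
  · simp only [rw', h, if_neg, not_false_eq_true]
    have h1 := PF.const (E := Fin Q × Fin (n + 1)) (W := Un n Q N W D c M) 0
    simpa using h1

theorem pf_one : PF (fun (_ : Fin Q × Fin (n + 1) → ℂ) (_ : Un n Q N W D c M → ℂ) => (1 : ℂ)) := by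
  have h1 := PF.const (E := Fin Q × Fin (n + 1)) (W := Un n Q N W D c M) 1
  simpa using h1

theorem pf_fn [Fintype M] (N1 : ℕ) (em : M → (Vr n →₀ ℕ)) (e : Eqn n Q N c M) :
    PF (fn (W := W) (D := D) N1 em e) := by
  classical
  cases e with
  | one => exact PF.sub (PF.ofW _) pf_one
  | van R δ μ γ =>
    exact PF.sum _ fun m _ => PF.mul (PF.ofW _) (pf_rw R δ (fun p => PF.const _)
      (fun p => PF.const _) _)
  | nv R =>
    exact PF.sub (PF.sum _ fun m _ => PF.mul (PF.ofW _) (pf_row (b := 0) (fun v => pf_yzt v)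
      (fun l => PF.ofW _) (fun p => PF.ofW _) _)) pf_one
  | cmb R m =>
    by_cases h : R.card ≤ N1
    · simp only [fn, h, if_pos]
      refine PF.sub (pf_row (b := 0) (fun v => pf_yzt v) (fun l => PF.ofW _) (fun p => ?_) _)
        (PF.sum _ fun s _ => PF.sum _ fun δ _ => PF.mul (PF.ofW _) (pf_rw R δ (fun p => PF.ofW _)
          (fun p => PF.ofW _) _))
      by_cases hp : p.2 = p.1.succ
      · simp only [one, hp, if_pos]
        exact pf_one
      · simp only [one, hp, if_neg, not_false_eq_true]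
        have h1 := PF.const (E := Fin Q × Fin (n + 1)) (W := Un n Q N W D c M) 0
        simpa using h1
    · simp only [fn, h, if_neg, not_false_eq_true]
      have h1 := PF.const (E := Fin Q × Fin (n + 1)) (W := Un n Q N W D c M) 0
      simpa using h1

end

theorem poly_sum {n ω A B : ℕ} [Fintype (MB n ω A B)] (G : MvPolynomial (Vr n) ℂ)
    (hG : Bd3 ω A B G) : G = ∑ m : MB n ω A B, coeff m.1 G • monomial m.1 1 := by
  classical
  ext d
  rw [coeff_sum]
  by_cases hd : d ∈ MB n ω A B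
  · rw [Finset.sum_eq_single (⟨d, hd⟩ : MB n ω A B)]
    · simp
    · intro m _ hm
      rw [coeff_smul, coeff_monomial, if_neg, smul_zero]
      intro h
      exact hm (Subtype.ext h)
    · intro h
      exact absurd (Finset.mem_univ _) h
  · rw [Finset.sum_eq_zero]
    · by_contra h
      exact hd (hG d (mem_support_iff.2 h))
    · intro m _
      rw [coeff_smul, coeff_monomial, if_neg, smul_zero]
      intro h
      exact hd (h ▸ m.2)

theorem exists_poly {n ω A B : ℕ} (v : MB n ω A B → ℂ) : ∃ G : MvPolynomial (Vr n) ℂ,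
    Bd3 ω A B G ∧ ∀ m : MB n ω A B, coeff m.1 G = v m := by
  classical
  have := (mb_finite n ω A B).fintype
  refine ⟨∑ m : MB n ω A B, monomial m.1 (v m), ?_, ?_⟩
  · intro d hd
    have h1 := support_sum hd
    rw [Finset.mem_biUnion] at h1
    obtain ⟨m, _, hm⟩ := h1
    have h2 := Finset.mem_singleton.1 (support_monomial_subset hm)
    rw [h2]
    exact m.2
  · intro m
    rw [coeff_sum, Finset.sum_eq_single m]
    · simp
    · intro m' _ hm'
      rw [coeff_monomial, if_neg]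
      intro h
      exact hm' (Subtype.ext h)
    · intro h
      exact absurd (Finset.mem_univ _) h

theorem eval_sum3 {n ω A B : ℕ} [Fintype (MB n ω A B)] (G : MvPolynomial (Vr n) ℂ)
    (hG : Bd3 ω A B G) (b : ℕ) (u : Vr n → ℂ) : eval u ((⇑(dd n))^[b] G) =
      ∑ m : MB n ω A B, coeff m.1 G * eval u ((⇑(dd n))^[b] (monomial m.1 1)) := by
  have h1 : ∀ P, (⇑(dd n))^[b] P = (((dd n : Derivation ℂ _ _) :
      MvPolynomial (Vr n) ℂ →ₗ[ℂ] MvPolynomial (Vr n) ℂ) ^ b) P := by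
    intro P
    rw [Module.End.pow_apply]
    rfl
  conv_lhs => rw [poly_sum G hG]
  rw [h1, map_sum, map_sum]
  refine Finset.sum_congr rfl fun m _ => ?_
  rw [map_smul, smul_eval, h1]


/-- two members with algebraically independent coordinates are linearly independent -/
private theorem pair_ind {k Q : ℕ} (a : Fin Q → Fin (k + 3) → ℂ)
    (ha : AlgebraicIndependent ℚ (fun p : Fin Q × Fin (k + 3) => a p.1 p.2)) {i j : Fin Q}
    (hij : i ≠ j) : LinearIndependent ℂ ![a i, a j] := by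
  classical
  have h1 := LG.gp_of_algInd a ha {i, j} ((Finset.card_insert_le _ _).trans (by simp))
  let e : Fin 2 → ({i, j} : Finset (Fin Q)) :=
    ![⟨i, Finset.mem_insert_self i _⟩, ⟨j, Finset.mem_insert_of_mem (Finset.mem_singleton_self j)⟩]
  have he : Function.Injective e := by
    intro x y hxy
    fin_cases x <;> fin_cases y
    · rfl
    · exact absurd (congrArg Subtype.val hxy) hij
    · exact absurd (congrArg Subtype.val hxy).symm hij
    · rfl
  have h2 := h1.comp e he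
  have h3 : (fun i_1 : ({i, j} : Finset (Fin Q)) => a i_1) ∘ e = ![a i, a j] := by
    funext x
    fin_cases x <;> rfl
  rwa [h3] at h2

/-- for algebraically independent coordinates the equations have no solution -/
theorem no_sol (k K ω0 : ℕ) : ∃ N1 : ℕ, ∀ (Q : ℕ), ∀ ω ≤ ω0, ∀ (A B N W D : ℕ)
    [Fintype (MB (k + 2) ω A B)] (a : Fin Q × Fin (k + 3) → ℂ), AlgebraicIndependent ℚ a →
    ∀ w : Un (k + 2) Q N W D (K ^ 2) (MB (k + 2) ω A B) → ℂ,
      ∃ e, fn N1 (fun m : MB (k + 2) ω A B => m.1) e a w ≠ 0 := by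
  classical
  obtain ⟨N1, hN1⟩ := alg_core k (K := K) ω0
  refine ⟨N1, fun Q ω hω A B N W D _ a ha w => ?_⟩
  by_contra hcon
  push Not at hcon
  have hone := hcon .one
  have hvan := fun R δ μ γ => hcon (.van R δ μ γ)
  have hnv := fun R => hcon (.nv R)
  have hcmb := fun R m => hcon (.cmb R m)
  simp only [fn] at hone hvan hnv hcmb
  -- the polynomials
  choose G hGB hGc using fun R : Finset (Fin Q) => exists_poly (n := k + 2) (ω := ω) (A := A)
    (B := B) (fun m => w (.co R m))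
  obtain ⟨R, hR, G', h1, h2, h3⟩ := hN1 Q (fun i l => a (i, l)) ha (ypt w) (yzt w)
    (fun l => w (.fz l)) (sub_eq_zero.1 hone) ω hω A B (fun R => ⟨G R, hGB R, by
      intro b hb i j hij t x g hi hj
      refine vanish_of_rat _ _ _ _ (pair_ind (fun i l => a (i, l)) ha
        (fun h => hij (Subtype.ext h))) (fun μ γ => ?_) x g hi hj
      rw [eval_sum3 (G R) (hGB R)]
      have h4 := hvan R (⟨b, hb⟩, i, j, t) μ γ
      rw [← h4]
      refine Finset.sum_congr rfl fun m _ => ?_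
      rw [hGc R m, rw', if_pos]
      exact ⟨fun h => hij (Subtype.ext h), i.2, j.2⟩, fun l => w (.xr R l), fun p => w (.gr R p), by
      have h4 := sub_eq_zero.1 (hnv R)
      have h5 := eval_sum3 (G R) (hGB R) 0 (ev (yzt w) (fun l => w (.xr R l))
        (fun p => w (.gr R p)))
      simp only [Function.iterate_zero, id_eq] at h5
      rw [h5]
      simp only [hGc]
      rw [h4]
      exact one_ne_zero⟩)
  apply h3
  have h5 := eval_sum3 G' h1 0 (ev (yzt w) (fun l => w (.fz l)) (one (k + 2)))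
  simp only [Function.iterate_zero, id_eq] at h5
  rw [h5]
  have h6 : ∀ m : MB (k + 2) ω A B, coeff m.1 G' * eval (ev (yzt w) (fun l => w (.fz l))
      (one (k + 2))) (monomial m.1 1) = ∑ s, ∑ δ, w (.la R s δ) * (coeff m.1 G' *
        rw' R a (ypt w) δ (fun p => w (.mu R s p)) (fun p => w (.ga R s p)) m.1) := by
    intro m
    have h7 := hcmb R m
    rw [if_pos hR] at h7
    rw [sub_eq_zero.1 h7, Finset.mul_sum]
    refine Finset.sum_congr rfl fun s _ => ?_
    rw [Finset.mul_sum]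
    refine Finset.sum_congr rfl fun δ _ => ?_
    ring
  simp only [h6]
  rw [Finset.sum_comm]
  refine Finset.sum_eq_zero fun s _ => ?_
  rw [Finset.sum_comm]
  refine Finset.sum_eq_zero fun δ _ => ?_
  rw [← Finset.mul_sum]
  refine mul_eq_zero_of_right _ ?_
  by_cases hδ : Vd R δ
  · simp only [rw', if_pos hδ]
    rw [← eval_sum3 G' h1]
    exact h2 δ.1 δ.1.2 ⟨δ.2.1, hδ.2.1⟩ ⟨δ.2.2.1, hδ.2.2⟩ (fun h => hδ.1 (congrArg Subtype.val h))
      δ.2.2.2 _ _ (xx_left _ _ _) (xx_right _ _ _)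
  · simp only [rw', if_neg hδ, mul_zero, Finset.sum_const_zero]

/-- finitely many polynomials in the jets have a common point where they do not vanish -/
private theorem irr_fin {n : ℕ} {Ω I : Type} [Nonempty Ω] {y : Ω → YV n → ℂ} (hy : Irr y)
    (P : I → MvPolynomial (YV n) ℂ) (hP : ∀ i, ∃ z, eval (y z) (P i) ≠ 0) (s : Finset I) :
    ∃ z, ∀ i ∈ s, eval (y z) (P i) ≠ 0 := by
  classical
  have h1 : ∃ z, eval (y z) (∏ i ∈ s, P i) ≠ 0 := by
    induction s using Finset.induction_on with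
    | empty =>
      obtain ⟨z⟩ := ‹Nonempty Ω›
      exact ⟨z, by simp⟩
    | insert i s hi ih =>
      obtain ⟨z, h2, h3⟩ := hy (P i) (∏ i ∈ s, P i) (hP i) ih
      refine ⟨z, ?_⟩
      rw [Finset.prod_insert hi, map_mul]
      exact mul_ne_zero h2 h3
  obtain ⟨z, hz⟩ := h1
  refine ⟨z, ?_⟩
  rw [map_prod, Finset.prod_ne_zero_iff] at hz
  exact hz

/-- evaluation of `x` and `g` -/
private theorem eval_part {n : ℕ} (G : MvPolynomial (Vr n) ℂ) (y : YV n → ℂ)
    (x : Fin (n + 1) → ℂ) (g : GV n → ℂ) :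
    eval y (aeval (Sum.elim X (Sum.elim (fun l => C (x l)) (fun p => C (g p)))) G) =
      eval (ev y x g) G := by
  have h1 : (eval y).comp
      ((aeval (Sum.elim X (Sum.elim (fun l => C (x l)) (fun p => C (g p)))) :
        MvPolynomial (Vr n) ℂ →ₐ[ℂ] MvPolynomial (YV n) ℂ) : MvPolynomial (Vr n) ℂ →+*
          MvPolynomial (YV n) ℂ) = eval (ev y x g) := by
    apply MvPolynomial.ringHom_ext
    · intro r
      simp
    · rintro (v | l | p) <;> simp [ev]
  exact RingHom.congr_fun h1 G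

/-- a functional vanishing on the common kernel of the rows -/
private theorem comb_opt {I Δ X : Type} [Fintype I] [Fintype Δ] (row : Δ → X → I → ℂ) (ℓ : I → ℂ)
    (h : ∀ v : I → ℂ, (∀ δ x, ∑ m, v m * row δ x m = 0) → ∑ m, v m * ℓ m = 0) (x₀ : X) :
    ∃ (xs : Fin (Fintype.card I) → X) (lam : Fin (Fintype.card I) → Δ → ℂ),
      ∀ m, ℓ m = ∑ s, ∑ δ, lam s δ * row δ (xs s) m := by
  classical
  obtain ⟨δs, xs, lam, h1⟩ := exists_comb (Δ := Option Δ) (X := X)
    (fun o x m => match o with | none => 0 | some δ => row δ x m) ℓ (by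
      intro v hv
      exact h v fun δ x => hv (some δ) x) x₀ none
  refine ⟨xs, fun s δ => if δs s = some δ then lam s else 0, fun m => ?_⟩
  rw [h1 m]
  refine Finset.sum_congr rfl fun s _ => ?_
  rcases hδ : δs s with _ | δ
  · simp [hδ]
  · rw [Finset.sum_eq_single δ]
    · simp [hδ]
    · intro b _ hb
      have h2 : ¬ (δs s = some b) := by
        rw [hδ]
        intro h3
        exact hb (Option.some.inj h3).symm
      simp [h2]
    · intro h2
      exact absurd (Finset.mem_univ _) h2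

/-- if the algebraic condition fails then the equations have a solution -/
theorem sol_of_fail (k : ℕ) {K : ℕ} (hK : 1 ≤ K) (N1 : ℕ) {Q : ℕ} (a : Fin Q → Fin (k + 3) → ℂ)
    (hp : ∀ i j, i ≠ j → LinearIndependent ℂ ![a i, a j]) {ω : ℕ}
    [Fintype (MB (k + 2) ω (dA k K Q) ((k + 2) * (k + 3) * K ^ 2))]
    {Ω : Type} [Nonempty Ω] (y : Ω → YV (k + 2) → ℂ) (f : Ω → Fin (k + 3) → ℂ)
    (hf : ∀ z, f z 0 = 1) (hy : Irr y)
    (hω : finrank ℂ (U y (ω + K ^ 2)) ≤ 2 * finrank ℂ (U y ω))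
    (hfail : ∀ (R : Finset (Fin Q)) (z0 : Ω) (G : MvPolynomial (Vr (k + 2)) ℂ), R.card ≤ N1 →
      Bd ω (dA k K Q) G → Van (K ^ 2) y (fun i : {i // i ∉ R} => a i) G →
      eval (ev (y z0) (f z0) (one (k + 2))) G = 0) :
    ∃ w : Un (k + 2) Q (YM (k + 2) (ω + K ^ 2)).ncard (ω + K ^ 2)
      (Fintype.card (MB (k + 2) ω (dA k K Q) ((k + 2) * (k + 3) * K ^ 2))) (K ^ 2)
      (MB (k + 2) ω (dA k K Q) ((k + 2) * (k + 3) * K ^ 2)) → ℂ,
      ∀ e, fn N1 (fun m : MB (k + 2) ω (dA k K Q) ((k + 2) * (k + 3) * K ^ 2) => m.1) e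
        (fun p => a p.1 p.2) w = 0 := by
  classical
  have hex : ∀ R : Finset (Fin Q), ∃ G : MvPolynomial (Vr (k + 2)) ℂ,
      Bd3 ω (dA k K Q) ((k + 2) * (k + 3) * K ^ 2) G ∧
      Van (K ^ 2) y (fun i : {i // i ∉ R} => a i) G ∧
      ∃ (x : Fin (k + 3) → ℂ) (g : GV (k + 2) → ℂ) (z : Ω), eval (ev (y z) x g) G ≠ 0 := by
    intro R
    obtain ⟨G, h1, h2, z, x, g, h3⟩ := exists_form_bx hK (Q := Q) (ι := {i // i ∉ R}) (by
      refine (Fintype.card_subtype_le _).trans ?_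
      rw [Fintype.card_fin]) y hω (fun i => a i) (fun i j hij =>
        hp i j (fun h => hij (Subtype.ext h)))
    exact ⟨G, bx_bd3 h1, h2, x, g, z, h3⟩
  choose G hGB hGV x g hG using hex
  obtain ⟨z0, hz0⟩ := irr_fin hy (fun R => aeval (Sum.elim X (Sum.elim (fun l => C (x R l))
    (fun p => C (g R p)))) (G R)) (fun R => by
      obtain ⟨z, hz⟩ := hG R
      exact ⟨z, by rw [eval_part]; exact hz⟩) Finset.univ
  have hz1 : ∀ R, eval (ev (y z0) (x R) (g R)) (G R) ≠ 0 := by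
    intro R
    have h1 := hz0 R (Finset.mem_univ R)
    rwa [eval_part] at h1
  obtain ⟨p, hpt⟩ := exists_points y (ω + K ^ 2)
  -- the combinations
  have hc : ∀ R : Finset (Fin Q), ∃ (xs : Fin (Fintype.card (MB (k + 2) ω (dA k K Q)
      ((k + 2) * (k + 3) * K ^ 2))) → (Fin (k + 3) × Fin (k + 3) × Fin (k + 3) → ℂ) ×
        (GV (k + 2) → ℂ))
      (lam : Fin (Fintype.card (MB (k + 2) ω (dA k K Q) ((k + 2) * (k + 3) * K ^ 2))) →
        (Fin (K ^ 2) × Fin Q × Fin Q × Fin (YM (k + 2) (ω + K ^ 2)).ncard) → ℂ),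
      R.card ≤ N1 → ∀ m : MB (k + 2) ω (dA k K Q) ((k + 2) * (k + 3) * K ^ 2),
        eval (ev (trunc (ω + K ^ 2) (y z0)) (f z0) (one (k + 2))) (monomial m.1 1) =
          ∑ s, ∑ δ, lam s δ * rw' R (fun q => a q.1 q.2) (fun t => trunc (ω + K ^ 2) (y (p t))) δ
            (xs s).1 (xs s).2 m.1 := by
    intro R
    by_cases hR : R.card ≤ N1
    · obtain ⟨xs, lam, h1⟩ := comb_opt (I := MB (k + 2) ω (dA k K Q) ((k + 2) * (k + 3) * K ^ 2))
        (Δ := Fin (K ^ 2) × Fin Q × Fin Q × Fin (YM (k + 2) (ω + K ^ 2)).ncard)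
        (X := (Fin (k + 3) × Fin (k + 3) × Fin (k + 3) → ℂ) × (GV (k + 2) → ℂ))
        (fun δ x m => rw' R (fun q => a q.1 q.2) (fun t => trunc (ω + K ^ 2) (y (p t))) δ
          x.1 x.2 m.1)
        (fun m => eval (ev (trunc (ω + K ^ 2) (y z0)) (f z0) (one (k + 2))) (monomial m.1 1)) (by
          intro v hv
          obtain ⟨F, hF1, hF2⟩ := exists_poly v
          have h2 : Van (K ^ 2) (fun t => trunc (ω + K ^ 2) (y (p t)))
              (fun i : {i // i ∉ R} => a i) F := by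
            intro b hb i j hij t x' g' hi hj
            have hij' : (i : Fin Q) ≠ j := fun h => hij (Subtype.ext h)
            obtain ⟨μ, hμ⟩ := exists_xx (a i) (a j) (hp i j hij') x' hi hj
            have h3 := hv (⟨b, hb⟩, i, j, t) (μ, g')
            have hV : Vd R ((⟨b, hb⟩, (i : Fin Q), (j : Fin Q), t) :
                Fin (K ^ 2) × Fin Q × Fin Q × Fin (YM (k + 2) (ω + K ^ 2)).ncard) :=
              ⟨hij', i.2, j.2⟩
            simp only [rw', if_pos hV] at h3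
            rw [hμ] at h3
            rw [eval_sum3 F hF1]
            simp only [hF2]
            exact h3
          have h3 : Van (K ^ 2) (fun t => y (p t)) (fun i : {i // i ∉ R} => a i) F :=
            (van_trunc le_rfl (fun t => y (p t)) _ F (bd3_bd hF1)).1 h2
          have h4 := van_points y p hpt (fun i : {i // i ∉ R} => a i) F (bd3_bd hF1) h3
          have h5 := hfail R z0 F hR (bd3_bd hF1) h4
          rw [← eval_trunc (W := ω + K ^ 2) (Nat.le_add_right _ _) F (bd3_bd hF1)] at h5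
          have h6 := eval_sum3 F hF1 0 (ev (trunc (ω + K ^ 2) (y z0)) (f z0) (one (k + 2)))
          simp only [Function.iterate_zero, id_eq, hF2] at h6
          rw [← h6]
          exact h5) (fun _ => 0, fun _ => 0)
      exact ⟨xs, lam, fun _ => h1⟩
    · exact ⟨fun _ => (fun _ => 0, fun _ => 0), fun _ _ => 0, fun h => absurd h hR⟩
  choose xs lam hcm using hc
  refine ⟨fun u => match u with
    | .yp t j i => y (p t) (j, i)
    | .yz j i => y z0 (j, i)
    | .fz l => f z0 l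
    | .co R m => (eval (ev (y z0) (x R) (g R)) (G R))⁻¹ * coeff m.1 (G R)
    | .xr R l => x R l
    | .gr R q => g R q
    | .la R s δ => lam R s δ
    | .mu R s q => (xs R s).1 q
    | .ga R s q => (xs R s).2 q, ?_⟩
  have hyp : ∀ {D : ℕ} {M : Type} (w : Un (k + 2) Q (YM (k + 2) (ω + K ^ 2)).ncard (ω + K ^ 2)
      D (K ^ 2) M → ℂ), (∀ t j i, w (.yp t j i) = y (p t) (j, i)) →
      ypt w = fun t => trunc (ω + K ^ 2) (y (p t)) := by
    intro D M w hw
    funext t v
    simp only [ypt, trunc]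
    by_cases h : v.2 < ω + K ^ 2
    · rw [dif_pos h, if_pos h, hw]
    · rw [dif_neg h, if_neg h]
  have hyz : ∀ {D : ℕ} {M : Type} (w : Un (k + 2) Q (YM (k + 2) (ω + K ^ 2)).ncard (ω + K ^ 2)
      D (K ^ 2) M → ℂ), (∀ j i, w (.yz j i) = y z0 (j, i)) →
      yzt w = trunc (ω + K ^ 2) (y z0) := by
    intro D M w hw
    funext v
    simp only [yzt, trunc]
    by_cases h : v.2 < ω + K ^ 2
    · rw [dif_pos h, if_pos h, hw]
    · rw [dif_neg h, if_neg h]
  intro e
  cases e with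
  | one =>
    simp only [fn]
    rw [hf z0, sub_self]
  | van R δ μ γ =>
    simp only [fn]
    rw [hyp _ (fun _ _ _ => rfl)]
    by_cases hδ : Vd R δ
    · simp only [rw', if_pos hδ, mul_assoc]
      rw [← Finset.mul_sum, ← eval_sum3 (G R) (hGB R)]
      refine mul_eq_zero_of_right _ ?_
      have h1 : Van (K ^ 2) (fun t => y (p t)) (fun i : {i // i ∉ R} => a i) (G R) :=
        fun b hb i j hij t => hGV R b hb i j hij (p t)
      have h2 := (van_trunc (W := ω + K ^ 2) le_rfl (fun t => y (p t)) _ (G R)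
        (bd3_bd (hGB R))).2 h1
      exact h2 δ.1 δ.1.2 ⟨δ.2.1, hδ.2.1⟩ ⟨δ.2.2.1, hδ.2.2⟩
        (fun h => hδ.1 (congrArg Subtype.val h)) δ.2.2.2 _ _ (xx_left _ _ _) (xx_right _ _ _)
    · simp only [rw', if_neg hδ, mul_zero, Finset.sum_const_zero]
  | nv R =>
    simp only [fn]
    rw [hyz _ (fun _ _ => rfl)]
    simp only [mul_assoc]
    rw [← Finset.mul_sum]
    have h1 := eval_sum3 (G R) (hGB R) 0 (ev (trunc (ω + K ^ 2) (y z0)) (x R) (g R))
    simp only [Function.iterate_zero, id_eq] at h1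
    rw [← h1, eval_trunc (W := ω + K ^ 2) (Nat.le_add_right _ _) (G R) (bd3_bd (hGB R)),
      inv_mul_cancel₀ (hz1 R), sub_self]
  | cmb R m =>
    simp only [fn]
    by_cases hR : R.card ≤ N1
    · rw [if_pos hR, hyz _ (fun _ _ => rfl), hyp _ (fun _ _ _ => rfl), sub_eq_zero]
      exact hcm R hR m
    · rw [if_neg hR]

/-- a polynomial for the pairwise independence -/
private theorem pair_open (k Q : ℕ) : ∃ S : MvPolynomial (Fin Q × Fin (k + 3)) ℚ, S ≠ 0 ∧
    ∀ a : Fin Q → Fin (k + 3) → ℂ, aeval (fun p : Fin Q × Fin (k + 3) => a p.1 p.2) S ≠ 0 →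
      ∀ i j, i ≠ j → LinearIndependent ℂ ![a i, a j] := by
  classical
  have h1 : ∀ q : Fin Q × Fin Q, ∃ S : MvPolynomial (Fin Q × Fin (k + 3)) ℚ, S ≠ 0 ∧
      ∀ a : Fin Q → Fin (k + 3) → ℂ, aeval (fun p : Fin Q × Fin (k + 3) => a p.1 p.2) S ≠ 0 →
        q.1 ≠ q.2 → LinearIndependent ℂ ![a q.1, a q.2] := by
    rintro ⟨i, j⟩
    by_cases hij : i = j
    · exact ⟨1, one_ne_zero, fun a _ h => absurd hij h⟩
    refine ⟨X (i, 0) * X (j, 1) - X (i, 1) * X (j, 0), ?_, ?_⟩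
    · intro h2
      have h3 := congrArg (eval (fun p : Fin Q × Fin (k + 3) => if p = (i, 0) ∨ p = (j, 1) then
        (1 : ℚ) else 0)) h2
      have h4 : (j, (0 : Fin (k + 3))) ≠ (i, 0) := fun h => hij (Prod.ext_iff.1 h).1.symm
      simp [h4, hij] at h3
    · intro a ha _
      rw [LinearIndependent.pair_iff]
      intro s t hst
      have h2 : s * a i 0 + t * a j 0 = 0 := by
        have := congrFun hst 0
        simpa using this
      have h3 : s * a i 1 + t * a j 1 = 0 := by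
        have := congrFun hst 1
        simpa using this
      simp only [map_sub, map_mul, aeval_X] at ha
      constructor
      · have h4 : s * (a i 0 * a j 1 - a i 1 * a j 0) = 0 := by linear_combination a j 1 * h2 - a j 0 * h3
        exact (mul_eq_zero.1 h4).resolve_right ha
      · have h4 : t * (a i 0 * a j 1 - a i 1 * a j 0) = 0 := by linear_combination a i 0 * h3 - a i 1 * h2
        exact (mul_eq_zero.1 h4).resolve_right ha
  choose S hS hSp using h1
  refine ⟨∏ q, S q, Finset.prod_ne_zero_iff.2 fun q _ => hS q, fun a ha i j hij => ?_⟩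
  rw [map_prod, Finset.prod_ne_zero_iff] at ha
  exact hSp (i, j) a (ha (i, j) (Finset.mem_univ _)) hij

/-- the algebraic part for general families -/
theorem alg_open (k : ℕ) {K : ℕ} (hK : 1 ≤ K) : ∃ ω0 N1 : ℕ, ∀ Q : ℕ,
    ∃ S : MvPolynomial (Fin Q × Fin (k + 3)) ℚ, S ≠ 0 ∧ ∀ a : Fin Q → Fin (k + 3) → ℂ,
      aeval (fun p : Fin Q × Fin (k + 3) => a p.1 p.2) S ≠ 0 → AlgC k K ω0 N1 a := by
  classical
  obtain ⟨ω0, hω0⟩ := exists_weight (k + 2) (K ^ 2) (Nat.one_le_pow _ _ hK)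
  obtain ⟨N1, hN1⟩ := no_sol k K ω0
  refine ⟨ω0, N1, fun Q => ?_⟩
  obtain ⟨S0, hS0, hS0p⟩ := pair_open k Q
  have h1 : ∀ ω : Fin (ω0 + 1), ∃ S : MvPolynomial (Fin Q × Fin (k + 3)) ℚ, S ≠ 0 ∧
      ∀ a : Fin Q × Fin (k + 3) → ℂ, aeval a S ≠ 0 →
      ∀ (inst : Fintype (MB (k + 2) ω (dA k K Q) ((k + 2) * (k + 3) * K ^ 2)))
        (w : Un (k + 2) Q (YM (k + 2) (ω + K ^ 2)).ncard (ω + K ^ 2)
          (Fintype.card (MB (k + 2) ω (dA k K Q) ((k + 2) * (k + 3) * K ^ 2))) (K ^ 2)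
          (MB (k + 2) ω (dA k K Q) ((k + 2) * (k + 3) * K ^ 2)) → ℂ),
        ∃ e, fn N1 (fun m : MB (k + 2) ω (dA k K Q) ((k + 2) * (k + 3) * K ^ 2) => m.1) e
          a w ≠ 0 := by
    intro ω
    let ins : Fintype (MB (k + 2) ω (dA k K Q) ((k + 2) * (k + 3) * K ^ 2)) :=
      (mb_finite _ _ _ _).fintype
    let insW : Fintype (Un (k + 2) Q (YM (k + 2) (ω + K ^ 2)).ncard (ω + K ^ 2)
          (Fintype.card (MB (k + 2) ω (dA k K Q) ((k + 2) * (k + 3) * K ^ 2))) (K ^ 2)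
          (MB (k + 2) ω (dA k K Q) ((k + 2) * (k + 3) * K ^ 2))) := Fintype.ofFinite _
    obtain ⟨S, hS, hSp⟩ := elim_none (fun e => fn (W := ω + K ^ 2) (D := Fintype.card
        (MB (k + 2) ω (dA k K Q) ((k + 2) * (k + 3) * K ^ 2))) (c := K ^ 2) (n := k + 2) (Q := Q)
        (N := (YM (k + 2) (ω + K ^ 2)).ncard) N1
        (fun m : MB (k + 2) ω (dA k K Q) ((k + 2) * (k + 3) * K ^ 2) => m.1) e)
      (fun e => pf_fn N1 _ e) (fun a ha w => hN1 Q ω (Nat.lt_succ_iff.1 ω.2) _ _ _ _ _ a ha w)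
    refine ⟨S, hS, fun a ha inst => ?_⟩
    have h2 : inst = ins := Subsingleton.elim _ _
    subst h2
    exact hSp a ha
  choose S hS hSp using h1
  refine ⟨S0 * ∏ ω, S ω, mul_ne_zero hS0 (Finset.prod_ne_zero_iff.2 fun q _ => hS q),
    fun a ha => ?_⟩
  rw [map_mul, map_prod] at ha
  have ha0 := left_ne_zero_of_mul ha
  have ha1 := Finset.prod_ne_zero_iff.1 (right_ne_zero_of_mul ha)
  intro Ω _ y f hf hy
  obtain ⟨ω, hω, hU⟩ := hω0 y
  refine ⟨ω, hω, ?_⟩
  by_contra hcon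
  push Not at hcon
  let ins : Fintype (MB (k + 2) ω (dA k K Q) ((k + 2) * (k + 3) * K ^ 2)) :=
    (mb_finite _ _ _ _).fintype
  obtain ⟨w, hw⟩ := sol_of_fail k hK N1 a (hS0p a ha0) (ω := ω) y f hf hy hU
    (fun R z0 G hR hG hV => hcon R z0 G hR hG hV)
  obtain ⟨e, he⟩ := hSp ⟨ω, Nat.lt_succ_of_le hω⟩ _ (ha1 _ (Finset.mem_univ _)) ins w
  exact he (hw e)

end Pool.Agent.TT
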