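import Mathlib

/-! The points where two members of a family meet a curve. -/

set_option autoImplicit false

namespace Pool.Agent.TT

open scoped Classical in
/-- zero exactly at the points where two members meet the curve -/
noncomputable def crs {ι : Type} {n : ℕ} (a : ι → Fin (n + 1) → ℂ) (f : ℂ → Fin (n + 1) → ℂ)
    (z : ℂ) : ℂ :=
  if ∃ i j, i ≠ j ∧ ∑ l, a i l * f z l = 0 ∧ ∑ l, a j l * f z l = 0 then 0 else 1

end Pool.Agent.TT
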