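import Pool.Agent.Lib_MP_b9fedf_tt.DefsG
import Pool.Agent.Lib_MP_b9fedf_tt.Crs
import Pool.Agent.Lib_MP_b9fedf_lg.GenForm
import Pool.Agent.Lib_MP_b9fedf_st.Defs

/-! Definitions for general families. -/

set_option autoImplicit false

namespace Pool.Agent.TT
open MvPolynomial
open Pool.Agent.Stat Pool.Agent.LG

/-- the conditions on a family of hyperplanes of `ℙ^(k+2)` which are used in the second main theorem
with total truncation; they are satisfied by general families (`gd_open`) -/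
def Gd (k K ω0 N1 : ℕ) {Q : ℕ} (a : Fin Q → Fin (k + 3) → ℂ) : Prop :=
  ∀ (Q' : ℕ) (e : Fin Q' ↪ Fin Q), GenForm (Nat.sqrt Q' + 2) (fun i => a (e i)) ∧
    ∀ π : Equiv.Perm (Fin (k + 3)), AlgC k K ω0 N1 (fun i l => a (e i) (π l))

/-- the second main theorem with total truncation for the forms `b i` of degree `d` -/
def Tot {n Q : ℕ} (d : ℕ) (ε C : ℝ) (b : Fin Q → MvPolynomial (Fin (n + 1)) ℂ) : Prop :=
  ∀ f : ℂ → Fin (n + 1) → ℂ, Differentiable ℂ f → (∀ z, f z ≠ 0) →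
    (¬ ∀ z w, ∃ c : ℂ, f w = c • f z) →
    ∀ T : Finset (Fin Q), (∀ i, i ∈ T ↔ ∃ z, eval (f z) (b i) ≠ 0) →
    ∃ (K : ℝ) (E : Set ℝ), MeasureTheory.volume E < ⊤ ∧ ∀ r, 1 ≤ r → r ∉ E →
      ((1 - ε) * Q - C) * (d * charT f r) ≤ Nbar (fun z => ∏ i ∈ T, eval (f z) (b i)) r +
        K * (Real.posLog (charT f r) + Real.log r + 1)

end Pool.Agent.TT
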