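import Pool.Agent.Lib_MP_b9fedf_tt.Nd
import Pool.Agent.Lib_MP_b9fedf_tt.DefsT
import Pool.Agent.Lib_MP_b9fedf_lo.Mono

/-! The number of the points of a curve on two members, all curves, for families with the
conditions. -/

set_option autoImplicit false

namespace Pool.Agent.TT
open MvPolynomial Filter Metric Real Set Function MeromorphicOn ValueDistribution
open Pool.Agent.GGL Pool.Agent.Stat

private theorem norm_perm {n : ℕ} (s : Equiv.Perm (Fin (n + 1))) (v : Fin (n + 1) → ℂ) :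
    ‖fun l => v (s l)‖ = ‖v‖ := by
  apply le_antisymm
  · rw [pi_norm_le_iff_of_nonneg (norm_nonneg _)]
    exact fun l => norm_le_pi_norm v (s l)
  · rw [pi_norm_le_iff_of_nonneg (norm_nonneg _)]
    intro l
    have h := norm_le_pi_norm (fun l => v (s l)) (s.symm l)
    simp only [Equiv.apply_symm_apply] at h
    exact h

/-- All curves: permute the coordinates such that `f_0` is not identically zero. -/
theorem nd_bound_c (k : ℕ) {ε : ℝ} (hε : 0 < ε) : ∃ K0 : ℕ, 1 ≤ K0 ∧ ∀ ω0 N1 : ℕ, ∃ C : ℝ, 0 ≤ C ∧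
    ∀ (Q : ℕ) (a : Fin Q → Fin (k + 3) → ℂ),
    (∀ τ : Equiv.Perm (Fin (k + 3)), AlgC k K0 ω0 N1 (fun i l => a i (τ l))) →
    ∀ f : ℂ → Fin (k + 3) → ℂ, Differentiable ℂ f → (∀ z, f z ≠ 0) →
    (∀ i, ∃ z, ∑ l, a i l * f z l ≠ 0) →
    ∃ (K : ℝ) (E : Set ℝ), MeasureTheory.volume E < ⊤ ∧ ∀ r, 1 ≤ r → r ∉ E →
      Nbar (crs a f) r ≤ (ε * Q + C) * charT f r +
        K * (Real.posLog (charT f r) + Real.log r + 1) := by
  set M : ℝ := (k + 3) * kap k with hM
  have hM0 : 0 ≤ M := by positivity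
  set K0 : ℕ := ⌈M / ε⌉₊ + 1 with hK0
  have hK : 1 ≤ K0 := by omega
  have hKM : M ≤ ε * K0 := by
    have h1 : M / ε ≤ (⌈M / ε⌉₊ : ℝ) := Nat.le_ceil _
    have h2 : M / ε ≤ (K0 : ℝ) := by
      rw [hK0]
      push_cast
      linarith
    rw [div_le_iff₀ hε] at h2
    linarith
  have hKpos : (0 : ℝ) < K0 := by exact_mod_cast hK
  refine ⟨K0, hK, fun ω0 N1 => ?_⟩
  refine ⟨ε + 2 * ω0 / (K0 : ℝ) ^ 2 + 1 + N1, by positivity, fun Q a ha f hf hf0 hne => ?_⟩
  obtain ⟨l0, hl0⟩ : ∃ l0, f 0 l0 ≠ 0 := by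
    by_contra hcon
    push Not at hcon
    exact hf0 0 (funext hcon)
  set s : Equiv.Perm (Fin (k + 3)) := Equiv.swap 0 l0 with hs
  have hsum : ∀ i z, ∑ l, a i (s l) * f z (s l) = ∑ l, a i l * f z l := fun i z =>
    Equiv.sum_comp s (fun l => a i l * f z l)
  have hcrs : crs (fun i l => a i (s l)) (fun z l => f z (s l)) = crs a f := by
    funext z
    unfold crs
    have hiff : (∃ i j, i ≠ j ∧ ∑ l, a i (s l) * f z (s l) = 0 ∧ ∑ l, a j (s l) * f z (s l) = 0) ↔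
        (∃ i j, i ≠ j ∧ ∑ l, a i l * f z l = 0 ∧ ∑ l, a j l * f z l = 0) := by
      simp only [hsum]
    by_cases h : ∃ i j, i ≠ j ∧ ∑ l, a i l * f z l = 0 ∧ ∑ l, a j l * f z l = 0
    · exact (if_pos (hiff.2 h)).trans (if_pos h).symm
    · exact (if_neg (fun h' => h (hiff.1 h'))).trans (if_neg h).symm
  have hch : ∀ r, charT (fun z l => f z (s l)) r = charT f r := by
    intro r
    unfold charT
    simp only [norm_perm]
  have hF : Differentiable ℂ (fun z l => f z (s l)) :=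
    differentiable_pi.2 fun l => differentiable_pi.1 hf (s l)
  have hF0 : ∀ z, (fun l => f z (s l)) ≠ 0 := by
    intro z h
    apply hf0 z
    funext l
    have h1 := congrFun h (s.symm l)
    simp only [Equiv.apply_symm_apply] at h1
    exact h1
  obtain ⟨C1, E, hE, hb⟩ := nd_zero_c hK (fun i l => a i (s l)) (ha s) (fun z l => f z (s l)) hF hF0
    ⟨0, by
      show f 0 (s 0) ≠ 0
      rw [hs, Equiv.swap_apply_left]
      exact hl0⟩ (fun i => by
      obtain ⟨z, hz⟩ := hne i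
      exact ⟨z, by rw [hsum]; exact hz⟩)
  set c1 : ℝ := ((dA k K0 Q + 2 * ω0 : ℕ) : ℝ) / (K0 : ℝ) ^ 2 + 1 + N1 with hc1
  set c2 : ℝ := ε * Q + (ε + 2 * ω0 / (K0 : ℝ) ^ 2 + 1 + N1) with hc2
  have hc : c1 ≤ c2 := by
    have h1 : ((dA k K0 Q + 2 * ω0 : ℕ) : ℝ) / (K0 : ℝ) ^ 2 =
        M * (Q + 1) / K0 + 2 * ω0 / (K0 : ℝ) ^ 2 := by
      unfold dA bA
      rw [hM]
      push_cast
      field_simp
    have h2 : M * (Q + 1) / K0 ≤ ε * (Q + 1) := by
      rw [div_le_iff₀ hKpos]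
      have hQ : (0 : ℝ) ≤ (Q : ℝ) + 1 := by positivity
      nlinarith
    rw [hc1, hc2, h1]
    linarith
  have hd : 0 ≤ c2 - c1 := by linarith
  refine ⟨C1 + (c2 - c1) * |charT f 1|, E, hE, fun r hr hrE => ?_⟩
  have h3 := hb r hr hrE
  rw [hcrs, hch] at h3
  have h4 : -|charT f 1| ≤ charT f r :=
    (neg_abs_le _).trans (Pool.Agent.LO.charT_mono hf hf0 one_pos hr)
  have hpl : 0 ≤ Real.posLog (charT f r) := Real.posLog_nonneg
  have hlr : 0 ≤ Real.log r := Real.log_nonneg hr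
  have h5 : 0 ≤ (c2 - c1) * |charT f 1| * (Real.posLog (charT f r) + Real.log r) := by
    have : 0 ≤ |charT f 1| := abs_nonneg _
    positivity
  have h6 : 0 ≤ (c2 - c1) * (charT f r + |charT f 1|) := mul_nonneg hd (by linarith)
  nlinarith

end Pool.Agent.TT
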