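import Pool.Agent.Lib_MP_b9fedf_tt.Crs
import Pool.Agent.Lib_MP_b9fedf_lg.SmtGeneric
import Pool.Agent.Lib_MP_b9fedf_lg.Apps

/-! [TT-C1a, b]: the sum and the product. -/

set_option autoImplicit false

namespace Pool.Agent.TT
open MvPolynomial Filter Metric Real Set Function MeromorphicOn ValueDistribution
open Pool.Agent.GGL Pool.Agent.Stat Pool.Agent.LO Pool.Agent.LG Pool.Agent.SQ

/-- [TT-C1a] at most `k + 2` members in general position meet at a point (as in `ram_T` of Lib_MP_b9fedf_lg/Apps.lean) -/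
theorem card_le_of_gp {k : ℕ} {ι : Type} [Fintype ι] [DecidableEq ι] (a : ι → Fin (k + 3) → ℂ)
    (hgp : ∀ S : Finset ι, S.card ≤ k + 3 → LinearIndependent ℂ (fun i : S => a i))
    (x : Fin (k + 3) → ℂ) (hx : x ≠ 0) (T : Finset ι) (hT : ∀ i ∈ T, ∑ l, a i l * x l = 0) :
    T.card ≤ k + 2 := by
  by_contra hcon
  push Not at hcon
  obtain ⟨I, hI, hIc⟩ := Finset.exists_subset_card_eq (s := T) (n := k + 3) (by omega)
  have h2 := hgp I hIc.le
  have h3 : Submodule.span ℂ (Set.range (fun i : I => a i)) = ⊤ := by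
    apply h2.span_eq_top_of_card_eq_finrank'
    rw [Fintype.card_coe, hIc, Module.finrank_fin_fun]
  apply hx
  have h4 : ∀ v : Fin (k + 3) → ℂ, ∑ j, v j * x j = 0 := by
    intro v
    have h5 : v ∈ Submodule.span ℂ (Set.range (fun i : I => a i)) := by rw [h3]; trivial
    induction h5 using Submodule.span_induction with
    | mem y hy =>
      obtain ⟨i, rfl⟩ := hy
      exact hT _ (hI i.2)
    | zero => simp
    | add y z _ _ hy hz =>
      simp only [Pi.add_apply, add_mul, Finset.sum_add_distrib, hy, hz, add_zero]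
    | smul c y _ hy =>
      simp only [Pi.smul_apply, smul_eq_mul, mul_assoc, ← Finset.mul_sum, hy, mul_zero]
  ext j
  have h6 := h4 (Pi.single j 1)
  rw [Finset.sum_eq_single j] at h6
  · simpa using h6
  · intro b _ hb
    rw [Pi.single_eq_of_ne hb, zero_mul]
  · intro h
    exact (h (Finset.mem_univ j)).elim

/-- the zeros in a disc are finite in number -/
private theorem fin_zeros {W : ℂ → ℂ} (hW : Differentiable ℂ W) (hW0 : ∃ z, W z ≠ 0) (r : ℝ) :
    {a : ℂ | ‖a‖ ≤ r ∧ W a = 0}.Finite := by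
  obtain ⟨Z, -, h1, -, -⟩ := exists_reduced hW hW0
  refine ((Function.locallyFinsuppWithin.toClosedBall r Z).finiteSupport
    (isCompact_closedBall 0 |r|)).subset ?_
  rintro a ⟨ha, hWa⟩
  rw [Function.mem_support, Function.locallyFinsuppWithin.toClosedBall_eval_within, h1 a hWa]
  · exact one_ne_zero
  · rw [mem_closedBall_zero_iff]
    exact ha.trans (le_abs_self r)

/-- the counting function as a sum over a finite set of points -/
private theorem nbar_eq (W : ℂ → ℂ) {r : ℝ} (S : Finset ℂ) (hS1 : ∀ a ∈ S, ‖a‖ ≤ r)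
    (hS2 : ∀ a, ‖a‖ ≤ r → W a = 0 → a ∈ S) :
    Nbar W r = ∑ a ∈ S, if W a = 0 then Real.log (r / max 1 ‖a‖) else 0 := by
  classical
  have hfin : {a : ℂ | ‖a‖ ≤ r ∧ W a = 0}.Finite :=
    S.finite_toSet.subset fun a ha => hS2 a ha.1 ha.2
  have h3 : Nbar W r = ∑ a ∈ hfin.toFinset, Real.log (r / max 1 ‖a‖) := by
    unfold Nbar
    exact finsum_mem_eq_finite_toFinset_sum _ hfin
  have h4 : hfin.toFinset = S.filter fun a => W a = 0 := by
    ext a
    rw [Set.Finite.mem_toFinset, Finset.mem_filter, Set.mem_ofPred_eq]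
    exact ⟨fun h => ⟨hS2 a h.1 h.2, h.2⟩, fun h => ⟨hS1 a h.1, h.2⟩⟩
  rw [h3, h4, Finset.sum_filter]

/-- [TT-C1b] Proof.  For `‖z‖ ≤ r`, the number `N` of the `i` with `h_i z = 0` is at most `k + 2`, so `N ≤ [N ≥ 1] + (k + 1) [N ≥ 2]`; all sets
of zeros are finite in the disc as `∏ i, h_i` is entire and not identically zero. -/
theorem nbar_sum {k Q : ℕ} (a : Fin Q → Fin (k + 3) → ℂ) (f : ℂ → Fin (k + 3) → ℂ)
    (hf : Differentiable ℂ f) (hf0 : ∀ z, f z ≠ 0) (hne : ∀ i, ∃ z, ∑ l, a i l * f z l ≠ 0)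
    (hgp : ∀ S : Finset (Fin Q), S.card ≤ k + 3 → LinearIndependent ℂ (fun i : S => a i))
    {r : ℝ} (hr : 1 ≤ r) :
    ∑ i, Nbar (fun z => ∑ l, a i l * f z l) r ≤
      Nbar (fun z => ∏ i, ∑ l, a i l * f z l) r + ((k : ℝ) + 1) * Nbar (crs a f) r := by
  classical
  have hfl : ∀ l, Differentiable ℂ fun z => f z l := differentiable_pi.1 hf
  have hd : ∀ i, Differentiable ℂ fun z => ∑ l, a i l * f z l := fun i =>
    Differentiable.fun_sum fun l _ => (hfl l).const_mul _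
  have hp : Differentiable ℂ fun z => ∏ i, ∑ l, a i l * f z l :=
    Differentiable.fun_finsetProd fun i _ => hd i
  have hp0 : ∃ z, ∏ i, ∑ l, a i l * f z l ≠ 0 := by
    have h1 : (⋃ i : Fin Q, {z : ℂ | ‖z‖ ≤ 1 ∧ ∑ l, a i l * f z l = 0}).Finite :=
      Set.finite_iUnion fun i => fin_zeros (hd i) (hne i) 1
    have h2 : (closedBall (0 : ℂ) 1).Infinite := by
      refine Set.Infinite.mono Metric.ball_subset_closedBall ?_
      exact infinite_of_mem_nhds (0 : ℂ) (Metric.ball_mem_nhds _ one_pos)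
    obtain ⟨z, hz, hz2⟩ := (h2.diff h1).nonempty
    refine ⟨z, Finset.prod_ne_zero_iff.2 fun i _ h => hz2 (Set.mem_iUnion.2 ⟨i, ?_, h⟩)⟩
    rwa [mem_closedBall_zero_iff] at hz
  have hfin := fin_zeros hp hp0 r
  have hS1 : ∀ z ∈ hfin.toFinset, ‖z‖ ≤ r := fun z hz => ((Set.Finite.mem_toFinset hfin).1 hz).1
  have hz0 : ∀ z i, ∑ l, a i l * f z l = 0 → ∏ i, ∑ l, a i l * f z l = 0 := fun z i h =>
    Finset.prod_eq_zero (Finset.mem_univ i) h
  have hin : ∀ z, ‖z‖ ≤ r → ∏ i, ∑ l, a i l * f z l = 0 → z ∈ hfin.toFinset := fun z hz h =>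
    (Set.Finite.mem_toFinset hfin).2 ⟨hz, h⟩
  have hcrs : ∀ z, crs a f z = 0 ↔
      ∃ i j, i ≠ j ∧ ∑ l, a i l * f z l = 0 ∧ ∑ l, a j l * f z l = 0 := by
    intro z
    unfold crs
    split_ifs with h
    · exact ⟨fun _ => h, fun _ => rfl⟩
    · exact ⟨fun h1 => (one_ne_zero h1).elim, fun h1 => (h h1).elim⟩
  have e1 : ∀ i, Nbar (fun z => ∑ l, a i l * f z l) r =
      ∑ z ∈ hfin.toFinset, if ∑ l, a i l * f z l = 0 then Real.log (r / max 1 ‖z‖) else 0 :=
    fun i => nbar_eq _ _ hS1 fun z hz h => hin z hz (hz0 z i h)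
  have e2 : Nbar (fun z => ∏ i, ∑ l, a i l * f z l) r =
      ∑ z ∈ hfin.toFinset, if ∏ i, ∑ l, a i l * f z l = 0 then Real.log (r / max 1 ‖z‖) else 0 :=
    nbar_eq _ _ hS1 fun z hz h => hin z hz h
  have e3 : Nbar (crs a f) r =
      ∑ z ∈ hfin.toFinset, if crs a f z = 0 then Real.log (r / max 1 ‖z‖) else 0 := by
    refine nbar_eq _ _ hS1 fun z hz h => ?_
    obtain ⟨i, j, -, h1, -⟩ := (hcrs z).1 h
    exact hin z hz (hz0 z i h1)
  rw [Finset.sum_congr rfl fun i _ => e1 i, e2, e3, Finset.sum_comm, Finset.mul_sum,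
    ← Finset.sum_add_distrib]
  refine Finset.sum_le_sum fun z hz => ?_
  have hw : 0 ≤ Real.log (r / max 1 ‖z‖) := by
    refine Real.log_nonneg ?_
    rw [one_le_div (by positivity)]
    exact max_le hr (hS1 z hz)
  set w := Real.log (r / max 1 ‖z‖) with hwd
  set T : Finset (Fin Q) := Finset.univ.filter fun i => ∑ l, a i l * f z l = 0 with hT
  have hTm : ∀ i, i ∈ T ↔ ∑ l, a i l * f z l = 0 := fun i => by
    rw [hT, Finset.mem_filter]
    exact ⟨fun h => h.2, fun h => ⟨Finset.mem_univ i, h⟩⟩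
  have hTc : T.card ≤ k + 2 := card_le_of_gp a hgp (f z) (hf0 z) T fun i hi => (hTm i).1 hi
  have hL : (∑ i, if ∑ l, a i l * f z l = 0 then w else 0) = (T.card : ℝ) * w := by
    rw [← Finset.sum_filter, Finset.sum_const, nsmul_eq_mul]
  rw [hL]
  have hTc' : (T.card : ℝ) ≤ (k : ℝ) + 2 := by exact_mod_cast hTc
  rcases Nat.lt_or_ge 1 T.card with h1 | h1
  · obtain ⟨i, hi, j, hj, hij⟩ := Finset.one_lt_card.1 h1
    rw [if_pos (hz0 z i ((hTm i).1 hi)),
      if_pos ((hcrs z).2 ⟨i, j, hij, (hTm i).1 hi, (hTm j).1 hj⟩)]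
    nlinarith
  · have h0 : 0 ≤ ((k : ℝ) + 1) * (if crs a f z = 0 then w else 0) := by
      refine mul_nonneg (by positivity) ?_
      split_ifs
      · exact hw
      · exact le_rfl
    rcases T.eq_empty_or_nonempty with h2 | ⟨i, hi⟩
    · rw [h2, Finset.card_empty, Nat.cast_zero, zero_mul]
      refine add_nonneg ?_ h0
      split_ifs
      · exact hw
      · exact le_rfl
    · rw [if_pos (hz0 z i ((hTm i).1 hi))]
      have h3 : (T.card : ℝ) ≤ 1 := by exact_mod_cast h1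
      nlinarith

end Pool.Agent.TT
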