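import Pool.Agent.Lib_MP_b9fedf_tt.Exist
import Pool.Agent.Lib_MP_b9fedf_tt.Sigma
import Pool.Agent.Lib_MP_b9fedf_tt.Lin
import Pool.Agent.Lib_MP_b9fedf_tt.AutC
import Pool.Agent.Lib_MP_b9fedf_tt.Stable
import Pool.Agent.Lib_MP_b9fedf_tt.Dens
import Pool.Agent.Lib_MP_b9fedf_lg.Matroid
import Pool.Agent.Lib_MP_b9fedf_lg.Position

/-! Assembly of the algebraic part: the auxiliary polynomial does not vanish at a given point. -/

set_option autoImplicit false

namespace Pool.Agent.TT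
open MvPolynomial Module

/-- finitely many polynomials in the jets have a common point where they do not vanish -/
private theorem irr_fin {n : ℕ} {Ω I : Type} [Nonempty Ω] {y : Ω → YV n → ℂ} (hy : Irr y)
    (P : I → MvPolynomial (YV n) ℂ) (hP : ∀ i, ∃ z, eval (y z) (P i) ≠ 0) (s : Finset I) :
    ∃ z, ∀ i ∈ s, eval (y z) (P i) ≠ 0 := by
  classical
  have h1 : ∃ z, eval (y z) (∏ i ∈ s, P i) ≠ 0 := by
    induction s using Finset.induction_on with
    | empty =>
      obtain ⟨z⟩ := ‹Nonempty Ω›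
      exact ⟨z, by simp⟩
    | insert i s hi ih =>
      obtain ⟨z, h2, h3⟩ := hy (P i) (∏ i ∈ s, P i) (hP i) ih
      refine ⟨z, ?_⟩
      rw [Finset.prod_insert hi, map_mul]
      exact mul_ne_zero h2 h3
  obtain ⟨z, hz⟩ := h1
  refine ⟨z, ?_⟩
  rw [map_prod, Finset.prod_ne_zero_iff] at hz
  exact hz

/-- evaluation of `x` and `g` -/
private theorem eval_part {n : ℕ} (G : MvPolynomial (Vr n) ℂ) (y : YV n → ℂ)
    (x : Fin (n + 1) → ℂ) (g : GV n → ℂ) :
    eval y (aeval (Sum.elim X (Sum.elim (fun l => C (x l)) (fun p => C (g p)))) G) =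
      eval (ev y x g) G := by
  have h1 : (eval y).comp
      ((aeval (Sum.elim X (Sum.elim (fun l => C (x l)) (fun p => C (g p)))) :
        MvPolynomial (Vr n) ℂ →ₐ[ℂ] MvPolynomial (YV n) ℂ) : MvPolynomial (Vr n) ℂ →+*
          MvPolynomial (YV n) ℂ) = eval (ev y x g) := by
    apply MvPolynomial.ringHom_ext
    · intro r
      simp
    · rintro (v | l | p) <;> simp [ev]
  exact RingHom.congr_fun h1 G

/-- two members with algebraically independent coordinates are linearly independent -/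
private theorem pair_ind {k Q : ℕ} (a : Fin Q → Fin (k + 3) → ℂ)
    (ha : AlgebraicIndependent ℚ (fun p : Fin Q × Fin (k + 3) => a p.1 p.2)) {i j : Fin Q}
    (hij : i ≠ j) : LinearIndependent ℂ ![a i, a j] := by
  classical
  have h1 := LG.gp_of_algInd a ha {i, j} ((Finset.card_insert_le _ _).trans (by simp))
  let e : Fin 2 → ({i, j} : Finset (Fin Q)) :=
    ![⟨i, Finset.mem_insert_self i _⟩, ⟨j, Finset.mem_insert_of_mem (Finset.mem_singleton_self j)⟩]
  have he : Function.Injective e := by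
    intro x y hxy
    fin_cases x <;> fin_cases y
    · rfl
    · exact absurd (congrArg Subtype.val hxy) hij
    · exact absurd (congrArg Subtype.val hxy).symm hij
    · rfl
  have h2 := h1.comp e he
  have h3 : (fun i_1 : ({i, j} : Finset (Fin Q)) => a i_1) ∘ e = ![a i, a j] := by
    funext x
    fin_cases x <;> rfl
  rwa [h3] at h2

/-- the algebraic part -/
theorem alg_main (k : ℕ) {K : ℕ} (hK : 1 ≤ K) : ∃ ω0 N1 : ℕ, ∀ (Q : ℕ)
    (a : Fin Q → Fin (k + 3) → ℂ),
    AlgebraicIndependent ℚ (fun p : Fin Q × Fin (k + 3) => a p.1 p.2) →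
    ∀ {Ω : Type} [Nonempty Ω] (y : Ω → YV (k + 2) → ℂ) (f : Ω → Fin (k + 3) → ℂ),
    (∀ z, f z 0 = 1) → Irr y →
    ∃ ω ≤ ω0, ∃ (R : Finset (Fin Q)) (z0 : Ω) (G : MvPolynomial (Vr (k + 2)) ℂ),
      R.card ≤ N1 ∧ Bd ω (dA k K Q) G ∧ Van (K ^ 2) y (fun i : {i // i ∉ R} => a i) G ∧
      eval (ev (y z0) (f z0) (one (k + 2))) G ≠ 0 := by
  classical
  obtain ⟨ω0, hω0⟩ := exists_weight (k + 2) (K ^ 2) (Nat.one_le_pow _ _ hK)
  let I : Type := Fin ((YM (k + 2) (ω0 + K ^ 2)).ncard ^ 2) ⊕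
    (Fin (k + 3) ⊕ (Fin (k + 2) × Fin ω0))
  refine ⟨ω0, Fintype.card I, fun Q a ha Ω _ y f hf hy => ?_⟩
  obtain ⟨ω, hω, hU⟩ := hω0 y
  have hex : ∀ R : Finset (Fin Q), ∃ G : MvPolynomial (Vr (k + 2)) ℂ, Bd ω (dA k K Q) G ∧
      Van (K ^ 2) y (fun i : {i // i ∉ R} => a i) G ∧
      ∃ (x : Fin (k + 3) → ℂ) (g : GV (k + 2) → ℂ) (z : Ω), eval (ev (y z) x g) G ≠ 0 := by
    intro R
    obtain ⟨G, h1, h2, z, x, g, h3⟩ := exists_form hK (Q := Q) (ι := {i // i ∉ R}) (by
      refine (Fintype.card_subtype_le _).trans ?_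
      rw [Fintype.card_fin]) y hU (fun i => a i) (fun i j hij =>
        pair_ind a ha (fun h => hij (Subtype.ext h)))
    exact ⟨G, h1, h2, x, g, z, h3⟩
  choose G hGB hGV x g hG using hex
  -- the base point
  obtain ⟨z0, hz0⟩ := irr_fin hy (fun R => aeval (Sum.elim X (Sum.elim (fun l => C (x R l))
    (fun p => C (g R p)))) (G R)) (fun R => by
      obtain ⟨z, hz⟩ := hG R
      exact ⟨z, by rw [eval_part]; exact hz⟩) Finset.univ
  -- the parameters
  obtain ⟨xs, hxs⟩ := exists_stable y (ω0 + K ^ 2)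
  let par : I → ℂ := Sum.elim xs (Sum.elim (f z0) (fun p => y z0 (p.1, (p.2 : ℕ))))
  let e := Fintype.equivFin I
  obtain ⟨S, hS, hSi⟩ := LG.indep_off (fun p : Fin Q × Fin (k + 3) => a p.1 p.2) ha
    (fun s => par (e.symm s))
  set R : Finset (Fin Q) := S.image Prod.fst with hR
  have hRc : R.card ≤ Fintype.card I := Finset.card_image_le.trans hS
  have hai : AlgebraicIndependent (Algebra.adjoin ℚ (Set.range fun s => par (e.symm s)))
      (fun p : {i // i ∉ R} × Fin (k + 3) => a p.1 p.2) := by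
    let e' : {i // i ∉ R} × Fin (k + 3) → {e : Fin Q × Fin (k + 3) // e ∉ S} := fun p =>
      ⟨(p.1, p.2), fun h => p.1.2 (Finset.mem_image.mpr ⟨_, h, rfl⟩)⟩
    have he : Function.Injective e' := by
      intro p q hpq
      have h1 := congrArg Subtype.val hpq
      simp only [e', Prod.mk.injEq] at h1
      exact Prod.ext (Subtype.ext h1.1) h1.2
    exact hSi.comp e' he
  -- the rational matrix and the automorphism
  obtain ⟨M, hM, hMne⟩ := exists_rat (G R) (y z0) (f z0) (hf z0) ⟨x R, g R, by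
    have h1 := hz0 R (Finset.mem_univ R)
    rwa [eval_part] at h1⟩
  have hMu : IsUnit M.det := isUnit_iff_ne_zero.mpr hM
  have hMi : (M⁻¹).det ≠ 0 := by
    rw [Matrix.det_nonsing_inv, Ring.inverse_eq_inv']
    exact inv_ne_zero hM
  obtain ⟨σ, hσ, hσa⟩ := exists_aut (fun s => par (e.symm s)) (fun (i : {i // i ∉ R}) => a i) hai
    (M⁻¹) hMi
  have hσp : ∀ i : I, σ (par i) = par i := by
    intro i
    have h1 := hσ (e i)
    rwa [Equiv.symm_apply_apply] at h1
  have hst : Stab y (ω + K ^ 2) σ := by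
    intro P hP h0
    exact hxs σ (fun i => hσp (Sum.inl i)) P (fun m hm => (hP m hm).trans (by omega)) h0
  have hσf : ∀ l, σ (f z0 l) = f z0 l := fun l => hσp (Sum.inr (Sum.inl l))
  have hσy : ∀ v : YV (k + 2), v.2 + 1 ≤ ω → σ (y z0 v) = y z0 v := by
    rintro ⟨j, i⟩ hi
    have h1 : i < ω0 := by
      have h2 : i + 1 ≤ ω := hi
      omega
    exact hσp (Sum.inr (Sum.inr (j, ⟨i, h1⟩)))
  set Mc : Matrix (Fin (k + 3)) (Fin (k + 3)) ℂ := M.map (Rat.cast : ℚ → ℂ) with hMc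
  set Mi : Matrix (Fin (k + 3)) (Fin (k + 3)) ℂ := (M⁻¹).map (Rat.cast : ℚ → ℂ) with hMi'
  have hMM : Mi * Mc = 1 := by
    have h1 : (M⁻¹ * M).map (Rat.castHom ℂ) = 1 := by
      rw [Matrix.nonsing_inv_mul _ hMu]
      exact Matrix.map_one _ (map_zero _) (map_one _)
    rw [Matrix.map_mul] at h1
    exact h1
  refine ⟨ω, hω, R, z0, sbh Mc (map (σ : ℂ →+* ℂ) (G R)), hRc, bd_sbh Mc (bd_map _ (hGB R)), ?_, ?_⟩
  · refine van_sbh y (fun i : {i // i ∉ R} => a i) Mc Mi hMM _ ?_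
    have h1 := van_sigma y σ hst (fun i : {i // i ∉ R} => a i) (G R) (hGB R) (hGV R)
    have h2 : (fun (i : {i // i ∉ R}) l => σ (a i l)) =
        fun i : {i // i ∉ R} => Matrix.vecMul (a i) Mi := by
      funext i l
      rw [hσa i l]
      rfl
    rw [h2] at h1
    exact h1
  · rw [eval_sbh]
    have h1 : (fun p : GV (k + 2) => Mc.mulVec (fun l => one (k + 2) (p.1, l)) p.2) =
        fun p => σ ((M p.2 p.1.succ : ℚ) : ℂ) := by
      funext p
      rw [map_ratCast]
      show ∑ l, Mc p.2 l * one (k + 2) (p.1, l) = _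
      rw [Finset.sum_eq_single p.1.succ]
      · simp [one, hMc]
      · intro b _ hb
        simp [one, hb]
      · intro h
        exact absurd (Finset.mem_univ _) h
    have h2 : Mc.mulVec (f z0) = fun l => σ (Mc.mulVec (f z0) l) := by
      funext l
      show ∑ l', Mc l l' * f z0 l' = σ (∑ l', Mc l l' * f z0 l')
      rw [map_sum]
      refine Finset.sum_congr rfl fun l' _ => ?_
      rw [map_mul, hσf]
      congr 1
      show ((M l l' : ℚ) : ℂ) = σ ((M l l' : ℚ) : ℂ)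
      rw [map_ratCast]
    rw [h1, h2, eval_sigma σ (y z0) hσy _ _ (G R) (hGB R)]
    intro h3
    have h4 := (map_eq_zero σ).1 h3
    exact hMne h4

end Pool.Agent.TT
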