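import Mathlib

/-! Automorphisms of `ℂ` with given values at algebraically independent numbers (helper41). -/

set_option autoImplicit false

open Filter Topology

namespace Pool.Agent.TT

/-- Two finite families which are algebraically independent over the ring generated by the numbers `x j`
are conjugate under an automorphism of `ℂ` which fixes all `x j`. -/
theorem exists_ringEquiv_over {ι : Type} [Finite ι] {κ : Type} [Finite κ] (x : κ → ℂ) {c c' : ι → ℂ}
    (hc : AlgebraicIndependent (Algebra.adjoin ℚ (Set.range x)) c)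
    (hc' : AlgebraicIndependent (Algebra.adjoin ℚ (Set.range x)) c') :
    ∃ σ : ℂ ≃+* ℂ, (∀ j, σ (x j) = x j) ∧ ∀ i, σ (c i) = c' i := by
  classical
  set K := Algebra.adjoin ℚ (Set.range x) with hK
  -- complete to transcendence bases
  obtain ⟨t, hct, ht⟩ := exists_isTranscendenceBasis_superset
    (s := Set.range c) hc.coe_range
  obtain ⟨t', hct', ht'⟩ := exists_isTranscendenceBasis_superset
    (s := Set.range c') hc'.coe_range
  have hC : Cardinal.aleph0 < Cardinal.mk ℂ := by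
    rw [Cardinal.mk_complex]
    exact Cardinal.aleph0_lt_continuum
  have hQ : Cardinal.mk K ≤ Cardinal.aleph0 := by
    refine (Algebra.cardinalMk_adjoin_le ℚ (Set.range x)).trans ?_
    refine max_le (max_le Cardinal.mk_le_aleph0 ?_) le_rfl
    exact Cardinal.mk_le_aleph0_iff.2 (Set.finite_range x).countable
  have e1 : Cardinal.mk ℂ = Cardinal.mk t :=
    IsAlgClosed.cardinal_eq_cardinal_transcendence_basis_of_aleph0_lt' _ ht hQ hC
  have e2 : Cardinal.mk ℂ = Cardinal.mk t' :=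
    IsAlgClosed.cardinal_eq_cardinal_transcendence_basis_of_aleph0_lt' _ ht' hQ hC
  -- a bijection of the bases compatible with the families
  have hex : ∀ x : {x : t | (x : ℂ) ∈ Set.range c}, ∃ i, c i = ((x : t) : ℂ) := fun x => x.2
  choose ix hix using hex
  have hinj : Function.Injective (fun x : {x : t | (x : ℂ) ∈ Set.range c} =>
      (⟨c' (ix x), hct' ⟨ix x, rfl⟩⟩ : t')) := by
    intro x y hxy
    have h1 : c' (ix x) = c' (ix y) := congrArg Subtype.val hxy
    have h2 : ix x = ix y := hc'.injective h1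
    apply Subtype.ext
    apply Subtype.ext
    rw [← hix x, ← hix y, h2]
  have hlt : Cardinal.mk {x : t | (x : ℂ) ∈ Set.range c} < Cardinal.mk t := by
    rw [← e1]
    refine lt_trans ?_ hC
    rw [Cardinal.lt_aleph0_iff_finite]
    exact Finite.of_injective ix fun x y hxy => by
      apply Subtype.ext
      apply Subtype.ext
      rw [← hix x, ← hix y, hxy]
  obtain ⟨g, hg⟩ := Cardinal.extend_function_of_lt
    (⟨_, hinj⟩ : {x : t | (x : ℂ) ∈ Set.range c} ↪ t') hlt (Cardinal.eq.1 (e1.symm.trans e2))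
  have hgc : ∀ i, ((g ⟨c i, hct ⟨i, rfl⟩⟩ : t') : ℂ) = c' i := by
    intro i
    have h1 := hg ⟨⟨c i, hct ⟨i, rfl⟩⟩, ⟨i, rfl⟩⟩
    have h2 := hix ⟨⟨c i, hct ⟨i, rfl⟩⟩, ⟨i, rfl⟩⟩
    have h3 := hc.injective h2
    have h4 := congrArg Subtype.val h1
    have h5 : ((g ⟨c i, hct ⟨i, rfl⟩⟩ : t') : ℂ) =
        c' (ix ⟨⟨c i, hct ⟨i, rfl⟩⟩, ⟨i, rfl⟩⟩) := h4
    rw [h5, h3]
  -- extend to the algebraic closures
  have i1 := IsAlgClosed.isAlgClosure_of_transcendence_basis _ ht
  have i2 := IsAlgClosed.isAlgClosure_of_transcendence_basis _ ht'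
  let e : Algebra.adjoin K (Set.range ((↑) : t → ℂ)) ≃ₐ[K]
      Algebra.adjoin K (Set.range ((↑) : t' → ℂ)) :=
    ht.1.aevalEquiv.symm.trans ((MvPolynomial.renameEquiv K g).trans ht'.1.aevalEquiv)
  refine ⟨IsAlgClosure.equivOfEquiv ℂ ℂ e.toRingEquiv, fun j => ?_, fun i => ?_⟩
  · have hj : x j ∈ K := Algebra.subset_adjoin ⟨j, rfl⟩
    have h1 : x j = algebraMap (Algebra.adjoin K (Set.range ((↑) : t → ℂ))) ℂ
        (algebraMap K _ ⟨x j, hj⟩) := rfl
    rw [h1, IsAlgClosure.equivOfEquiv_algebraMap]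
    have h2 : e.toRingEquiv (algebraMap K _ ⟨x j, hj⟩) = algebraMap K _ ⟨x j, hj⟩ :=
      e.commutes _
    rw [h2]
    rfl
  · have h1 : c i = algebraMap (Algebra.adjoin K (Set.range ((↑) : t → ℂ))) ℂ
        (ht.1.aevalEquiv (MvPolynomial.X ⟨c i, hct ⟨i, rfl⟩⟩)) := by
      rw [AlgebraicIndependent.algebraMap_aevalEquiv, MvPolynomial.aeval_X]
    rw [h1, IsAlgClosure.equivOfEquiv_algebraMap]
    have h2 : e.toRingEquiv (ht.1.aevalEquiv (MvPolynomial.X ⟨c i, hct ⟨i, rfl⟩⟩)) =
        ht'.1.aevalEquiv (MvPolynomial.X (g ⟨c i, hct ⟨i, rfl⟩⟩)) := by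
      show ht'.1.aevalEquiv (MvPolynomial.renameEquiv K g
        (ht.1.aevalEquiv.symm (ht.1.aevalEquiv (MvPolynomial.X ⟨c i, hct ⟨i, rfl⟩⟩)))) = _
      rw [AlgEquiv.symm_apply_apply, MvPolynomial.renameEquiv_apply, MvPolynomial.rename_X]
    rw [h2, AlgebraicIndependent.algebraMap_aevalEquiv, MvPolynomial.aeval_X, hgc]

end Pool.Agent.TT
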