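import Pool.Agent.Lib_MP_b9fedf_tt.Ent
import Pool.Agent.Lib_MP_b9fedf_gh.CurveB
import Pool.Agent.Lib_MP_b9fedf_st.NbarL

/-! [TT-B3]: the number of the points where the first derivatives vanish, on good circles. -/

set_option autoImplicit false

namespace Pool.Agent.TT
open MvPolynomial Filter Metric Real Set Function MeromorphicOn ValueDistribution
open Pool.Agent.GGL Pool.Agent.Stat

/-- [TT-B3] Proof.  `Ψ` of `exists_ent` is entire, not identically zero, of order at least `c` at the points of `Z` (`phi_order`, `F_0 ≠ 0`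
there), so `c Z ≤ Dv Ψ` and `c N(Z) ≤ N(Ψ) = mean of log |Ψ| + const` (`jensen`), and `log |Ψ| ≤ (A + 2 ω) log ‖F‖ + ω log B + log C` on the
circle off a discrete set (`ent_bound`, `circleAverage_mono_codiscrete`), as in `circ_est` in Lib_MP_b9fedf_gh/CurveB.lean. -/
theorem cross_circ {n ω A c : ℕ} (G : MvPolynomial (Vr n) ℂ) (hG : Bd ω A G)
    (F : ℂ → Fin (n + 1) → ℂ) (hF : Differentiable ℂ F) (hF0 : ∀ z, F z ≠ 0)
    (hne : ∃ z, F z 0 ≠ 0 ∧ phi G F z ≠ 0) :
    ∃ C : ℝ, 0 ≤ C ∧ ∀ Z : locallyFinsupp ℂ ℤ, (∀ z, Z z ≤ 1) →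
      (∀ z, 0 < Z z → F z 0 ≠ 0 ∧ ∀ a < c, phi ((⇑(dd n))^[a] G) F z = 0) →
      ∀ r B : ℝ, 1 ≤ r → 1 ≤ B →
      (∀ j, ∀ z ∈ sphere (0 : ℂ) r, Good (fun w => F w j / F w 0) B z) →
      (c : ℝ) * Function.locallyFinsuppWithin.logCounting Z r ≤
        ((A + 2 * ω : ℕ) : ℝ) * charT F r + C * (1 + Real.log B) := by
  have hFl : ∀ l, Differentiable ℂ (fun z => F z l) := fun l => differentiable_pi.1 hF l
  obtain ⟨z0, hz0, hφ0⟩ := hne
  obtain ⟨Ψ, hΨ, hΨ2⟩ := exists_ent G hG F hF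
  obtain ⟨C, hC0, hC⟩ := ent_bound G hG F hF
  have hΨne : ∃ z, Ψ z ≠ 0 := ⟨z0, by
    rw [hΨ2 z0 hz0]; exact mul_ne_zero (pow_ne_zero _ hz0) hφ0⟩
  set K0 : ℝ := Real.log C - Real.log ‖meromorphicTrailingCoeffAt Ψ 0‖ with hK0
  refine ⟨|K0| + ω, by positivity, ?_⟩
  intro Z hZ1 hZ2 r B hr hB hgood
  have hr0 : 0 < r := by linarith
  have hB0 : 0 < B := by linarith
  have hvI : CircleIntegrable (fun z => Real.log ‖F z‖) 0 r := vec_integrable hFl r
  have hΨI := log_integrable (mero_of_diff hΨ) r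
  have h1 : circleAverage (fun z => Real.log ‖Ψ z‖) 0 r ≤
      circleAverage (fun z => ((A + 2 * ω : ℕ) : ℝ) * Real.log ‖F z‖ +
        (Real.log C + ω * Real.log B)) 0 r := by
    apply circleAverage_mono_codiscrete hr0 hΨI
      (CircleIntegrable.add (ci_mul ((A + 2 * ω : ℕ) : ℝ) hvI) (circleIntegrable_const _ _ _))
    filter_upwards [nonzero_codiscrete hΨ hΨne r, nonzero_codiscrete (hFl 0) ⟨z0, hz0⟩ r,
      self_mem_codiscreteWithin _] with z hz h0z hzs
    have h2 := hC z B hB h0z (fun j => hgood j z hzs)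
    rw [← norm_pow, ← norm_mul, ← hΨ2 z h0z] at h2
    have h3 : 0 < ‖Ψ z‖ := norm_pos_iff.2 hz
    have h4 : 0 < ‖F z‖ := norm_pos_iff.2 (hF0 z)
    have h5 := Real.log_le_log h3 h2
    rw [Real.log_mul (by positivity) (by positivity), Real.log_mul (by positivity) (by positivity),
      Real.log_pow, Real.log_pow] at h5
    show Real.log ‖Ψ z‖ ≤ ((A + 2 * ω : ℕ) : ℝ) * Real.log ‖F z‖ + (Real.log C + ω * Real.log B)
    linarith
  rw [circleAverage_fun_add (ci_mul ((A + 2 * ω : ℕ) : ℝ) hvI) (circleIntegrable_const _ _ _),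
    circleAverage_const, ca_mul, jensen (mero_of_diff hΨ) hr] at h1
  have h2 : (c : ℝ) * Function.locallyFinsuppWithin.logCounting Z r ≤
      Function.locallyFinsuppWithin.logCounting (Dv Ψ) r := by
    have h3 : c • Z ≤ Dv Ψ := by
      intro z
      rw [locallyFinsuppWithin.coe_nsmul, Pi.smul_apply, nsmul_eq_mul, Dv_apply hΨ]
      by_cases hz : 0 < Z z
      · obtain ⟨h4, h5⟩ := hZ2 z hz
        have h6 : Z z = 1 := le_antisymm (hZ1 z) hz
        rw [h6, mul_one]
        have h7 := phi_order G F hF h4 h5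
        have h8 : Ψ =ᶠ[nhds z] (fun w => F w 0 ^ (A + 2 * ω)) * phi G F := by
          filter_upwards [((hFl 0).continuous.continuousAt).eventually_ne h4] with w hw
          exact hΨ2 w hw
        have h9 : (c : ℕ∞) ≤ analyticOrderAt Ψ z := by
          have h12 : AnalyticAt ℂ (fun w => F w 0 ^ (A + 2 * ω)) z :=
            ((hFl 0).analyticAt z).pow _
          rw [analyticOrderAt_congr h8, analyticOrderAt_mul h12 (phi_analytic G F hF h4)]
          exact h7.trans le_add_self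
        have h10 := order_ne_top hΨ hΨne z
        have h11 : c ≤ (analyticOrderAt Ψ z).toNat := by
          have h12 : ((analyticOrderAt Ψ z).toNat : ℕ∞) = analyticOrderAt Ψ z :=
            ENat.natCast_toNat_eq_self.mpr h10
          rw [← h12] at h9
          exact_mod_cast h9
        exact Int.ofNat_le.2 h11
      · have h4 : Z z ≤ 0 := not_lt.1 hz
        have h5 : (c : ℤ) * Z z ≤ 0 := mul_nonpos_of_nonneg_of_nonpos (Nat.cast_nonneg _) h4
        exact h5.trans (Int.natCast_nonneg _)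
    have h4 := Function.locallyFinsuppWithin.logCounting_le h3 hr
    rw [map_nsmul, Pi.smul_apply, nsmul_eq_mul] at h4
    exact h4
  have hlB : 0 ≤ Real.log B := Real.log_nonneg hB
  have h5 : K0 ≤ |K0| := le_abs_self _
  have h6 : 0 ≤ |K0| * Real.log B := by positivity
  have h7 : (0 : ℝ) ≤ ω := Nat.cast_nonneg _
  have h8 : circleAverage (fun z => Real.log ‖F z‖) 0 r = charT F r := rfl
  rw [h8] at h1
  rw [hK0] at h5 h6 ⊢
  nlinarith

end Pool.Agent.TT
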