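import Pool.Agent.Lib_MP_b9fedf_lo.GrowthE
import Pool.Agent.Lib_MP_b9fedf_lo.GrowAdd
import Pool.Agent.Lib_MP_b9fedf_lo.Mono
import Pool.Agent.Lib_MP_b9fedf_sq.Main2
import Pool.Agent.Lib_MP_b9fedf_ag.CharTF
import Pool.Agent.Lib_MP_b9fedf_st.NbarL

/-! Good circles for the quotients of an entire curve, outside a set of finite measure. -/

set_option autoImplicit false

namespace Pool.Agent.TT
open Filter Metric Real Set Function MeromorphicOn ValueDistribution
open Pool.Agent.GGL Pool.Agent.SQ Pool.Agent.Stat Pool.Agent.LO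

/-- For `r` outside a set of finite measure there is a circle of radius `r' ≥ r`, `r' ≤ r + 1`, on
which all logarithmic derivatives of the `f_j / f_k` are controlled, and on which the
characteristic has increased by at most one. -/
theorem good_radius {n : ℕ} (f : ℂ → Fin (n + 1) → ℂ) (hf : Differentiable ℂ f)
    (hf0 : ∀ z, f z ≠ 0) (k : Fin (n + 1)) (hk : ∃ z, f z k ≠ 0) :
    ∃ (K : ℝ) (E : Set ℝ), 0 ≤ K ∧ MeasureTheory.volume E < ⊤ ∧ ∀ r, 1 ≤ r → r ∉ E →
      ∃ r' B : ℝ, r ≤ r' ∧ r' ≤ r + 1 ∧ 1 ≤ B ∧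
        (∀ j, ∀ z ∈ sphere (0 : ℂ) r', Good (fun w => f w j / f w k) B z) ∧
        Real.log B ≤ K * (Real.posLog (charT f r) + Real.log r + 1) ∧
        charT f r' ≤ charT f r + 1 := by
  classical
  have hfd : ∀ a, Differentiable ℂ (fun z => f z a) := fun a => differentiable_pi.1 hf a
  have hfz : ∀ z, ∃ a, f z a ≠ 0 := by
    intro z
    by_contra hcon
    push Not at hcon
    exact hf0 z (funext hcon)
  -- the family of quotients
  set F : {j : Fin (n + 1) // ∃ z, f z j ≠ 0} → ℂ → ℂ := fun l z => f z l.1 with hF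
  have hFd : ∀ l, Differentiable ℂ (F l) := fun j => hfd j.1
  have hFne : ∀ l, ∃ z, F l z ≠ 0 := fun j => j.2
  set G : {j : Fin (n + 1) // ∃ z, f z j ≠ 0} → ℂ → ℂ := fun l z => F l z / f z k with hG
  have hGm : ∀ l, Meromorphic (G l) := fun l => div_mero (hFd l) (hfd k)
  have hGne : ∀ l z, meromorphicOrderAt (G l) z ≠ ⊤ := fun l z =>
    div_order_ne_top (hFd l) (hfd k) (hFne l) hk z
  obtain ⟨CL, hCL1, hCL⟩ := ldl G hGm hGne
  set τ : ℝ → ℝ := fun ρ => ∑ l, characteristic (G l) ⊤ ρ with hτ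
  have hτmono : MonotoneOn τ (Set.Ici 1) := by
    intro x hx y hy hxy
    apply Finset.sum_le_sum
    intro l _
    exact characteristic_monotoneOn (hGm _) (show (0 : ℝ) < x from lt_of_lt_of_le one_pos hx)
      (show (0 : ℝ) < y from lt_of_lt_of_le one_pos hy) hxy
  have hτ0 : ∀ ρ, 1 ≤ ρ → 0 ≤ τ ρ := fun ρ hρ =>
    Finset.sum_nonneg fun l _ => characteristic_nonneg hρ
  -- bounds by the characteristic
  have hcle : ∀ j z, ‖f z j‖ ≤ 1 * ‖fun a => (fun (a : Fin (n + 1)) z => f z a) a z‖ ^ 1 := by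
    intro j z
    rw [pow_one, one_mul]
    exact norm_le_pi_norm (f z) j
  have hchar : ∀ l, ∃ C' : ℝ, ∀ r, 1 ≤ r →
      characteristic (G l) ⊤ r ≤ charT f r + C' := by
    intro j
    obtain ⟨C', hC'⟩ := char_div_le_TF (f := fun a z => f z a) hfd hfz (hfd j.1) (hfd k) hk
      1 1 (hcle j.1) (hcle k)
    refine ⟨C', fun r hr => ?_⟩
    have h1 := hC' r hr
    rw [Nat.cast_one, one_mul] at h1
    exact h1
  choose Cc hCc using hchar
  have hTm : ∀ x y, 1 ≤ x → x ≤ y → charT f x ≤ charT f y := fun x y hx hxy =>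
    charT_mono hf hf0 (by linarith) hxy
  -- growth
  set t0 : ℝ := 1 + |charT f 1| with ht0
  have ht01 : 1 ≤ t0 := by
    have := abs_nonneg (charT f 1)
    rw [ht0]; linarith
  have hΘ1' : ∀ r, 1 ≤ r → 1 ≤ t0 + charT f r := by
    intro r hr
    have h1 := hTm 1 r le_rfl hr
    have h2 := neg_abs_le (charT f 1)
    rw [ht0]; linarith
  set Θ : ℝ → ℝ := fun r => t0 + charT f r with hΘ
  set Ψ : ℝ → ℝ := fun r => τ r + (t0 + charT f r) with hΨ
  have hΨ1 : ∀ r, 1 ≤ r → 1 ≤ Ψ r := fun r hr => by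
    have := hτ0 r hr; have := hΘ1' r hr
    show 1 ≤ τ r + (t0 + charT f r)
    linarith
  have hΘ1 : ∀ r, 1 ≤ r → 1 ≤ Θ r := hΘ1'
  have hΘm : MonotoneOn Θ (Set.Ici 1) := fun a ha b hb hab => by
    have := hTm a b ha hab
    show t0 + charT f a ≤ t0 + charT f b
    linarith
  have hΨm : MonotoneOn Ψ (Set.Ici 1) := fun a ha b hb hab => by
    have h1 := hτmono ha hb hab
    have h2 := hTm a b ha hab
    show τ a + (t0 + charT f a) ≤ τ b + (t0 + charT f b)
    linarith
  have hE1 := growthE (b := 2) (by norm_num) Ψ hΨm hΨ1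
  have hE2 := growth_add Θ hΘm hΘ1
  set E1 : Set ℝ := {r : ℝ | 1 ≤ r ∧ 2 * Ψ r < Ψ (r + 1 / Ψ r)} with hE1d
  set E2 : Set ℝ := {r : ℝ | 1 ≤ r ∧ Θ r + 1 < Θ (r + 1 / Θ r ^ 2)} with hE2d
  -- constants
  set c1 : ℝ := ∑ k, |Cc k| with hc1
  have hc10 : 0 ≤ c1 := Finset.sum_nonneg fun k _ => abs_nonneg _
  set nn : ℝ := (Fintype.card {j : Fin (n + 1) // ∃ z, f z j ≠ 0} : ℝ) with hnn
  have hnn0 : 0 ≤ nn := by rw [hnn]; positivity
  set K0 : ℝ := 1 + nn + c1 + t0 with hK0
  have hK01 : 1 ≤ K0 := by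
    rw [hK0]; linarith
  have hlK0 : 0 ≤ Real.log K0 := Real.log_nonneg hK01
  have hlCL : 0 ≤ Real.log CL := Real.log_nonneg hCL1
  have hΨle : ∀ r, 1 ≤ r → Ψ r ≤ K0 * max 1 (charT f r) := by
    intro r hr
    set X := max 1 (charT f r) with hX
    have hX1 : 1 ≤ X := le_max_left _ _
    have hX2 : charT f r ≤ X := le_max_right _ _
    have h1 : τ r ≤ nn * charT f r + c1 := by
      have h2 : τ r ≤ ∑ l : {j : Fin (n + 1) // ∃ z, f z j ≠ 0}, (charT f r + |Cc l|) := by
        refine Finset.sum_le_sum fun l _ => (hCc l r hr).trans ?_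
        have := le_abs_self (Cc l)
        linarith
      rw [Finset.sum_add_distrib, Finset.sum_const, Finset.card_univ, nsmul_eq_mul] at h2
      exact h2
    have h3 : nn * charT f r ≤ nn * X := mul_le_mul_of_nonneg_left hX2 hnn0
    show τ r + (t0 + charT f r) ≤ K0 * X
    have h6 : c1 ≤ c1 * X := le_mul_of_one_le_right hc10 hX1
    have h7 : t0 ≤ t0 * X := le_mul_of_one_le_right (by linarith) hX1
    have h8 : K0 * X = X + nn * X + c1 * X + t0 * X := by rw [hK0]; ring
    rw [h8]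
    linarith
  set c4 : ℝ := Real.log CL + 4 * (Real.log 4 + 3 * Real.log K0 + Real.log 3) with hc4
  have hl4 : 0 ≤ Real.log 4 := Real.log_nonneg (by norm_num)
  have hl3 : 0 ≤ Real.log 3 := Real.log_nonneg (by norm_num)
  have hc40 : 0 ≤ c4 := by rw [hc4]; positivity
  refine ⟨c4 + 12, E1 ∪ E2, by linarith, ?_, ?_⟩
  · exact lt_of_le_of_lt (MeasureTheory.measure_union_le _ _) (ENNReal.add_lt_top.2 ⟨hE1, hE2⟩)
  intro r hr hrE
  have hrE1 : Ψ (r + 1 / Ψ r) ≤ 2 * Ψ r := by
    by_contra hcon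
    exact hrE (Or.inl ⟨hr, not_le.1 hcon⟩)
  have hrE2 : Θ (r + 1 / Θ r ^ 2) ≤ Θ r + 1 := by
    by_contra hcon
    exact hrE (Or.inr ⟨hr, not_le.1 hcon⟩)
  have hP1 := hΨ1 r hr
  have hT1 := hΘ1 r hr
  have hP0 : 0 < Ψ r := by linarith
  have hT0 : 0 < Θ r := by linarith
  have hPT : Θ r ≤ Ψ r := by
    have := hτ0 r hr
    show t0 + charT f r ≤ τ r + (t0 + charT f r)
    linarith
  set δ : ℝ := 1 / (2 * Ψ r ^ 2) with hδ
  have hδ0 : 0 < δ := by rw [hδ]; positivity
  have hδ1 : δ ≤ 1 := by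
    rw [hδ, div_le_one (by positivity)]
    nlinarith
  obtain ⟨r', ⟨hr1, hr2⟩, B, hB1, hB, hgood⟩ := hCL r δ hr hδ0 hδ1
  have hr'1 : 1 ≤ r' := hr.trans hr1
  -- `charT f r'`
  have hN : charT f r' ≤ charT f r + 1 := by
    have h1 : δ ≤ 1 / Θ r ^ 2 := by
      rw [hδ]
      apply one_div_le_one_div_of_le (by positivity)
      nlinarith
    have h2 := hTm r' (r + 1 / Θ r ^ 2) hr'1 (by linarith)
    have h3 : t0 + charT f (r + 1 / Θ r ^ 2) ≤ (t0 + charT f r) + 1 := hrE2
    linarith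
  -- `log B`
  have hlogΨ : Real.log (Ψ r) ≤ Real.log K0 + Real.posLog (charT f r) := by
    have h1 := Real.log_le_log hP0 (hΨle r hr)
    rw [Real.log_mul (by linarith) (by positivity)] at h1
    refine h1.trans (add_le_add le_rfl ?_)
    rcases le_total (charT f r) 1 with h25 | h25
    · rw [max_eq_left h25, Real.log_one]
      exact Real.posLog_nonneg
    · rw [max_eq_right h25]
      exact le_max_right _ _
  have hpl : 0 ≤ Real.posLog (charT f r) := Real.posLog_nonneg
  have hlr : 0 ≤ Real.log r := Real.log_nonneg hr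
  have hlogB : Real.log B ≤ c4 + 12 * Real.posLog (charT f r) + 4 * Real.log r := by
    have h5 : r + 2 * δ ≤ r + 1 / Ψ r := by
      have h51 : 2 * δ = 1 / Ψ r ^ 2 := by
        rw [hδ]
        field_simp
      have h52 : 1 / Ψ r ^ 2 ≤ 1 / Ψ r := by
        apply one_div_le_one_div_of_le hP0
        nlinarith
      linarith
    have hr5 : 1 ≤ r + 1 / Ψ r := by
      have : 0 < 1 / Ψ r := by positivity
      linarith
    have hr6 : 1 ≤ r + 2 * δ := by linarith
    have h6 : 1 + ∑ l, characteristic (G l) ⊤ (r + 2 * δ) ≤ 2 * Ψ r := by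
      have h61 : τ (r + 2 * δ) ≤ τ (r + 1 / Ψ r) := hτmono hr6 hr5 h5
      refine le_trans ?_ hrE1
      have := hΘ1' _ hr5
      show 1 + τ (r + 2 * δ) ≤ τ (r + 1 / Ψ r) + (t0 + charT f (r + 1 / Ψ r))
      linarith
    have h7 : (1 + ∑ l, characteristic (G l) ⊤ (r + 2 * δ)) * (r + 2) / δ ≤
        4 * Ψ r ^ 3 * (r + 2) := by
      rw [hδ, div_div_eq_mul_div, div_one]
      have h8 : (1 + ∑ l, characteristic (G l) ⊤ (r + 2 * δ)) * (r + 2) ≤
          2 * Ψ r * (r + 2) := mul_le_mul_of_nonneg_right h6 (by linarith)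
      have h9 := mul_le_mul_of_nonneg_right h8 (show 0 ≤ 2 * Ψ r ^ 2 by positivity)
      rw [← hδ]
      refine h9.trans (le_of_eq (by ring))
    have h8 : 0 ≤ (1 + ∑ l, characteristic (G l) ⊤ (r + 2 * δ)) * (r + 2) / δ := by
      have h9 : 0 ≤ ∑ l, characteristic (G l) ⊤ (r + 2 * δ) :=
        Finset.sum_nonneg fun k _ => characteristic_nonneg (by linarith)
      positivity
    have h9 : B ≤ CL * (4 * Ψ r ^ 3 * (r + 2)) ^ 4 :=
      hB.trans (mul_le_mul_of_nonneg_left (pow_le_pow_left₀ h8 h7 4) (by linarith))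
    have h10 := Real.log_le_log (by linarith) h9
    rw [Real.log_mul (by linarith) (by positivity), Real.log_pow,
      Real.log_mul (by positivity) (by linarith), Real.log_mul (by norm_num) (by positivity),
      Real.log_pow] at h10
    push_cast at h10
    have h11 : Real.log (r + 2) ≤ Real.log 3 + Real.log r := by
      rw [← Real.log_mul (by norm_num) (by positivity)]
      exact Real.log_le_log (by linarith) (by linarith)
    rw [hc4]
    linarith
  refine ⟨r', B, hr1, by linarith, hB1, ?_, ?_, hN⟩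
  · intro j z hz
    by_cases hj : ∃ z, f z j ≠ 0
    · exact hgood ⟨j, hj⟩ z hz
    · push Not at hj
      have h0 : (fun w => f w j / f w k) = fun _ => (0 : ℂ) := by
        funext w
        rw [hj w, zero_div]
      intro _ i
      rw [h0]
      have h01 : iteratedDeriv i (fun _ : ℂ => (0 : ℂ)) z = 0 := by
        simp
      rw [h01, norm_zero]
      positivity
  · have h1 : 0 ≤ c4 * Real.posLog (charT f r) := by positivity
    have h2 : 0 ≤ c4 * Real.log r := by positivity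
    nlinarith

end Pool.Agent.TT
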