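import Pool.Agent.Lib_MP_b9fedf_tt.Cross
import Pool.Agent.Lib_MP_b9fedf_tt.GoodRad

/-! [TT-B4a]: from good circles to all radii. -/

set_option autoImplicit false

namespace Pool.Agent.TT
open MvPolynomial Filter Metric Real Set Function MeromorphicOn ValueDistribution
open Pool.Agent.GGL Pool.Agent.Stat

/-- [TT-B4a] From good circles to all radii, for the points where the first derivatives vanish.  Proof.  `good_radius` with `k = 0`, `cross_circ`
and `N(Z)(r) ≤ N(Z)(r')`, `T(r') ≤ T(r) + 1`. -/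
theorem cross_all {n ω A c : ℕ} (hc : 1 ≤ c) (G : MvPolynomial (Vr n) ℂ) (hG : Bd ω A G)
    (F : ℂ → Fin (n + 1) → ℂ) (hF : Differentiable ℂ F) (hF0 : ∀ z, F z ≠ 0)
    (hne : ∃ z, F z 0 ≠ 0 ∧ phi G F z ≠ 0) :
    ∃ (K : ℝ) (E : Set ℝ), MeasureTheory.volume E < ⊤ ∧ ∀ Z : locallyFinsupp ℂ ℤ, (0 ≤ Z) →
      (∀ z, Z z ≤ 1) →
      (∀ z, 0 < Z z → F z 0 ≠ 0 ∧ ∀ a < c, phi ((⇑(dd n))^[a] G) F z = 0) →
      ∀ r, 1 ≤ r → r ∉ E →
      (c : ℝ) * Function.locallyFinsuppWithin.logCounting Z r ≤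
        ((A + 2 * ω : ℕ) : ℝ) * charT F r +
          K * (Real.posLog (charT F r) + Real.log r + 1) := by
  have h00 : ∃ z, F z 0 ≠ 0 := by
    obtain ⟨z, hz, -⟩ := hne
    exact ⟨z, hz⟩
  obtain ⟨K1, E, hK1, hE, hrad⟩ := good_radius F hF hF0 0 h00
  obtain ⟨C, hC0, hC⟩ := cross_circ (c := c) G hG F hF hF0 hne
  refine ⟨((A + 2 * ω : ℕ) : ℝ) + C + C * K1, E, hE, ?_⟩
  intro Z hZ0 hZ1 hZ2 r hr hrE
  obtain ⟨r', B, hr1, -, hB, hgood, hlogB, hT⟩ := hrad r hr hrE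
  have h1 := hC Z hZ1 hZ2 r' B (hr.trans hr1) hB hgood
  have h2 : Function.locallyFinsuppWithin.logCounting Z r ≤
      Function.locallyFinsuppWithin.logCounting Z r' :=
    Function.locallyFinsuppWithin.logCounting_mono hZ0 (show (0 : ℝ) < r by linarith)
      (show (0 : ℝ) < r' by linarith) hr1
  have hc0 : (0 : ℝ) ≤ c := Nat.cast_nonneg _
  have hN0 : (0 : ℝ) ≤ ((A + 2 * ω : ℕ) : ℝ) := Nat.cast_nonneg _
  have h3 := mul_le_mul_of_nonneg_left h2 hc0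
  have h4 := mul_le_mul_of_nonneg_left hT hN0
  have h5 := mul_le_mul_of_nonneg_left hlogB hC0
  have hpl : 0 ≤ Real.posLog (charT F r) := Real.posLog_nonneg
  have hlr : 0 ≤ Real.log r := Real.log_nonneg hr
  set PL := Real.posLog (charT F r) with hPL
  set LR := Real.log r with hLR
  have h6 : 0 ≤ (((A + 2 * ω : ℕ) : ℝ) + C) * (PL + LR) := by positivity
  nlinarith

end Pool.Agent.TT
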