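import Pool.Agent.Lib_MP_b9fedf_tt.EntH
import Pool.Agent.Lib_MP_b9fedf_st.Defs

/-! The counting estimate from the bound on good circles (Jensen). -/

set_option autoImplicit false

namespace Pool.Agent.TT
open MvPolynomial Metric Real Set Filter Function MeromorphicOn ValueDistribution
open Pool.Agent.GGL Pool.Agent.Stat

/-- Jensen's formula: if `c Z ≤ Dv Ψ` and `Ψ` is bounded on good circles -/
theorem crossD {n N ω c : ℕ} {C : ℝ} (hC : 1 ≤ C) {F : ℂ → Fin (n + 1) → ℂ}
    (hF : Differentiable ℂ F) (hF0 : ∀ z, F z ≠ 0) {Ψ : ℂ → ℂ} (hΨ : Differentiable ℂ Ψ)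
    (hne : ∃ z, Ψ z ≠ 0) (h00 : ∃ z, F z 0 ≠ 0) (Z : locallyFinsupp ℂ ℤ)
    (hZ : ∀ z, (c : ℤ) * Z z ≤ Dv Ψ z) :
    ∃ K : ℝ, 0 ≤ K ∧ ∀ r B : ℝ, 1 ≤ r → 1 ≤ B →
      (∀ z ∈ sphere (0 : ℂ) r, F z 0 ≠ 0 → ‖Ψ z‖ ≤ C * B ^ ω * ‖F z‖ ^ N) →
      (c : ℝ) * Function.locallyFinsuppWithin.logCounting Z r ≤
        N * charT F r + K * (1 + Real.log B) := by
  have hFl : ∀ l, Differentiable ℂ (fun z => F z l) := fun l => differentiable_pi.1 hF l
  set K0 : ℝ := Real.log C - Real.log ‖meromorphicTrailingCoeffAt Ψ 0‖ with hK0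
  refine ⟨|K0| + ω, by positivity, ?_⟩
  intro r B hr hB hbd
  have hr0 : 0 < r := by linarith
  have hB0 : 0 < B := by linarith
  have hvI : CircleIntegrable (fun z => Real.log ‖F z‖) 0 r := vec_integrable hFl r
  have hΨI := log_integrable (mero_of_diff hΨ) r
  have h1 : circleAverage (fun z => Real.log ‖Ψ z‖) 0 r ≤
      circleAverage (fun z => (N : ℝ) * Real.log ‖F z‖ + (Real.log C + ω * Real.log B)) 0 r := by
    apply circleAverage_mono_codiscrete hr0 hΨI
      (CircleIntegrable.add (ci_mul (N : ℝ) hvI) (circleIntegrable_const _ _ _))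
    filter_upwards [nonzero_codiscrete hΨ hne r, nonzero_codiscrete (hFl 0) h00 r,
      self_mem_codiscreteWithin _] with z hz h0z hzs
    have h2 := hbd z hzs h0z
    have h3 : 0 < ‖Ψ z‖ := norm_pos_iff.2 hz
    have h4 : 0 < ‖F z‖ := norm_pos_iff.2 (hF0 z)
    have h5 := Real.log_le_log h3 h2
    rw [Real.log_mul (by positivity) (by positivity), Real.log_mul (by positivity) (by positivity),
      Real.log_pow, Real.log_pow] at h5
    show Real.log ‖Ψ z‖ ≤ (N : ℝ) * Real.log ‖F z‖ + (Real.log C + ω * Real.log B)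
    linarith
  rw [circleAverage_fun_add (ci_mul (N : ℝ) hvI) (circleIntegrable_const _ _ _),
    circleAverage_const, ca_mul, jensen (mero_of_diff hΨ) hr] at h1
  have h2 : (c : ℝ) * Function.locallyFinsuppWithin.logCounting Z r ≤
      Function.locallyFinsuppWithin.logCounting (Dv Ψ) r := by
    have h3 : c • Z ≤ Dv Ψ := by
      intro z
      have := hZ z
      rw [locallyFinsuppWithin.coe_nsmul, Pi.smul_apply, nsmul_eq_mul]
      exact this
    have h4 := Function.locallyFinsuppWithin.logCounting_le h3 hr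
    rw [map_nsmul, Pi.smul_apply, nsmul_eq_mul] at h4
    exact h4
  have hlB : 0 ≤ Real.log B := Real.log_nonneg hB
  have h5 : K0 ≤ |K0| := le_abs_self _
  have h6 : 0 ≤ |K0| * Real.log B := by positivity
  have h7 : (0 : ℝ) ≤ ω := Nat.cast_nonneg _
  have h8 : circleAverage (fun z => Real.log ‖F z‖) 0 r = charT F r := rfl
  rw [h8] at h1
  rw [hK0] at h5 h6 ⊢
  nlinarith

end Pool.Agent.TT
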