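import Pool.Agent.Lib_MP_b9fedf_tt.Level

/-! [TT-D2]: cyclic covers. -/

set_option autoImplicit false

namespace Pool.Agent.TT
open MvPolynomial
open Pool.Agent.GGL Pool.Agent.Stat Pool.Agent.LO Pool.Agent.LG Pool.Agent.SQ Pool.Agent.QY
open Pool.Agent.GH

/-- [TT-D2a] The cyclic cover `w ^ e * x_0 ^ (Q - e) = ∏ a_i(x)`, `e ∣ Q`, `e ≥ 2`: along an arc, the order of the right side is
`e * ord w + (Q - e) * ord x_0`, divisible by `e`, and so is `Q * c`. -/
theorem multiple_cyclic {n Q e : ℕ} (he : 2 ≤ e) (heQ : e ∣ Q) (hQ : 1 ≤ Q)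
    (a : Fin Q → Fin (n + 1) → ℂ) (ha : ∀ i, a i ≠ 0) :
    MultipleForm {X (Fin.last (n + 1)) ^ e * X 0 ^ (Q - e) -
        rename Fin.castSucc (∏ i, lin (a i))}
      (fun l : Fin (n + 1) => (X l.castSucc : MvPolynomial (Fin (n + 1 + 1)) ℂ))
      (∏ i, lin (a i)) := by
  intro u hu hu0 hS c _ _ hord
  obtain ⟨hdeg, -, -⟩ := prod_degree a ha
  rw [hdeg] at hord
  have huc : ∀ j, AnalyticAt ℂ (fun ζ => u ζ j) 0 := fun j => analyticAt_pi_iff.1 hu j
  have h1 : (fun ζ => eval (u ζ) (aeval (fun l : Fin (n + 1) =>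
      (X l.castSucc : MvPolynomial (Fin (n + 1 + 1)) ℂ)) (∏ i, lin (a i)))) =ᶠ[nhds 0]
      (fun ζ => u ζ (Fin.last (n + 1))) ^ e * (fun ζ => u ζ 0) ^ (Q - e) := by
    filter_upwards [hS] with ζ hζ
    have h2 := hζ _ (Set.mem_singleton _)
    rw [map_sub, map_mul, map_pow, map_pow, eval_X, eval_X, sub_eq_zero] at h2
    have h3 : aeval (fun l : Fin (n + 1) => (X l.castSucc : MvPolynomial (Fin (n + 1 + 1)) ℂ))
        (∏ i, lin (a i)) = rename Fin.castSucc (∏ i, lin (a i)) := by
      rw [rename_eq_aeval]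
      rfl
    rw [h3, ← h2]
    rfl
  rw [analyticOrderAt_congr h1, analyticOrderAt_mul ((huc _).pow _) ((huc _).pow _),
    analyticOrderAt_pow (huc _), analyticOrderAt_pow (huc _)] at hord
  have hQe : e ∣ Q - e := Nat.dvd_sub heQ dvd_rfl
  obtain ⟨q, hq⟩ := heQ
  obtain ⟨q', hq'⟩ := hQe
  generalize analyticOrderAt (fun ζ => u ζ (Fin.last (n + 1))) 0 = o1 at hord
  generalize analyticOrderAt (fun ζ => u ζ 0) 0 = o2 at hord
  have hkey : ∀ m1 m2 : ℕ, e * m1 + (Q - e) * m2 ≠ Q * c + 1 := by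
    intro m1 m2 h
    have h4 : e ∣ 1 := by
      rw [← Nat.dvd_add_right (a := e) (b := Q * c) (c := 1) (Dvd.dvd.mul_right ⟨q, hq⟩ c), ← h]
      exact dvd_add (dvd_mul_right _ _) (Dvd.dvd.mul_right ⟨q', hq'⟩ _)
    have := Nat.le_of_dvd one_pos h4
    omega
  cases o1 with
  | top =>
    have h5 : e • (⊤ : ℕ∞) = ⊤ := by
      rw [nsmul_eq_mul]
      exact ENat.mul_top (by exact_mod_cast (show e ≠ 0 by omega))
    rw [h5, top_add] at hord
    exact ENat.top_ne_natCast _ hord
  | coe m1 =>
    cases o2 with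
    | top =>
      rcases Nat.eq_zero_or_pos (Q - e) with h6 | h6
      · rw [h6, zero_smul, add_zero, nsmul_eq_mul] at hord
        have h7 : e * m1 = Q * c + 1 := by exact_mod_cast hord
        exact hkey m1 0 (by rw [mul_zero, add_zero]; exact h7)
      · have h5 : (Q - e) • (⊤ : ℕ∞) = ⊤ := by
          rw [nsmul_eq_mul]
          exact ENat.mul_top (by exact_mod_cast (show Q - e ≠ 0 by omega))
        rw [h5, add_top] at hord
        exact ENat.top_ne_natCast _ hord
    | coe m2 =>
      rw [nsmul_eq_mul, nsmul_eq_mul] at hord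
      exact hkey m1 m2 (by exact_mod_cast hord)

/-- [TT-D2b] Proof.  `curves_tot` with `multiple_cyclic`.  If the curve lies in a fibre over `t`, `f z l.castSucc = λ(z) t_l` (choose `l` with `t_l ≠ 0`,
`λ = f_l / t_l` is entire), and if `∏ a_i(f)` is not identically zero, then `λ` is not identically zero, `∏ a_i(t) ≠ 0` and
`w ^ e t_0 ^ (Q - e) = λ ^ e ∏ a_i(t)` where `λ ≠ 0`; so `t_0 ^ (Q - e) ≠ 0`, `(w / λ) ^ e` is constant, `w = c λ` with `c`
constant, and the curve is constant. -/
theorem cyclic_curves (k : ℕ) : ∃ N : ℕ, ∀ Q, N ≤ Q → ∀ a : Fin Q → Fin (k + 3) → ℂ,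
    AlgebraicIndependent ℚ (fun p : Fin Q × Fin (k + 3) => a p.1 p.2) →
    ∀ e : ℕ, 2 ≤ e → e ∣ Q → ∀ f : ℂ → Fin (k + 4) → ℂ, Differentiable ℂ f → (∀ z, f z ≠ 0) →
      (∀ z, f z (Fin.last (k + 3)) ^ e * f z 0 ^ (Q - e) =
        ∏ i, ∑ l : Fin (k + 3), a i l * f z l.castSucc) →
      (¬ ∀ z w, ∃ c : ℂ, f w = c • f z) →
      ∀ z, ∏ i, ∑ l : Fin (k + 3), a i l * f z l.castSucc = 0 := by
  obtain ⟨N, hN⟩ := curves_tot k
  refine ⟨max N 1, ?_⟩
  intro Q hQ a ha e he heQ f hf hf0 heq hnc
  have hQN : N ≤ Q := (le_max_left _ _).trans hQ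
  have hQ1 : 1 ≤ Q := (le_max_right _ _).trans hQ
  have ha0 : ∀ i, a i ≠ 0 := by
    intro i h
    have h1 := ha.ne_zero (i, (0 : Fin (k + 3)))
    apply h1
    show a i 0 = 0
    rw [h]
    rfl
  have hfc : ∀ j, Differentiable ℂ (fun z => f z j) := fun j => differentiable_pi.1 hf j
  have heval : ∀ x : Fin (k + 4) → ℂ, eval x (aeval (fun l : Fin (k + 3) =>
      (X l.castSucc : MvPolynomial (Fin (k + 4)) ℂ)) (∏ i, lin (a i))) =
      ∏ i, ∑ l : Fin (k + 3), a i l * x l.castSucc := by
    intro x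
    have h3 : aeval (fun l : Fin (k + 3) => (X l.castSucc : MvPolynomial (Fin (k + 4)) ℂ))
        (∏ i, lin (a i)) = rename Fin.castSucc (∏ i, lin (a i)) := by
      rw [rename_eq_aeval]
      rfl
    rw [h3, eval_rename, map_prod]
    refine Finset.prod_congr rfl fun i _ => ?_
    rw [eval_lin_dot]
    rfl
  have hmult := multiple_cyclic (n := k + 2) he heQ hQ1 a ha0
  have hcur := hN Q hQN a ha _ _ hmult f hf hf0 (by
    intro z p hp
    rw [Set.mem_singleton_iff] at hp
    rw [hp, map_sub, map_mul, map_pow, map_pow, eval_X, eval_X, sub_eq_zero, eval_rename,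
      map_prod]
    refine (heq z).trans ?_
    refine Finset.prod_congr rfl fun i _ => ?_
    rw [eval_lin_dot]
    rfl)
  rcases hcur with h | ⟨t, ht0, ht⟩
  · intro z
    rw [← heval]
    exact h z
  · by_contra hcon
    push Not at hcon
    obtain ⟨z1, hz1⟩ := hcon
    apply hnc
    obtain ⟨l, hl⟩ : ∃ l, t l ≠ 0 := by
      by_contra h
      push Not at h
      exact ht0 (funext h)
    set lam : ℂ → ℂ := fun z => f z l.castSucc / t l with hlam
    have hlamd : Differentiable ℂ lam := (hfc _).div_const _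
    have hfj : ∀ z (j : Fin (k + 3)), f z j.castSucc = lam z * t j := by
      intro z j
      have h1 := ht z (C (t l) * X j.castSucc - C (t j) * X l.castSucc) (Or.inr ⟨l, j, rfl⟩)
      rw [map_sub, map_mul, map_mul, eval_C, eval_C, eval_X, eval_X, sub_eq_zero] at h1
      rw [hlam]
      field_simp
      linear_combination h1
    set P : ℂ := ∏ i, ∑ l : Fin (k + 3), a i l * t l with hP
    have hprod : ∀ z, ∏ i, ∑ l : Fin (k + 3), a i l * f z l.castSucc = lam z ^ Q * P := by
      intro z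
      have h9 : ∏ _i : Fin Q, lam z = lam z ^ Q := by
        rw [Finset.prod_const, Finset.card_univ, Fintype.card_fin]
      rw [hP, ← h9, ← Finset.prod_mul_distrib]
      refine Finset.prod_congr rfl fun i _ => ?_
      rw [Finset.mul_sum]
      refine Finset.sum_congr rfl fun j _ => ?_
      rw [hfj z j]
      ring
    have heQ' : e ≤ Q := Nat.le_of_dvd hQ1 heQ
    rw [hprod] at hz1
    have hP0 : P ≠ 0 := right_ne_zero_of_mul hz1
    have hlz1 : lam z1 ≠ 0 := by
      intro h
      apply left_ne_zero_of_mul hz1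
      rw [h, zero_pow (by omega)]
    set w : ℂ → ℂ := fun z => f z (Fin.last (k + 3)) with hw
    have hwd : Differentiable ℂ w := hfc _
    have hmain : ∀ z, lam z ^ (Q - e) * (w z ^ e * t 0 ^ (Q - e) - lam z ^ e * P) = 0 := by
      intro z
      have h1 := heq z
      rw [hprod] at h1
      have h2 : f z 0 = lam z * t 0 := hfj z 0
      rw [h2] at h1
      have h3 : lam z ^ Q = lam z ^ (Q - e) * lam z ^ e := by
        rw [← pow_add]
        congr 1
        omega
      rw [h3, mul_pow] at h1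
      show lam z ^ (Q - e) * (f z (Fin.last (k + 3)) ^ e * t 0 ^ (Q - e) - lam z ^ e * P) = 0
      linear_combination h1
    have hall : ∀ z, w z ^ e * t 0 ^ (Q - e) - lam z ^ e * P = 0 := by
      set g : ℂ → ℂ := fun z => w z ^ e * t 0 ^ (Q - e) - lam z ^ e * P with hg
      have hgd : Differentiable ℂ g := ((hwd.pow e).mul_const _).sub ((hlamd.pow e).mul_const _)
      have h5 : AnalyticOnNhd ℂ g Set.univ := fun z _ => hgd.analyticAt z
      have h6 : AnalyticOnNhd ℂ (fun _ : ℂ => (0 : ℂ)) Set.univ := fun z _ => analyticAt_const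
      have h7 : g =ᶠ[nhds z1] fun _ => 0 := by
        filter_upwards [(hlamd.continuous.continuousAt).eventually_ne hlz1] with z hz
        exact (mul_eq_zero.1 (hmain z)).resolve_left (pow_ne_zero _ hz)
      have h8 := h5.eq_of_eventuallyEq h6 h7
      exact fun z => congrFun h8 z
    have ht00 : t 0 ^ (Q - e) ≠ 0 := by
      intro h
      have h1 := hall z1
      rw [h, mul_zero, zero_sub, neg_eq_zero] at h1
      exact mul_ne_zero (pow_ne_zero _ hlz1) hP0 h1
    have hlam0 : ∀ z, lam z ≠ 0 := by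
      intro z h
      have h1 := hall z
      rw [h, zero_pow (by omega), zero_mul, sub_zero] at h1
      have h2 : w z = 0 := by
        have h3 := (mul_eq_zero.1 h1).resolve_right ht00
        exact pow_eq_zero_iff (by omega) |>.1 h3
      apply hf0 z
      funext j
      refine Fin.lastCases ?_ (fun j => ?_) j
      · exact h2
      · rw [hfj z j, h, zero_mul]
        rfl
    set q : ℂ → ℂ := fun z => w z / lam z with hq
    have hqd : Differentiable ℂ q := hwd.div hlamd hlam0
    have hqe : ∀ z, q z ^ e = P / t 0 ^ (Q - e) := by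
      intro z
      have h1 := hall z
      have h2 := hlam0 z
      rw [hq]
      simp only
      rw [div_pow, div_eq_div_iff (pow_ne_zero _ h2) ht00]
      linear_combination h1
    have hq0 : ∀ z, q z ≠ 0 := by
      intro z h
      have h1 := hqe z
      rw [h, zero_pow (by omega)] at h1
      exact div_ne_zero hP0 ht00 h1.symm
    have hder : ∀ z, deriv q z = 0 := by
      intro z
      have h1 : HasDerivAt (fun z => q z ^ e) ((e : ℂ) * q z ^ (e - 1) * deriv q z) z :=
        (hqd z).hasDerivAt.fun_pow e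
      have h2 : (fun z => q z ^ e) = fun _ => P / t 0 ^ (Q - e) := funext hqe
      rw [h2] at h1
      have h3 := h1.unique (hasDerivAt_const z _)
      have he0 : (e : ℂ) ≠ 0 := by
        exact_mod_cast (show e ≠ 0 by omega)
      exact (mul_eq_zero.1 h3).resolve_left (mul_ne_zero he0 (pow_ne_zero _ (hq0 z)))
    have hconst : ∀ z z', q z = q z' := is_const_of_deriv_eq_zero hqd hder
    intro z z'
    refine ⟨lam z' / lam z, ?_⟩
    funext j
    rw [Pi.smul_apply, smul_eq_mul]
    refine Fin.lastCases ?_ (fun j => ?_) j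
    · have h1 := hconst z' z
      simp only [hq] at h1
      have h2 := hlam0 z
      have h3 := hlam0 z'
      show w z' = lam z' / lam z * w z
      rw [div_eq_div_iff h3 h2] at h1
      field_simp
      linear_combination h1
    · rw [hfj z j, hfj z' j]
      have h2 := hlam0 z
      field_simp

end Pool.Agent.TT
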