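import Mathlib

/-! Definitions for the second main theorem with total truncation: polynomials in the jets of a
curve, in `x` and in the vectors `g_j`, and their derivation. -/

set_option autoImplicit false

namespace Pool.Agent.TT
open MvPolynomial

/-- indices of the jets: `(j, i)` stands for the derivative of order `i + 1` of the `j`-th function -/
abbrev YV (n : ℕ) : Type := Fin n × ℕ

/-- indices of the coordinates of the vectors `g_1, …, g_n` -/
abbrev GV (n : ℕ) : Type := Fin n × Fin (n + 1)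

/-- indices of all variables: the jets, the coordinates of `x`, the coordinates of the `g_j` -/
abbrev Vr (n : ℕ) : Type := YV n ⊕ (Fin (n + 1) ⊕ GV n)

/-- the values of the variables -/
def ev {n : ℕ} (y : YV n → ℂ) (x : Fin (n + 1) → ℂ) (g : GV n → ℂ) : Vr n → ℂ :=
  Sum.elim y (Sum.elim x g)

/-- the values of the `g_j` at the end: `g_j` is the `j`-th basis vector -/
def one (n : ℕ) : GV n → ℂ := fun p => if p.2 = p.1.succ then 1 else 0

/-- images of the variables under the derivation -/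
noncomputable def dvar (n : ℕ) : Vr n → MvPolynomial (Vr n) ℂ
  | Sum.inl v => X (Sum.inl (v.1, v.2 + 1))
  | Sum.inr (Sum.inl l) => ∑ j, X (Sum.inl (j, 0)) * X (Sum.inr (Sum.inr (j, l)))
  | Sum.inr (Sum.inr _) => 0

/-- the derivation `y_{j,i} ↦ y_{j,i+1}`, `x_l ↦ ∑ y_{j,0} g_{j,l}`, `g_{j,l} ↦ 0` -/
noncomputable def dd (n : ℕ) : Derivation ℂ (MvPolynomial (Vr n) ℂ) (MvPolynomial (Vr n) ℂ) :=
  mkDerivation ℂ (dvar n)

/-- the weight of a monomial in the jets (`y_{j,i}` has weight `i + 1`) -/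
noncomputable def wY {n : ℕ} : (YV n →₀ ℕ) →+ ℕ := Finsupp.weight fun v : YV n => v.2 + 1

/-- the weight in the jets of a monomial in all variables -/
noncomputable def wt {n : ℕ} : (Vr n →₀ ℕ) →+ ℕ :=
  Finsupp.weight (Sum.elim (fun v : YV n => v.2 + 1) fun _ => 0)

/-- weight at most `ω`, degree in `x` at most `A` -/
def Bd {n : ℕ} (ω A : ℕ) (G : MvPolynomial (Vr n) ℂ) : Prop :=
  ∀ m ∈ G.support, wt m ≤ ω ∧ ∑ l, m (Sum.inr (Sum.inl l)) ≤ A

/-- weight at most `ω`, exponents of the `x_l` below `A`, exponents of the `g_{j,l}` below `B` -/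
def Bx {n : ℕ} (ω A B : ℕ) (G : MvPolynomial (Vr n) ℂ) : Prop :=
  ∀ m ∈ G.support, wt m ≤ ω ∧ (∀ l, m (Sum.inr (Sum.inl l)) < A) ∧ ∀ p, m (Sum.inr (Sum.inr p)) < B

/-- The first `c` derivatives of `G` vanish for the jets `y z`, all `g` and all `x` in the
intersection of two members of the family `b`. -/
def Van {n : ℕ} {Ω ι : Type} (c : ℕ) (y : Ω → YV n → ℂ) (b : ι → Fin (n + 1) → ℂ)
    (G : MvPolynomial (Vr n) ℂ) : Prop :=
  ∀ a < c, ∀ i j : ι, i ≠ j → ∀ (z : Ω) (x : Fin (n + 1) → ℂ) (g : GV n → ℂ),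
    ∑ l, b i l * x l = 0 → ∑ l, b j l * x l = 0 → eval (ev (y z) x g) ((⇑(dd n))^[a] G) = 0

/-- monomials in the jets of weight at most `ω` -/
def YM (n ω : ℕ) : Set (YV n →₀ ℕ) := {m | wY m ≤ ω}

/-- the span of the monomials of weight at most `ω` in the jets `y z`, as functions of `z` -/
noncomputable def U {n : ℕ} {Ω : Type} (y : Ω → YV n → ℂ) (ω : ℕ) : Submodule ℂ (Ω → ℂ) :=
  Submodule.span ℂ ((fun (m : YV n →₀ ℕ) (z : Ω) => m.prod fun v e => y z v ^ e) '' YM n ω)

/-- the automorphism `σ` maps the linear relations between the monomials of weight at most `W` in the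
jets to such relations -/
def Stab {n : ℕ} {Ω : Type} (y : Ω → YV n → ℂ) (W : ℕ) (σ : ℂ ≃+* ℂ) : Prop :=
  ∀ P : MvPolynomial (YV n) ℂ, (∀ m ∈ P.support, wY m ≤ W) → (∀ z, eval (y z) P = 0) →
    ∀ z, eval (y z) (map (σ : ℂ →+* ℂ) P) = 0

/-- if two polynomials in the jets do not vanish identically, there is a common point where they do
not vanish -/
def Irr {n : ℕ} {Ω : Type} (y : Ω → YV n → ℂ) : Prop :=
  ∀ P Q : MvPolynomial (YV n) ℂ, (∃ z, eval (y z) P ≠ 0) → (∃ z, eval (y z) Q ≠ 0) →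
    ∃ z, eval (y z) P ≠ 0 ∧ eval (y z) Q ≠ 0

/-- the substitution `x ↦ h x`, `g_j ↦ h g_j` -/
noncomputable def sbh {n : ℕ} (h : Matrix (Fin (n + 1)) (Fin (n + 1)) ℂ) :
    MvPolynomial (Vr n) ℂ →ₐ[ℂ] MvPolynomial (Vr n) ℂ :=
  aeval (Sum.elim (fun v => X (Sum.inl v))
    (Sum.elim (fun l => ∑ l', C (h l l') * X (Sum.inr (Sum.inl l')))
      (fun p => ∑ l', C (h p.2 l') * X (Sum.inr (Sum.inr (p.1, l'))))))

/-- a constant depending on the dimension `k + 2` -/
def kap (k : ℕ) : ℕ := 2 ^ ((k + 2) * (k + 3) + 1) * (k + 3) ^ (k + 2)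

/-- the bound of the exponents of `x`, for `Q` hyperplanes of `ℙ^(k+2)` and order `K ^ 2` -/
def bA (k K Q : ℕ) : ℕ := kap k * K * (Q + 1)

/-- the bound of the degree in `x` -/
def dA (k K Q : ℕ) : ℕ := (k + 3) * bA k K Q

end Pool.Agent.TT
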