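import Pool.Agent.Lib_MP_b9fedf_tt.Defs
import Pool.Agent.Lib_MP_b9fedf_og.Defs

/-! Definitions for the passage from very general to general families. -/

set_option autoImplicit false

namespace Pool.Agent.TT
open MvPolynomial

/-- weight at most `ω`, degree in `x` at most `A`, degree in the `g_j` at most `B` -/
def Bd3 {n : ℕ} (ω A B : ℕ) (G : MvPolynomial (Vr n) ℂ) : Prop :=
  ∀ m ∈ G.support, wt m ≤ ω ∧ ∑ l, m (Sum.inr (Sum.inl l)) ≤ A ∧ ∑ p, m (Sum.inr (Sum.inr p)) ≤ B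

/-- the monomials with these bounds -/
def MB (n ω A B : ℕ) : Set (Vr n →₀ ℕ) :=
  {m | wt m ≤ ω ∧ ∑ l, m (Sum.inr (Sum.inl l)) ≤ A ∧ ∑ p, m (Sum.inr (Sum.inr p)) ≤ B}

/-- jets of order less than `W`, the others replaced by `0` -/
def trunc {n : ℕ} (W : ℕ) (y : YV n → ℂ) : YV n → ℂ := fun v => if v.2 < W then y v else 0

/-- a vector orthogonal to `u` and `v`, given by any numbers `μ (l, p, q)` (antisymmetrised) -/
def xx {m : ℕ} (u v : Fin m → ℂ) (μ : Fin m × Fin m × Fin m → ℂ) (l : Fin m) : ℂ :=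
  ∑ p, ∑ q, (μ (l, p, q) - μ (p, l, q) - μ (l, q, p) - μ (q, p, l) + μ (p, q, l) + μ (q, l, p)) *
    (u p * v q)

/-- polynomial functions of `a` and `w` with rational coefficients -/
def PF {E W : Type} (F : (E → ℂ) → (W → ℂ) → ℂ) : Prop :=
  ∃ Ψ : MvPolynomial W (MvPolynomial E ℚ), ∀ a w, OG.ev a w Ψ = F a w

/-- the algebraic condition on the family `a` of hyperplanes of `ℙ^(k+2)` which is used in the second
main theorem with total truncation -/
def AlgC (k K ω0 N1 : ℕ) {Q : ℕ} (a : Fin Q → Fin (k + 3) → ℂ) : Prop :=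
  ∀ {Ω : Type} [Nonempty Ω] (y : Ω → YV (k + 2) → ℂ) (f : Ω → Fin (k + 3) → ℂ),
    (∀ z, f z 0 = 1) → Irr y →
    ∃ ω ≤ ω0, ∃ (R : Finset (Fin Q)) (z0 : Ω) (G : MvPolynomial (Vr (k + 2)) ℂ),
      R.card ≤ N1 ∧ Bd ω (dA k K Q) G ∧ Van (K ^ 2) y (fun i : {i // i ∉ R} => a i) G ∧
      eval (ev (y z0) (f z0) (one (k + 2))) G ≠ 0

end Pool.Agent.TT
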