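import Pool.Agent.Lib_MP_b9fedf_tt.Defs
import Pool.Agent.Lib_MP_b9fedf_ag.TanKey

/-! Clearing of the denominators of a polynomial in the jets, and its size on good circles. -/

set_option autoImplicit false

namespace Pool.Agent.TT
open MvPolynomial Metric Real Set
open Pool.Agent.GGL

/-- the jets of the quotients `F_j / F_0` -/
noncomputable def jetD {n : ℕ} (F : ℂ → Fin (n + 1) → ℂ) (z : ℂ) : YV n → ℂ := fun v =>
  iteratedDeriv (v.2 + 1) (fun w => F w v.1.succ / F w 0) z

/-- `F_0 ^ (i + 1)` times the derivative of order `i` of `f / F_0` -/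
noncomputable def clr (u f : ℂ → ℂ) : ℕ → ℂ → ℂ
  | 0 => f
  | i + 1 => fun z => u z * deriv (clr u f i) z - ((i : ℂ) + 1) * deriv u z * clr u f i z

theorem clr_diff {u f : ℂ → ℂ} (hu : Differentiable ℂ u) (hf : Differentiable ℂ f) (i : ℕ) :
    Differentiable ℂ (clr u f i) := by
  induction i with
  | zero => exact hf
  | succ i ih =>
    have h1 : Differentiable ℂ (deriv (clr u f i)) := fun z =>
      ((ih.analyticAt z).deriv).differentiableAt
    have h2 : Differentiable ℂ (deriv u) := fun z => ((hu.analyticAt z).deriv).differentiableAt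
    exact (hu.mul h1).sub ((h2.const_mul _).mul ih)

theorem clr_eq {u f : ℂ → ℂ} (hu : Differentiable ℂ u) (hf : Differentiable ℂ f) (i : ℕ) {z : ℂ}
    (hz : u z ≠ 0) :
    clr u f i z = u z ^ (i + 1) * iteratedDeriv i (fun w => f w / u w) z := by
  have key : ∀ i : ℕ, ∀ᶠ w in nhds z, iteratedDeriv i (fun w => f w / u w) w =
      clr u f i w / u w ^ (i + 1) := by
    intro i
    have hne : ∀ᶠ w in nhds z, u w ≠ 0 := (hu.continuous.continuousAt).eventually_ne hz
    induction i with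
    | zero =>
      filter_upwards with w
      simp [clr]
    | succ i ih =>
      have h1 := ih.eventually_nhds
      filter_upwards [h1, hne] with w hw hw0
      rw [iteratedDeriv_succ, Filter.EventuallyEq.deriv_eq hw]
      have h2 : HasDerivAt (clr u f i) (deriv (clr u f i) w) w :=
        (clr_diff hu hf i w).hasDerivAt
      have h3 : HasDerivAt (fun w => u w ^ (i + 1)) (((i + 1 : ℕ) : ℂ) * u w ^ i * deriv u w) w := by
        have := (hu w).hasDerivAt.fun_pow (i + 1)
        simpa using this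
      rw [(h2.fun_div h3 (pow_ne_zero _ hw0)).deriv]
      simp only [clr]
      field_simp
      push_cast
      ring
  have h := (key i).self_of_nhds
  rw [h]
  field_simp

/-- the exponent of `F_0` needed by a variable -/
def exV {n : ℕ} : Vr n → ℕ := Sum.elim (fun v => v.2 + 2) (Sum.elim (fun _ => 1) fun _ => 0)

/-- the degree in the jets and in `x` of a variable -/
def dgV {n : ℕ} : Vr n → ℕ := Sum.elim (fun _ => 1) (Sum.elim (fun _ => 1) fun _ => 0)

private theorem wx_eq {n : ℕ} (m : Vr n →₀ ℕ) :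
    Finsupp.weight (Sum.elim (fun _ => 0) (Sum.elim (fun _ => 1) fun _ => 0) : Vr n → ℕ) m =
      ∑ l, m (Sum.inr (Sum.inl l)) := by
  classical
  induction m using Finsupp.induction_linear with
  | zero => simp
  | add f g hf hg =>
    rw [map_add, hf, hg, ← Finset.sum_add_distrib]
    rfl
  | single v e =>
    rw [Finsupp.weight_apply, Finsupp.sum_single_index (by simp)]
    rcases v with v | l | p
    · simp
    · simp only [Sum.elim_inr, Sum.elim_inl, smul_eq_mul, mul_one]
      rw [Finset.sum_eq_single l]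
      · simp
      · intro b _ hb
        rw [Finsupp.single_apply, if_neg]
        intro h
        exact hb (Sum.inl_injective (Sum.inr_injective h)).symm
      · intro h
        exact absurd (Finset.mem_univ l) h
    · simp

private theorem ex_le {n ω A : ℕ} {m : Vr n →₀ ℕ} (h1 : wt m ≤ ω)
    (h2 : ∑ l, m (Sum.inr (Sum.inl l)) ≤ A) : m.sum (fun v e => e * exV v) ≤ A + 2 * ω := by
  rw [← wx_eq] at h2
  rw [wt, Finsupp.weight_apply] at h1
  rw [Finsupp.weight_apply] at h2
  have h3 : m.sum (fun v e => e * exV v) ≤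
      m.sum (fun v e => e • (Sum.elim (fun _ => 0) (Sum.elim (fun _ => 1) fun _ => 0) : Vr n → ℕ) v) +
      2 * m.sum (fun v e => e • (Sum.elim (fun v : YV n => v.2 + 1) fun _ => 0 : Vr n → ℕ) v) := by
    rw [Finsupp.sum, Finsupp.sum, Finsupp.sum, Finset.mul_sum, ← Finset.sum_add_distrib]
    refine Finset.sum_le_sum fun v _ => ?_
    rcases v with v | l | p
    · simp only [exV, Sum.elim_inl, smul_eq_mul, mul_zero, zero_add]
      nlinarith [Nat.zero_le (m (Sum.inl v))]
    · simp [exV]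
    · simp [exV]
  exact h3.trans (add_le_add h2 (Nat.mul_le_mul_left 2 h1))

private theorem dg_le {n ω A : ℕ} {m : Vr n →₀ ℕ} (h1 : wt m ≤ ω)
    (h2 : ∑ l, m (Sum.inr (Sum.inl l)) ≤ A) : m.sum (fun v e => e * dgV v) ≤ A + 2 * ω := by
  refine le_trans ?_ (ex_le h1 h2)
  rw [Finsupp.sum, Finsupp.sum]
  refine Finset.sum_le_sum fun v _ => Nat.mul_le_mul_left _ ?_
  rcases v with v | l | p
  · simp [exV, dgV]
  · simp [exV, dgV]
  · simp [exV, dgV]

/-- the entire functions `F_0 ^ ex` times the values of the variables -/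
noncomputable def facV {n : ℕ} (F : ℂ → Fin (n + 1) → ℂ) (z : ℂ) : Vr n → ℂ :=
  Sum.elim (fun v => clr (fun w => F w 0) (fun w => F w v.1.succ) (v.2 + 1) z)
    (Sum.elim (fun l => F z l) (one n))

private theorem fac_diff {n : ℕ} {F : ℂ → Fin (n + 1) → ℂ} (hF : Differentiable ℂ F) (v : Vr n) :
    Differentiable ℂ (fun z => facV F z v) := by
  have h : ∀ l, Differentiable ℂ (fun z => F z l) := fun l => differentiable_pi.1 hF l
  rcases v with v | l | p
  · exact clr_diff (h 0) (h _) _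
  · exact h l
  · exact differentiable_const _

private theorem fac_eq {n : ℕ} {F : ℂ → Fin (n + 1) → ℂ} (hF : Differentiable ℂ F) {z : ℂ}
    (hz : F z 0 ≠ 0) (v : Vr n) :
    facV F z v = F z 0 ^ exV v * ev (jetD F z) (fun l => F z l / F z 0) (one n) v := by
  have h : ∀ l, Differentiable ℂ (fun z => F z l) := fun l => differentiable_pi.1 hF l
  rcases v with v | l | p
  · exact clr_eq (h 0) (h _) _ hz
  · simp only [facV, exV, ev, Sum.elim_inr, Sum.elim_inl, pow_one]
    field_simp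
  · simp [facV, exV, ev]

/-- the clearing of the denominators -/
noncomputable def psiD {n : ℕ} (F : ℂ → Fin (n + 1) → ℂ) (N : ℕ) (G : MvPolynomial (Vr n) ℂ)
    (z : ℂ) : ℂ :=
  ∑ m ∈ G.support, coeff m G * (F z 0 ^ (N - m.sum fun v e => e * exV v) *
    ∏ v ∈ m.support, facV F z v ^ m v)

theorem psiD_diff {n : ℕ} {F : ℂ → Fin (n + 1) → ℂ} (hF : Differentiable ℂ F) (N : ℕ)
    (G : MvPolynomial (Vr n) ℂ) : Differentiable ℂ (psiD F N G) := by
  have h : ∀ l, Differentiable ℂ (fun z => F z l) := fun l => differentiable_pi.1 hF l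
  refine Differentiable.fun_sum fun m _ => ((h 0).pow _ |>.mul ?_).const_mul _
  exact Differentiable.fun_finsetProd fun v _ => (fac_diff hF v).pow _

theorem psiD_eq {n ω A : ℕ} {F : ℂ → Fin (n + 1) → ℂ} (hF : Differentiable ℂ F)
    {G : MvPolynomial (Vr n) ℂ} (hG : Bd ω A G) {z : ℂ} (hz : F z 0 ≠ 0) :
    psiD F (A + 2 * ω) G z = F z 0 ^ (A + 2 * ω) *
      eval (ev (jetD F z) (fun l => F z l / F z 0) (one n)) G := by
  rw [psiD, eval_eq, Finset.mul_sum]
  refine Finset.sum_congr rfl fun m hm => ?_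
  have h1 := ex_le (hG m hm).1 (hG m hm).2
  have h2 : ∏ v ∈ m.support, facV F z v ^ m v = F z 0 ^ (m.sum fun v e => e * exV v) *
      ∏ v ∈ m.support, ev (jetD F z) (fun l => F z l / F z 0) (one n) v ^ m v := by
    rw [Finsupp.sum, ← Finset.prod_pow_eq_pow_sum, ← Finset.prod_mul_distrib]
    refine Finset.prod_congr rfl fun v _ => ?_
    rw [fac_eq hF hz v, mul_pow, ← pow_mul, mul_comm (exV v)]
  rw [h2]
  have h3 : F z 0 ^ (A + 2 * ω) = F z 0 ^ (A + 2 * ω - m.sum fun v e => e * exV v) *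
      F z 0 ^ (m.sum fun v e => e * exV v) := by
    rw [← pow_add]
    congr 1
    omega
  rw [h3]
  ring

/-- the constants of the variables -/
noncomputable def csV {n : ℕ} : Vr n → ℝ :=
  Sum.elim (fun v => Real.exp 1 * (v.2 + 1).factorial) fun _ => 1

private theorem cs_pos {n : ℕ} (v : Vr n) : 0 < csV v := by
  rcases v with v | l
  · simp only [csV, Sum.elim_inl]; positivity
  · simp [csV]

theorem psiD_le {n ω A : ℕ} {F : ℂ → Fin (n + 1) → ℂ} (hF : Differentiable ℂ F)
    {G : MvPolynomial (Vr n) ℂ} (hG : Bd ω A G) :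
    ∃ C : ℝ, 1 ≤ C ∧ ∀ (z : ℂ) (B : ℝ), 1 ≤ B → F z 0 ≠ 0 →
      (∀ j, Good (fun w => F w j / F w 0) B z) →
      ‖psiD F (A + 2 * ω) G z‖ ≤ C * B ^ ω * ‖F z‖ ^ (A + 2 * ω) := by
  have hFl : ∀ l, Differentiable ℂ (fun z => F z l) := fun l => differentiable_pi.1 hF l
  refine ⟨1 + ∑ m ∈ G.support, ‖coeff m G‖ * ∏ v ∈ m.support, csV v ^ m v, ?_, ?_⟩
  · have : 0 ≤ ∑ m ∈ G.support, ‖coeff m G‖ * ∏ v ∈ m.support, csV v ^ m v :=
      Finset.sum_nonneg fun m _ => mul_nonneg (norm_nonneg _)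
        (Finset.prod_nonneg fun v _ => pow_nonneg (cs_pos v).le _)
    linarith
  intro z B hB hz hgood
  have hz0 : 0 < ‖F z 0‖ := norm_pos_iff.2 hz
  have hB0 : (0 : ℝ) < B := by linarith
  set R : ℝ := ‖F z‖ / ‖F z 0‖ with hR
  have hR1 : 1 ≤ R := by
    rw [hR, one_le_div hz0]
    exact norm_le_pi_norm (F z) 0
  have hR0 : 0 < R := by linarith
  have hq : ∀ l, ‖F z l / F z 0‖ ≤ R := by
    intro l
    rw [norm_div, hR]
    gcongr
    exact norm_le_pi_norm (F z) l
  -- the bound of the values of the variables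
  have hvar : ∀ v : Vr n, ‖ev (jetD F z) (fun l => F z l / F z 0) (one n) v‖ ≤
      csV v * B ^ (Sum.elim (fun v : YV n => v.2 + 1) (fun _ => 0) v : ℕ) * R ^ dgV v := by
    intro v
    rcases v with v | l | p
    · simp only [ev, Sum.elim_inl, jetD, csV, dgV, pow_one]
      have h1 := hgood v.1.succ ?_ (v.2 + 1)
      · refine h1.trans ?_
        exact mul_le_mul_of_nonneg_left (hq v.1.succ) (by positivity)
      · exact ((hFl _).analyticAt z).div ((hFl 0).analyticAt z) hz
    · simp only [ev, Sum.elim_inr, Sum.elim_inl, csV, dgV, pow_one, pow_zero, one_mul]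
      exact hq l
    · simp only [ev, Sum.elim_inr, csV, dgV, pow_zero, one_mul, one]
      split_ifs <;> simp
  rw [psiD_eq hF hG hz, eval_eq, norm_mul, norm_pow]
  have hterm : ∀ m ∈ G.support, ‖coeff m G *
      ∏ v ∈ m.support, ev (jetD F z) (fun l => F z l / F z 0) (one n) v ^ m v‖ ≤
      (‖coeff m G‖ * ∏ v ∈ m.support, csV v ^ m v) * (B ^ ω * R ^ (A + 2 * ω)) := by
    intro m hm
    rw [norm_mul, norm_prod, mul_assoc]
    refine mul_le_mul_of_nonneg_left ?_ (norm_nonneg _)
    have h1 : ∏ v ∈ m.support, ‖ev (jetD F z) (fun l => F z l / F z 0) (one n) v ^ m v‖ ≤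
        ∏ v ∈ m.support, (csV v * B ^ (Sum.elim (fun v : YV n => v.2 + 1) (fun _ => 0) v : ℕ) *
          R ^ dgV v) ^ m v := by
      refine Finset.prod_le_prod (fun v _ => norm_nonneg _) fun v _ => ?_
      rw [norm_pow]
      exact pow_le_pow_left₀ (norm_nonneg _) (hvar v) _
    refine h1.trans ?_
    have h2 : ∏ v ∈ m.support, (csV v *
        B ^ (Sum.elim (fun v : YV n => v.2 + 1) (fun _ => 0) v : ℕ) * R ^ dgV v) ^ m v =
        (∏ v ∈ m.support, csV v ^ m v) * (B ^ wt m * R ^ (m.sum fun v e => e * dgV v)) := by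
      rw [wt, Finsupp.weight_apply, Finsupp.sum, Finsupp.sum, ← Finset.prod_pow_eq_pow_sum,
        ← Finset.prod_pow_eq_pow_sum, ← Finset.prod_mul_distrib, ← Finset.prod_mul_distrib]
      refine Finset.prod_congr rfl fun v _ => ?_
      rw [mul_pow, mul_pow, ← pow_mul, ← pow_mul, smul_eq_mul, mul_comm (dgV v),
        mul_comm _ (m v), mul_assoc]
    rw [h2]
    refine mul_le_mul_of_nonneg_left ?_
      (Finset.prod_nonneg fun v _ => pow_nonneg (cs_pos v).le _)
    exact mul_le_mul (pow_le_pow_right₀ hB (hG m hm).1)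
      (pow_le_pow_right₀ hR1 (dg_le (hG m hm).1 (hG m hm).2)) (by positivity) (by positivity)
  have hsum := (norm_sum_le _ _).trans (Finset.sum_le_sum hterm)
  rw [← Finset.sum_mul] at hsum
  have h3 : ‖F z 0‖ ^ (A + 2 * ω) * R ^ (A + 2 * ω) = ‖F z‖ ^ (A + 2 * ω) := by
    rw [← mul_pow, hR, mul_div_cancel₀ _ hz0.ne']
  set S := ∑ m ∈ G.support, ‖coeff m G‖ * ∏ v ∈ m.support, csV v ^ m v with hS
  calc ‖F z 0‖ ^ (A + 2 * ω) * ‖∑ m ∈ G.support, coeff m G *
        ∏ v ∈ m.support, ev (jetD F z) (fun l => F z l / F z 0) (one n) v ^ m v‖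
      ≤ ‖F z 0‖ ^ (A + 2 * ω) * (S * (B ^ ω * R ^ (A + 2 * ω))) :=
        mul_le_mul_of_nonneg_left hsum (by positivity)
    _ = S * B ^ ω * (‖F z 0‖ ^ (A + 2 * ω) * R ^ (A + 2 * ω)) := by ring
    _ = S * B ^ ω * ‖F z‖ ^ (A + 2 * ω) := by rw [h3]
    _ ≤ (1 + S) * B ^ ω * ‖F z‖ ^ (A + 2 * ω) := by
        have : 0 ≤ B ^ ω * ‖F z‖ ^ (A + 2 * ω) := by positivity
        nlinarith

end Pool.Agent.TT
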