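import Pool.Agent.Lib_MP_1209e6_ag.Gauss
import Pool.Agent.Lib_MP_1209e6_ag.Regular
import Pool.Agent.Lib_MP_1209e6_ag.Rational
import Pool.Agent.Lib_MP_1209e6_ag.ToricField
import Pool.Agent.Lib_MP_1209e6_ag.Embed
import Pool.Agent.Lib_MP_1209e6_ag.Brody
import Pool.Agent.Lib_MP_1209e6_ag.ExpToricA
import Pool.Agent.Lib_MP_1209e6_ag.ExpToricB
import Pool.Agent.Lib_MP_1209e6_ag.Exist

/-!
# Campana's conjecture for all Fermat covers of large degree

Let `Y ⊆ ℙⁿ` be any complex projective variety. For all sufficiently large `d`, every irreducible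
component `X` of the Fermat cover `{[x] : [x_0 ^ d : … : x_n ^ d] ∈ Y}` is special if and only if it
is Brody-special.

The other definitions (special function fields, Brody-special varieties, Fermat covers) are in
`Pool.Agent.Lib_MP_1209e6_ag.Defs`.

Sketch of the proof. If `X` is Brody-special and `d` is large, then `X` is the closure of an
exponential curve, hence of a torus orbit; its function field is purely transcendental and `X` is
special. Conversely, let `η_i = x_i / x_j` be the ratios on `Y`. If some multiplicatively independent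
family of monomials in `η` is algebraically dependent, a minimal one `a_0, …, a_p` satisfies
`dlog a_0 = ∑ c_j dlog a_j` with `c_1, …, c_p` algebraically independent and all `a_j` algebraic over
`ℂ(c)`. On the Fermat cover of large degree `dlog a_1 ∧ … ∧ dlog a_p` generates a rank one subsheaf of
the `p`-forms of Kodaira dimension at least `p`: the sections are `φ, φ c_1, …, φ c_p`. So if `X` is
special, then the ratios generate a toric field, and `X` contains a dense exponential curve.
-/

set_option autoImplicit false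

open Pool.Agent.Campana

namespace Pool.Agent.Results.MP_1209e6_ag.FermatCovers

/-- Reindexed version of `toric_lift`. -/
theorem toric_transfer {E K ι ι' : Type} [Field E] [Algebra ℂ E] [Field K] [Algebra ℂ K]
    [Fintype ι] [Fintype ι'] (ψ : E →ₐ[ℂ] K) (η : ι' → E) (e : ι ≃ ι') (ξ : ι → K)
    (hξ : ∀ i, ξ i ≠ 0) (d : ℕ) (hd : 1 ≤ d) (h : ∀ i, ψ (η (e i)) = ξ i ^ d)
    (hη : ToricGen η) : ToricGen ξ := by
  have h1 : ToricGen (fun i => η (e i)) := by
    intro r w hw
    have h2 : ∀ j, mono (fun i => η (e i)) (w j) = mono η (fun i => w j (e.symm i)) := by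
      intro j
      unfold mono
      rw [← Equiv.prod_comp e]
      apply Finset.prod_congr rfl
      intro i _
      simp only [Equiv.symm_apply_apply]
    simp only [h2] at hw ⊢
    exact hη r _ hw
  exact toric_lift ψ (fun i => η (e i)) ξ hξ d hd h h1

/-- The algebraic half. -/
theorem exists_bound {E ι : Type} [Field E] [Algebra ℂ E] [Fintype ι] (η : ι → E)
    (hη : ∀ i, η i ≠ 0) : ∃ m : ℕ, ¬ ToricGen η → ∀ d, m ≤ d → ∀ (K : Type) [Field K] [Algebra ℂ K]
      (ψ : E →ₐ[ℂ] K), (∀ i, ∃ b : K, b ^ d = ψ (η i)) → ¬ SpecialField K := by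
  by_cases h : ToricGen η
  · exact ⟨0, fun h' => absurd h h'⟩
  · obtain ⟨p, w, c, hp, h1, h2, h3, h4⟩ := gauss η hη h
    have hmono : ∀ j, mono η (w j) ≠ 0 := fun j =>
      Finset.prod_ne_zero_iff.mpr fun i _ => zpow_ne_zero _ (hη i)
    obtain ⟨m, hm⟩ := regular_sections hp (fun j => mono η (w j)) hmono c h1 h2 h3 h4
    refine ⟨m, fun _ d hd K _ _ ψ hb => hm d hd K ψ fun j => ?_⟩
    choose b hb using hb
    refine ⟨∏ i, b i ^ w j i, ?_⟩
    simp only [mono, map_prod, map_zpow₀, ← hb]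
    rw [← Finset.prod_pow]
    apply Finset.prod_congr rfl
    intro i _
    rw [← zpow_natCast, ← zpow_natCast, ← zpow_mul, ← zpow_mul, mul_comm]

theorem ratio_ne_zero {n : ℕ} (P : Ideal (MvPolynomial (Fin (n + 1)) ℂ)) [P.IsPrime]
    (i j : Fin (n + 1)) (hi : MvPolynomial.X i ∉ P) (hj : MvPolynomial.X j ∉ P) :
    ratio P i j ≠ 0 := by
  intro h
  have h1 : coord P i / coord P j = 0 := congrArg Subtype.val h
  have h2 : ∀ i, MvPolynomial.X i ∉ P → coord P i ≠ 0 := by
    intro i hi h
    rw [coord, map_eq_zero_iff _ (IsFractionRing.injective _ _)] at h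
    exact hi (Ideal.Quotient.eq_zero_iff_mem.mp h)
  exact (div_ne_zero (h2 i hi) (h2 j hj)) h1

theorem special_of_toricGen {K ι : Type} [Field K] [Algebra ℂ K] [Fintype ι] (η : ι → K)
    (hη : ∀ i, η i ≠ 0) (hgen : IntermediateField.adjoin ℂ (Set.range η) = ⊤)
    (h : ToricGen η) : SpecialField K := by
  obtain ⟨k, s, hs, _, hgen, _⟩ := rational_of_toric η hη hgen h
  exact special_of_rational s hs hgen

open Classical in
theorem brody_imp {n : ℕ} (P : Ideal (MvPolynomial (Fin (n + 1)) ℂ)) [P.IsPrime]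
    (j₀ : Fin (n + 1)) (hj₀ : MvPolynomial.X j₀ ∉ P) (h : ExpDense P) :
    SpecialField (FunField P) := by
  have h1 := toric_of_expDense P j₀ hj₀ h
  have h2 := adjoin_ratio P j₀ hj₀
  have h3 : ∀ i : {i // MvPolynomial.X (R := ℂ) i ∉ P}, ratio P i.1 j₀ ≠ 0 :=
    fun i => ratio_ne_zero P i.1 j₀ i.2 hj₀
  exact special_of_toricGen (fun i : {i // MvPolynomial.X (R := ℂ) i ∉ P} => ratio P i.1 j₀)
    h3 h2 h1

open Classical in
theorem special_imp {n : ℕ} (Q : Ideal (MvPolynomial (Fin (n + 1)) ℂ)) [Q.IsPrime]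
    (j₀ : Fin (n + 1)) (hj₀ : MvPolynomial.X j₀ ∉ Q) :
    ∃ m : ℕ, ∀ d, m ≤ d → 1 ≤ d → ∀ (P : Ideal (MvPolynomial (Fin (n + 1)) ℂ)) [P.IsPrime],
      FermatOver d Q P → SpecialField (FunField P) → ExpDense P := by
  obtain ⟨m, hm⟩ := exists_bound
    (fun i : {i // MvPolynomial.X (R := ℂ) i ∉ Q} => ratio Q i.1 j₀)
    (fun i => ratio_ne_zero Q i.1 j₀ i.2 hj₀)
  refine ⟨m, fun d hd hd1 P _ hPQ hsp => ?_⟩
  have hmem : ∀ i, MvPolynomial.X (R := ℂ) i ∉ P ↔ MvPolynomial.X i ∉ Q := by
    intro i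
    rw [hPQ (MvPolynomial.X i), MvPolynomial.expand_X]
    constructor
    · intro h h'
      exact h (Ideal.IsPrime.mem_of_pow_mem inferInstance _ h')
    · intro h h'
      exact h (Ideal.pow_mem_of_mem P h' d (by omega))
  have hj₀' : MvPolynomial.X j₀ ∉ P := (hmem j₀).mpr hj₀
  obtain ⟨ψ, hψ⟩ := exists_embedding hd1 Q P hPQ
  have htor : ToricGen (fun i : {i // MvPolynomial.X (R := ℂ) i ∉ Q} => ratio Q i.1 j₀) := by
    by_contra h
    refine hm h d hd (FunField P) ψ (fun i => ?_) hsp
    exact ⟨ratio P i.1 j₀, (hψ i.1 j₀).symm⟩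
  apply expDense_of_toric P j₀ hj₀'
  refine toric_transfer ψ _ (Equiv.subtypeEquivRight hmem) _ ?_ d hd1 ?_ htor
  · exact fun i => ratio_ne_zero P i.1 j₀ i.2 hj₀'
  · exact fun i => hψ i.1 j₀

/-- The function field of the projective variety with homogeneous prime ideal `P`: the field
generated by the quotients `x_i / x_j` in the fraction field of the coordinate ring. -/
noncomputable abbrev functionField {n : ℕ} (P : Ideal (MvPolynomial (Fin (n + 1)) ℂ)) [P.IsPrime] :
    IntermediateField ℂ (FractionRing (MvPolynomial (Fin (n + 1)) ℂ ⧸ P)) :=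
  IntermediateField.adjoin ℂ
    (Set.range fun ij : Fin (n + 1) × Fin (n + 1) => coord P ij.1 / coord P ij.2)

theorem special_iff {n : ℕ} (P : Ideal (MvPolynomial (Fin (n + 1)) ℂ)) [P.IsPrime] :
    SpecialField (functionField P) ↔ SpecialField (FunField P) := Iff.rfl

/-- For every projective variety `Y = V(Q)` and every sufficiently large `d`: the Fermat cover of
degree `d` of `Y` has a component, and each of its components `V(P)` is special if and only if it is
Brody-special. -/
theorem result (n : ℕ) (Q : Ideal (MvPolynomial (Fin (n + 1)) ℂ)) (hQ : IsVariety Q) :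
    ∃ d₀ : ℕ, ∀ d, d₀ ≤ d →
      (∃ P : Ideal (MvPolynomial (Fin (n + 1)) ℂ), IsVariety P ∧ FermatOver d Q P) ∧
      ∀ (P : Ideal (MvPolynomial (Fin (n + 1)) ℂ)) [P.IsPrime], IsVariety P → FermatOver d Q P →
        (SpecialField (functionField P) ↔ BrodySpecial P) := by
  have := hQ.1
  obtain ⟨j₀, hj₀⟩ := hQ.2.2
  obtain ⟨d₁, hd₁1, hd₁⟩ := expDense_of_brody Q hQ
  obtain ⟨m, hm⟩ := special_imp Q j₀ hj₀
  refine ⟨max d₁ m, fun d hd => ?_⟩
  have hd1 : 1 ≤ d := hd₁1.trans ((le_max_left _ _).trans hd)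
  refine ⟨exists_fermatOver d hd1 Q hQ, fun P _ hP hPQ => (special_iff P).trans
    ⟨fun hsp => ?_, fun hb => ?_⟩⟩
  · exact brody_of_expDense P hP (hm d ((le_max_right _ _).trans hd) hd1 P hPQ hsp)
  · obtain ⟨i, hi⟩ := hP.2.2
    exact brody_imp P i hi (hd₁ d ((le_max_left _ _).trans hd) P hP hPQ hb)

end Pool.Agent.Results.MP_1209e6_ag.FermatCovers
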