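import Pool.Agent.Lib_MP_b9fedf_tt.DefsT
import Pool.Agent.Lib_MP_b9fedf_tt.AlgOpen
import Pool.Agent.Lib_MP_b9fedf_og.Open

/-! General families satisfy the conditions. -/

set_option autoImplicit false

namespace Pool.Agent.TT
open MvPolynomial
open Pool.Agent.GGL Pool.Agent.LG

private theorem card_le_sqrt (Q : ℕ) : Fintype.card (Fin Q) ≤ (Nat.sqrt Q + 2) ^ 2 := by
  rw [Fintype.card_fin]
  have h1 := Nat.lt_succ_sqrt Q
  have h2 : (Nat.sqrt Q).succ ≤ Nat.sqrt Q + 2 := by omega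
  have h3 := Nat.mul_le_mul h2 h2
  rw [pow_two]
  exact (h1.le).trans h3

theorem gd_open (k : ℕ) {K : ℕ} (hK : 1 ≤ K) : ∃ ω0 N1 : ℕ, ∀ Q : ℕ,
    ∃ S : MvPolynomial (Fin Q × Fin (k + 3)) ℚ, S ≠ 0 ∧ ∀ a : Fin Q → Fin (k + 3) → ℂ,
      aeval (fun p : Fin Q × Fin (k + 3) => a p.1 p.2) S ≠ 0 → Gd k K ω0 N1 a := by
  classical
  obtain ⟨ω0, N1, hAlg⟩ := alg_open k hK
  refine ⟨ω0, N1, fun Q => ?_⟩
  choose S1 hS1 hS1p using hAlg
  choose S2 hS2 hS2p using fun Q' : ℕ => OG.open_form (k := k) (s := Nat.sqrt Q' + 2)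
    (ι := Fin Q') (Nat.le_add_left 2 _) (card_le_sqrt Q')
  let m1 : ∀ q : (Σ Q' : Fin (Q + 1), (Fin Q' ↪ Fin Q)), Fin q.1 × Fin (k + 3) →
      Fin Q × Fin (k + 3) := fun q p => (q.2 p.1, p.2)
  let m2 : ∀ q : (Σ Q' : Fin (Q + 1), (Fin Q' ↪ Fin Q)) × Equiv.Perm (Fin (k + 3)),
      Fin q.1.1 × Fin (k + 3) → Fin Q × Fin (k + 3) := fun q p => (q.1.2 p.1, q.2 p.2)
  have hm1 : ∀ q, Function.Injective (m1 q) := by
    intro q p p' h
    simp only [m1, Prod.mk.injEq] at h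
    exact Prod.ext (q.2.injective h.1) h.2
  have hm2 : ∀ q, Function.Injective (m2 q) := by
    intro q p p' h
    simp only [m2, Prod.mk.injEq] at h
    exact Prod.ext (q.1.2.injective h.1) (q.2.injective h.2)
  refine ⟨(∏ q : (Σ Q' : Fin (Q + 1), (Fin Q' ↪ Fin Q)), rename (m1 q) (S2 q.1)) *
    ∏ q : (Σ Q' : Fin (Q + 1), (Fin Q' ↪ Fin Q)) × Equiv.Perm (Fin (k + 3)),
      rename (m2 q) (S1 q.1.1), ?_, ?_⟩
  · refine mul_ne_zero (Finset.prod_ne_zero_iff.2 fun q _ => ?_)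
      (Finset.prod_ne_zero_iff.2 fun q _ => ?_)
    · exact fun h => hS2 q.1 (rename_injective _ (hm1 q) (h.trans (map_zero _).symm))
    · exact fun h => hS1 q.1.1 (rename_injective _ (hm2 q) (h.trans (map_zero _).symm))
  · intro a ha Q' e
    rw [map_mul, map_prod, map_prod] at ha
    have ha1 := Finset.prod_ne_zero_iff.1 (left_ne_zero_of_mul ha)
    have ha2 := Finset.prod_ne_zero_iff.1 (right_ne_zero_of_mul ha)
    have hQ' : Q' < Q + 1 := by
      have h1 := Fintype.card_le_of_embedding e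
      rw [Fintype.card_fin, Fintype.card_fin] at h1
      omega
    constructor
    · have h1 := ha1 ⟨⟨Q', hQ'⟩, e⟩ (Finset.mem_univ _)
      rw [aeval_rename] at h1
      exact hS2p Q' (fun i => a (e i)) h1
    · intro π
      have h1 := ha2 (⟨⟨Q', hQ'⟩, e⟩, π) (Finset.mem_univ _)
      rw [aeval_rename] at h1
      intro Ω _ y f hf hy
      exact hS1p Q' (fun i l => a (e i) (π l)) h1 y f hf hy

end Pool.Agent.TT
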