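import Pool.Agent.Lib_MP_b9fedf_tt.Count

/-! [TT-A2]: the growth of the spaces `U y ω`. -/

set_option autoImplicit false

namespace Pool.Agent.TT
open MvPolynomial Module

/-- [TT-A2a] `U y ω` is finite dimensional, of dimension at most the number of monomials (`finrank_span_le_card` or
`finrank_span_finset_le_card`, with `ym_finite`). -/
theorem u_finite {n : ℕ} {Ω : Type} (y : Ω → YV n → ℂ) (ω : ℕ) : FiniteDimensional ℂ (U y ω) :=
  FiniteDimensional.span_of_finite ℂ ((ym_finite n ω).image _)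

theorem u_le {n : ℕ} {Ω : Type} (y : Ω → YV n → ℂ) (ω : ℕ) :
    finrank ℂ (U y ω) ≤ (YM n ω).ncard := by
  classical
  have hf := ym_finite n ω
  have h3 : ((fun (m : YV n →₀ ℕ) (z : Ω) => m.prod fun v e => y z v ^ e) '' YM n ω) =
      ((hf.toFinset.image fun (m : YV n →₀ ℕ) (z : Ω) => m.prod fun v e => y z v ^ e :
        Finset (Ω → ℂ)) : Set (Ω → ℂ)) := by
    rw [Finset.coe_image, Set.Finite.coe_toFinset]
  unfold U
  rw [h3]
  refine (finrank_span_finset_le_card _).trans ?_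
  refine Finset.card_image_le.trans ?_
  rw [Set.ncard_eq_toFinset_card _ hf]

theorem u_mono {n : ℕ} {Ω : Type} (y : Ω → YV n → ℂ) {ω ω' : ℕ} (h : ω ≤ ω') : U y ω ≤ U y ω' := by
  refine Submodule.span_mono (Set.image_mono fun m hm => ?_)
  exact le_trans (show wY m ≤ ω from hm) h

theorem u_pos {n : ℕ} {Ω : Type} [Nonempty Ω] (y : Ω → YV n → ℂ) (ω : ℕ) :
    1 ≤ finrank ℂ (U y ω) := by
  have hfin := u_finite y ω
  have hmem : (fun _ : Ω => (1 : ℂ)) ∈ U y ω := by
    refine Submodule.subset_span ⟨0, ?_, ?_⟩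
    · exact (map_zero (wY (n := n))).le.trans (Nat.zero_le ω)
    · funext z
      exact Finsupp.prod_zero_index
  have hne : (fun _ : Ω => (1 : ℂ)) ≠ 0 := fun h =>
    one_ne_zero (congrFun h (Classical.arbitrary Ω))
  have : Nontrivial (U y ω) := ⟨⟨_, hmem⟩, 0, fun h => hne (congrArg Subtype.val h)⟩
  exact Module.finrank_pos

/-- [TT-A2b] Pigeonhole: with `t` of `ym_card`, if `finrank (U y (ω + c)) > 2 * finrank (U y ω)` for `ω = 0, c, …, (t-1) c`, then
`finrank (U y (t c)) ≥ 2 ^ t`.  Take `ω0 = t * c`. -/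
theorem exists_weight (n c : ℕ) (hc : 1 ≤ c) : ∃ ω0 : ℕ, ∀ {Ω : Type} [Nonempty Ω]
    (y : Ω → YV n → ℂ), ∃ ω ≤ ω0, finrank ℂ (U y (ω + c)) ≤ 2 * finrank ℂ (U y ω) := by
  obtain ⟨J, hJ⟩ := ym_card n c hc
  refine ⟨J * c, fun {Ω} _ y => ?_⟩
  by_contra hcon
  push Not at hcon
  have key : ∀ j ≤ J, 2 ^ j ≤ finrank ℂ (U y (j * c)) := by
    intro j
    induction j with
    | zero =>
      intro _
      rw [pow_zero]
      exact u_pos y _
    | succ j ih =>
      intro hj
      have h1 := ih (Nat.le_of_succ_le hj)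
      have h2 := hcon (j * c) (Nat.mul_le_mul_right c (Nat.le_of_succ_le hj))
      have h3 : (j + 1) * c = j * c + c := by ring
      rw [h3, pow_succ]
      omega
  have h1 := key J le_rfl
  have h2 := u_le y (J * c)
  omega

end Pool.Agent.TT
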