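import Pool.Agent.Lib_MP_b9fedf_tt.Defs

/-! [TT-B1]: the value of a polynomial along a curve. -/

set_option autoImplicit false

namespace Pool.Agent.TT
open MvPolynomial

/-- the jets of the quotients `F_{j+1} / F_0` -/
noncomputable def jet {n : ℕ} (F : ℂ → Fin (n + 1) → ℂ) (z : ℂ) : YV n → ℂ :=
  fun v => iteratedDeriv (v.2 + 1) (fun w => F w v.1.succ / F w 0) z

/-- the quotients `F_l / F_0` -/
noncomputable def pnt {n : ℕ} (F : ℂ → Fin (n + 1) → ℂ) (z : ℂ) : Fin (n + 1) → ℂ :=
  fun l => F z l / F z 0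

/-- the value of `G` along the curve -/
noncomputable def phi {n : ℕ} (G : MvPolynomial (Vr n) ℂ) (F : ℂ → Fin (n + 1) → ℂ) (z : ℂ) : ℂ :=
  eval (ev (jet F z) (pnt F z) (one n)) G

private theorem quot_analytic {n : ℕ} (F : ℂ → Fin (n + 1) → ℂ) (hF : Differentiable ℂ F) {z : ℂ}
    (hz : F z 0 ≠ 0) (l : Fin (n + 1)) : AnalyticAt ℂ (fun w => F w l / F w 0) z :=
  ((differentiable_pi.1 hF l).analyticAt z).div ((differentiable_pi.1 hF 0).analyticAt z) hz

private theorem iter_analytic {n : ℕ} (F : ℂ → Fin (n + 1) → ℂ) (hF : Differentiable ℂ F) {z : ℂ}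
    (hz : F z 0 ≠ 0) (l : Fin (n + 1)) (i : ℕ) :
    AnalyticAt ℂ (iteratedDeriv i fun w => F w l / F w 0) z := by
  rw [iteratedDeriv_eq_iterate]
  exact (quot_analytic F hF hz l).iterated_deriv i

private theorem ne_near {n : ℕ} (F : ℂ → Fin (n + 1) → ℂ) (hF : Differentiable ℂ F) {z : ℂ}
    (hz : F z 0 ≠ 0) : ∀ᶠ w in nhds z, F w 0 ≠ 0 :=
  (differentiable_pi.1 hF 0).continuous.continuousAt.eventually_ne hz

private theorem phi_C {n : ℕ} (c : ℂ) (F : ℂ → Fin (n + 1) → ℂ) :
    phi (C c : MvPolynomial (Vr n) ℂ) F = fun _ => c := by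
  funext w
  simp [phi]

private theorem phi_add {n : ℕ} (P Q : MvPolynomial (Vr n) ℂ) (F : ℂ → Fin (n + 1) → ℂ) :
    phi (P + Q) F = phi P F + phi Q F := by
  funext w
  simp [phi]

private theorem phi_mul {n : ℕ} (P Q : MvPolynomial (Vr n) ℂ) (F : ℂ → Fin (n + 1) → ℂ) :
    phi (P * Q) F = phi P F * phi Q F := by
  funext w
  simp [phi]

private theorem phi_X {n : ℕ} (v : Vr n) (F : ℂ → Fin (n + 1) → ℂ) :
    phi (X v : MvPolynomial (Vr n) ℂ) F = fun w => ev (jet F w) (pnt F w) (one n) v := by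
  funext w
  simp [phi]

/-- the derivative of the value of a variable -/
private theorem var_deriv {n : ℕ} (v : Vr n) (F : ℂ → Fin (n + 1) → ℂ)
    (hF : Differentiable ℂ F) {z : ℂ} (hz : F z 0 ≠ 0) :
    AnalyticAt ℂ (phi (X v : MvPolynomial (Vr n) ℂ) F) z ∧
      deriv (phi (X v : MvPolynomial (Vr n) ℂ) F) z = phi (dd n (X v)) F z := by
  have hX : dd n (X v) = dvar n v := mkDerivation_X ℂ (dvar n) v
  rw [hX, phi_X]
  rcases v with ⟨j, i⟩ | l | p
  · have e : (fun w => ev (jet F w) (pnt F w) (one n) (Sum.inl (j, i))) =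
        iteratedDeriv (i + 1) (fun w => F w j.succ / F w 0) := by
      funext w
      simp [ev, jet]
    rw [e]
    refine ⟨iter_analytic F hF hz _ _, ?_⟩
    rw [← iteratedDeriv_succ]
    simp [phi, dvar, ev, jet]
  · have e : (fun w => ev (jet F w) (pnt F w) (one n) (Sum.inr (Sum.inl l))) =
        fun w => F w l / F w 0 := by
      funext w
      simp [ev, pnt]
    rw [e]
    refine ⟨quot_analytic F hF hz l, ?_⟩
    have e2 : phi (dvar n (Sum.inr (Sum.inl l))) F z =
        ∑ j : Fin n, iteratedDeriv 1 (fun w => F w j.succ / F w 0) z *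
          (if l = j.succ then 1 else 0) := by
      simp [phi, dvar, ev, jet, one]
    rw [e2]
    refine Fin.cases ?_ (fun j => ?_) l
    · have h1 : (fun w => F w 0 / F w 0) =ᶠ[nhds z] fun _ => (1 : ℂ) := by
        filter_upwards [ne_near F hF hz] with w hw
        exact div_self hw
      rw [h1.deriv_eq]
      simp [(Fin.succ_ne_zero _).symm]
    · rw [Finset.sum_eq_single j]
      · simp
      · intro b _ hb
        rw [if_neg (fun h => hb (Fin.succ_injective _ h).symm), mul_zero]
      · intro h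
        exact absurd (Finset.mem_univ j) h
  · have e : (fun w => ev (jet F w) (pnt F w) (one n) (Sum.inr (Sum.inr p))) =
        fun _ => one n p := by
      funext w
      simp [ev]
    rw [e]
    refine ⟨analyticAt_const, ?_⟩
    simp [phi, dvar]

/-- [TT-B1a] -/
theorem phi_analytic {n : ℕ} (G : MvPolynomial (Vr n) ℂ) (F : ℂ → Fin (n + 1) → ℂ)
    (hF : Differentiable ℂ F) {z : ℂ} (hz : F z 0 ≠ 0) : AnalyticAt ℂ (phi G F) z := by
  induction G using MvPolynomial.induction_on with
  | C a => rw [phi_C]; exact analyticAt_const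
  | add P Q hP hQ => rw [phi_add]; exact hP.add hQ
  | mul_X P v hP => rw [phi_mul]; exact hP.mul (var_deriv v F hF hz).1

/-- [TT-B1b] Proof.  Both sides are derivations in `G` over the evaluation at `z`; check the variables:
`(F_l / F_0)' = ∑ j, jet (j,0) * one (j,l)` (`0` for `l = 0`, `jet (j,0)` for `l = j.succ`), `one` is constant. -/
theorem phi_deriv {n : ℕ} (G : MvPolynomial (Vr n) ℂ) (F : ℂ → Fin (n + 1) → ℂ)
    (hF : Differentiable ℂ F) {z : ℂ} (hz : F z 0 ≠ 0) : deriv (phi G F) z = phi (dd n G) F z := by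
  induction G using MvPolynomial.induction_on with
  | C a =>
    rw [phi_C, deriv_const]
    have h : dd n (C a) = 0 := by
      rw [← MvPolynomial.algebraMap_eq]
      exact Derivation.map_algebraMap _ _
    rw [h]
    simp [phi]
  | add P Q hP hQ =>
    rw [map_add, phi_add, phi_add, deriv_add (phi_analytic P F hF hz).differentiableAt
      (phi_analytic Q F hF hz).differentiableAt, hP, hQ, Pi.add_apply]
  | mul_X P v hP =>
    have hv := (var_deriv v F hF hz).2
    rw [Derivation.leibniz, smul_eq_mul, smul_eq_mul, phi_mul, phi_add, phi_mul, phi_mul,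
      deriv_mul (phi_analytic P F hF hz).differentiableAt
      (phi_analytic (X v) F hF hz).differentiableAt, hP, hv]
    simp only [Pi.add_apply, Pi.mul_apply]
    ring

/-- [TT-B1c] (`F w 0 ≠ 0` for `w` near `z`) -/
theorem phi_iter {n : ℕ} (G : MvPolynomial (Vr n) ℂ) (F : ℂ → Fin (n + 1) → ℂ)
    (hF : Differentiable ℂ F) {z : ℂ} (hz : F z 0 ≠ 0) (a : ℕ) :
    iteratedDeriv a (phi G F) z = phi ((⇑(dd n))^[a] G) F z := by
  induction a generalizing G with
  | zero => simp
  | succ a ih =>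
    have h : deriv (phi G F) =ᶠ[nhds z] phi (dd n G) F := by
      filter_upwards [ne_near F hF hz] with w hw
      exact phi_deriv G F hF hw
    rw [iteratedDeriv_succ', Filter.EventuallyEq.iteratedDeriv_eq a h, ih, Function.iterate_succ_apply]

/-- [TT-B1d] order of vanishing -/
theorem phi_order {n : ℕ} (G : MvPolynomial (Vr n) ℂ) (F : ℂ → Fin (n + 1) → ℂ)
    (hF : Differentiable ℂ F) {z : ℂ} (hz : F z 0 ≠ 0) {c : ℕ}
    (h : ∀ a < c, phi ((⇑(dd n))^[a] G) F z = 0) : (c : ℕ∞) ≤ analyticOrderAt (phi G F) z := by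
  rw [natCast_le_analyticOrderAt_iff_iteratedDeriv_eq_zero (phi_analytic G F hF hz)]
  intro a ha
  rw [phi_iter G F hF hz a]
  exact h a ha

end Pool.Agent.TT
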