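import Pool.Agent.Lib_MP_b9fedf_tt.TotalF
import Pool.Agent.Lib_MP_b9fedf_tt.PosF
import Pool.Agent.Lib_MP_b9fedf_tt.Level
import Pool.Agent.Lib_MP_b9fedf_tt.SpecialB
import Pool.Agent.Lib_MP_b9fedf_tt.DefsNR
import Pool.Agent.Lib_MP_b9fedf_lo.NotBrodyAvg

/-! [TT-F4]: the second main theorem with truncation level one for the reducible hypersurface
`∏ frm (a i) = 0`; consequences. -/

set_option autoImplicit false

namespace Pool.Agent.TT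
open MvPolynomial
open Pool.Agent.GGL Pool.Agent.Stat Pool.Agent.LO Pool.Agent.LG Pool.Agent.SQ Pool.Agent.QY
open Pool.Agent.GH Pool.Agent.Campana

/-- [TT-F4a] As `level_prod` in Level.lean, from `total_forms`. -/
theorem level_prod_forms {n d : ℕ} (hd : 1 ≤ d) (h3 : 3 ≤ (n + d).choose d) {ε : ℝ}
    (hε : 0 < ε) : ∃ C : ℝ, 0 ≤ C ∧ ∀ (Q : ℕ) (a : Fin Q → Mon n d → ℂ),
    AlgebraicIndependent ℚ (fun p : Fin Q × Mon n d => a p.1 p.2) →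
    ∀ η : ℝ, (1 - η) * Q = (1 - ε) * Q - C →
      LevelOne η ⊥ {∏ i, frm (a i)} (∏ i, frm (a i)) := by
  obtain ⟨C, hC, h⟩ := total_forms hd h3 hε
  refine ⟨C, hC, fun Q a ha η hη f hf hf0 _ hZ hnc => ?_⟩
  obtain ⟨hdeg, -, -⟩ := prod_degree_forms (fun i => frm (a i)) (fun i => frm_hom (a i))
    (fun i => frm_ne_zero a ha i)
  obtain ⟨z₀, hz₀⟩ := hZ
  rw [map_prod] at hz₀
  have hz₁ := Finset.prod_ne_zero_iff.1 hz₀
  obtain ⟨K, E, hE, hb⟩ := h Q a ha f hf hf0 hnc Finset.univ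
    (fun i => ⟨fun _ => ⟨z₀, hz₁ i (Finset.mem_univ i)⟩, fun _ => Finset.mem_univ i⟩)
  refine ⟨K, E, hE, fun r hr hrE => ?_⟩
  have h1 := hb r hr hrE
  rw [Finset.sum_singleton, Finset.sum_singleton, hdeg]
  have h2 : (fun z => eval (f z) (∏ i, frm (a i))) = fun z => ∏ i, eval (f z) (frm (a i)) := by
    funext z
    rw [map_prod]
  rw [h2]
  have h4 : (1 - η) * ((Q * d : ℕ) : ℝ) * charT f r = ((1 - ε) * Q - C) * (d * charT f r) := by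
    rw [← hη]
    push_cast
    ring
  rw [h4]
  exact h1

private theorem hbot_F4 {n : ℕ} : HomI (⊥ : Ideal (MvPolynomial (Fin (n + 1)) ℂ)) := by
  intro g hg k
  rw [Ideal.mem_bot] at hg
  subst hg
  simp

/-- the parameters for the corollaries -/
private theorem param_forms {n d : ℕ} (hd : 1 ≤ d) (h3 : 3 ≤ (n + d).choose d) :
    ∃ N : ℕ, ∀ Q, N ≤ Q → ∀ a : Fin Q → Mon n d → ℂ,
    AlgebraicIndependent ℚ (fun p : Fin Q × Mon n d => a p.1 p.2) →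
    ∃ η : ℝ, (0 < Q ∧ (1 / 2 : ℝ) < 1 - η) ∧
      LevelOne η ⊥ {∏ i, frm (a i)} (∏ i, frm (a i)) := by
  obtain ⟨C, hC, h⟩ := level_prod_forms hd h3 (ε := 1 / 4) (by norm_num)
  refine ⟨⌈4 * C⌉₊ + 1, fun Q hQ a ha => ?_⟩
  have hQ1 : 0 < Q := by omega
  have hQR : (0 : ℝ) < Q := by exact_mod_cast hQ1
  have h4 : 4 * C < Q := by
    have h5 := Nat.le_ceil (4 * C)
    have h6 : ((⌈4 * C⌉₊ + 1 : ℕ) : ℝ) ≤ Q := by exact_mod_cast hQ
    push_cast at h6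
    linarith
  have h7 : (1 - (1 - ((1 - 1 / 4) * (Q : ℝ) - C) / Q)) * Q = (1 - 1 / 4) * Q - C := by
    rw [sub_sub_cancel, div_mul_cancel₀ _ hQR.ne']
  refine ⟨1 - ((1 - 1 / 4) * Q - C) / Q, ⟨hQ1, ?_⟩, h Q a ha _ h7⟩
  rw [sub_sub_cancel, lt_div_iff₀ hQR]
  linarith

/-- [TT-F4b] As `curves_tot` in Level.lean. -/
theorem curves_tot_forms {n d : ℕ} (hd : 1 ≤ d) (h3 : 3 ≤ (n + d).choose d) :
    ∃ N : ℕ, ∀ Q, N ≤ Q → ∀ a : Fin Q → Mon n d → ℂ,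
    AlgebraicIndependent ℚ (fun p : Fin Q × Mon n d => a p.1 p.2) →
    ∀ {m : ℕ} (S : Set (MvPolynomial (Fin (m + 1)) ℂ))
      (φ : Fin (n + 1) → MvPolynomial (Fin (m + 1)) ℂ), MultipleForm S φ (∏ i, frm (a i)) →
      CurvesIn S (aeval φ (∏ i, frm (a i))) φ := by
  obtain ⟨N, hN⟩ := param_forms hd h3
  refine ⟨N, fun Q hQ a ha m S φ hM => ?_⟩
  obtain ⟨η, hη, hL⟩ := hN Q hQ a ha
  obtain ⟨hQ1, hN⟩ := hη
  obtain ⟨hdeg, hhom, hne⟩ := prod_degree_forms (fun i => frm (a i)) (fun i => frm_hom (a i))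
    (fun i => frm_ne_zero a ha i)
  refine avg_curves hN (by norm_num) ⊥ hbot_F4 {∏ i, frm (a i)} (Finset.singleton_nonempty _)
    (∏ i, frm (a i)) (Nat.mul_pos hQ1 hd) hhom ?_ ?_ hL S φ ?_ (avg_of_multiple hM)
  · intro P hP
    rw [Finset.mem_singleton] at hP
    rw [hP, hdeg]
    exact ⟨Nat.mul_pos hQ1 hd, hhom⟩
  · intro P hP
    rw [Finset.mem_singleton] at hP
    rw [hP]
  · intro g hg x _
    rw [Ideal.mem_bot] at hg
    rw [hg, map_zero, map_zero]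

/-- [TT-F4c] As `not_brody_tot` in SpecialB.lean. -/
theorem not_brody_forms {n d : ℕ} (hn : 1 ≤ n) (hd : 1 ≤ d) (h3 : 3 ≤ (n + d).choose d) :
    ∃ N : ℕ, ∀ Q, N ≤ Q → ∀ a : Fin Q → Mon n d → ℂ,
    AlgebraicIndependent ℚ (fun p : Fin Q × Mon n d => a p.1 p.2) →
    ∀ {m : ℕ} (P : Ideal (MvPolynomial (Fin (m + 1)) ℂ)) [P.IsPrime], IsVariety P →
    ∀ y : Fin (n + 1) → FunField P, y 0 ≠ 0 →
      AlgebraicIndependent ℂ (fun i : Fin n => y i.succ / y 0) →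
      NowhereReduced y (∏ i, frm (a i)) → ¬ BrodySpecial P := by
  obtain ⟨N, hN⟩ := param_forms hd h3
  refine ⟨N, fun Q hQ a ha m P _ hP y hy0 hy hNR => ?_⟩
  obtain ⟨η, hη, hL⟩ := hN Q hQ a ha
  obtain ⟨hQ1, hN⟩ := hη
  obtain ⟨hdeg, hhom, hne⟩ := prod_degree_forms (fun i => frm (a i)) (fun i => frm_hom (a i))
    (fun i => frm_ne_zero a ha i)
  have hnd := hom_eq_zero y hy0 hy
  have hyne : ∀ l, y l ≠ 0 := by
    intro l h0
    have h1 := hnd 1 (X l) (isHomogeneous_X ℂ l) (by rw [aeval_X]; exact h0)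
    exact X_ne_zero l h1
  have hPy : aeval y (∏ i, frm (a i)) ≠ 0 := fun h0 => hne (hnd _ _ hhom h0)
  refine not_brody_avg hn hN (by norm_num) {∏ i, frm (a i)} (Finset.singleton_nonempty _) ?_
    (∏ i, frm (a i)) hne hhom ?_ hL P hP y hy0 hy
    (ramifiedAt_of_nowhere y _ hhom hPy hyne hNR)
  · intro P hP
    rw [Finset.mem_singleton] at hP
    rw [hP, hdeg]
    exact ⟨Nat.mul_pos hQ1 hd, hhom⟩
  · intro P hP
    rw [Finset.mem_singleton] at hP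
    rw [hP]

end Pool.Agent.TT
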