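import Pool.Agent.Lib_MP_b9fedf_tt.CrossAll
import Pool.Agent.Lib_MP_b9fedf_tt.Crs
import Pool.Agent.Lib_MP_b9fedf_tt.DefsG
import Pool.Agent.Lib_MP_b9fedf_lo.Mono

/-! [TT-B4b]: the number of the points of a curve on two members. -/

set_option autoImplicit false

namespace Pool.Agent.TT
open MvPolynomial Filter Metric Real Set Function MeromorphicOn ValueDistribution
open Pool.Agent.GGL Pool.Agent.Stat

/-- the counting function `Nbar` is at most the counting function of a divisor which is at least one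
at the zeros -/
theorem nbar_le_count (W : ℂ → ℂ) (Z : locallyFinsupp ℂ ℤ) (hZ : 0 ≤ Z)
    (hWZ : ∀ z, W z = 0 → 1 ≤ Z z) {r : ℝ} (hr : 1 ≤ r) :
    Nbar W r ≤ Function.locallyFinsuppWithin.logCounting Z r := by
  classical
  have hr0 : 0 < r := by linarith
  have hfin : {a : ℂ | ‖a‖ ≤ r ∧ W a = 0}.Finite := by
    refine ((Function.locallyFinsuppWithin.toClosedBall r Z).finiteSupport
      (isCompact_closedBall 0 |r|)).subset ?_
    rintro a ⟨ha, hWa⟩
    have h1 : a ∈ closedBall (0 : ℂ) |r| := by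
      rw [mem_closedBall_zero_iff]
      exact ha.trans (le_abs_self r)
    rw [Function.mem_support, Function.locallyFinsuppWithin.toClosedBall_eval_within _ h1]
    have := hWZ a hWa
    omega
  have hsupp := (Function.locallyFinsuppWithin.toClosedBall r Z).finiteSupport
      (isCompact_closedBall 0 |r|)
  have h1 : Function.locallyFinsuppWithin.logCounting Z r =
      ∑ᶠ z, (Function.locallyFinsuppWithin.toClosedBall r Z z : ℝ) * Real.log (r * ‖z‖⁻¹) +
      (Z 0 : ℝ) * Real.log r := rfl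
  have h2 : ∑ᶠ z, (Function.locallyFinsuppWithin.toClosedBall r Z z : ℝ) * Real.log (r * ‖z‖⁻¹) =
      ∑ a ∈ hsupp.toFinset ∪ hfin.toFinset,
        (Function.locallyFinsuppWithin.toClosedBall r Z a : ℝ) * Real.log (r * ‖a‖⁻¹) := by
    rw [finsum_eq_sum_of_support_subset]
    intro a ha
    rw [Function.mem_support] at ha
    rw [Finset.coe_union]
    left
    rw [Set.Finite.coe_toFinset, Function.mem_support]
    intro h
    rw [h, Int.cast_zero, zero_mul] at ha
    exact ha rfl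
  have hnn : ∀ a, 0 ≤ (Function.locallyFinsuppWithin.toClosedBall r Z a : ℝ) *
      Real.log (r * ‖a‖⁻¹) := by
    intro a
    by_cases ha : a ∈ closedBall (0 : ℂ) |r|
    · rw [Function.locallyFinsuppWithin.toClosedBall_eval_within _ ha]
      have h3 : (0 : ℝ) ≤ (Z a : ℝ) := by exact_mod_cast hZ a
      refine mul_nonneg h3 ?_
      by_cases h0 : a = 0
      · rw [h0, norm_zero, inv_zero, mul_zero, Real.log_zero]
      · have ha0 : 0 < ‖a‖ := norm_pos_iff.2 h0
        apply Real.log_nonneg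
        rw [← div_eq_mul_inv, one_le_div ha0]
        rw [mem_closedBall_zero_iff, abs_of_pos hr0] at ha
        exact ha
    · have h3 : Function.locallyFinsuppWithin.toClosedBall r Z a = 0 := by
        by_contra h
        exact ha (Function.locallyFinsuppWithin.toClosedBall_support_subset_closedBall Z h)
      rw [h3, Int.cast_zero, zero_mul]
  have h4 : Nbar W r = ∑ a ∈ hfin.toFinset, Real.log (r / max 1 ‖a‖) := by
    unfold Nbar
    exact finsum_mem_eq_finite_toFinset_sum _ hfin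
  have h5 : ∑ a ∈ hfin.toFinset, (Function.locallyFinsuppWithin.toClosedBall r Z a : ℝ) *
      Real.log (r * ‖a‖⁻¹) ≤ ∑ a ∈ hsupp.toFinset ∪ hfin.toFinset,
        (Function.locallyFinsuppWithin.toClosedBall r Z a : ℝ) * Real.log (r * ‖a‖⁻¹) :=
    Finset.sum_le_sum_of_subset_of_nonneg Finset.subset_union_right fun a _ _ => hnn a
  have h6 : ∑ a ∈ hfin.toFinset, (if a = 0 then (Z 0 : ℝ) * Real.log r else 0) ≤
      (Z 0 : ℝ) * Real.log r := by
    rw [Finset.sum_ite_eq' hfin.toFinset 0]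
    split_ifs
    · exact le_rfl
    · have h3 : (0 : ℝ) ≤ (Z 0 : ℝ) := by exact_mod_cast hZ 0
      exact mul_nonneg h3 (Real.log_nonneg hr)
  rw [h1, h2, h4]
  refine le_trans ?_ (add_le_add h5 h6)
  rw [← Finset.sum_add_distrib]
  refine Finset.sum_le_sum fun a ha => ?_
  rw [Set.Finite.mem_toFinset] at ha
  have hZa : (1 : ℝ) ≤ (Z a : ℝ) := by exact_mod_cast hWZ a ha.2
  have hac : a ∈ closedBall (0 : ℂ) |r| := by
    rw [mem_closedBall_zero_iff]
    exact ha.1.trans (le_abs_self r)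
  rw [Function.locallyFinsuppWithin.toClosedBall_eval_within _ hac]
  by_cases h0 : a = 0
  · subst h0
    rw [if_pos rfl, norm_zero, inv_zero, mul_zero, Real.log_zero, mul_zero, zero_add,
      max_eq_left zero_le_one, div_one]
    exact le_mul_of_one_le_left (Real.log_nonneg hr) hZa
  · rw [if_neg h0, add_zero]
    have ha0 : 0 < ‖a‖ := norm_pos_iff.2 h0
    have h7 : Real.log (r / max 1 ‖a‖) ≤ Real.log (r * ‖a‖⁻¹) := by
      rw [← div_eq_mul_inv]
      apply Real.log_le_log (by positivity)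
      exact div_le_div_of_nonneg_left hr0.le ha0 (le_max_right _ _)
    have h8 : 0 ≤ Real.log (r * ‖a‖⁻¹) := by
      apply Real.log_nonneg
      rw [← div_eq_mul_inv, one_le_div ha0]
      exact ha.1
    exact h7.trans (le_mul_of_one_le_left h8 hZa)

/-- a reduced divisor supported in the support of a given divisor -/
theorem exists_ind (D : locallyFinsupp ℂ ℤ) (p : ℂ → Prop) (hp : ∀ z, p z → D z ≠ 0) :
    ∃ Z : locallyFinsupp ℂ ℤ, 0 ≤ Z ∧ (∀ z, Z z ≤ 1) ∧ (∀ z, p z → Z z = 1) ∧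
      (∀ z, ¬ p z → Z z = 0) := by
  classical
  set Z : locallyFinsupp ℂ ℤ :=
    { toFun := fun a => if p a then 1 else 0
      supportWithinDomain' := Set.subset_univ _
      supportLocallyFiniteWithinDomain' := by
        intro z hz
        obtain ⟨t, ht, hfin⟩ := D.supportLocallyFiniteWithinDomain' z hz
        refine ⟨t, ht, hfin.subset (Set.inter_subset_inter_right _ fun a ha => ?_)⟩
        rw [Function.mem_support] at ha ⊢
        refine hp a ?_
        by_contra h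
        exact ha (if_neg h) } with hZ
  have hZ1 : ∀ a, p a → Z a = 1 := fun a ha => if_pos ha
  have hZ0 : ∀ a, ¬ p a → Z a = 0 := fun a ha => if_neg ha
  refine ⟨Z, fun a => ?_, fun a => ?_, hZ1, hZ0⟩
  · by_cases h : p a
    · rw [hZ1 a h]
      exact zero_le_one
    · rw [hZ0 a h]
      exact le_rfl
  · by_cases h : p a
    · rw [hZ1 a h]
    · rw [hZ0 a h]
      exact zero_le_one

/-- [TT-B4b] Curves with `F_0` not identically zero.  Proof.  `alg_main` with `Ω = {z // F z 0 ≠ 0}`, `y = jet F`, `f = pnt F`, gives `ω`, `R`, `G`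
(`irr_jet`).  The points where two members meet the curve are of three kinds: (i) `F_0 ≠ 0` and two members not in `R`:
`cross_all` (the reduced divisor of the zeros of the entire function `∏ i, h_i`, restricted to these points); (ii) zeros of
`F_0`; (iii) zeros of `h_i`, `i ∈ R`.  For (ii), (iii) use `N_le_TF` (at most `T + C` each).  `crs` vanishes only on these points;
compare `Nbar` and `logCounting` as in `exists_reduced` (choose first the finite sets of zeros of norm at most `r`). -/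
theorem nd_zero_c {k K ω0 N1 : ℕ} (hK : 1 ≤ K) {Q : ℕ} (a : Fin Q → Fin (k + 3) → ℂ)
    (h : AlgC k K ω0 N1 a) (F : ℂ → Fin (k + 3) → ℂ) (hF : Differentiable ℂ F) (hF0 : ∀ z, F z ≠ 0)
    (h0 : ∃ z, F z 0 ≠ 0) (hne : ∀ i, ∃ z, ∑ l, a i l * F z l ≠ 0) :
    ∃ (C : ℝ) (E : Set ℝ), MeasureTheory.volume E < ⊤ ∧ ∀ r, 1 ≤ r → r ∉ E →
      Nbar (crs a F) r ≤
        (((dA k K Q + 2 * ω0 : ℕ) : ℝ) / (K : ℝ) ^ 2 + 1 + N1) * charT F r +
          C * (Real.posLog (charT F r) + Real.log r + 1) := by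
  classical
  have hFd : ∀ l, Differentiable ℂ (fun z => F z l) := fun l => differentiable_pi.1 hF l
  have hFz : ∀ z, ∃ l, F z l ≠ 0 := by
    intro z
    by_contra hcon
    push Not at hcon
    exact hF0 z (funext hcon)
  haveI : Nonempty {z : ℂ // F z 0 ≠ 0} := ⟨⟨h0.choose, h0.choose_spec⟩⟩
  obtain ⟨ω, hω, R, z0, G, hR, hBd, hVan, hG⟩ := h (Ω := {z : ℂ // F z 0 ≠ 0})
    (fun z => jet F z) (fun z => pnt F z) (fun z => div_self z.2) (irr_jet F hF)
  have hK2 : 1 ≤ K ^ 2 := Nat.one_le_pow _ _ hK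
  obtain ⟨K1, E, hE, hcr⟩ := cross_all hK2 G hBd F hF hF0 ⟨z0, z0.2, hG⟩
  -- the members
  set g : Fin Q → ℂ → ℂ := fun i z => ∑ l, a i l * F z l with hg
  have hgd : ∀ i, Differentiable ℂ (g i) := fun i =>
    Differentiable.fun_sum fun l _ => (hFd l).const_mul _
  have hDv1 : ∀ {u : ℂ → ℂ}, Differentiable ℂ u → (∃ z, u z ≠ 0) → ∀ z, u z = 0 → 1 ≤ Dv u z := by
    intro u hu hu0 z hz
    rw [Dv_apply hu]
    have h6 : analyticOrderAt u z ≠ 0 := (hu.analyticAt z).analyticOrderAt_ne_zero.2 hz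
    have h7 := order_ne_top hu hu0 z
    have h8 : (analyticOrderAt u z).toNat ≠ 0 := by
      rw [Ne, ENat.toNat_eq_zero]
      push Not
      exact ⟨h6, h7⟩
    exact Int.ofNat_le.2 (Nat.one_le_iff_ne_zero.2 h8)
  have hDv0 : ∀ {u : ℂ → ℂ}, Differentiable ℂ u → ∀ z, 0 ≤ Dv u z := by
    intro u hu z
    rw [Dv_apply hu]
    exact Int.natCast_nonneg _
  -- the divisor of the points of kind (i)
  set p : ℂ → Prop := fun z => F z 0 ≠ 0 ∧ ∃ i j, i ∉ R ∧ j ∉ R ∧ i ≠ j ∧ g i z = 0 ∧ g j z = 0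
    with hp
  obtain ⟨Z, hZ0, hZ1, hZp, hZn⟩ := exists_ind (∑ i, Dv (g i)) p (by
    rintro z ⟨-, i, j, -, -, -, hi, -⟩
    rw [locallyFinsuppWithin.coe_sum, Finset.sum_apply]
    have h1 := hDv1 (hgd i) (hne i) z hi
    have h2 : Dv (g i) z ≤ ∑ i, Dv (g i) z :=
      Finset.single_le_sum (f := fun i => Dv (g i) z) (fun i _ => hDv0 (hgd i) z) (Finset.mem_univ i)
    omega)
  have hkind : ∀ z, 0 < Z z → F z 0 ≠ 0 ∧ ∀ b < K ^ 2, phi ((⇑(dd (k + 2)))^[b] G) F z = 0 := by
    intro z hz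
    by_cases hpz : p z
    · obtain ⟨hz0, i, j, hi, hj, hij, hgi, hgj⟩ := hpz
      refine ⟨hz0, fun b hb => ?_⟩
      refine hVan b hb ⟨i, hi⟩ ⟨j, hj⟩ (fun h => hij (congrArg Subtype.val h)) ⟨z, hz0⟩ (pnt F z)
        (one (k + 2)) ?_ ?_
      · have h1 : ∑ l, a i l * pnt F z l = g i z / F z 0 := by
          rw [hg, Finset.sum_div]
          exact Finset.sum_congr rfl fun l _ => by rw [pnt, mul_div_assoc]
        show ∑ l, a i l * pnt F z l = 0
        rw [h1, hgi, zero_div]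
      · have h1 : ∑ l, a j l * pnt F z l = g j z / F z 0 := by
          rw [hg, Finset.sum_div]
          exact Finset.sum_congr rfl fun l _ => by rw [pnt, mul_div_assoc]
        show ∑ l, a j l * pnt F z l = 0
        rw [h1, hgj, zero_div]
    · rw [hZn z hpz] at hz
      exact absurd hz (lt_irrefl _)
  have hcr' := hcr Z hZ0 hZ1 hkind
  -- the divisor of all points
  set D : locallyFinsupp ℂ ℤ := Z + (Dv (fun z => F z 0) + ∑ i ∈ R, Dv (g i)) with hD
  have hDapp : ∀ z, D z = Z z + (Dv (fun z => F z 0) z + ∑ i ∈ R, Dv (g i) z) := by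
    intro z
    rw [hD, locallyFinsuppWithin.coe_add, Pi.add_apply, locallyFinsuppWithin.coe_add, Pi.add_apply,
      locallyFinsuppWithin.coe_sum, Finset.sum_apply]
  have hsum0 : ∀ z, 0 ≤ ∑ i ∈ R, Dv (g i) z := fun z =>
    Finset.sum_nonneg fun i _ => hDv0 (hgd i) z
  have hD0 : 0 ≤ D := by
    intro z
    show (0 : ℤ) ≤ D z
    rw [hDapp]
    have h1 : 0 ≤ Z z := hZ0 z
    have h2 := hDv0 (hFd 0) z
    have h3 := hsum0 z
    omega
  have hDW : ∀ z, crs a F z = 0 → 1 ≤ D z := by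
    intro z hz
    rw [hDapp]
    have h1 : 0 ≤ Z z := hZ0 z
    have h2 := hDv0 (hFd 0) z
    have h3 := hsum0 z
    have hz' : ∃ i j, i ≠ j ∧ g i z = 0 ∧ g j z = 0 := by
      by_contra hcon
      have : crs a F z = 1 := by
        unfold crs
        exact if_neg hcon
      rw [this] at hz
      exact one_ne_zero hz
    obtain ⟨i, j, hij, hi, hj⟩ := hz'
    by_cases hz0 : F z 0 = 0
    · have := hDv1 (hFd 0) h0 z hz0
      omega
    by_cases hiR : i ∈ R
    · have h4 := hDv1 (hgd i) (hne i) z hi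
      have h5 : Dv (g i) z ≤ ∑ i ∈ R, Dv (g i) z :=
        Finset.single_le_sum (f := fun i => Dv (g i) z) (fun i _ => hDv0 (hgd i) z) hiR
      omega
    by_cases hjR : j ∈ R
    · have h4 := hDv1 (hgd j) (hne j) z hj
      have h5 : Dv (g j) z ≤ ∑ i ∈ R, Dv (g i) z :=
        Finset.single_le_sum (f := fun i => Dv (g i) z) (fun i _ => hDv0 (hgd i) z) hjR
      omega
    have h4 := hZp z ⟨hz0, i, j, hiR, hjR, hij, hi, hj⟩
    omega
  -- the counting functions of the zeros of `F_0` and of the members in `R`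
  obtain ⟨C0, hC0⟩ := N_le_TF (σ := Fin (k + 3)) (f := fun l z => F z l) hFd hFz (hFd 0) h0 1 1
    (fun z => by
      rw [pow_one, one_mul]
      exact norm_le_pi_norm (F z) 0)
  have hCi : ∀ i, ∃ C : ℝ, ∀ r, 1 ≤ r →
      Function.locallyFinsuppWithin.logCounting (Dv (g i)) r ≤ charT F r + C := by
    intro i
    obtain ⟨C, hC⟩ := N_le_TF (σ := Fin (k + 3)) (f := fun l z => F z l) hFd hFz (hgd i) (hne i) 1
      (∑ l, ‖a i l‖) (fun z => by
        rw [pow_one, Finset.sum_mul]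
        refine (norm_sum_le _ _).trans (Finset.sum_le_sum fun l _ => ?_)
        rw [norm_mul]
        exact mul_le_mul_of_nonneg_left (norm_le_pi_norm (F z) l) (norm_nonneg _))
    refine ⟨C, fun r hr => ?_⟩
    have h1 := hC r hr
    rw [Nat.cast_one, one_mul] at h1
    exact h1
  choose Ci hCi using hCi
  set c0 : ℝ := |C0| + ∑ i ∈ R, |Ci i| with hc0
  have hc00 : 0 ≤ c0 := by positivity
  set t1 : ℝ := |charT F 1| with ht1
  have ht10 : 0 ≤ t1 := abs_nonneg _
  have hKr : (1 : ℝ) ≤ (K : ℝ) ^ 2 := by exact_mod_cast hK2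
  have hKpos : (0 : ℝ) < (K : ℝ) ^ 2 := by linarith
  set M : ℝ := ((dA k K Q + 2 * ω0 : ℕ) : ℝ) / (K : ℝ) ^ 2 + 1 + N1 with hM
  have hM0 : 0 ≤ M := by positivity
  refine ⟨|K1| + c0 + M * t1, E, hE, fun r hr hrE => ?_⟩
  set T := charT F r with hT
  set S := Real.posLog T + Real.log r + 1 with hS
  have hS1 : 1 ≤ S := by
    have h3 : 0 ≤ Real.posLog T := Real.posLog_nonneg
    have h4 : 0 ≤ Real.log r := Real.log_nonneg hr
    rw [hS]; linarith
  have hTt : -t1 ≤ T := by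
    have h5 := Pool.Agent.LO.charT_mono hF hF0 one_pos hr
    have h6 := neg_abs_le (charT F 1)
    linarith
  have e1 := nbar_le_count (crs a F) D hD0 hDW hr
  have e2 : Function.locallyFinsuppWithin.logCounting D r =
      Function.locallyFinsuppWithin.logCounting Z r +
        (Function.locallyFinsuppWithin.logCounting (Dv (fun z => F z 0)) r +
          ∑ i ∈ R, Function.locallyFinsuppWithin.logCounting (Dv (g i)) r) := by
    rw [hD, map_add, map_add, map_sum, Pi.add_apply, Pi.add_apply, Finset.sum_apply]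
  have e3 := hcr' r hr hrE
  have e4 := hC0 r hr
  rw [Nat.cast_one, one_mul] at e4
  have e4' : Function.locallyFinsuppWithin.logCounting (Dv (fun z => F z 0)) r ≤ T + |C0| :=
    e4.trans (add_le_add le_rfl (le_abs_self _))
  have e5 : ∑ i ∈ R, Function.locallyFinsuppWithin.logCounting (Dv (g i)) r ≤
      (R.card : ℝ) * T + ∑ i ∈ R, |Ci i| := by
    rw [← nsmul_eq_mul, ← Finset.sum_const, ← Finset.sum_add_distrib]
    refine Finset.sum_le_sum fun i _ => (hCi i r hr).trans ?_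
    exact add_le_add le_rfl (le_abs_self _)
  -- the first term
  have e6 : Function.locallyFinsuppWithin.logCounting Z r ≤
      ((dA k K Q + 2 * ω : ℕ) : ℝ) / (K : ℝ) ^ 2 * T + |K1| * S := by
    have e7 : (K : ℝ) ^ 2 * Function.locallyFinsuppWithin.logCounting Z r ≤
        ((dA k K Q + 2 * ω : ℕ) : ℝ) * T + K1 * S := by
      have := e3
      push_cast at this ⊢
      exact this
    have e8 : K1 * S ≤ |K1| * S * (K : ℝ) ^ 2 := by
      have h1 : K1 * S ≤ |K1| * S := mul_le_mul_of_nonneg_right (le_abs_self _) (by linarith)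
      have h2 : 0 ≤ |K1| * S := by positivity
      exact h1.trans (le_mul_of_one_le_right h2 hKr)
    rw [div_mul_eq_mul_div, ← sub_le_iff_le_add, le_div_iff₀ hKpos]
    linarith
  -- the coefficients
  set A1 : ℝ := ((dA k K Q + 2 * ω : ℕ) : ℝ) / (K : ℝ) ^ 2 + 1 + R.card with hA1
  have hA1M : A1 ≤ M := by
    have h1 : ((dA k K Q + 2 * ω : ℕ) : ℝ) / (K : ℝ) ^ 2 ≤
        ((dA k K Q + 2 * ω0 : ℕ) : ℝ) / (K : ℝ) ^ 2 := by
      apply div_le_div_of_nonneg_right _ hKpos.le
      exact_mod_cast (show dA k K Q + 2 * ω ≤ dA k K Q + 2 * ω0 by omega)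
    have h2 : (R.card : ℝ) ≤ N1 := by exact_mod_cast hR
    rw [hA1, hM]
    linarith
  have hA10 : 0 ≤ A1 := by positivity
  have e9 : A1 * T ≤ M * T + M * t1 := by
    have h1 : 0 ≤ (M - A1) * (T + t1) := mul_nonneg (by linarith) (by linarith)
    have h2 : 0 ≤ A1 * t1 := mul_nonneg hA10 ht10
    nlinarith
  have e10 : c0 ≤ c0 * S := le_mul_of_one_le_right hc00 hS1
  have e11 : M * t1 ≤ M * t1 * S := le_mul_of_one_le_right (mul_nonneg hM0 ht10) hS1
  have e12 : ((dA k K Q + 2 * ω : ℕ) : ℝ) / (K : ℝ) ^ 2 * T + T + R.card * T = A1 * T := by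
    rw [hA1]; ring
  have e13 : (|K1| + c0 + M * t1) * S = |K1| * S + c0 * S + M * t1 * S := by ring
  rw [e13]
  have e14 : |C0| + ∑ i ∈ R, |Ci i| = c0 := hc0.symm
  linarith

/-- the same for a class of families -/
theorem nd_zero {k K ω0 N1 : ℕ} (hK : 1 ≤ K) (h : ∀ (Q : ℕ)
    (a : Fin Q → Fin (k + 3) → ℂ),
    AlgebraicIndependent ℚ (fun p : Fin Q × Fin (k + 3) => a p.1 p.2) →
    ∀ {Ω : Type} [Nonempty Ω] (y : Ω → YV (k + 2) → ℂ) (f : Ω → Fin (k + 3) → ℂ),
    (∀ z, f z 0 = 1) → Irr y →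
    ∃ ω ≤ ω0, ∃ (R : Finset (Fin Q)) (z0 : Ω) (G : MvPolynomial (Vr (k + 2)) ℂ),
      R.card ≤ N1 ∧ Bd ω (dA k K Q) G ∧ Van (K ^ 2) y (fun i : {i // i ∉ R} => a i) G ∧
      eval (ev (y z0) (f z0) (one (k + 2))) G ≠ 0)
    (Q : ℕ) (a : Fin Q → Fin (k + 3) → ℂ)
    (ha : AlgebraicIndependent ℚ (fun p : Fin Q × Fin (k + 3) => a p.1 p.2))
    (F : ℂ → Fin (k + 3) → ℂ) (hF : Differentiable ℂ F) (hF0 : ∀ z, F z ≠ 0)
    (h0 : ∃ z, F z 0 ≠ 0) (hne : ∀ i, ∃ z, ∑ l, a i l * F z l ≠ 0) :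
    ∃ (C : ℝ) (E : Set ℝ), MeasureTheory.volume E < ⊤ ∧ ∀ r, 1 ≤ r → r ∉ E →
      Nbar (crs a F) r ≤
        (((dA k K Q + 2 * ω0 : ℕ) : ℝ) / (K : ℝ) ^ 2 + 1 + N1) * charT F r +
          C * (Real.posLog (charT F r) + Real.log r + 1) :=
  nd_zero_c hK a (fun y f hf hy => h Q a ha y f hf hy) F hF hF0 h0 hne

end Pool.Agent.TT
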