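import Pool.Agent.Lib_MP_b9fedf_tt.TotalB
import Pool.Agent.Lib_MP_b9fedf_lo.Mono

/-! [TT-C1d]: the second main theorem with total truncation, all curves. -/

set_option autoImplicit false

namespace Pool.Agent.TT
open MvPolynomial Filter Metric Real Set Function MeromorphicOn ValueDistribution
open Pool.Agent.GGL Pool.Agent.Stat Pool.Agent.LO Pool.Agent.LG Pool.Agent.SQ

/-- at most `k + 1` members contain a non-constant curve -/
private theorem card_contain {k Q : ℕ} (a : Fin Q → Fin (k + 3) → ℂ)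
    (hgp : ∀ S : Finset (Fin Q), S.card ≤ k + 3 → LinearIndependent ℂ (fun i : S => a i))
    (f : ℂ → Fin (k + 3) → ℂ) (hf0 : ∀ z, f z ≠ 0) (hnc : ¬ ∀ z w, ∃ c : ℂ, f w = c • f z)
    (U : Finset (Fin Q)) (hU : ∀ i ∈ U, ∀ z, ∑ l, a i l * f z l = 0) : U.card ≤ k + 1 := by
  classical
  by_contra hcon
  push Not at hcon
  apply hnc
  obtain ⟨U', hU', hU'c⟩ := Finset.exists_subset_card_eq (s := U) (n := k + 2) hcon
  have hli := hgp U' (by omega)
  set W : Submodule ℂ (Fin (k + 3) → ℂ) :=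
    LinearMap.ker (Matrix.mulVecLin (Matrix.of fun i : U' => a i)) with hW
  have hWdim : Module.finrank ℂ W = 1 := by
    have h1 := LinearMap.finrank_range_add_finrank_ker
      (Matrix.mulVecLin (Matrix.of fun i : U' => a i))
    have h2 : Module.finrank ℂ (LinearMap.range (Matrix.mulVecLin
        (Matrix.of fun i : U' => a i))) = k + 2 := by
      have h3 : (Matrix.of fun i : U' => a i).rank = k + 2 := by
        have h4 : LinearIndependent ℂ (Matrix.of fun i : U' => a i).row := hli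
        rw [h4.rank_matrix, Fintype.card_coe, hU'c]
      exact h3
    rw [h2, Module.finrank_fin_fun] at h1
    show Module.finrank ℂ (LinearMap.ker (Matrix.mulVecLin (Matrix.of fun i : U' => a i))) = 1
    omega
  obtain ⟨t, ht0, ht⟩ := finrank_eq_one_iff'.mp hWdim
  have h1 : ∀ z, ∃ c : ℂ, f z = c • (t : Fin (k + 3) → ℂ) := by
    intro z
    have h2 : f z ∈ W := by
      rw [hW, LinearMap.mem_ker]
      funext i
      exact hU i (hU' i.2) z
    obtain ⟨c, hc⟩ := ht ⟨_, h2⟩
    exact ⟨c, (congrArg Subtype.val hc).symm⟩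
  intro z w
  obtain ⟨c, hc⟩ := h1 z
  obtain ⟨c', hc'⟩ := h1 w
  have hc0 : c ≠ 0 := by
    rintro rfl
    exact hf0 z (by rw [hc, zero_smul])
  refine ⟨c' / c, ?_⟩
  rw [hc', hc, smul_smul, div_mul_cancel₀ _ hc0]

/-- [TT-C1d] The same for all non-constant curves: the product over the members which do not contain the curve.  Proof.  At most `k + 1` members
contain the curve (otherwise it is constant, as in `mult_all` of Lib_MP_b9fedf_lg/Apps.lean); apply `total_smt` to the others
(`Fin Q'` and a bijection). -/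
theorem total_all (k : ℕ) {ε : ℝ} (hε : 0 < ε) : ∃ C : ℝ, 0 ≤ C ∧ ∀ (Q : ℕ)
    (a : Fin Q → Fin (k + 3) → ℂ),
    AlgebraicIndependent ℚ (fun p : Fin Q × Fin (k + 3) => a p.1 p.2) →
    ∀ f : ℂ → Fin (k + 3) → ℂ, Differentiable ℂ f → (∀ z, f z ≠ 0) →
    (¬ ∀ z w, ∃ c : ℂ, f w = c • f z) →
    ∀ T : Finset (Fin Q), (∀ i, i ∈ T ↔ ∃ z, ∑ l, a i l * f z l ≠ 0) →
    ∃ (K : ℝ) (E : Set ℝ), MeasureTheory.volume E < ⊤ ∧ ∀ r, 1 ≤ r → r ∉ E →
      ((1 - ε) * Q - C) * charT f r ≤ Nbar (fun z => ∏ i ∈ T, ∑ l, a i l * f z l) r +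
        K * (Real.posLog (charT f r) + Real.log r + 1) := by
  classical
  obtain ⟨C, hC, hmain⟩ := total_smt k hε
  refine ⟨C + (k + 1), by positivity, ?_⟩
  intro Q a ha f hf hf0 hnc T hT
  -- the members which contain the curve
  have hgp : ∀ S : Finset (Fin Q), S.card ≤ k + 3 → LinearIndependent ℂ (fun i : S => a i) :=
    fun S hS => gp_of_algInd a ha S hS
  have hUc : (Finset.univ \ T).card ≤ k + 1 := by
    refine card_contain a hgp f hf0 hnc _ fun i hi z => ?_
    by_contra hne
    exact (Finset.mem_sdiff.mp hi).2 ((hT i).2 ⟨z, hne⟩)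
  have hcard : Q ≤ T.card + (k + 1) := by
    have h1 := Finset.card_sdiff_add_card_eq_card (Finset.subset_univ T)
    rw [Finset.card_univ, Fintype.card_fin] at h1
    omega
  have hcard' : T.card ≤ Q := by
    have h1 := Finset.card_le_univ T
    rwa [Fintype.card_fin] at h1
  -- the others, numbered
  let e : Fin T.card → Fin Q := fun i => (T.equivFin.symm i : Fin Q)
  have heinj : Function.Injective e := fun i j hij =>
    T.equivFin.symm.injective (Subtype.ext hij)
  have he : ∀ i, e i ∈ T := fun i => (T.equivFin.symm i).2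
  have ha' : AlgebraicIndependent ℚ (fun p : Fin T.card × Fin (k + 3) => a (e p.1) p.2) := by
    have h1 := ha.comp (fun p : Fin T.card × Fin (k + 3) => (e p.1, p.2)) (by
      rintro ⟨i, l⟩ ⟨j, m⟩ hij
      rw [Prod.mk.injEq] at hij
      exact Prod.ext (heinj hij.1) hij.2)
    exact h1
  obtain ⟨K, E, hE, hK⟩ := hmain T.card (fun i => a (e i)) ha' f hf hf0 hnc
    (fun i => (hT (e i)).1 (he i))
  refine ⟨K + (1 + ε) * (k + 1) * |charT f 1|, E, hE, fun r hr hrE => ?_⟩
  have h1 := hK r hr hrE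
  have hprod : (fun z => ∏ i, ∑ l, a (e i) l * f z l) =
      fun z => ∏ i ∈ T, ∑ l, a i l * f z l := by
    funext z
    rw [← Finset.prod_coe_sort T]
    exact Fintype.prod_equiv T.equivFin.symm _ _ fun i => rfl
  rw [hprod] at h1
  have hmono := charT_mono hf hf0 one_pos hr
  have habs : -|charT f 1| ≤ charT f r := (neg_abs_le _).trans hmono
  have hQ1 : (Q : ℝ) ≤ T.card + (k + 1) := by exact_mod_cast hcard
  have hQ2 : (T.card : ℝ) ≤ Q := by exact_mod_cast hcard'
  set δ : ℝ := (k + 1) - (1 - ε) * (Q - T.card) with hδ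
  have hδ0 : 0 ≤ δ := by
    rw [hδ]
    nlinarith
  have hδ1 : δ ≤ (1 + ε) * (k + 1) := by
    have h3 : 0 ≤ (Q : ℝ) - T.card := by linarith
    have h4 : ε * ((Q : ℝ) - T.card) ≤ ε * (k + 1) :=
      mul_le_mul_of_nonneg_left (by linarith) hε.le
    rw [hδ]
    linarith
  have h2 : -((1 + ε) * (k + 1) * |charT f 1|) ≤ δ * charT f r := by
    have h3 : δ * (-|charT f 1|) ≤ δ * charT f r := mul_le_mul_of_nonneg_left habs hδ0
    have h4 : δ * |charT f 1| ≤ (1 + ε) * (k + 1) * |charT f 1| :=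
      mul_le_mul_of_nonneg_right hδ1 (abs_nonneg _)
    linarith
  have h5 : (1 : ℝ) ≤ Real.posLog (charT f r) + Real.log r + 1 := by
    have := Real.posLog_nonneg (x := charT f r)
    have := Real.log_nonneg hr
    linarith
  have h6 : (1 + ε) * (k + 1) * |charT f 1| ≤
      (1 + ε) * (k + 1) * |charT f 1| * (Real.posLog (charT f r) + Real.log r + 1) :=
    le_mul_of_one_le_right (by positivity) h5
  have h7 : ((1 - ε) * Q - (C + (k + 1))) * charT f r + δ * charT f r =
      ((1 - ε) * T.card - C) * charT f r := by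
    rw [hδ]
    ring
  rw [add_mul]
  linarith

end Pool.Agent.TT
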