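import Pool.Agent.Lib_MP_b9fedf_tt.Cyclic
import Pool.Agent.Lib_MP_b9fedf_tt.TotalC

/-! Draft of the hand-in for MP_b9fedf_ag: the second main theorem with total truncation. -/

set_option autoImplicit false

namespace Pool.Agent.TT
open Pool.Agent.GGL Pool.Agent.SQ Pool.Agent.Stat Pool.Agent.LO Pool.Agent.GH Pool.Agent.LG

open scoped Classical in
/-- Let `n ≥ 2` and let the coordinates of the hyperplanes `a i` of `ℙⁿ`, `i < Q`, be algebraically
independent over `ℚ` (very general hyperplanes).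

(1) The second main theorem with total truncation: for all `ε > 0` there is `C = C(n, ε)`,
independent of `Q` and `a`, such that all non-constant entire curves `f` satisfy
`((1 - ε) Q - C) T_f(r) ≤ N̄(r) + small`, where `N̄` counts, without multiplicities, the zeros of the
product of all `a_i · f` which do not vanish identically.

There is `N = N(n)` such that for `Q ≥ N`:

(2) If the divisor `∏ a_i = 0` is multiple on a variety `X` over `ℙⁿ` (the sum of the relative orders
of the members is never `1`), then every entire curve of `X` lies in a fibre or over a member.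

(3) In particular for the cyclic covers of all degrees `e ≥ 2`, `e ∣ Q`: every non-constant entire
curve of `w ^ e x_0 ^ (Q - e) = ∏ a_i(x)` lies over a member. -/
theorem result_b :
    ∀ n : ℕ, 2 ≤ n →
      (∀ ε : ℝ, 0 < ε → ∃ C : ℝ, ∀ (Q : ℕ) (a : Fin Q → Fin (n + 1) → ℂ),
        AlgebraicIndependent ℚ (fun p : Fin Q × Fin (n + 1) => a p.1 p.2) →
        ∀ f : ℂ → Fin (n + 1) → ℂ, Differentiable ℂ f → (∀ z, f z ≠ 0) →
          (¬ ∀ z w, ∃ c : ℂ, f w = c • f z) →
          ∃ (K : ℝ) (E : Set ℝ), MeasureTheory.volume E < ⊤ ∧ ∀ r, 1 ≤ r → r ∉ E →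
            ((1 - ε) * Q - C) * charT f r ≤
              Nbar (fun z => ∏ i : Fin Q, if ∀ w, ∑ l, a i l * f w l = 0 then 1 else
                ∑ l, a i l * f z l) r + K * (Real.posLog (charT f r) + Real.log r + 1)) ∧
      ∃ N : ℕ, ∀ Q, N ≤ Q → ∀ a : Fin Q → Fin (n + 1) → ℂ,
        AlgebraicIndependent ℚ (fun p : Fin Q × Fin (n + 1) => a p.1 p.2) →
        (∀ (m e : ℕ) (S : Set (MvPolynomial (Fin (m + 1)) ℂ))
          (φ : Fin (n + 1) → MvPolynomial (Fin (m + 1)) ℂ),
          (∀ p ∈ S, ∃ d' : ℕ, p.IsHomogeneous d') → (∀ i, (φ i).IsHomogeneous e) →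
          MultipleForm S φ (∏ i, lin (a i)) →
          CurvesIn S (MvPolynomial.aeval φ (∏ i, lin (a i))) φ ∧
          (GGL m (insert (MvPolynomial.aeval φ (∏ i, lin (a i))) S) →
            (∀ t : Fin (n + 1) → ℂ, t ≠ 0 → GGL m (Fibre S φ t)) → GGL m S)) ∧
        ∀ e : ℕ, 2 ≤ e → e ∣ Q → ∀ f : ℂ → Fin (n + 2) → ℂ, Differentiable ℂ f →
          (∀ z, f z ≠ 0) →
          (∀ z, f z (Fin.last (n + 1)) ^ e * f z 0 ^ (Q - e) =
            ∏ i, ∑ l : Fin (n + 1), a i l * f z l.castSucc) →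
          (¬ ∀ z w, ∃ c : ℂ, f w = c • f z) →
          ∀ z, ∏ i, ∑ l : Fin (n + 1), a i l * f z l.castSucc = 0 := by
  intro n hn
  obtain ⟨k, rfl⟩ : ∃ k, n = k + 2 := ⟨n - 2, by omega⟩
  refine ⟨fun ε hε => ?_, ?_⟩
  · obtain ⟨C, -, hC⟩ := total_all k hε
    refine ⟨C, fun Q a ha f hf hf0 hnc => ?_⟩
    obtain ⟨K, E, hE, h⟩ := hC Q a ha f hf hf0 hnc
      (Finset.univ.filter fun i => ∃ z, ∑ l, a i l * f z l ≠ 0) (by simp)
    refine ⟨K, E, hE, fun r hr hrE => ?_⟩
    have h1 := h r hr hrE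
    have h2 : (fun z => ∏ i ∈ Finset.univ.filter (fun i => ∃ z, ∑ l, a i l * f z l ≠ 0),
        ∑ l, a i l * f z l) = fun z => ∏ i : Fin Q, if ∀ w, ∑ l, a i l * f w l = 0 then 1 else
        ∑ l, a i l * f z l := by
      funext z
      rw [Finset.prod_filter]
      refine Finset.prod_congr rfl fun i _ => ?_
      by_cases h3 : ∀ w, ∑ l, a i l * f w l = 0
      · rw [if_pos h3, if_neg]
        push Not
        exact h3
      · rw [if_neg h3, if_pos]
        push Not at h3
        exact h3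
    rw [h2] at h1
    exact h1
  · obtain ⟨N₁, hN₁⟩ := curves_tot k
    obtain ⟨N₂, hN₂⟩ := cyclic_curves k
    refine ⟨max N₁ N₂, fun Q hQ a ha => ⟨?_, ?_⟩⟩
    · intro m e S φ _ _ hM
      have h1 := hN₁ Q ((le_max_left _ _).trans hQ) a ha S φ hM
      exact ⟨h1, ggl_of_curves h1⟩
    · intro e he heQ f hf hf0 hfE hnc
      exact hN₂ Q ((le_max_right _ _).trans hQ) a ha e he heQ f hf hf0 hfE hnc

end Pool.Agent.TT
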