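import Pool.Agent.Lib_MP_b9fedf_tt.NdB
import Pool.Agent.Lib_MP_b9fedf_tt.TotalA
import Pool.Agent.Lib_MP_b9fedf_lo.Mono

/-! [TT-C1c]: the second main theorem with total truncation, curves in no member. -/

set_option autoImplicit false

namespace Pool.Agent.TT
open MvPolynomial Filter Metric Real Set Function MeromorphicOn ValueDistribution
open Pool.Agent.GGL Pool.Agent.Stat Pool.Agent.LO Pool.Agent.LG Pool.Agent.SQ

/-- `4 c √Q ≤ ε / 2 * Q + 8 c ^ 2 / ε` -/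
private theorem amgm_tb {ε c q Q : ℝ} (hε : 0 < ε) (hq : q ^ 2 ≤ Q) :
    4 * c * q ≤ ε / 2 * Q + 8 * c ^ 2 / ε := by
  have h1 : 0 ≤ (ε * q - 4 * c) ^ 2 / (2 * ε) := by positivity
  have h2 : (ε * q - 4 * c) ^ 2 / (2 * ε) = ε / 2 * q ^ 2 + 8 * c ^ 2 / ε - 4 * c * q := by
    field_simp
    ring
  have h3 : ε / 2 * q ^ 2 ≤ ε / 2 * Q := mul_le_mul_of_nonneg_left hq (by linarith)
  linarith

/-- [TT-C1c] **The second main theorem with total truncation** for very general hyperplanes, curves not contained in a member.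
Proof.  `smt_all` with `s = Nat.sqrt Q + 2` (`genForm_of_algInd`), `nbar_sum`, and `nd_bound` with `ε / (2 (k + 1))`;
`4 (k + 1) sqrt Q ≤ ε / 2 * Q + 8 (k + 1) ^ 2 / ε`. -/
theorem total_smt (k : ℕ) {ε : ℝ} (hε : 0 < ε) : ∃ C : ℝ, 0 ≤ C ∧ ∀ (Q : ℕ)
    (a : Fin Q → Fin (k + 3) → ℂ),
    AlgebraicIndependent ℚ (fun p : Fin Q × Fin (k + 3) => a p.1 p.2) →
    ∀ f : ℂ → Fin (k + 3) → ℂ, Differentiable ℂ f → (∀ z, f z ≠ 0) →
    (¬ ∀ z w, ∃ c : ℂ, f w = c • f z) → (∀ i, ∃ z, ∑ l, a i l * f z l ≠ 0) →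
    ∃ (K : ℝ) (E : Set ℝ), MeasureTheory.volume E < ⊤ ∧ ∀ r, 1 ≤ r → r ∉ E →
      ((1 - ε) * Q - C) * charT f r ≤ Nbar (fun z => ∏ i, ∑ l, a i l * f z l) r +
        K * (Real.posLog (charT f r) + Real.log r + 1) := by
  have hk0 : (0 : ℝ) ≤ k := Nat.cast_nonneg k
  have hk1 : (0 : ℝ) < (k : ℝ) + 1 := by linarith
  obtain ⟨C2, hC2, hnd⟩ := nd_bound k (ε := ε / (2 * ((k : ℝ) + 1))) (by positivity)
  refine ⟨8 * ((k : ℝ) + 1) ^ 2 / ε + 6 * ((k : ℝ) + 1) + (k + 2) ^ 2 + (k + 1) * C2,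
    by positivity, fun Q a ha f hf hf0 hnc hne => ?_⟩
  set s : ℕ := Nat.sqrt Q + 2 with hs
  have hs2 : 2 ≤ s := Nat.le_add_left 2 _
  have hcard : Fintype.card (Fin Q) ≤ s ^ 2 := by
    rw [Fintype.card_fin]
    have h1 := Nat.lt_succ_sqrt Q
    have h2 : (Nat.sqrt Q).succ ≤ s := by omega
    have h3 := Nat.mul_le_mul h2 h2
    rw [pow_two]
    exact (h1.le).trans h3
  have hgen : GenForm s a := genForm_of_algInd hs2 hcard a ha
  obtain ⟨K1, E1, hE1, h1⟩ := smt_all hs2 a hgen f hf hf0 hnc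
  obtain ⟨K2, E2, hE2, h2⟩ := hnd Q a ha f hf hf0 hne
  -- the difference of the factors
  set Δ : ℝ := ((Q : ℝ) - (k + 1) * (4 * s - 2) - (k + 2) ^ 2 - ε / 2 * Q - (k + 1) * C2) -
    ((1 - ε) * Q - (8 * ((k : ℝ) + 1) ^ 2 / ε + 6 * ((k : ℝ) + 1) + (k + 2) ^ 2 +
      (k + 1) * C2)) with hΔ
  have hΔ0 : 0 ≤ Δ := by
    have e1 : ((Nat.sqrt Q : ℕ) : ℝ) ^ 2 ≤ (Q : ℝ) := by
      exact_mod_cast Nat.sqrt_le' Q
    have e2 := amgm_tb (c := (k : ℝ) + 1) hε e1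
    have e3 : (s : ℝ) = (Nat.sqrt Q : ℕ) + 2 := by
      rw [hs]
      push_cast
      ring
    rw [hΔ, e3]
    nlinarith [e2]
  refine ⟨K1 + (k + 1) * K2 + Δ * |charT f 1|, E1 ∪ E2,
    (MeasureTheory.measure_union_le _ _).trans_lt (ENNReal.add_lt_top.2 ⟨hE1, hE2⟩),
    fun r hr hrE => ?_⟩
  rw [Set.mem_union, not_or] at hrE
  have h3 := h1 r hr hrE.1
  have h4 := h2 r hr hrE.2
  have h5 := nbar_sum a f hf hf0 hne hgen.1 hr
  have hT : charT f 1 ≤ charT f r := charT_mono hf hf0 one_pos hr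
  have hL1 : 1 ≤ Real.posLog (charT f r) + Real.log r + 1 := by
    have := Real.posLog_nonneg (x := charT f r)
    have := Real.log_nonneg hr
    linarith
  rw [Fintype.card_fin] at h3
  set T : ℝ := charT f r with hTd
  set L : ℝ := Real.posLog T + Real.log r + 1 with hLd
  have h6 : ((k : ℝ) + 1) * Nbar (crs a f) r ≤
      (k + 1) * ((ε / (2 * ((k : ℝ) + 1)) * Q + C2) * T + K2 * L) :=
    mul_le_mul_of_nonneg_left h4 hk1.le
  have h7 : ((k : ℝ) + 1) * ((ε / (2 * ((k : ℝ) + 1)) * Q + C2) * T + K2 * L) =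
      (ε / 2 * Q + (k + 1) * C2) * T + (k + 1) * K2 * L := by
    field_simp
  have h8 : 0 ≤ Δ * T + Δ * |charT f 1| * L := by
    have e1 : -|charT f 1| ≤ T := (neg_abs_le _).trans hT
    have e2 : |charT f 1| ≤ |charT f 1| * L := le_mul_of_one_le_right (abs_nonneg _) hL1
    have e3 : 0 ≤ Δ * (T + |charT f 1| * L) := mul_nonneg hΔ0 (by linarith)
    linarith
  have h9 : ((1 - ε) * Q - (8 * ((k : ℝ) + 1) ^ 2 / ε + 6 * ((k : ℝ) + 1) + (k + 2) ^ 2 +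
      (k + 1) * C2)) * T =
      ((Q : ℝ) - (k + 1) * (4 * s - 2) - (k + 2) ^ 2) * T - (ε / 2 * Q + (k + 1) * C2) * T -
        Δ * T := by
    rw [hΔ]
    ring
  rw [h9]
  linarith

end Pool.Agent.TT
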