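import Pool.Agent.Lib_MP_b9fedf_tt.Ver
import Pool.Agent.Lib_MP_b9fedf_tt.TotalC

/-! [TT-F2]: the second main theorem with total truncation for hypersurfaces. -/

set_option autoImplicit false

namespace Pool.Agent.TT
open MvPolynomial
open Pool.Agent.GGL Pool.Agent.Stat Pool.Agent.LO Pool.Agent.LG Pool.Agent.SQ Pool.Agent.GH

/-- [TT-F2] Proof.  `total_all` for the hyperplanes `c ↦ a i (E c)` and the curve `ver E f` in `ℙ^(k+2)`, where
`k + 3 = (n + d).choose d` and `E : Fin (k + 3) ≃ Mon n d` (`card_Mon`); `log+ (d T) ≤ log+ T + log d`. -/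
theorem total_forms {n d : ℕ} (hd : 1 ≤ d) (h3 : 3 ≤ (n + d).choose d) {ε : ℝ}
    (hε : 0 < ε) : ∃ C : ℝ, 0 ≤ C ∧ ∀ (Q : ℕ) (a : Fin Q → Mon n d → ℂ),
    AlgebraicIndependent ℚ (fun p : Fin Q × Mon n d => a p.1 p.2) →
    ∀ f : ℂ → Fin (n + 1) → ℂ, Differentiable ℂ f → (∀ z, f z ≠ 0) →
    (¬ ∀ z w, ∃ c : ℂ, f w = c • f z) →
    ∀ T : Finset (Fin Q), (∀ i, i ∈ T ↔ ∃ z, eval (f z) (frm (a i)) ≠ 0) →
    ∃ (K : ℝ) (E : Set ℝ), MeasureTheory.volume E < ⊤ ∧ ∀ r, 1 ≤ r → r ∉ E →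
      ((1 - ε) * Q - C) * (d * charT f r) ≤ Nbar (fun z => ∏ i ∈ T, eval (f z) (frm (a i))) r +
        K * (Real.posLog (charT f r) + Real.log r + 1) := by
  obtain ⟨k, hk⟩ : ∃ k, (n + d).choose d = k + 3 := ⟨(n + d).choose d - 3, by omega⟩
  have hcard : Fintype.card (Mon n d) = k + 3 := by rw [card_Mon, hk]
  let E : Fin (k + 3) ≃ Mon n d := (Fintype.equivFinOfCardEq hcard).symm
  obtain ⟨C, hC, hmain⟩ := total_all k hε
  refine ⟨C, hC, fun Q a ha f hf hf0 hnc T hT => ?_⟩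
  have ha' : AlgebraicIndependent ℚ (fun p : Fin Q × Fin (k + 3) => a p.1 (E p.2)) := by
    have h1 := ha.comp (fun p : Fin Q × Fin (k + 3) => (p.1, E p.2)) (by
      rintro ⟨i, l⟩ ⟨j, m⟩ hij
      rw [Prod.mk.injEq] at hij
      exact Prod.ext hij.1 (E.injective hij.2))
    exact h1
  have hT' : ∀ i, i ∈ T ↔ ∃ z, ∑ l, a i (E l) * ver E f z l ≠ 0 := by
    intro i
    rw [hT i]
    simp only [eval_ver E (a i) f]
  obtain ⟨K, E1, hE1, h1⟩ := hmain Q (fun i c => a i (E c)) ha' (ver E f) (ver_diff E hf)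
    (ver_ne E hf0) (ver_nonconst hd E hf0 hnc) T hT'
  refine ⟨|K| * (Real.posLog d + 1), E1, hE1, fun r hr hrE => ?_⟩
  have h2 := h1 r hr hrE
  have h4 : (fun z => ∏ i ∈ T, ∑ l, a i (E l) * ver E f z l) =
      fun z => ∏ i ∈ T, eval (f z) (frm (a i)) := by
    funext z
    exact Finset.prod_congr rfl fun i _ => eval_ver E (a i) f z
  rw [h4, charT_ver] at h2
  have h5 : Real.posLog (d * charT f r) ≤ Real.posLog d + Real.posLog (charT f r) :=
    Real.posLog_mul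
  have h6 : (0 : ℝ) ≤ Real.posLog d := Real.posLog_nonneg
  have h7 : (0 : ℝ) ≤ Real.posLog (charT f r) := Real.posLog_nonneg
  have h8 : (0 : ℝ) ≤ Real.log r := Real.log_nonneg hr
  have h9 : (0 : ℝ) ≤ Real.posLog (d * charT f r) := Real.posLog_nonneg
  have h10 : Real.posLog (d * charT f r) + Real.log r + 1 ≤
      (Real.posLog d + 1) * (Real.posLog (charT f r) + Real.log r + 1) := by
    nlinarith [mul_nonneg h6 h7, mul_nonneg h6 h8]
  have h11 : K * (Real.posLog (d * charT f r) + Real.log r + 1) ≤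
      |K| * (Real.posLog (d * charT f r) + Real.log r + 1) :=
    mul_le_mul_of_nonneg_right (le_abs_self K) (by linarith)
  have h12 : |K| * (Real.posLog (d * charT f r) + Real.log r + 1) ≤
      |K| * ((Real.posLog d + 1) * (Real.posLog (charT f r) + Real.log r + 1)) :=
    mul_le_mul_of_nonneg_left h10 (abs_nonneg K)
  have h13 : |K| * (Real.posLog d + 1) * (Real.posLog (charT f r) + Real.log r + 1) =
      |K| * ((Real.posLog d + 1) * (Real.posLog (charT f r) + Real.log r + 1)) := by ring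
  rw [h13]
  linarith

end Pool.Agent.TT
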