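import Pool.Agent.Lib_MP_b9fedf_gh.BasicC
import Pool.Agent.Lib_MP_b9fedf_st.Defs
import Pool.Agent.Lib_MP_b9fedf_ag.TanCnt

/-! [TT-F1]: the Veronese embedding. -/

set_option autoImplicit false

namespace Pool.Agent.TT
open MvPolynomial
open Pool.Agent.GGL Pool.Agent.Stat Pool.Agent.GH

variable {n d k : ℕ}

/-- the monomials of degree `d` in the coordinates of the curve -/
noncomputable def ver (E : Fin (k + 3) ≃ Mon n d) (f : ℂ → Fin (n + 1) → ℂ) (z : ℂ) :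
    Fin (k + 3) → ℂ := fun c => ∏ l, f z l ^ ((E c).1 l)

private theorem pr_single (x : Fin (n + 1) → ℂ) (l : Fin (n + 1)) (e : ℕ) :
    ∏ j, x j ^ ((Finsupp.single l e : Fin (n + 1) →₀ ℕ) j) = x l ^ e := by
  rw [Finset.prod_eq_single l]
  · rw [Finsupp.single_eq_same]
  · intro b _ hb
    rw [Finsupp.single_eq_of_ne hb, pow_zero]
  · intro h
    exact absurd (Finset.mem_univ l) h

private theorem pr_add (x : Fin (n + 1) → ℂ) (m m' : Fin (n + 1) →₀ ℕ) :
    ∏ j, x j ^ ((m + m') j) = (∏ j, x j ^ (m j)) * ∏ j, x j ^ (m' j) := by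
  rw [← Finset.prod_mul_distrib]
  exact Finset.prod_congr rfl fun j _ => by rw [Finsupp.add_apply, pow_add]

private theorem mem_single (l : Fin (n + 1)) (d : ℕ) :
    (Finsupp.single l d : Fin (n + 1) →₀ ℕ) ∈ Finset.finsuppAntidiag (Finset.univ : Finset (Fin (n + 1))) d := by
  rw [Finset.mem_finsuppAntidiag]
  refine ⟨?_, Finset.subset_univ _⟩
  rw [Finset.sum_eq_single l]
  · rw [Finsupp.single_eq_same]
  · intro b _ hb
    rw [Finsupp.single_eq_of_ne hb]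
  · intro h
    exact absurd (Finset.mem_univ l) h

private theorem mem_pair (l j : Fin (n + 1)) (hd : 1 ≤ d) :
    (Finsupp.single l (d - 1) + Finsupp.single j 1 : Fin (n + 1) →₀ ℕ) ∈
      Finset.finsuppAntidiag (Finset.univ : Finset (Fin (n + 1))) d := by
  have h1 := mem_single (n := n) l (d - 1)
  have h2 := mem_single (n := n) j 1
  rw [Finset.mem_finsuppAntidiag] at h1 h2 ⊢
  refine ⟨?_, Finset.subset_univ _⟩
  have h3 : ∀ i, (Finsupp.single l (d - 1) + Finsupp.single j 1 : Fin (n + 1) →₀ ℕ) i =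
      (Finsupp.single l (d - 1) : Fin (n + 1) →₀ ℕ) i + (Finsupp.single j 1 : Fin (n + 1) →₀ ℕ) i :=
    fun i => Finsupp.add_apply _ _ _
  rw [Finset.sum_congr rfl fun i _ => h3 i, Finset.sum_add_distrib, h1.1, h2.1]
  omega

private theorem mon_sum (m : Mon n d) : ∑ j, (m.1 : Fin (n + 1) →₀ ℕ) j = d :=
  (Finset.mem_finsuppAntidiag.1 m.2).1

private theorem ver_symm (E : Fin (k + 3) ≃ Mon n d) (f : ℂ → Fin (n + 1) → ℂ) (z : ℂ) (m : Mon n d) :
    ver E f z (E.symm m) = ∏ l, f z l ^ (m.1 l) := by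
  unfold ver
  rw [E.apply_symm_apply]

/-- [TT-F1a] -/
theorem ver_diff (E : Fin (k + 3) ≃ Mon n d) {f : ℂ → Fin (n + 1) → ℂ}
    (hf : Differentiable ℂ f) : Differentiable ℂ (ver E f) := by
  rw [differentiable_pi]
  intro c
  unfold ver
  refine Differentiable.fun_finset_prod fun l _ => ?_
  exact ((differentiable_pi.1 hf) l).pow _

/-- [TT-F1b] Proof.  `≤`: each monomial of degree `d`.  `≥`: the monomial `X_l ^ d` for an `l` with `‖f z l‖ = ‖f z‖`. -/
theorem norm_ver (E : Fin (k + 3) ≃ Mon n d) (f : ℂ → Fin (n + 1) → ℂ) (z : ℂ) :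
    ‖ver E f z‖ = ‖f z‖ ^ d := by
  apply le_antisymm
  · rw [pi_norm_le_iff_of_nonneg (pow_nonneg (norm_nonneg _) _)]
    intro c
    unfold ver
    rw [norm_prod]
    calc ∏ l, ‖f z l ^ ((E c).1 l)‖ ≤ ∏ l, ‖f z‖ ^ ((E c).1 l) := by
          refine Finset.prod_le_prod (fun _ _ => norm_nonneg _) fun l _ => ?_
          rw [norm_pow]
          exact pow_le_pow_left₀ (norm_nonneg _) (norm_le_pi_norm _ _) _
      _ = ‖f z‖ ^ d := by rw [Finset.prod_pow_eq_pow_sum, mon_sum]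
  · obtain ⟨l, hl⟩ := Finite.exists_max (fun l => ‖f z l‖)
    have h1 : ‖f z‖ = ‖f z l‖ :=
      le_antisymm ((pi_norm_le_iff_of_nonneg (norm_nonneg _)).2 hl) (norm_le_pi_norm _ _)
    have h2 := ver_symm E f z ⟨_, mem_single l d⟩
    have h3 := norm_le_pi_norm (ver E f z) (E.symm ⟨_, mem_single l d⟩)
    rw [h2, pr_single, norm_pow, ← h1] at h3
    exact h3

theorem ver_ne (E : Fin (k + 3) ≃ Mon n d) {f : ℂ → Fin (n + 1) → ℂ} (hf0 : ∀ z, f z ≠ 0)
    (z : ℂ) : ver E f z ≠ 0 := by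
  rw [← norm_ne_zero_iff, norm_ver]
  exact pow_ne_zero _ (norm_ne_zero_iff.2 (hf0 z))

theorem charT_ver (E : Fin (k + 3) ≃ Mon n d) (f : ℂ → Fin (n + 1) → ℂ) (r : ℝ) :
    charT (ver E f) r = d * charT f r := by
  unfold charT
  have h1 : (fun z => Real.log ‖ver E f z‖) = fun z => (d : ℝ) • Real.log ‖f z‖ := by
    funext z
    rw [norm_ver, Real.log_pow, smul_eq_mul]
  rw [h1, Real.circleAverage_fun_smul, smul_eq_mul]

/-- [TT-F1c] Proof.  Suppose `ver E f w = c ver E f z`; choose `l` with `f z l ≠ 0`; the monomials `X_l ^ d` and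
`X_l ^ (d - 1) X_j` give `c ≠ 0`, `f w l ≠ 0` and `f w j / f w l = f z j / f z l`. -/
theorem ver_nonconst (hd : 1 ≤ d) (E : Fin (k + 3) ≃ Mon n d) {f : ℂ → Fin (n + 1) → ℂ}
    (hf0 : ∀ z, f z ≠ 0) (hnc : ¬ ∀ z w, ∃ c : ℂ, f w = c • f z) :
    ¬ ∀ z w, ∃ c : ℂ, ver E f w = c • ver E f z := by
  intro hcon
  apply hnc
  intro z w
  obtain ⟨c, hc⟩ := hcon z w
  have hc0 : c ≠ 0 := by
    rintro rfl
    rw [zero_smul] at hc
    exact ver_ne E hf0 w hc
  obtain ⟨l, hl⟩ : ∃ l, f z l ≠ 0 := by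
    by_contra h
    push Not at h
    exact hf0 z (funext h)
  have h1 := congrFun hc (E.symm ⟨_, mem_single l d⟩)
  rw [Pi.smul_apply, ver_symm, ver_symm, pr_single, pr_single, smul_eq_mul] at h1
  have hw : f w l ≠ 0 := by
    intro h
    rw [h, zero_pow (by omega)] at h1
    exact mul_ne_zero hc0 (pow_ne_zero _ hl) h1.symm
  refine ⟨c * f z l ^ (d - 1) / f w l ^ (d - 1), ?_⟩
  funext j
  have h2 := congrFun hc (E.symm ⟨_, mem_pair l j hd⟩)
  rw [Pi.smul_apply, ver_symm, ver_symm, pr_add, pr_add, pr_single, pr_single, pr_single, pr_single, smul_eq_mul,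
    pow_one, pow_one] at h2
  rw [Pi.smul_apply, smul_eq_mul, div_mul_eq_mul_div, eq_div_iff (pow_ne_zero _ hw)]
  rw [mul_comm, h2]
  ring

/-- [TT-F1d] -/
theorem eval_ver (E : Fin (k + 3) ≃ Mon n d) (a : Mon n d → ℂ) (f : ℂ → Fin (n + 1) → ℂ)
    (z : ℂ) : ∑ c, a (E c) * ver E f z c = eval (f z) (frm a) := by
  unfold frm ver
  rw [map_sum, ← E.sum_comp]
  refine Finset.sum_congr rfl fun c _ => ?_
  rw [eval_monomial, Finsupp.prod_fintype]
  intro l
  exact pow_zero _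

end Pool.Agent.TT
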