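import Pool.Agent.Lib_MP_b9fedf_tt.NdG
import Pool.Agent.Lib_MP_b9fedf_tt.GdOpen
import Pool.Agent.Lib_MP_b9fedf_tt.TotalA
import Pool.Agent.Lib_MP_b9fedf_tt.Ver
import Pool.Agent.Lib_MP_b9fedf_lo.Mono

/-! The second main theorem with total truncation for general hypersurfaces. -/

set_option autoImplicit false

namespace Pool.Agent.TT

section
open MvPolynomial Filter Metric Real Set Function MeromorphicOn ValueDistribution
open Pool.Agent.GGL Pool.Agent.Stat Pool.Agent.LO Pool.Agent.LG Pool.Agent.SQ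

/-- `4 c √Q ≤ ε / 2 * Q + 8 c ^ 2 / ε` -/
private theorem amgm_tb {ε c q Q : ℝ} (hε : 0 < ε) (hq : q ^ 2 ≤ Q) :
    4 * c * q ≤ ε / 2 * Q + 8 * c ^ 2 / ε := by
  have h1 : 0 ≤ (ε * q - 4 * c) ^ 2 / (2 * ε) := by positivity
  have h2 : (ε * q - 4 * c) ^ 2 / (2 * ε) = ε / 2 * q ^ 2 + 8 * c ^ 2 / ε - 4 * c * q := by
    field_simp
    ring
  have h3 : ε / 2 * q ^ 2 ≤ ε / 2 * Q := mul_le_mul_of_nonneg_left hq (by linarith)
  linarith

/-- The second main theorem with total truncation, curves not contained in a member. -/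
theorem total_smt_c (k : ℕ) {ε : ℝ} (hε : 0 < ε) : ∃ K0 : ℕ, 1 ≤ K0 ∧ ∀ ω0 N1 : ℕ, ∃ C : ℝ, 0 ≤ C ∧
    ∀ (Q : ℕ) (a : Fin Q → Fin (k + 3) → ℂ),
    (GenForm (Nat.sqrt Q + 2) a ∧
      ∀ τ : Equiv.Perm (Fin (k + 3)), AlgC k K0 ω0 N1 (fun i l => a i (τ l))) →
    ∀ f : ℂ → Fin (k + 3) → ℂ, Differentiable ℂ f → (∀ z, f z ≠ 0) →
    (¬ ∀ z w, ∃ c : ℂ, f w = c • f z) → (∀ i, ∃ z, ∑ l, a i l * f z l ≠ 0) →
    ∃ (K : ℝ) (E : Set ℝ), MeasureTheory.volume E < ⊤ ∧ ∀ r, 1 ≤ r → r ∉ E →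
      ((1 - ε) * Q - C) * charT f r ≤ Nbar (fun z => ∏ i, ∑ l, a i l * f z l) r +
        K * (Real.posLog (charT f r) + Real.log r + 1) := by
  have hk0 : (0 : ℝ) ≤ k := Nat.cast_nonneg k
  have hk1 : (0 : ℝ) < (k : ℝ) + 1 := by linarith
  obtain ⟨K0, hK0, hnd'⟩ := nd_bound_c k (ε := ε / (2 * ((k : ℝ) + 1))) (by positivity)
  refine ⟨K0, hK0, fun ω0 N1 => ?_⟩
  obtain ⟨C2, hC2, hnd⟩ := hnd' ω0 N1
  refine ⟨8 * ((k : ℝ) + 1) ^ 2 / ε + 6 * ((k : ℝ) + 1) + (k + 2) ^ 2 + (k + 1) * C2,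
    by positivity, fun Q a ha f hf hf0 hnc hne => ?_⟩
  set s : ℕ := Nat.sqrt Q + 2 with hs
  have hs2 : 2 ≤ s := Nat.le_add_left 2 _
  have hgen : GenForm s a := ha.1
  obtain ⟨K1, E1, hE1, h1⟩ := smt_all hs2 a hgen f hf hf0 hnc
  obtain ⟨K2, E2, hE2, h2⟩ := hnd Q a ha.2 f hf hf0 hne
  -- the difference of the factors
  set Δ : ℝ := ((Q : ℝ) - (k + 1) * (4 * s - 2) - (k + 2) ^ 2 - ε / 2 * Q - (k + 1) * C2) -
    ((1 - ε) * Q - (8 * ((k : ℝ) + 1) ^ 2 / ε + 6 * ((k : ℝ) + 1) + (k + 2) ^ 2 +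
      (k + 1) * C2)) with hΔ
  have hΔ0 : 0 ≤ Δ := by
    have e1 : ((Nat.sqrt Q : ℕ) : ℝ) ^ 2 ≤ (Q : ℝ) := by
      exact_mod_cast Nat.sqrt_le' Q
    have e2 := amgm_tb (c := (k : ℝ) + 1) hε e1
    have e3 : (s : ℝ) = (Nat.sqrt Q : ℕ) + 2 := by
      rw [hs]
      push_cast
      ring
    rw [hΔ, e3]
    nlinarith [e2]
  refine ⟨K1 + (k + 1) * K2 + Δ * |charT f 1|, E1 ∪ E2,
    (MeasureTheory.measure_union_le _ _).trans_lt (ENNReal.add_lt_top.2 ⟨hE1, hE2⟩),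
    fun r hr hrE => ?_⟩
  rw [Set.mem_union, not_or] at hrE
  have h3 := h1 r hr hrE.1
  have h4 := h2 r hr hrE.2
  have h5 := nbar_sum a f hf hf0 hne hgen.1 hr
  have hT : charT f 1 ≤ charT f r := charT_mono hf hf0 one_pos hr
  have hL1 : 1 ≤ Real.posLog (charT f r) + Real.log r + 1 := by
    have := Real.posLog_nonneg (x := charT f r)
    have := Real.log_nonneg hr
    linarith
  rw [Fintype.card_fin] at h3
  set T : ℝ := charT f r with hTd
  set L : ℝ := Real.posLog T + Real.log r + 1 with hLd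
  have h6 : ((k : ℝ) + 1) * Nbar (crs a f) r ≤
      (k + 1) * ((ε / (2 * ((k : ℝ) + 1)) * Q + C2) * T + K2 * L) :=
    mul_le_mul_of_nonneg_left h4 hk1.le
  have h7 : ((k : ℝ) + 1) * ((ε / (2 * ((k : ℝ) + 1)) * Q + C2) * T + K2 * L) =
      (ε / 2 * Q + (k + 1) * C2) * T + (k + 1) * K2 * L := by
    field_simp
  have h8 : 0 ≤ Δ * T + Δ * |charT f 1| * L := by
    have e1 : -|charT f 1| ≤ T := (neg_abs_le _).trans hT
    have e2 : |charT f 1| ≤ |charT f 1| * L := le_mul_of_one_le_right (abs_nonneg _) hL1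
    have e3 : 0 ≤ Δ * (T + |charT f 1| * L) := mul_nonneg hΔ0 (by linarith)
    linarith
  have h9 : ((1 - ε) * Q - (8 * ((k : ℝ) + 1) ^ 2 / ε + 6 * ((k : ℝ) + 1) + (k + 2) ^ 2 +
      (k + 1) * C2)) * T =
      ((Q : ℝ) - (k + 1) * (4 * s - 2) - (k + 2) ^ 2) * T - (ε / 2 * Q + (k + 1) * C2) * T -
        Δ * T := by
    rw [hΔ]
    ring
  rw [h9]
  linarith

/-- at most `k + 1` members contain a non-constant curve -/
private theorem card_contain {k Q : ℕ} (a : Fin Q → Fin (k + 3) → ℂ)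
    (hgp : ∀ S : Finset (Fin Q), S.card ≤ k + 3 → LinearIndependent ℂ (fun i : S => a i))
    (f : ℂ → Fin (k + 3) → ℂ) (hf0 : ∀ z, f z ≠ 0) (hnc : ¬ ∀ z w, ∃ c : ℂ, f w = c • f z)
    (U : Finset (Fin Q)) (hU : ∀ i ∈ U, ∀ z, ∑ l, a i l * f z l = 0) : U.card ≤ k + 1 := by
  classical
  by_contra hcon
  push Not at hcon
  apply hnc
  obtain ⟨U', hU', hU'c⟩ := Finset.exists_subset_card_eq (s := U) (n := k + 2) hcon
  have hli := hgp U' (by omega)
  set W : Submodule ℂ (Fin (k + 3) → ℂ) :=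
    LinearMap.ker (Matrix.mulVecLin (Matrix.of fun i : U' => a i)) with hW
  have hWdim : Module.finrank ℂ W = 1 := by
    have h1 := LinearMap.finrank_range_add_finrank_ker
      (Matrix.mulVecLin (Matrix.of fun i : U' => a i))
    have h2 : Module.finrank ℂ (LinearMap.range (Matrix.mulVecLin
        (Matrix.of fun i : U' => a i))) = k + 2 := by
      have h3 : (Matrix.of fun i : U' => a i).rank = k + 2 := by
        have h4 : LinearIndependent ℂ (Matrix.of fun i : U' => a i).row := hli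
        rw [h4.rank_matrix, Fintype.card_coe, hU'c]
      exact h3
    rw [h2, Module.finrank_fin_fun] at h1
    show Module.finrank ℂ (LinearMap.ker (Matrix.mulVecLin (Matrix.of fun i : U' => a i))) = 1
    omega
  obtain ⟨t, ht0, ht⟩ := finrank_eq_one_iff'.mp hWdim
  have h1 : ∀ z, ∃ c : ℂ, f z = c • (t : Fin (k + 3) → ℂ) := by
    intro z
    have h2 : f z ∈ W := by
      rw [hW, LinearMap.mem_ker]
      funext i
      exact hU i (hU' i.2) z
    obtain ⟨c, hc⟩ := ht ⟨_, h2⟩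
    exact ⟨c, (congrArg Subtype.val hc).symm⟩
  intro z w
  obtain ⟨c, hc⟩ := h1 z
  obtain ⟨c', hc'⟩ := h1 w
  have hc0 : c ≠ 0 := by
    rintro rfl
    exact hf0 z (by rw [hc, zero_smul])
  refine ⟨c' / c, ?_⟩
  rw [hc', hc, smul_smul, div_mul_cancel₀ _ hc0]

/-- The same for all non-constant curves: the product over the members which do not contain the
curve. -/
theorem total_all_c (k : ℕ) {ε : ℝ} (hε : 0 < ε) : ∃ K0 : ℕ, 1 ≤ K0 ∧ ∀ ω0 N1 : ℕ, ∃ C : ℝ, 0 ≤ C ∧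
    ∀ (Q : ℕ) (a : Fin Q → Fin (k + 3) → ℂ), Gd k K0 ω0 N1 a →
    ∀ f : ℂ → Fin (k + 3) → ℂ, Differentiable ℂ f → (∀ z, f z ≠ 0) →
    (¬ ∀ z w, ∃ c : ℂ, f w = c • f z) →
    ∀ T : Finset (Fin Q), (∀ i, i ∈ T ↔ ∃ z, ∑ l, a i l * f z l ≠ 0) →
    ∃ (K : ℝ) (E : Set ℝ), MeasureTheory.volume E < ⊤ ∧ ∀ r, 1 ≤ r → r ∉ E →
      ((1 - ε) * Q - C) * charT f r ≤ Nbar (fun z => ∏ i ∈ T, ∑ l, a i l * f z l) r +
        K * (Real.posLog (charT f r) + Real.log r + 1) := by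
  classical
  obtain ⟨K0, hK0, hmain'⟩ := total_smt_c k hε
  refine ⟨K0, hK0, fun ω0 N1 => ?_⟩
  obtain ⟨C, hC, hmain⟩ := hmain' ω0 N1
  refine ⟨C + (k + 1), by positivity, ?_⟩
  intro Q a ha f hf hf0 hnc T hT
  -- the members which contain the curve
  have hgp : ∀ S : Finset (Fin Q), S.card ≤ k + 3 → LinearIndependent ℂ (fun i : S => a i) :=
    (ha Q (Function.Embedding.refl _)).1.1
  have hUc : (Finset.univ \ T).card ≤ k + 1 := by
    refine card_contain a hgp f hf0 hnc _ fun i hi z => ?_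
    by_contra hne
    exact (Finset.mem_sdiff.mp hi).2 ((hT i).2 ⟨z, hne⟩)
  have hcard : Q ≤ T.card + (k + 1) := by
    have h1 := Finset.card_sdiff_add_card_eq_card (Finset.subset_univ T)
    rw [Finset.card_univ, Fintype.card_fin] at h1
    omega
  have hcard' : T.card ≤ Q := by
    have h1 := Finset.card_le_univ T
    rwa [Fintype.card_fin] at h1
  -- the others, numbered
  let e : Fin T.card → Fin Q := fun i => (T.equivFin.symm i : Fin Q)
  have heinj : Function.Injective e := fun i j hij =>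
    T.equivFin.symm.injective (Subtype.ext hij)
  have he : ∀ i, e i ∈ T := fun i => (T.equivFin.symm i).2
  obtain ⟨K, E, hE, hK⟩ := hmain T.card (fun i => a (e i)) (ha T.card ⟨e, heinj⟩) f hf hf0 hnc
    (fun i => (hT (e i)).1 (he i))
  refine ⟨K + (1 + ε) * (k + 1) * |charT f 1|, E, hE, fun r hr hrE => ?_⟩
  have h1 := hK r hr hrE
  have hprod : (fun z => ∏ i, ∑ l, a (e i) l * f z l) =
      fun z => ∏ i ∈ T, ∑ l, a i l * f z l := by
    funext z
    rw [← Finset.prod_coe_sort T]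
    exact Fintype.prod_equiv T.equivFin.symm _ _ fun i => rfl
  rw [hprod] at h1
  have hmono := charT_mono hf hf0 one_pos hr
  have habs : -|charT f 1| ≤ charT f r := (neg_abs_le _).trans hmono
  have hQ1 : (Q : ℝ) ≤ T.card + (k + 1) := by exact_mod_cast hcard
  have hQ2 : (T.card : ℝ) ≤ Q := by exact_mod_cast hcard'
  set δ : ℝ := (k + 1) - (1 - ε) * (Q - T.card) with hδ
  have hδ0 : 0 ≤ δ := by
    rw [hδ]
    nlinarith
  have hδ1 : δ ≤ (1 + ε) * (k + 1) := by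
    have h3 : 0 ≤ (Q : ℝ) - T.card := by linarith
    have h4 : ε * ((Q : ℝ) - T.card) ≤ ε * (k + 1) :=
      mul_le_mul_of_nonneg_left (by linarith) hε.le
    rw [hδ]
    linarith
  have h2 : -((1 + ε) * (k + 1) * |charT f 1|) ≤ δ * charT f r := by
    have h3 : δ * (-|charT f 1|) ≤ δ * charT f r := mul_le_mul_of_nonneg_left habs hδ0
    have h4 : δ * |charT f 1| ≤ (1 + ε) * (k + 1) * |charT f 1| :=
      mul_le_mul_of_nonneg_right hδ1 (abs_nonneg _)
    linarith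
  have h5 : (1 : ℝ) ≤ Real.posLog (charT f r) + Real.log r + 1 := by
    have := Real.posLog_nonneg (x := charT f r)
    have := Real.log_nonneg hr
    linarith
  have h6 : (1 + ε) * (k + 1) * |charT f 1| ≤
      (1 + ε) * (k + 1) * |charT f 1| * (Real.posLog (charT f r) + Real.log r + 1) :=
    le_mul_of_one_le_right (by positivity) h5
  have h7 : ((1 - ε) * Q - (C + (k + 1))) * charT f r + δ * charT f r =
      ((1 - ε) * T.card - C) * charT f r := by
    rw [hδ]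
    ring
  rw [add_mul]
  linarith

end

section
open MvPolynomial
open Pool.Agent.GGL Pool.Agent.Stat Pool.Agent.LO Pool.Agent.LG Pool.Agent.SQ Pool.Agent.GH

/-- **The second main theorem with total truncation** for general hypersurfaces. -/
theorem tot_open {n d : ℕ} (hd : 1 ≤ d) (h3 : 3 ≤ (n + d).choose d) {ε : ℝ}
    (hε : 0 < ε) : ∃ C : ℝ, 0 ≤ C ∧ ∀ Q : ℕ, ∃ S : MvPolynomial (Fin Q × Mon n d) ℚ, S ≠ 0 ∧
    ∀ a : Fin Q → Mon n d → ℂ, aeval (fun p : Fin Q × Mon n d => a p.1 p.2) S ≠ 0 →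
      Tot d ε C (fun i => frm (a i)) := by
  obtain ⟨k, hk⟩ : ∃ k, (n + d).choose d = k + 3 := ⟨(n + d).choose d - 3, by omega⟩
  have hcard : Fintype.card (Mon n d) = k + 3 := by rw [card_Mon, hk]
  let E : Fin (k + 3) ≃ Mon n d := (Fintype.equivFinOfCardEq hcard).symm
  obtain ⟨K0, hK0, hmain'⟩ := total_all_c k hε
  obtain ⟨ω0, N1, hop⟩ := gd_open k hK0
  obtain ⟨C, hC, hmain⟩ := hmain' ω0 N1
  refine ⟨C, hC, fun Q => ?_⟩
  obtain ⟨S, hS, hSp⟩ := hop Q
  let mE : Fin Q × Fin (k + 3) → Fin Q × Mon n d := fun p => (p.1, E p.2)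
  have hmE : Function.Injective mE := by
    intro p q hpq
    simp only [mE, Prod.mk.injEq] at hpq
    exact Prod.ext hpq.1 (E.injective hpq.2)
  refine ⟨rename mE S, fun h => hS (rename_injective _ hmE (h.trans (map_zero _).symm)),
    fun a ha f hf hf0 hnc T hT => ?_⟩
  rw [aeval_rename] at ha
  have ha' : Gd k K0 ω0 N1 (fun i c => a i (E c)) := hSp _ ha
  have hT' : ∀ i, i ∈ T ↔ ∃ z, ∑ l, a i (E l) * ver E f z l ≠ 0 := by
    intro i
    rw [hT i]
    simp only [eval_ver E (a i) f]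
  obtain ⟨K, E1, hE1, h1⟩ := hmain Q (fun i c => a i (E c)) ha' (ver E f) (ver_diff E hf)
    (ver_ne E hf0) (ver_nonconst hd E hf0 hnc) T hT'
  refine ⟨|K| * (Real.posLog d + 1), E1, hE1, fun r hr hrE => ?_⟩
  have h2 := h1 r hr hrE
  have h4 : (fun z => ∏ i ∈ T, ∑ l, a i (E l) * ver E f z l) =
      fun z => ∏ i ∈ T, eval (f z) (frm (a i)) := by
    funext z
    exact Finset.prod_congr rfl fun i _ => eval_ver E (a i) f z
  rw [h4, charT_ver] at h2
  have h5 : Real.posLog (d * charT f r) ≤ Real.posLog d + Real.posLog (charT f r) :=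
    Real.posLog_mul
  have h6 : (0 : ℝ) ≤ Real.posLog d := Real.posLog_nonneg
  have h7 : (0 : ℝ) ≤ Real.posLog (charT f r) := Real.posLog_nonneg
  have h8 : (0 : ℝ) ≤ Real.log r := Real.log_nonneg hr
  have h9 : (0 : ℝ) ≤ Real.posLog (d * charT f r) := Real.posLog_nonneg
  have h10 : Real.posLog (d * charT f r) + Real.log r + 1 ≤
      (Real.posLog d + 1) * (Real.posLog (charT f r) + Real.log r + 1) := by
    nlinarith [mul_nonneg h6 h7, mul_nonneg h6 h8]
  have h11 : K * (Real.posLog (d * charT f r) + Real.log r + 1) ≤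
      |K| * (Real.posLog (d * charT f r) + Real.log r + 1) :=
    mul_le_mul_of_nonneg_right (le_abs_self K) (by linarith)
  have h12 : |K| * (Real.posLog (d * charT f r) + Real.log r + 1) ≤
      |K| * ((Real.posLog d + 1) * (Real.posLog (charT f r) + Real.log r + 1)) :=
    mul_le_mul_of_nonneg_left h10 (abs_nonneg K)
  have h13 : |K| * (Real.posLog d + 1) * (Real.posLog (charT f r) + Real.log r + 1) =
      |K| * ((Real.posLog d + 1) * (Real.posLog (charT f r) + Real.log r + 1)) := by ring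
  rw [h13]
  linarith

end

end Pool.Agent.TT
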